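import Mathlib

set_option autoImplicit false

/-!
# Average heights in finite posets (MP_693840_co)
-/

namespace Pool.Agent.R128.AvgHeight

/-- The linear extensions of a finite poset `P` with `n` elements: the order-preserving
bijections from `P` to the positions `0, …, n - 1`. -/
def LinExt (P : Type) [Fintype P] [PartialOrder P] : Type :=
  {f : P ≃ Fin (Fintype.card P) // ∀ u v, u < v → f u < f v}

noncomputable instance (P : Type) [Fintype P] [PartialOrder P] : Fintype (LinExt P) := by
  classical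
  unfold LinExt
  infer_instance

/-- The average height of `y` in `P`: the mean of the position of `y` (positions counted from `1`)
over all linear extensions of `P`. -/
noncomputable def avgHeight (P : Type) [Fintype P] [PartialOrder P] (y : P) : ℚ :=
  (∑ f : LinExt P, (((f.1 y : ℕ) : ℚ) + 1)) / Fintype.card (LinExt P)

section general

variable {P : Type} [Fintype P] [DecidableEq P] [PartialOrder P]

open Classical in
/-- Linear extensions of a subset `I`, as functions on the whole poset with values `1, …, |I|` on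
`I` and `0` outside. -/
noncomputable def LE (I : Finset P) : Finset (P → ℕ) :=
  (Fintype.piFinset fun _ : P => Finset.range (Fintype.card P + 1)).filter fun f =>
    (∀ x, x ∉ I → f x = 0) ∧ (∀ x ∈ I, 1 ≤ f x ∧ f x ≤ I.card) ∧
    (∀ x ∈ I, ∀ y ∈ I, f x = f y → x = y) ∧ ∀ u ∈ I, ∀ v ∈ I, u < v → f u < f v

theorem mem_LE {I : Finset P} {f : P → ℕ} : f ∈ LE I ↔
    (∀ x, x ∉ I → f x = 0) ∧ (∀ x ∈ I, 1 ≤ f x ∧ f x ≤ I.card) ∧
    (∀ x ∈ I, ∀ y ∈ I, f x = f y → x = y) ∧ ∀ u ∈ I, ∀ v ∈ I, u < v → f u < f v := by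
  classical
  unfold LE
  rw [Finset.mem_filter, and_iff_right_iff_imp]
  rintro ⟨h1, h2, -, -⟩
  rw [Fintype.mem_piFinset]
  intro x
  rw [Finset.mem_range]
  by_cases hx : x ∈ I
  · have := (h2 x hx).2
    have := Finset.card_le_univ I
    omega
  · rw [h1 x hx]
    omega

theorem LE_empty : LE (∅ : Finset P) = {fun _ => 0} := by
  ext f
  rw [mem_LE, Finset.mem_singleton]
  constructor
  · rintro ⟨h, -⟩
    funext x
    exact h x (Finset.notMem_empty x)
  · rintro rfl
    simp

/-- The maximal elements of `I`. -/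
def IsMx (I : Finset P) (x : P) : Prop := x ∈ I ∧ ∀ y ∈ I, ¬ x < y

theorem exists_top {I : Finset P} (hI : I.Nonempty) {f : P → ℕ} (hf : f ∈ LE I) :
    ∃ x ∈ I, f x = I.card := by
  rw [mem_LE] at hf
  obtain ⟨-, h2, h3, -⟩ := hf
  have h4 : I.image f = Finset.Icc 1 I.card := by
    apply Finset.eq_of_subset_of_card_le
    · intro n hn
      obtain ⟨x, hx, rfl⟩ := Finset.mem_image.1 hn
      exact Finset.mem_Icc.2 (h2 x hx)
    · rw [Finset.card_image_of_injOn (fun x hx y hy h => h3 x hx y hy h)]
      simp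
  have h5 : I.card ∈ I.image f := by
    rw [h4, Finset.mem_Icc]
    exact ⟨Finset.card_pos.2 hI, le_refl _⟩
  obtain ⟨x, hx, h⟩ := Finset.mem_image.1 h5
  exact ⟨x, hx, h⟩

open Classical in
theorem sum_LE {I : Finset P} (hI : I.Nonempty) {M : Type} [AddCommMonoid M] (G : (P → ℕ) → M) :
    ∑ f ∈ LE I, G f = ∑ x ∈ I.filter (IsMx I), ∑ f ∈ LE (I.erase x),
      G (Function.update f x I.card) := by
  have hpos : 0 < I.card := Finset.card_pos.2 hI
  rw [Finset.sum_sigma']
  symm
  refine Finset.sum_bij (fun (a : Σ _ : P, P → ℕ) _ => Function.update a.2 a.1 I.card) ?_ ?_ ?_ ?_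
  · rintro ⟨x, f⟩ h
    rw [Finset.mem_sigma, Finset.mem_filter] at h
    obtain ⟨⟨hx, -, hmx⟩, hf⟩ := h
    dsimp only at hx hmx hf ⊢
    rw [mem_LE, Finset.card_erase_of_mem hx] at hf
    obtain ⟨h1, h2, h3, h4⟩ := hf
    have h2' : ∀ y ∈ I, y ≠ x → 1 ≤ f y ∧ f y < I.card := by
      intro y hy hyx
      have := h2 y (Finset.mem_erase.2 ⟨hyx, hy⟩)
      omega
    rw [mem_LE]
    refine ⟨?_, ?_, ?_, ?_⟩
    · intro y hy
      have hyx : y ≠ x := fun h => hy (h ▸ hx)
      rw [Function.update_of_ne hyx]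
      exact h1 y fun h => hy (Finset.mem_of_mem_erase h)
    · intro y hy
      by_cases hyx : y = x
      · rw [hyx, Function.update_self]
        omega
      · rw [Function.update_of_ne hyx]
        have := h2' y hy hyx
        omega
    · intro y hy z hz h
      by_cases hyx : y = x
      · by_cases hzx : z = x
        · rw [hyx, hzx]
        · rw [hyx, Function.update_self, Function.update_of_ne hzx] at h
          have := h2' z hz hzx
          omega
      · by_cases hzx : z = x
        · rw [hzx, Function.update_self, Function.update_of_ne hyx] at h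
          have := h2' y hy hyx
          omega
        · rw [Function.update_of_ne hyx, Function.update_of_ne hzx] at h
          exact h3 y (Finset.mem_erase.2 ⟨hyx, hy⟩) z (Finset.mem_erase.2 ⟨hzx, hz⟩) h
    · intro u hu v hv huv
      by_cases hux : u = x
      · exact absurd huv (hux ▸ hmx v hv)
      · rw [Function.update_of_ne hux]
        by_cases hvx : v = x
        · rw [hvx, Function.update_self]
          exact (h2' u hu hux).2
        · rw [Function.update_of_ne hvx]
          exact h4 u (Finset.mem_erase.2 ⟨hux, hu⟩) v (Finset.mem_erase.2 ⟨hvx, hv⟩) huv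
  · rintro ⟨x, f⟩ h ⟨x', f'⟩ h' heq
    rw [Finset.mem_sigma, Finset.mem_filter] at h h'
    obtain ⟨⟨hx, -⟩, hf⟩ := h
    obtain ⟨⟨hx', -⟩, hf'⟩ := h'
    dsimp only at hx hf hx' hf' heq
    rw [mem_LE, Finset.card_erase_of_mem hx] at hf
    rw [mem_LE, Finset.card_erase_of_mem hx'] at hf'
    have hxx : x = x' := by
      by_contra hne
      have h1 := congrFun heq x
      rw [Function.update_self, Function.update_of_ne hne] at h1
      have h2 := hf'.2.1 x (Finset.mem_erase.2 ⟨hne, hx⟩)
      omega
    subst hxx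
    have hff : f = f' := by
      funext y
      by_cases hyx : y = x
      · rw [hyx, hf.1 x (Finset.notMem_erase x I), hf'.1 x (Finset.notMem_erase x I)]
      · have h1 := congrFun heq y
        rwa [Function.update_of_ne hyx, Function.update_of_ne hyx] at h1
    rw [hff]
  · intro f hf
    obtain ⟨x, hx, hfx⟩ := exists_top hI hf
    have hf' := hf
    rw [mem_LE] at hf'
    obtain ⟨h1, h2, h3, h4⟩ := hf'
    refine ⟨⟨x, Function.update f x 0⟩, ?_, ?_⟩
    · rw [Finset.mem_sigma, Finset.mem_filter]
      refine ⟨⟨hx, hx, ?_⟩, ?_⟩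
      · intro y hy hxy
        have h5 := h4 x hx y hy hxy
        have h6 := (h2 y hy).2
        omega
      · dsimp only
        rw [mem_LE, Finset.card_erase_of_mem hx]
        refine ⟨?_, ?_, ?_, ?_⟩
        · intro y hy
          by_cases hyx : y = x
          · rw [hyx, Function.update_self]
          · rw [Function.update_of_ne hyx]
            exact h1 y fun h => hy (Finset.mem_erase.2 ⟨hyx, h⟩)
        · intro y hy
          obtain ⟨hyx, hy⟩ := Finset.mem_erase.1 hy
          rw [Function.update_of_ne hyx]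
          have h5 := h2 y hy
          have h6 : f y ≠ I.card := fun h => hyx (h3 y hy x hx (h.trans hfx.symm))
          omega
        · intro y hy z hz h
          obtain ⟨hyx, hy⟩ := Finset.mem_erase.1 hy
          obtain ⟨hzx, hz⟩ := Finset.mem_erase.1 hz
          rw [Function.update_of_ne hyx, Function.update_of_ne hzx] at h
          exact h3 y hy z hz h
        · intro u hu v hv huv
          obtain ⟨hux, hu⟩ := Finset.mem_erase.1 hu
          obtain ⟨hvx, hv⟩ := Finset.mem_erase.1 hv
          rw [Function.update_of_ne hux, Function.update_of_ne hvx]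
          exact h4 u hu v hv huv
    · dsimp only
      rw [Function.update_idem, ← hfx, Function.update_eq_self]
  · intro a _
    rfl

/-- The number of linear extensions of `I`. -/
noncomputable def e (I : Finset P) : ℕ := (LE I).card

/-- The sum over the linear extensions of `I` of the sum of the positions of the elements of
`I` in `S`. -/
noncomputable def T (S : P → Bool) (I : Finset P) : ℕ :=
  ∑ f ∈ LE I, ∑ y ∈ I.filter (fun y => S y = true), f y

theorem T_eq_zero' (S : P → Bool) (I : Finset P) (h : e I = 0) : T S I = 0 := by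
  unfold T
  unfold e at h
  rw [Finset.card_eq_zero.1 h, Finset.sum_empty]

open Classical in
theorem e_rec {I : Finset P} (hI : I.Nonempty) :
    e I = ∑ x ∈ I.filter (IsMx I), e (I.erase x) := by
  have h := sum_LE hI (fun _ => (1 : ℕ))
  simp only [Finset.sum_const, smul_eq_mul, mul_one] at h
  exact h

open Classical in
theorem T_rec (S : P → Bool) {I : Finset P} (hI : I.Nonempty) :
    T S I = ∑ x ∈ I.filter (IsMx I), (T S (I.erase x) +
      (if S x = true then I.card * e (I.erase x) else 0)) := by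
  unfold T
  rw [sum_LE hI]
  apply Finset.sum_congr rfl
  intro x hx
  have hxI : x ∈ I := (Finset.mem_filter.1 hx).1
  have h1 : ∀ f : P → ℕ, ∑ y ∈ I.filter (fun y => S y = true), Function.update f x I.card y =
      ∑ y ∈ (I.erase x).filter (fun y => S y = true), f y + (if S x = true then I.card else 0) := by
    intro f
    have h2 : ∀ J : Finset P, x ∉ J → ∑ y ∈ J.filter (fun y => S y = true),
        Function.update f x I.card y = ∑ y ∈ J.filter (fun y => S y = true), f y := by
      intro J hJ
      apply Finset.sum_congr rfl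
      intro y hy
      have hyx : y ≠ x := fun h => hJ (h ▸ (Finset.mem_filter.1 hy).1)
      rw [Function.update_of_ne hyx]
    have h3 : I = insert x (I.erase x) := (Finset.insert_erase hxI).symm
    have h4 : ∑ y ∈ I.filter (fun y => S y = true), Function.update f x I.card y =
        ∑ y ∈ (insert x (I.erase x)).filter (fun y => S y = true), Function.update f x I.card y := by
      rw [← h3]
    rw [h4, Finset.filter_insert]
    by_cases hS : S x = true
    · rw [if_pos hS, if_pos hS, Finset.sum_insert, h2 _ (Finset.notMem_erase x I),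
        Function.update_self, add_comm]
      intro h
      exact Finset.notMem_erase x I (Finset.mem_filter.1 h).1
    · rw [if_neg hS, if_neg hS, h2 _ (Finset.notMem_erase x I), add_zero]
  simp only [h1]
  rw [Finset.sum_add_distrib]
  congr 1
  by_cases hS : S x = true
  · simp only [if_pos hS, Finset.sum_const, smul_eq_mul, e]
    ring
  · simp only [if_neg hS, Finset.sum_const_zero]

end general

/-! ### The link with the linear extensions -/

section link

variable {P Q : Type} [Fintype P] [DecidableEq P] [PartialOrder P] [Fintype Q] [PartialOrder Q]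

/-- The image of a linear extension of `Q` under an embedding of `Q` in `P`. -/
noncomputable def push (ι : Q → P) (f : LinExt Q) : P → ℕ :=
  Function.extend ι (fun q => (f.1 q : ℕ) + 1) fun _ => 0

omit [Fintype P] [DecidableEq P] [PartialOrder P] in
theorem push_apply {ι : Q → P} (hι : Function.Injective ι) (f : LinExt Q) (q : Q) :
    push ι f (ι q) = (f.1 q : ℕ) + 1 := hι.extend_apply _ _ _

omit [Fintype P] [DecidableEq P] [PartialOrder P] in
theorem push_apply' {ι : Q → P} (f : LinExt Q) {x : P} (hx : ∀ q, ι q ≠ x) :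
    push ι f x = 0 := Function.extend_apply' _ _ _ (by rintro ⟨q, hq⟩; exact hx q hq)

theorem sum_linExt (ι : Q → P) (hι : Function.Injective ι) (hlt : ∀ a b, ι a < ι b ↔ a < b)
    {I : Finset P} (hI : ∀ x, x ∈ I ↔ ∃ q, ι q = x) {M : Type} [AddCommMonoid M]
    (G : (P → ℕ) → M) : ∑ f : LinExt Q, G (push ι f) = ∑ f ∈ LE I, G f := by
  classical
  have hcard : I.card = Fintype.card Q := by
    have h1 : I = Finset.univ.image ι := by
      ext x
      rw [hI, Finset.mem_image]
      simp
    rw [h1, Finset.card_image_of_injective _ hι, Finset.card_univ]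
  refine Finset.sum_bij (fun f _ => push ι f) ?_ ?_ ?_ ?_
  · intro f _
    rw [mem_LE, hcard]
    refine ⟨?_, ?_, ?_, ?_⟩
    · intro x hx
      exact push_apply' f fun q hq => hx ((hI x).2 ⟨q, hq⟩)
    · intro x hx
      obtain ⟨q, rfl⟩ := (hI x).1 hx
      rw [push_apply hι]
      have := (f.1 q).2
      omega
    · intro x hx y hy h
      obtain ⟨q, rfl⟩ := (hI x).1 hx
      obtain ⟨r, rfl⟩ := (hI y).1 hy
      rw [push_apply hι, push_apply hι] at h
      have h2 : f.1 q = f.1 r := Fin.ext (by omega)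
      rw [f.1.injective h2]
    · intro x hx y hy h
      obtain ⟨q, rfl⟩ := (hI x).1 hx
      obtain ⟨r, rfl⟩ := (hI y).1 hy
      rw [push_apply hι, push_apply hι]
      have h2 : f.1 q < f.1 r := f.2 _ _ ((hlt _ _).1 h)
      have h3 : (f.1 q : ℕ) < (f.1 r : ℕ) := h2
      omega
  · intro f _ g _ h
    apply Subtype.ext
    ext q
    have h2 := congrFun h (ι q)
    rw [push_apply hι, push_apply hι] at h2
    omega
  · intro g hg
    rw [mem_LE, hcard] at hg
    obtain ⟨h1, h2, h3, h4⟩ := hg
    have h2' : ∀ q, 1 ≤ g (ι q) ∧ g (ι q) ≤ Fintype.card Q := fun q => h2 _ ((hI _).2 ⟨q, rfl⟩)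
    let F : Q → Fin (Fintype.card Q) := fun q => ⟨g (ι q) - 1, by have := h2' q; omega⟩
    have hF : Function.Injective F := by
      intro q r h
      have h5 : g (ι q) - 1 = g (ι r) - 1 := congrArg Fin.val h
      have h6 := h2' q
      have h7 := h2' r
      exact hι (h3 _ ((hI _).2 ⟨q, rfl⟩) _ ((hI _).2 ⟨r, rfl⟩) (by omega))
    have hF2 : Function.Bijective F := (Fintype.bijective_iff_injective_and_card F).2 ⟨hF, by simp⟩
    have hmono : ∀ u v, u < v → Equiv.ofBijective F hF2 u < Equiv.ofBijective F hF2 v := by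
      intro u v huv
      have h5 := h4 _ ((hI _).2 ⟨u, rfl⟩) _ ((hI _).2 ⟨v, rfl⟩) ((hlt u v).2 huv)
      have h6 := h2' u
      have h7 := h2' v
      simp only [Equiv.ofBijective_apply, F, Fin.mk_lt_mk]
      omega
    let L : LinExt Q := ⟨Equiv.ofBijective F hF2, hmono⟩
    refine ⟨L, Finset.mem_univ _, ?_⟩
    funext x
    by_cases hx : x ∈ I
    · obtain ⟨q, rfl⟩ := (hI x).1 hx
      refine (push_apply hι L q).trans ?_
      show (g (ι q) - 1) + 1 = g (ι q)
      have := h2' q
      omega
    · exact (push_apply' L fun q hq => hx ((hI x).2 ⟨q, hq⟩)).trans (h1 x hx).symm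
  · intro f _
    rfl

theorem card_linExt (ι : Q → P) (hι : Function.Injective ι) (hlt : ∀ a b, ι a < ι b ↔ a < b)
    {I : Finset P} (hI : ∀ x, x ∈ I ↔ ∃ q, ι q = x) : Fintype.card (LinExt Q) = e I := by
  have h := sum_linExt ι hι hlt hI (fun _ => (1 : ℕ))
  simpa [e] using h

theorem sum_avgHeight (ι : Q → P) (hι : Function.Injective ι) (hlt : ∀ a b, ι a < ι b ↔ a < b)
    {I : Finset P} (hI : ∀ x, x ∈ I ↔ ∃ q, ι q = x) (S : P → Bool) :
    ∑ q ∈ Finset.univ.filter (fun q : Q => S (ι q) = true), avgHeight Q q =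
      (T S I : ℚ) / (e I : ℚ) := by
  classical
  unfold avgHeight T
  rw [← Finset.sum_div, Finset.sum_comm, card_linExt ι hι hlt hI]
  congr 1
  rw [Nat.cast_sum, ← sum_linExt ι hι hlt hI (fun f => ((∑ y ∈ I.filter (fun y => S y = true), f y : ℕ) : ℚ))]
  apply Finset.sum_congr rfl
  intro f _
  rw [Nat.cast_sum]
  have h1 : I.filter (fun y => S y = true) =
      (Finset.univ.filter (fun q : Q => S (ι q) = true)).image ι := by
    ext x
    simp only [Finset.mem_filter, Finset.mem_image, Finset.mem_univ, true_and, hI]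
    constructor
    · rintro ⟨⟨q, rfl⟩, h⟩
      exact ⟨q, h, rfl⟩
    · rintro ⟨q, h, rfl⟩
      exact ⟨⟨q, rfl⟩, h⟩
  rw [h1, Finset.sum_image (fun a _ b _ h => hι h)]
  apply Finset.sum_congr rfl
  intro q _
  rw [push_apply hι]
  push_cast
  rfl

end link

/-! ### The counterexample -/

section example_

/-- The elements: `x₁, …, x₃₃` are `0, …, 32`, `y₁, …, y₆₇` are `33, …, 99`, `z` is `100`. -/
structure Pt where
  val : Fin 101
  deriving DecidableEq, Fintype

/-- The strict order: `x₁ < ⋯ < x₃₃`, `y₁ < ⋯ < y₆₇`, `x₇ < z < y₁₈` and the consequences. -/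
def lt' (u v : ℕ) : Prop :=
  (u < v ∧ v < 33) ∨ (33 ≤ u ∧ u < v ∧ v < 100) ∨ (u < 7 ∧ 50 ≤ v) ∨ (u = 100 ∧ 50 ≤ v ∧ v < 100)

instance : PartialOrder Pt where
  le u v := u = v ∨ lt' u.val v.val
  le_refl u := Or.inl rfl
  le_trans u v w := by
    rintro (rfl | h1) (rfl | h2)
    · exact Or.inl rfl
    · exact Or.inr h2
    · exact Or.inr h1
    · refine Or.inr ?_
      unfold lt' at *
      have := u.val.2
      have := v.val.2
      have := w.val.2
      omega
  le_antisymm u v := by
    rintro (rfl | h1) (h | h2)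
    · rfl
    · rfl
    · exact h.symm
    · exfalso
      unfold lt' at *
      have := u.val.2
      have := v.val.2
      omega

theorem pt_lt {u v : Pt} : u < v ↔ lt' u.val v.val := by
  constructor
  · intro h
    rcases h.le with h1 | h1
    · exact absurd h1 h.ne
    · exact h1
  · intro h
    refine lt_of_le_of_ne (Or.inr h) ?_
    rintro rfl
    unfold lt' at h
    have := u.val.2
    omega

theorem pt_ext {u v : Pt} (h : (u.val : ℕ) = v.val) : u = v := by
  obtain ⟨u⟩ := u
  obtain ⟨v⟩ := v
  congr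
  exact Fin.ext h

/-- The element `z`. -/
def z : Pt := ⟨⟨100, by omega⟩⟩

/-- The set `{x₁, …, x_a, y₁, …, y_b}`, with `z` added if `c = 1`. -/
def I (a b c : ℕ) : Finset Pt := Finset.univ.filter fun u =>
  (u.val : ℕ) < a ∨ (33 ≤ (u.val : ℕ) ∧ (u.val : ℕ) < 33 + b) ∨ (c = 1 ∧ (u.val : ℕ) = 100)

theorem mem_I {a b c : ℕ} {u : Pt} : u ∈ I a b c ↔
    (u.val : ℕ) < a ∨ (33 ≤ (u.val : ℕ) ∧ (u.val : ℕ) < 33 + b) ∨ (c = 1 ∧ (u.val : ℕ) = 100) := by
  simp [I]

/-- The element with a given number. -/
def pt (n : ℕ) : Pt := ⟨⟨n % 101, Nat.mod_lt _ (by norm_num)⟩⟩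

theorem pt_val {n : ℕ} (h : n < 101) : ((pt n).val : ℕ) = n := Nat.mod_eq_of_lt h

theorem erase_x {a b c : ℕ} (ha : a + 1 ≤ 33) : (I (a + 1) b c).erase (pt a) = I a b c := by
  ext u
  rw [Finset.mem_erase, mem_I, mem_I]
  have h1 := pt_val (show a < 101 by omega)
  constructor
  · rintro ⟨h2, h3⟩
    have h4 : (u.val : ℕ) ≠ a := fun h => h2 (pt_ext (h.trans h1.symm))
    omega
  · intro h
    refine ⟨?_, by omega⟩
    rintro rfl
    omega

theorem erase_y {a b c : ℕ} (ha : a ≤ 33) (hb : b + 1 ≤ 67) :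
    (I a (b + 1) c).erase (pt (33 + b)) = I a b c := by
  ext u
  rw [Finset.mem_erase, mem_I, mem_I]
  have h1 := pt_val (show 33 + b < 101 by omega)
  constructor
  · rintro ⟨h2, h3⟩
    have h4 : (u.val : ℕ) ≠ 33 + b := fun h => h2 (pt_ext (h.trans h1.symm))
    omega
  · intro h
    refine ⟨?_, by omega⟩
    rintro rfl
    omega

theorem erase_z {a b : ℕ} (ha : a ≤ 33) (hb : b ≤ 67) : (I a b 1).erase z = I a b 0 := by
  ext u
  rw [Finset.mem_erase, mem_I, mem_I]
  have h1 : (z.val : ℕ) = 100 := rfl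
  constructor
  · rintro ⟨h2, h3⟩
    have h4 : (u.val : ℕ) ≠ 100 := fun h => h2 (pt_ext (h.trans h1.symm))
    omega
  · intro h
    refine ⟨?_, by omega⟩
    rintro rfl
    omega

theorem I_empty : I 0 0 0 = ∅ := by
  ext u
  rw [mem_I]
  simp

theorem card_I0 {a b : ℕ} (ha : a ≤ 33) (hb : b ≤ 67) : (I a b 0).card = a + b := by
  induction a with
  | zero =>
    induction b with
    | zero => rw [I_empty]; rfl
    | succ b ih =>
      have h1 := ih (by omega)
      rw [← erase_y (by omega) hb, Finset.card_erase_of_mem] at h1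
      · have h2 : 0 < (I 0 (b + 1) 0).card := by
          apply Finset.card_pos.2
          refine ⟨pt (33 + b), ?_⟩
          rw [mem_I, pt_val (by omega)]
          omega
        omega
      · rw [mem_I, pt_val (by omega)]
        omega
  | succ a ih =>
    have h1 := ih (by omega)
    rw [← erase_x ha, Finset.card_erase_of_mem] at h1
    · have h2 : 0 < (I (a + 1) b 0).card := by
        apply Finset.card_pos.2
        refine ⟨pt a, ?_⟩
        rw [mem_I, pt_val (by omega)]
        omega
      omega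
    · rw [mem_I, pt_val (by omega)]
      omega

theorem card_I1 {a b : ℕ} (ha : a ≤ 33) (hb : b ≤ 67) : (I a b 1).card = a + b + 1 := by
  have h1 := card_I0 ha hb
  have hz : z ∈ I a b 1 := by
    rw [mem_I]
    right
    right
    exact ⟨rfl, rfl⟩
  rw [← erase_z ha hb, Finset.card_erase_of_mem hz] at h1
  have h2 : 0 < (I a b 1).card := Finset.card_pos.2 ⟨z, hz⟩
  omega

theorem sum_max {a b c : ℕ} (ha : a ≤ 33) (hb : b ≤ 67) (hc : c ≤ 1) (g : Pt → ℕ) :
    (letI := Classical.decPred (IsMx (I a b c)); ∑ x ∈ (I a b c).filter (IsMx (I a b c)), g x) =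
      (if 1 ≤ a ∧ ¬ (a ≤ 7 ∧ (c = 1 ∨ 18 ≤ b)) then g (pt (a - 1)) else 0) +
      (if 1 ≤ b then g (pt (33 + b - 1)) else 0) + (if c = 1 ∧ b ≤ 17 then g z else 0) := by
  classical
  have hz : (z.val : ℕ) = 100 := rfl
  have h1 : (I a b c).filter (IsMx (I a b c)) =
      ((if 1 ≤ a ∧ ¬ (a ≤ 7 ∧ (c = 1 ∨ 18 ≤ b)) then {pt (a - 1)} else ∅) ∪
      (if 1 ≤ b then {pt (33 + b - 1)} else ∅)) ∪ (if c = 1 ∧ b ≤ 17 then {z} else ∅) := by
    ext u
    rw [Finset.mem_filter]
    have hu := u.val.2
    constructor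
    · rintro ⟨h2, -, h3⟩
      have h4 : ∀ n : ℕ, n < 101 → (n < a ∨ (33 ≤ n ∧ n < 33 + b) ∨ (c = 1 ∧ n = 100)) →
          ¬ lt' u.val n := by
        intro n hn hn2 hlt
        apply h3 (pt n)
        · rw [mem_I, pt_val hn]
          exact hn2
        · rw [pt_lt, pt_val hn]
          exact hlt
      rw [mem_I] at h2
      rw [Finset.mem_union, Finset.mem_union]
      rcases h2 with h2 | h2 | h2
      · left
        left
        have h5 : (u.val : ℕ) = a - 1 := by
          by_contra hcon
          apply h4 (a - 1) (by omega) (by omega)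
          unfold lt'
          omega
        rw [if_pos, Finset.mem_singleton]
        · apply pt_ext
          rw [pt_val (by omega)]
          exact h5
        · refine ⟨by omega, ?_⟩
          rintro ⟨h6, h7 | h7⟩
          · apply h4 100 (by omega) (by omega)
            unfold lt'
            omega
          · apply h4 50 (by omega) (by omega)
            unfold lt'
            omega
      · left
        right
        have h5 : (u.val : ℕ) = 33 + b - 1 := by
          by_contra hcon
          apply h4 (33 + b - 1) (by omega) (by omega)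
          unfold lt'
          omega
        rw [if_pos (by omega), Finset.mem_singleton]
        apply pt_ext
        rw [pt_val (by omega)]
        exact h5
      · right
        rw [if_pos, Finset.mem_singleton]
        · apply pt_ext
          rw [hz]
          exact h2.2
        · refine ⟨h2.1, ?_⟩
          by_contra hcon
          apply h4 50 (by omega) (by omega)
          unfold lt'
          omega
    · intro h
      rw [Finset.mem_union, Finset.mem_union] at h
      rcases h with (h | h) | h
      · split_ifs at h with h5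
        · rw [Finset.mem_singleton] at h
          have h6 : (u.val : ℕ) = a - 1 := by
            rw [h, pt_val (by omega)]
          have h7 : u ∈ I a b c := by
            rw [mem_I]
            omega
          refine ⟨h7, h7, ?_⟩
          intro y hy hlt
          rw [mem_I] at hy
          rw [pt_lt] at hlt
          unfold lt' at hlt
          have := y.val.2
          omega
        · simp at h
      · split_ifs at h with h5
        · rw [Finset.mem_singleton] at h
          have h6 : (u.val : ℕ) = 33 + b - 1 := by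
            rw [h, pt_val (by omega)]
          have h7 : u ∈ I a b c := by
            rw [mem_I]
            omega
          refine ⟨h7, h7, ?_⟩
          intro y hy hlt
          rw [mem_I] at hy
          rw [pt_lt] at hlt
          unfold lt' at hlt
          have := y.val.2
          omega
        · simp at h
      · split_ifs at h with h5
        · rw [Finset.mem_singleton] at h
          have h6 : (u.val : ℕ) = 100 := by
            rw [h, hz]
          have h7 : u ∈ I a b c := by
            rw [mem_I]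
            omega
          refine ⟨h7, h7, ?_⟩
          intro y hy hlt
          rw [mem_I] at hy
          rw [pt_lt] at hlt
          unfold lt' at hlt
          have := y.val.2
          omega
        · simp at h
  rw [show (letI := Classical.decPred (IsMx (I a b c)); ∑ x ∈ (I a b c).filter (IsMx (I a b c)), g x)
    = ∑ x ∈ (I a b c).filter (IsMx (I a b c)), g x from by congr!, h1]
  rw [Finset.sum_union, Finset.sum_union]
  · congr 1
    · congr 1
      · split_ifs <;> simp
      · split_ifs <;> simp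
    · split_ifs <;> simp
  · rw [Finset.disjoint_left]
    intro u h2 h3
    split_ifs at h2 h3
    · rw [Finset.mem_singleton] at h2 h3
      have h4 : (u.val : ℕ) = a - 1 := by rw [h2, pt_val (by omega)]
      have h5 : (u.val : ℕ) = 33 + b - 1 := by rw [h3, pt_val (by omega)]
      omega
    all_goals simp at h2 h3
  · rw [Finset.disjoint_left]
    intro u h2 h3
    split_ifs at h3
    · rw [Finset.mem_singleton] at h3
      have h5 : (u.val : ℕ) = 100 := by rw [h3, hz]
      rw [Finset.mem_union] at h2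
      rcases h2 with h2 | h2
      · split_ifs at h2
        · rw [Finset.mem_singleton] at h2
          have h4 : (u.val : ℕ) = a - 1 := by rw [h2, pt_val (by omega)]
          omega
        · simp at h2
      · split_ifs at h2
        · rw [Finset.mem_singleton] at h2
          have h4 : (u.val : ℕ) = 33 + b - 1 := by rw [h2, pt_val (by omega)]
          omega
        · simp at h2
    · simp at h3

/-- The elements `x₂₅, …, x₃₃, y₁, …, y₆₇`. -/
def S (u : Pt) : Bool := decide (24 ≤ (u.val : ℕ) ∧ (u.val : ℕ) ≠ 100)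

theorem S_x {a : ℕ} (ha : a < 33) : S (pt a) = decide (24 ≤ a) := by
  unfold S
  rw [pt_val (by omega)]
  congr 1
  rw [eq_iff_iff]
  omega

theorem S_y {b : ℕ} (hb : b < 67) : S (pt (33 + b)) = true := by
  unfold S
  rw [pt_val (by omega), decide_eq_true_iff]
  omega

theorem S_z : S z = false := rfl

theorem I_nonempty {a b c : ℕ} (ha : a ≤ 33) (hb : b ≤ 67) (h : 1 ≤ a ∨ 1 ≤ b ∨ c = 1) :
    (I a b c).Nonempty := by
  rcases h with h | h | h
  · refine ⟨pt 0, ?_⟩
    rw [mem_I, pt_val (by omega)]
    omega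
  · refine ⟨pt 33, ?_⟩
    rw [mem_I, pt_val (by omega)]
    omega
  · refine ⟨z, ?_⟩
    rw [mem_I]
    right
    right
    exact ⟨h, rfl⟩

theorem e_I {a b c : ℕ} (ha : a ≤ 33) (hb : b ≤ 67) (hc : c ≤ 1) (h : 1 ≤ a ∨ 1 ≤ b ∨ c = 1) :
    e (I a b c) =
      (if 1 ≤ a ∧ ¬ (a ≤ 7 ∧ (c = 1 ∨ 18 ≤ b)) then e ((I a b c).erase (pt (a - 1))) else 0) +
      (if 1 ≤ b then e ((I a b c).erase (pt (33 + b - 1))) else 0) +
      (if c = 1 ∧ b ≤ 17 then e ((I a b c).erase z) else 0) := by
  rw [e_rec (I_nonempty ha hb h), ← sum_max ha hb hc fun x => e ((I a b c).erase x)]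

theorem T_I {a b c : ℕ} (ha : a ≤ 33) (hb : b ≤ 67) (hc : c ≤ 1) (h : 1 ≤ a ∨ 1 ≤ b ∨ c = 1) :
    T S (I a b c) =
      (if 1 ≤ a ∧ ¬ (a ≤ 7 ∧ (c = 1 ∨ 18 ≤ b)) then (T S ((I a b c).erase (pt (a - 1))) +
        if S (pt (a - 1)) = true then (I a b c).card * e ((I a b c).erase (pt (a - 1))) else 0)
        else 0) +
      (if 1 ≤ b then (T S ((I a b c).erase (pt (33 + b - 1))) +
        if S (pt (33 + b - 1)) = true then (I a b c).card * e ((I a b c).erase (pt (33 + b - 1)))
        else 0) else 0) +
      (if c = 1 ∧ b ≤ 17 then (T S ((I a b c).erase z) +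
        if S z = true then (I a b c).card * e ((I a b c).erase z) else 0) else 0) := by
  rw [T_rec S (I_nonempty ha hb h), ← sum_max ha hb hc fun x => T S ((I a b c).erase x) +
    if S x = true then (I a b c).card * e ((I a b c).erase x) else 0]

theorem erase_x' {a b c : ℕ} (ha : a ≤ 33) (h : a ≠ 0) :
    (I a b c).erase (pt (a - 1)) = I (a - 1) b c := by
  obtain ⟨a, rfl⟩ : ∃ a', a = a' + 1 := ⟨a - 1, by omega⟩
  rw [Nat.add_sub_cancel, erase_x ha]

theorem erase_y' {a b c : ℕ} (ha : a ≤ 33) (hb : b ≤ 67) (h : b ≠ 0) :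
    (I a b c).erase (pt (33 + b - 1)) = I a (b - 1) c := by
  obtain ⟨b, rfl⟩ : ∃ b', b = b' + 1 := ⟨b - 1, by omega⟩
  rw [show 33 + (b + 1) - 1 = 33 + b by omega, erase_y ha hb, Nat.add_sub_cancel]

theorem e_I' {a b c : ℕ} (ha : a ≤ 33) (hb : b ≤ 67) (hc : c ≤ 1) (h : 1 ≤ a ∨ 1 ≤ b ∨ c = 1) :
    e (I a b c) = (if a ≤ 7 ∧ (c = 1 ∨ 18 ≤ b) then 0 else if a = 0 then 0 else e (I (a - 1) b c)) +
      (if b = 0 then 0 else e (I a (b - 1) c)) + (if c = 1 ∧ b ≤ 17 then e (I a b 0) else 0) := by
  rw [e_I ha hb hc h]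
  refine congrArg₂ (· + ·) (congrArg₂ (· + ·) ?_ ?_) ?_
  · by_cases h1 : a = 0
    · rw [if_neg (by omega), if_pos h1]
      split_ifs <;> rfl
    · rw [erase_x' ha h1, if_neg h1]
      by_cases h2 : a ≤ 7 ∧ (c = 1 ∨ 18 ≤ b)
      · rw [if_neg (by omega), if_pos h2]
      · rw [if_pos (by omega), if_neg h2]
  · by_cases h1 : b = 0
    · rw [if_neg (by omega), if_pos h1]
    · rw [erase_y' ha hb h1, if_pos (by omega), if_neg h1]
  · by_cases h1 : c = 1 ∧ b ≤ 17
    · obtain ⟨rfl, h2⟩ := h1
      rw [erase_z ha hb]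
    · rw [if_neg h1, if_neg h1]

theorem T_I' {a b c : ℕ} (ha : a ≤ 33) (hb : b ≤ 67) (hc : c ≤ 1) (h : 1 ≤ a ∨ 1 ≤ b ∨ c = 1) :
    T S (I a b c) = (if a ≤ 7 ∧ (c = 1 ∨ 18 ≤ b) then 0 else if a = 0 then 0 else
        T S (I (a - 1) b c) + if 25 ≤ a then (I a b c).card * e (I (a - 1) b c) else 0) +
      (if b = 0 then 0 else T S (I a (b - 1) c) + (I a b c).card * e (I a (b - 1) c)) +
      (if c = 1 ∧ b ≤ 17 then T S (I a b 0) else 0) := by
  rw [T_I ha hb hc h]
  refine congrArg₂ (· + ·) (congrArg₂ (· + ·) ?_ ?_) ?_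
  · by_cases h1 : a = 0
    · rw [if_neg (by omega), if_pos h1]
      split_ifs <;> rfl
    · rw [erase_x' ha h1, if_neg h1, S_x (by omega)]
      have h3 : decide (24 ≤ a - 1) = decide (25 ≤ a) := by
        congr 1
        rw [eq_iff_iff]
        omega
      rw [h3]
      simp only [decide_eq_true_eq]
      by_cases h2 : a ≤ 7 ∧ (c = 1 ∨ 18 ≤ b)
      · rw [if_neg (by omega), if_pos h2]
      · rw [if_pos (by omega), if_neg h2]
  · by_cases h1 : b = 0
    · rw [if_neg (by omega), if_pos h1]
    · rw [erase_y' ha hb h1, if_pos (by omega), if_neg h1, show 33 + b - 1 = 33 + (b - 1) by omega,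
        S_y (by omega), if_pos rfl]
  · by_cases h1 : c = 1 ∧ b ≤ 17
    · obtain ⟨rfl, h2⟩ := h1
      have h3 : 1 = 1 ∧ b ≤ 17 := ⟨rfl, h2⟩
      rw [if_pos h3, if_pos h3, erase_z ha hb, S_z, if_neg Bool.false_ne_true, add_zero]
    · rw [if_neg h1, if_neg h1]

/-- The four quantities computed for each pair `(a, b)`. -/
noncomputable def cell (a b : ℕ) : ℕ × ℕ × ℕ × ℕ :=
  (e (I a b 0), T S (I a b 0), e (I a b 1), T S (I a b 1))

/-- The recursion step. -/
def step (a b : ℕ) (L U : ℕ × ℕ × ℕ × ℕ) : ℕ × ℕ × ℕ × ℕ :=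
  let e0 := (if a = 0 ∧ b = 0 then 1 else 0) + (if a ≤ 7 ∧ 18 ≤ b then 0 else L.1) + U.1
  let t0 := (if a ≤ 7 ∧ 18 ≤ b then 0 else L.2.1 + (if 25 ≤ a then (a + b) * L.1 else 0)) +
    (U.2.1 + (a + b) * U.1)
  let e1 := (if a ≤ 7 then 0 else L.2.2.1) + U.2.2.1 + (if b ≤ 17 then e0 else 0)
  let t1 := (if a ≤ 7 then 0 else L.2.2.2 + (if 25 ≤ a then (a + b + 1) * L.2.2.1 else 0)) +
    (U.2.2.2 + (a + b + 1) * U.2.2.1) + (if b ≤ 17 then t0 else 0)
  (e0, t0, e1, t1)

/-- The left neighbour of a cell. -/
noncomputable def left (a b : ℕ) : ℕ × ℕ × ℕ × ℕ := if a = 0 then (0, 0, 0, 0) else cell (a - 1) b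

/-- The upper neighbour of a cell. -/
noncomputable def up (a b : ℕ) : ℕ × ℕ × ℕ × ℕ := if b = 0 then (0, 0, 0, 0) else cell a (b - 1)

theorem cell_step {a b : ℕ} (ha : a ≤ 33) (hb : b ≤ 67) :
    cell a b = step a b (left a b) (up a b) := by
  have he0 : e (I a b 0) = (if a = 0 ∧ b = 0 then 1 else 0) +
      (if a ≤ 7 ∧ 18 ≤ b then 0 else (left a b).1) + (up a b).1 := by
    by_cases h0 : a = 0 ∧ b = 0
    · obtain ⟨rfl, rfl⟩ := h0
      simp [left, up, I_empty, e, LE_empty]
    · rw [e_I' ha hb (by omega) (by omega), if_neg h0, if_neg (show ¬ (0 = 1 ∧ b ≤ 17) by omega)]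
      simp only [left, up, cell, show (0 = 1) = False by simp, false_or]
      split_ifs <;> simp
  have ht0 : T S (I a b 0) = (if a ≤ 7 ∧ 18 ≤ b then 0 else (left a b).2.1 +
      (if 25 ≤ a then (a + b) * (left a b).1 else 0)) + ((up a b).2.1 + (a + b) * (up a b).1) := by
    by_cases h0 : a = 0 ∧ b = 0
    · obtain ⟨rfl, rfl⟩ := h0
      simp [left, up, I_empty, T]
    · rw [T_I' ha hb (by omega) (by omega), if_neg (show ¬ (0 = 1 ∧ b ≤ 17) by omega), card_I0 ha hb]
      simp only [left, up, cell, show (0 = 1) = False by simp, false_or]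
      split_ifs <;> simp
  have he1 : e (I a b 1) = (if a ≤ 7 then 0 else (left a b).2.2.1) + (up a b).2.2.1 +
      (if b ≤ 17 then e (I a b 0) else 0) := by
    rw [e_I' ha hb (by omega) (by omega)]
    simp only [left, up, cell, true_or, and_true, true_and]
    split_ifs <;> simp
  have ht1 : T S (I a b 1) = (if a ≤ 7 then 0 else (left a b).2.2.2 +
      (if 25 ≤ a then (a + b + 1) * (left a b).2.2.1 else 0)) +
      ((up a b).2.2.2 + (a + b + 1) * (up a b).2.2.1) + (if b ≤ 17 then T S (I a b 0) else 0) := by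
    rw [T_I' ha hb (by omega) (by omega), card_I1 ha hb]
    simp only [left, up, cell, true_or, and_true, true_and]
    split_ifs <;> simp
  unfold cell step
  dsimp only
  rw [← he0, ← ht0, ← he1, ← ht1]

/-- The next row of the table. -/
def nextRow (a : ℕ) : ℕ → (ℕ × ℕ × ℕ × ℕ) → List (ℕ × ℕ × ℕ × ℕ) → List (ℕ × ℕ × ℕ × ℕ)
  | _, _, [] => []
  | b, U, L :: Ls => step a b L U :: nextRow a (b + 1) (step a b L U) Ls

/-- The rows of the table. -/
def rows : ℕ → List (ℕ × ℕ × ℕ × ℕ)
  | 0 => nextRow 0 0 (0, 0, 0, 0) (List.replicate 68 (0, 0, 0, 0))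
  | a + 1 => nextRow (a + 1) 0 (0, 0, 0, 0) (rows a)

theorem nextRow_eq {a : ℕ} (ha : a ≤ 33) : ∀ (m b : ℕ), b + m ≤ 68 →
    nextRow a b (up a b) ((List.range' b m).map (left a)) = (List.range' b m).map (cell a) := by
  intro m
  induction m with
  | zero =>
    intro b _
    rfl
  | succ m ih =>
    intro b hb
    rw [List.range'_succ, List.map_cons, List.map_cons, nextRow, ← cell_step ha (by omega)]
    congr 1
    have h1 : cell a b = up a (b + 1) := by
      unfold up
      rw [if_neg (by omega), Nat.add_sub_cancel]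
    rw [h1]
    exact ih (b + 1) (by omega)

theorem rows_eq : ∀ a : ℕ, a ≤ 33 → rows a = (List.range' 0 68).map (cell a) := by
  intro a
  induction a with
  | zero =>
    intro ha
    have h1 : (List.replicate 68 ((0, 0, 0, 0) : ℕ × ℕ × ℕ × ℕ)) =
        (List.range' 0 68).map (left 0) := by
      have h2 : left 0 = fun _ => (0, 0, 0, 0) := by
        funext b
        exact if_pos rfl
      rw [h2, List.map_const', List.length_range']
    have h3 : up 0 0 = (0, 0, 0, 0) := if_pos rfl
    rw [rows, h1, ← h3]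
    exact nextRow_eq ha 68 0 (by omega)
  | succ a ih =>
    intro ha
    have h1 : cell a = left (a + 1) := by
      funext b
      unfold left
      rw [if_neg (by omega), Nat.add_sub_cancel]
    have h3 : up (a + 1) 0 = (0, 0, 0, 0) := if_pos rfl
    rw [rows, ih (by omega), h1, ← h3]
    exact nextRow_eq ha 68 0 (by omega)

/-- The final comparison. -/
def check (v : ℕ × ℕ × ℕ × ℕ) : Bool :=
  Nat.blt (100 * v.1 * v.2.2.1 + v.2.1 * v.2.2.1) (v.2.2.2 * v.1)

set_option maxRecDepth 100000 in
theorem check_rows : check ((rows 33).getD 67 (0, 0, 0, 0)) = true := by decide +kernel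

theorem rows_last : (rows 33).getD 67 (0, 0, 0, 0) = cell 33 67 := by
  have h1 : (List.range' 0 68)[67]? = some 67 := by
    rw [List.getElem?_range' (by omega)]
  rw [rows_eq 33 (by omega), List.getD_eq_getElem?_getD, List.getElem?_map, h1]
  rfl

theorem check_cell (a b c d : ℕ) (h : check (a, b, c, d) = true) :
    100 * a * c + b * c < d * a := by
  unfold check at h
  rwa [Nat.blt_eq] at h

theorem main_ineq : 100 * e (I 33 67 0) * e (I 33 67 1) + T S (I 33 67 0) * e (I 33 67 1) <
    T S (I 33 67 1) * e (I 33 67 0) := by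
  apply check_cell
  have h1 := check_rows
  rw [rows_last] at h1
  exact h1

theorem card_pt : Fintype.card Pt = 101 := by
  rw [Fintype.card_congr (⟨Pt.val, Pt.mk, fun _ => rfl, fun _ => rfl⟩ : Pt ≃ Fin 101),
    Fintype.card_fin]

theorem arith (a b c d : ℕ) (h : 100 * b * a + d * a < c * b) (h0 : a = 0 → c = 0) :
    (100 : ℚ) < (c : ℚ) / a - (d : ℚ) / b := by
  have hb0 : b ≠ 0 := by
    rintro rfl
    simp at h
  have ha0 : a ≠ 0 := by
    intro ha
    rw [h0 ha] at h
    simp at h
  have ha : (0 : ℚ) < a := by exact_mod_cast Nat.pos_of_ne_zero ha0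
  have hb : (0 : ℚ) < b := by exact_mod_cast Nat.pos_of_ne_zero hb0
  rw [div_sub_div _ _ ha.ne' hb.ne', lt_div_iff₀ (mul_pos ha hb)]
  have h' : (100 * b * a + d * a : ℚ) < c * b := by exact_mod_cast h
  linarith [h']

attribute [irreducible] I e T LE S

theorem hI1 : ∀ x : Pt, x ∈ I 33 67 1 ↔ ∃ q : Pt, id q = x := by
  intro x
  rw [mem_I]
  have := x.val.2
  constructor
  · intro _
    exact ⟨x, rfl⟩
  · intro _
    omega

theorem hI0 : ∀ x : Pt, x ∈ I 33 67 0 ↔ ∃ q : {y : Pt // y ≠ z}, (q : Pt) = x := by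
  intro x
  rw [mem_I]
  have hx := x.val.2
  have hz : (z.val : ℕ) = 100 := rfl
  constructor
  · intro h
    refine ⟨⟨x, ?_⟩, rfl⟩
    rintro rfl
    omega
  · rintro ⟨q, rfl⟩
    have h1 : (q.1.val : ℕ) ≠ 100 := fun h => q.2 (pt_ext (h.trans hz.symm))
    omega

theorem sum_ge (F G : {y : Pt // y ≠ z} → ℚ) (A : Finset {y : Pt // y ≠ z}) :
    ∑ q ∈ A, F q - ∑ q ∈ A, G q ≤ ∑ y, max (F y - G y) 0 := by
  rw [← Finset.sum_sub_distrib]
  refine le_trans (Finset.sum_le_sum fun q _ => le_max_left _ 0) ?_
  exact Finset.sum_le_sum_of_subset_of_nonneg (Finset.subset_univ _) fun q _ _ => le_max_right _ _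

theorem sum_S (F : Pt → ℚ) (S : Pt → Bool) (hS : S z = false) :
    ∑ q ∈ Finset.univ.filter (fun q : {y : Pt // y ≠ z} => S q.1 = true), F q.1 =
      ∑ q ∈ Finset.univ.filter (fun q : Pt => S (id q) = true), F q := by
  have h3 : (Finset.univ.filter fun q : Pt => S (id q) = true) =
      (Finset.univ.filter (fun q : {y : Pt // y ≠ z} => S q.1 = true)).image Subtype.val := by
    ext x
    simp only [Finset.mem_filter, Finset.mem_univ, true_and, Finset.mem_image, id_eq,
      Subtype.exists, exists_and_left, exists_prop, exists_eq_right_right]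
    constructor
    · intro h
      refine ⟨h, ?_⟩
      rintro rfl
      rw [hS] at h
      exact absurd h Bool.false_ne_true
    · exact fun h => h.1
  rw [h3, Finset.sum_image fun a _ b _ h => Subtype.ext h]

theorem result_aux : (Fintype.card Pt : ℚ) - 1 <
    ∑ y : {y : Pt // y ≠ z}, max (avgHeight Pt y.1 - avgHeight {y : Pt // y ≠ z} y) 0 := by
  have hs1 := sum_avgHeight (P := Pt) (Q := Pt) id Function.injective_id (fun _ _ => Iff.rfl) hI1 S
  have hs0 := sum_avgHeight (P := Pt) (Q := {y : Pt // y ≠ z}) Subtype.val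
    Subtype.val_injective (fun _ _ => Iff.rfl) hI0 S
  refine lt_of_lt_of_le ?_ (sum_ge (fun q => avgHeight Pt q.1) (fun q => avgHeight _ q)
    (Finset.univ.filter fun q : {y : Pt // y ≠ z} => S q.1 = true))
  rw [sum_S (fun q => avgHeight Pt q) S S_z, hs1, hs0]
  have h := arith _ _ _ _ main_ineq (T_eq_zero' S _)
  rw [card_pt]
  norm_num at h ⊢
  exact h

end example_

end Pool.Agent.R128.AvgHeight
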