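import Mathlib

/-!
# Bounded induced saturation numbers for unions of chains

Framework: `E B = B × Fin 3` (levels `0` low, `1` mid, `2` high).
-/

namespace Pool.Agent.R128.ChainSat

set_option linter.unusedVariables false
set_option linter.unusedSectionVars false

open Finset

/-- `c` is a copy, inside `A`, of the disjoint union of chains of sizes `lam i`. -/
structure IsCopy {α : Type} [PartialOrder α] {ι : Type} (lam : ι → ℕ) (A : Set α)
    (c : ι → Finset α) : Prop where
  card : ∀ i, (c i).card = lam i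
  chain : ∀ i, ∀ a ∈ c i, ∀ b ∈ c i, a ≤ b ∨ b ≤ a
  sub : ∀ i, ∀ a ∈ c i, a ∈ A
  inc : ∀ i i', i ≠ i' → ∀ a ∈ c i, ∀ b ∈ c i', ¬ a ≤ b

/-- the catching condition -/
structure Catch {B : Type} [PartialOrder B] {ι : Type} (lam : ι → ℕ) (F : Set (B × Fin 3))
    (T T2 : B) (c : ι → Finset (B × Fin 3)) : Prop where
  copy : IsCopy lam (insert (T, 1) F) c
  ne : T2 ≠ T
  low : ∀ i, ∀ p ∈ c i, p.2 = 0 → ¬ p.1 ≤ T2
  high : ∀ i, ∀ p ∈ c i, p.2 = 2 → ¬ T2 ≤ p.1

def GoodIn (B : Type) [PartialOrder B] {ι : Type} (lam : ι → ℕ) : Prop :=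
  ∃ F : Set (B × Fin 3), (∀ x ∈ F, x.2 ≠ 1) ∧ (¬ ∃ c, IsCopy lam F c) ∧
    ∀ T : B, ∃ c T2, Catch lam F T T2 c

lemma IsCopy.map {α β : Type} [PartialOrder α] [PartialOrder β] {ι : Type} {lam : ι → ℕ}
    {A : Set α} {c : ι → Finset α} (h : IsCopy lam A c) (f : α ↪o β) {A' : Set β}
    (hA : ∀ a ∈ A, f a ∈ A') :
    IsCopy lam A' (fun i => (c i).map f.toEmbedding) where
  card i := by simp [h.card i]
  chain i := by
    intro a ha b hb
    simp only [mem_map, RelEmbedding.coe_toEmbedding] at ha hb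
    obtain ⟨a, ha, rfl⟩ := ha
    obtain ⟨b, hb, rfl⟩ := hb
    simpa using h.chain i a ha b hb
  sub i := by
    intro a ha
    simp only [mem_map, RelEmbedding.coe_toEmbedding] at ha
    obtain ⟨a, ha, rfl⟩ := ha
    exact hA a (h.sub i a ha)
  inc i i' hii := by
    intro a ha b hb
    simp only [mem_map, RelEmbedding.coe_toEmbedding] at ha hb
    obtain ⟨a, ha, rfl⟩ := ha
    obtain ⟨b, hb, rfl⟩ := hb
    simpa using h.inc i i' hii a ha b hb

lemma IsCopy.reindex {α : Type} [PartialOrder α] {ι ι' : Type} {lam : ι → ℕ}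
    {A : Set α} {c : ι → Finset α} (h : IsCopy lam A c) (e : ι' ↪ ι) :
    IsCopy (fun i => lam (e i)) A (fun i => c (e i)) where
  card i := h.card _
  chain i := h.chain _
  sub i := h.sub _
  inc i i' hii := h.inc _ _ (fun h' => hii (e.injective h'))

lemma GoodIn.reindex {B : Type} [PartialOrder B] {ι ι' : Type} {lam : ι → ℕ}
    (h : GoodIn B lam) (e : ι' ≃ ι) : GoodIn B (fun i => lam (e i)) := by
  obtain ⟨F, h1, h2, h3⟩ := h
  refine ⟨F, h1, ?_, ?_⟩
  · rintro ⟨c, hc⟩
    apply h2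
    refine ⟨fun i => c (e.symm i), ?_⟩
    have := hc.reindex e.symm.toEmbedding
    simpa using this
  · intro T
    obtain ⟨c, T2, h⟩ := h3 T
    exact ⟨fun i => c (e i), T2, h.copy.reindex e.toEmbedding, h.ne, fun i => h.low _,
      fun i => h.high _⟩

lemma GoodIn.congr {B B' : Type} [PartialOrder B] [PartialOrder B'] {ι : Type} {lam : ι → ℕ}
    (h : GoodIn B lam) (e : B ≃o B') : GoodIn B' lam := by
  obtain ⟨F, h1, h2, h3⟩ := h
  let f : B × Fin 3 ≃o B' × Fin 3 :=
    { toEquiv := e.toEquiv.prodCongr (Equiv.refl _)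
      map_rel_iff' := by
        rintro ⟨a, i⟩ ⟨b, j⟩
        simp [Prod.le_def] }
  have hf : ∀ x, f x = (e x.1, x.2) := fun x => rfl
  refine ⟨f '' F, ?_, ?_, ?_⟩
  · rintro _ ⟨x, hx, rfl⟩
    exact h1 x hx
  · rintro ⟨c, hc⟩
    apply h2
    refine ⟨_, hc.map f.symm.toOrderEmbedding ?_⟩
    rintro _ ⟨x, hx, rfl⟩
    simpa using hx
  · intro T
    obtain ⟨c, T2, h⟩ := h3 (e.symm T)
    refine ⟨fun i => (c i).map f.toOrderEmbedding.toEmbedding, e T2, ?_, ?_, ?_, ?_⟩
    · apply h.copy.map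
      rintro x (rfl | hx)
      · left
        show f _ = _
        rw [hf]; simp
      · right
        exact ⟨x, hx, rfl⟩
    · intro h'
      apply h.ne
      rw [← h']; simp
    · intro i p hp h0
      simp only [mem_map] at hp
      obtain ⟨x, hx, rfl⟩ := hp
      have : (f.toOrderEmbedding.toEmbedding x) = (e x.1, x.2) := rfl
      rw [this] at h0 ⊢
      simp only [OrderIso.le_iff_le]
      exact h.low i x hx h0
    · intro i p hp h0
      simp only [mem_map] at hp
      obtain ⟨x, hx, rfl⟩ := hp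
      have : (f.toOrderEmbedding.toEmbedding x) = (e x.1, x.2) := rfl
      rw [this] at h0 ⊢
      simp only [OrderIso.le_iff_le]
      exact h.high i x hx h0

/-! ### Operation A -/

section OpA

variable {B : Type} [PartialOrder B] {Z : Type} [Fintype Z] [DecidableEq Z]

def g (τ : Finset Z) (a : Fin 3) : Finset Z := if a = 0 then ∅ else if a = 1 then τ else univ

lemma g_mono (τ : Finset Z) {a b : Fin 3} (h : a ≤ b) : g τ a ⊆ g τ b := by
  fin_cases a <;> fin_cases b <;> simp_all [g]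

/-- the lift -/
def lift (τ : Finset Z) : B × Fin 3 ↪o (B × Finset Z) × Fin 3 :=
  OrderEmbedding.ofMapLEIff (fun p => ((p.1, g τ p.2), p.2)) (by
    rintro ⟨b, a⟩ ⟨b', a'⟩
    simp only [Prod.mk_le_mk]
    constructor
    · rintro ⟨⟨h1, -⟩, h2⟩
      exact ⟨h1, h2⟩
    · rintro ⟨h1, h2⟩
      exact ⟨⟨h1, g_mono τ h2⟩, h2⟩)

lemma lift_apply (τ : Finset Z) (p : B × Fin 3) : lift τ p = ((p.1, g τ p.2), p.2) := rfl

def isW (sz : B → ℕ) (C : ℕ) (p : (B × Finset Z) × Fin 3) : Prop :=
  (p.2 = 0 ∧ sz p.1.1 + p.1.2.card = C) ∨ (p.2 = 2 ∧ sz p.1.1 + p.1.2.card + 1 = C)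

lemma isW.antichain {sz : B → ℕ} (hsz : StrictMono sz) {C : ℕ} {p q : (B × Finset Z) × Fin 3}
    (hp : isW sz C p) (hq : isW sz C q) (h : p ≤ q) : p = q := by
  obtain ⟨⟨b, ζ⟩, a⟩ := p
  obtain ⟨⟨b', ζ'⟩, a'⟩ := q
  simp only [Prod.mk_le_mk] at h
  obtain ⟨⟨h1, h2⟩, h3⟩ := h
  have h4 := hsz.monotone h1
  have h5 := card_le_card h2
  rcases hp with ⟨hp1, hp2⟩ | ⟨hp1, hp2⟩ <;> rcases hq with ⟨hq1, hq2⟩ | ⟨hq1, hq2⟩ <;>
    simp only at hp1 hp2 hq1 hq2
  · have h6 : sz b = sz b' := by omega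
    have h7 : ζ.card = ζ'.card := by omega
    have h8 : b = b' := by
      by_contra hne
      have := hsz (lt_of_le_of_ne h1 hne)
      omega
    have h9 : ζ = ζ' := Finset.eq_of_subset_of_card_le h2 h7.ge
    rw [h8, h9, hp1, hq1]
  · omega
  · subst hp1; subst hq1
    exact absurd h3 (by decide)
  · have h6 : sz b = sz b' := by omega
    have h7 : ζ.card = ζ'.card := by omega
    have h8 : b = b' := by
      by_contra hne
      have := hsz (lt_of_le_of_ne h1 hne)
      omega
    have h9 : ζ = ζ' := Finset.eq_of_subset_of_card_le h2 h7.ge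
    rw [h8, h9, hp1, hq1]

lemma isW.ne_empty {sz : B → ℕ} {M : ℕ} (hM : ∀ b, sz b ≤ M)
    {p : (B × Finset Z) × Fin 3}
    (hp : isW sz (M + 2) p) : p.1.2 ≠ ∅ := by
  intro h
  have := hM p.1.1
  rcases hp with ⟨hp1, hp2⟩ | ⟨hp1, hp2⟩ <;> rw [h, card_empty] at hp2 <;> omega

lemma isW.ne_univ {sz : B → ℕ} {M : ℕ} (hZ : M + 3 ≤ Fintype.card Z)
    {p : (B × Finset Z) × Fin 3}
    (hp : isW sz (M + 2) p) : p.1.2 ≠ univ := by
  intro h
  rcases hp with ⟨hp1, hp2⟩ | ⟨hp1, hp2⟩ <;> rw [h, card_univ] at hp2 <;> omega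

lemma isW.lev {sz : B → ℕ} {C : ℕ} {p : (B × Finset Z) × Fin 3}
    (hp : isW sz C p) : p.2 ≠ 1 := by
  rcases hp with ⟨hp1, hp2⟩ | ⟨hp1, hp2⟩ <;> rw [hp1] <;> decide

lemma cross {τ : Finset Z} {w : (B × Finset Z) × Fin 3} {p q : B × Fin 3}
    (hw : w.2 ≠ 1) (h0 : w.1.2 ≠ ∅) (hu : w.1.2 ≠ univ)
    (h1 : w.1.1 = p.1) (h2 : p.2 = 1 ∨ w.2 = p.2) (hpq : ¬ p ≤ q) (hqp : ¬ q ≤ p)
    (hmid : p.2 = 1 → q.2 ≠ 1) : ¬ w ≤ lift τ q ∧ ¬ lift τ q ≤ w := by
  obtain ⟨⟨b, ζ⟩, a⟩ := w
  obtain ⟨t, l⟩ := p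
  obtain ⟨t', l'⟩ := q
  simp only at h1
  subst h1
  simp only [lift_apply, Prod.mk_le_mk] at *
  fin_cases a <;> fin_cases l <;> fin_cases l' <;> simp_all [g]

lemma exists_w {sz : B → ℕ} {M : ℕ} (hM : ∀ b, sz b ≤ M)
    (hZ : M + 3 ≤ Fintype.card Z) (T : B) (τ : Finset Z) (s : Finset (B × Fin 3))
    (hs : s.Nonempty) (hch : ∀ a ∈ s, ∀ b ∈ s, a ≤ b ∨ b ≤ a) (hmid : ∀ a ∈ s, a.2 = 1 → a = (T, 1)) :
    ∃ (w : (B × Finset Z) × Fin 3) (p : B × Fin 3), p ∈ s ∧ isW sz (M + 2) w ∧ w.1.1 = p.1 ∧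
      (p.2 = 1 ∨ w.2 = p.2) ∧ (∀ q ∈ s, lift τ q ≤ w ∨ w ≤ lift τ q) := by
  classical
  by_cases h1 : (T, 1) ∈ s
  · by_cases h2 : M + 2 ≤ sz T + τ.card
    · obtain ⟨ζ, hζ, hcard⟩ := Finset.exists_subset_card_eq (s := τ) (n := M + 2 - sz T) (by omega)
      refine ⟨((T, ζ), 0), (T, 1), h1, Or.inl ⟨rfl, ?_⟩, rfl, Or.inl rfl, ?_⟩
      · simp only
        have := hM T
        omega
      · intro q hq
        have h3 := hch q hq _ h1
        obtain ⟨b, a⟩ := q
        simp only [lift_apply, Prod.mk_le_mk] at h3 ⊢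
        fin_cases a
        · simp [g] at h3 ⊢
          left; exact h3
        · have := hmid _ hq rfl
          simp at this
          subst this
          right
          simpa [g] using hζ
        · simp [g] at h3 ⊢
          exact h3
    · obtain ⟨ζ, hζ, hcard⟩ := Finset.exists_superset_card_eq (s := τ) (n := M + 1 - sz T)
        (by omega) (by omega)
      refine ⟨((T, ζ), 2), (T, 1), h1, Or.inr ⟨rfl, ?_⟩, rfl, Or.inl rfl, ?_⟩
      · simp only
        have := hM T
        omega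
      · intro q hq
        have h3 := hch q hq _ h1
        obtain ⟨b, a⟩ := q
        simp only [lift_apply, Prod.mk_le_mk] at h3 ⊢
        fin_cases a
        · simp [g] at h3 ⊢
          exact h3
        · have := hmid _ hq rfl
          simp at this
          subst this
          left
          simpa [g] using hζ
        · simp [g] at h3 ⊢
          right; exact h3
  · have hmid' : ∀ a ∈ s, a.2 ≠ 1 := fun a ha h => h1 (by rw [← hmid a ha h]; exact ha)
    by_cases h2 : ∃ q ∈ s, q.2 = 0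
    · obtain ⟨q0, hq0, hq0'⟩ := h2
      obtain ⟨t, ht⟩ := Finset.exists_maximal (s := s.filter (fun q => q.2 = 0))
        ⟨q0, by simp [hq0, hq0']⟩
      have htm := ht.1
      simp only [mem_filter] at htm
      obtain ⟨ζ, -, hcard⟩ := Finset.exists_subset_card_eq (s := (univ : Finset Z))
        (n := M + 2 - sz t.1) (by rw [card_univ]; omega)
      refine ⟨((t.1, ζ), 0), t, htm.1, Or.inl ⟨rfl, ?_⟩, rfl, Or.inr htm.2.symm, ?_⟩
      · simp only
        have := hM t.1
        omega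
      · intro q hq
        have h3 := hch q hq _ htm.1
        have h4 := hmid' q hq
        obtain ⟨b, a⟩ := q
        obtain ⟨t, l⟩ := t
        simp only at htm
        obtain ⟨htm, rfl⟩ := htm
        fin_cases a
        · left
          have h5 : (b, (0 : Fin 3)) ≤ (t, 0) := by
            rcases h3 with h3 | h3
            · exact h3
            · exact ht.2 (by simpa using hq) h3
          simp only [lift_apply, Prod.mk_le_mk] at h5 ⊢
          simp [g]
          exact h5.1
        · exact absurd rfl h4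
        · right
          simp only [lift_apply, Prod.mk_le_mk] at h3 ⊢
          simp [g] at h3 ⊢
          exact h3
    · push Not at h2
      have h2' : ∀ q ∈ s, q.2 = 2 := by
        intro q hq
        have := h2 q hq
        have := hmid' q hq
        omega
      obtain ⟨t, ht⟩ := Finset.exists_minimal (s := s) hs
      obtain ⟨ζ, -, hcard⟩ := Finset.exists_subset_card_eq (s := (univ : Finset Z))
        (n := M + 1 - sz t.1) (by rw [card_univ]; omega)
      refine ⟨((t.1, ζ), 2), t, ht.1, Or.inr ⟨rfl, ?_⟩, rfl, Or.inr (h2' t ht.1).symm, ?_⟩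
      · simp only
        have := hM t.1
        omega
      · intro q hq
        have h3 := hch q hq _ ht.1
        have h4 := h2' q hq
        have h6 := h2' t ht.1
        obtain ⟨b, a⟩ := q
        obtain ⟨t, l⟩ := t
        simp only at h4 h6
        subst h4 h6
        right
        have h5 : (t, (2 : Fin 3)) ≤ (b, 2) := by
          rcases h3 with h3 | h3
          · exact ht.2 hq h3
          · exact h3
        simp only [lift_apply, Prod.mk_le_mk] at h5 ⊢
        simp [g]
        exact h5.1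

/-- the new family -/
def newF (sz : B → ℕ) (C : ℕ) (F : Set (B × Fin 3)) : Set ((B × Finset Z) × Fin 3) :=
  {p | isW sz C p} ∪ {p | ∃ x ∈ F, lift ∅ x = p}

lemma lift_mem_newF {sz : B → ℕ} {C : ℕ} {F : Set (B × Fin 3)} (hF : ∀ x ∈ F, x.2 ≠ 1)
    (τ : Finset Z) {x : B × Fin 3} (hx : x ∈ F) : lift τ x ∈ newF sz C F := by
  right
  refine ⟨x, hx, ?_⟩
  have := hF x hx
  simp only [lift_apply]
  obtain ⟨b, a⟩ := x
  simp only at this
  simp only [Prod.mk.injEq, true_and, and_true]
  fin_cases a <;> simp_all [g]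

lemma newF_free {sz : B → ℕ} (hsz : StrictMono sz) {C : ℕ} {F : Set (B × Fin 3)} {ι : Type}
    {lam : ι → ℕ} (hF : ¬ ∃ c, IsCopy lam F c) {κ : Type}
    (h : ∃ c, IsCopy (Sum.elim (fun i => lam i + 1) (fun _ => 1) : ι ⊕ κ → ℕ)
      (newF (Z := Z) sz C F) c) : False := by
  classical
  obtain ⟨c, hc⟩ := h
  apply hF
  -- remove at most one element of W from each chain
  have key : ∀ i : ι, ∃ s : Finset (B × Fin 3), s.card = lam i ∧
      ∀ x ∈ s, x ∈ F ∧ lift (∅ : Finset Z) x ∈ c (Sum.inl i) := by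
    intro i
    have h1 : ((c (Sum.inl i)).filter (fun p => isW sz C p)).card ≤ 1 := by
      rw [Finset.card_le_one]
      intro a ha b hb
      simp only [mem_filter] at ha hb
      rcases hc.chain _ a ha.1 b hb.1 with h | h
      · exact ha.2.antichain hsz hb.2 h
      · exact (hb.2.antichain hsz ha.2 h).symm
    have h2 : lam i ≤ ((c (Sum.inl i)).filter (fun p => ¬ isW sz C p)).card := by
      have := Finset.card_filter_add_card_filter_not (s := c (Sum.inl i)) (fun p => isW sz C p)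
      have h3 := hc.card (Sum.inl i)
      simp only [Sum.elim_inl] at h3
      omega
    obtain ⟨s', hs', hcard⟩ := Finset.exists_subset_card_eq h2
    have h3 : ∀ p ∈ s', ∃ x ∈ F, lift (∅ : Finset Z) x = p := by
      intro p hp
      have h4 := hs' hp
      simp only [mem_filter] at h4
      rcases hc.sub _ p h4.1 with h5 | h5
      · exact absurd h5 h4.2
      · exact h5
    refine ⟨s'.preimage (lift (∅ : Finset Z)) ((lift (∅ : Finset Z)).injective.injOn), ?_, ?_⟩
    · rw [← hcard, ← Finset.card_map (lift (B := B) (∅ : Finset Z)).toEmbedding]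
      congr 1
      ext p
      simp only [mem_map, mem_preimage, RelEmbedding.coe_toEmbedding]
      constructor
      · rintro ⟨x, hx, rfl⟩
        exact hx
      · intro hp
        obtain ⟨x, hx, rfl⟩ := h3 p hp
        exact ⟨x, hp, rfl⟩
    · intro x hx
      simp only [mem_preimage] at hx
      constructor
      · obtain ⟨y, hy, h⟩ := h3 _ hx
        rw [(lift (∅ : Finset Z)).injective h] at hy
        exact hy
      · have := hs' hx
        simp only [mem_filter] at this
        exact this.1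
  choose s hs1 hs2 using key
  refine ⟨s, hs1, ?_, ?_, ?_⟩
  · intro i a ha b hb
    have := hc.chain _ _ (hs2 i a ha).2 _ (hs2 i b hb).2
    simpa using this
  · intro i a ha
    exact (hs2 i a ha).1
  · intro i i' hne a ha b hb hab
    refine hc.inc (Sum.inl i) (Sum.inl i') (by simpa using hne) _ (hs2 i a ha).2 _
      (hs2 i' b hb).2 ?_
    simpa using hab

lemma exists_v {sz : B → ℕ} {M : ℕ} (hM : ∀ b, sz b ≤ M) {κ : Type}
    (hZ : M + 3 ≤ Fintype.card Z)
    (hV : ∀ s, 1 ≤ s → s ≤ M + 2 → ∃ ζ : κ → Finset Z, Function.Injective ζ ∧ ∀ a, (ζ a).card = s)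
    {F : Set (B × Fin 3)} (hF : ∀ x ∈ F, x.2 ≠ 1) {ι : Type} {lam : ι → ℕ}
    {T T2 : B} {c : ι → Finset (B × Fin 3)} (h : Catch lam F T T2 c) (τ : Finset Z) :
    ∃ (v : κ → (B × Finset Z) × Fin 3) (ρ : Finset Z), (∀ a, isW sz (M + 2) (v a)) ∧
      (∀ a, (v a).1.1 = T2) ∧ Function.Injective v ∧
      (∀ a i, ∀ q ∈ c i, ¬ v a ≤ lift τ q ∧ ¬ lift τ q ≤ v a) ∧
      (∀ a, (v a).2 = 0 → ¬ (v a).1 ≤ (T2, ρ)) ∧ (∀ a, (v a).2 = 2 → ¬ (T2, ρ) ≤ (v a).1) ∧
      (T2 ≤ T → ρ = univ) ∧ (¬ T2 ≤ T → ρ = ∅) := by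
  have hTT : ¬ (T2 ≤ T ∧ T ≤ T2) := fun h' => h.ne (le_antisymm h'.1 h'.2)
  have hmid : ∀ i, ∀ q ∈ c i, q.2 = 1 → q = (T, 1) := by
    intro i q hq h1
    rcases h.copy.sub i q hq with h2 | h2
    · exact h2
    · exact absurd h1 (hF q h2)
  by_cases hT : T2 ≤ T
  · obtain ⟨ζ, hζ1, hζ2⟩ := hV (M + 1 - sz T2) (by have := hM T2; omega) (by omega)
    have hW : ∀ a, isW sz (M + 2) (((T2, ζ a), 2) : (B × Finset Z) × Fin 3) := fun a =>
      Or.inr ⟨rfl, by have := hM T2; simp only [hζ2]; omega⟩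
    refine ⟨fun a => ((T2, ζ a), 2), univ, hW, fun a => rfl, ?_, ?_, ?_, ?_, fun _ => rfl,
      fun h' => absurd hT h'⟩
    · intro a b hab
      simp only [Prod.mk.injEq, true_and, and_true] at hab
      exact hζ1 hab
    · intro a i q hq
      have h0 := (hW a).ne_empty hM
      have hu := (hW a).ne_univ hZ
      simp only at h0 hu
      have h3 := h.low i q hq
      have h4 := h.high i q hq
      have h5 := hmid i q hq
      obtain ⟨b, l⟩ := q
      simp only [lift_apply, Prod.mk_le_mk] at *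
      fin_cases l
      · simp_all [g]
      · simp at h5
        subst h5
        simp_all [g]
      · simp_all [g]
    · intro a h'
      exact absurd h' (by simp)
    · intro a _
      have hu := (hW a).ne_univ hZ
      simp only at hu
      simp [hu]
  · obtain ⟨ζ, hζ1, hζ2⟩ := hV (M + 2 - sz T2) (by have := hM T2; omega) (by omega)
    have hW : ∀ a, isW sz (M + 2) (((T2, ζ a), 0) : (B × Finset Z) × Fin 3) := fun a =>
      Or.inl ⟨rfl, by have := hM T2; simp only [hζ2]; omega⟩
    refine ⟨fun a => ((T2, ζ a), 0), ∅, hW, fun a => rfl, ?_, ?_, ?_, ?_, 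
      fun h' => absurd h' hT, fun _ => rfl⟩
    · intro a b hab
      simp only [Prod.mk.injEq, true_and, and_true] at hab
      exact hζ1 hab
    · intro a i q hq
      have h0 := (hW a).ne_empty hM
      have hu := (hW a).ne_univ hZ
      simp only at h0 hu
      have h3 := h.low i q hq
      have h4 := h.high i q hq
      have h5 := hmid i q hq
      obtain ⟨b, l⟩ := q
      simp only [lift_apply, Prod.mk_le_mk] at *
      fin_cases l
      · simp_all [g]
      · simp at h5
        subst h5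
        simp_all [g]
      · simp_all [g]
    · intro a _
      have h0 := (hW a).ne_empty hM
      simp only at h0
      simp [h0]
    · intro a h'
      exact absurd h' (by simp)

lemma opA_catch {sz : B → ℕ} (hsz : StrictMono sz) {M : ℕ} (hM : ∀ b, sz b ≤ M) {κ : Type}
    (hZ : M + 3 ≤ Fintype.card Z)
    (hV : ∀ s, 1 ≤ s → s ≤ M + 2 → ∃ ζ : κ → Finset Z, Function.Injective ζ ∧ ∀ a, (ζ a).card = s)
    {F : Set (B × Fin 3)} (hF : ∀ x ∈ F, x.2 ≠ 1) {ι : Type} {lam : ι → ℕ}
    (hpos : ∀ i, 0 < lam i)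
    {T T2 : B} {c : ι → Finset (B × Fin 3)} (h : Catch lam F T T2 c) (τ : Finset Z) :
    ∃ c' T2', Catch (Sum.elim (fun i => lam i + 1) (fun _ => 1) : ι ⊕ κ → ℕ)
      (newF sz (M + 2) F) (T, τ) T2' c' := by
  classical
  have hmid : ∀ i, ∀ q ∈ c i, q.2 = 1 → q = (T, 1) := by
    intro i q hq h1
    rcases h.copy.sub i q hq with h2 | h2
    · exact h2
    · exact absurd h1 (hF q h2)
  have hex := fun i => exists_w (sz := sz) hM hZ T τ (c i)
    (by rw [← card_pos, h.copy.card i]; exact hpos i) (h.copy.chain i) (hmid i)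
  choose w p hp hw h1 h2 h3 using hex
  obtain ⟨v, ρ, hv1, hv2, hv3, hv4, hv5, hv6, hv7, hv8⟩ := exists_v (sz := sz) hM hZ hV hF h τ
  have hpT : ∀ i, (p i).1 ≠ T2 := by
    intro i hi
    have h5 := h.low i _ (hp i)
    have h6 := h.high i _ (hp i)
    have h7 := hmid i _ (hp i)
    rcases (show (p i).2 = 0 ∨ (p i).2 = 1 ∨ (p i).2 = 2 by omega) with h8 | h8 | h8
    · exact h5 h8 hi.le
    · rw [h7 h8] at hi
      exact h.ne hi.symm
    · exact h6 h8 hi.ge
  have hvw : ∀ a i, v a ≠ w i := by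
    intro a i hai
    apply hpT i
    rw [← h1, ← hai, hv2]
  have hww : ∀ i i', i ≠ i' → w i ≠ w i' := by
    intro i i' hne hi
    have h5 : (p i).1 = (p i').1 := by rw [← h1, ← h1, hi]
    rcases le_total (p i).2 (p i').2 with h6 | h6
    · exact h.copy.inc i i' hne _ (hp i) _ (hp i') ⟨h5.le, h6⟩
    · exact h.copy.inc i' i hne.symm _ (hp i') _ (hp i) ⟨h5.ge, h6⟩
  have hwl : ∀ i i', i ≠ i' → ∀ q ∈ c i', ¬ w i ≤ lift τ q ∧ ¬ lift τ q ≤ w i := by
    intro i i' hne q hq
    refine cross (hw i).lev ((hw i).ne_empty hM) ((hw i).ne_univ hZ) (h1 i) (h2 i)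
      (h.copy.inc i i' hne _ (hp i) _ hq) (h.copy.inc i' i hne.symm _ hq _ (hp i)) ?_
    intro h5 h6
    have h7 := hmid i _ (hp i) h5
    have h8 := hmid i' _ hq h6
    exact h.copy.inc i i' hne _ (hp i) _ hq (by rw [h7, h8])
  refine ⟨Sum.elim (fun i => insert (w i) ((c i).map (lift τ).toEmbedding)) (fun a => {v a}),
    (T2, ρ), ⟨?_, ?_, ?_, ?_⟩, ?_, ?_, ?_⟩
  · rintro (i | a)
    · simp only [Sum.elim_inl]
      rw [card_insert_of_notMem, card_map, h.copy.card i]
      simp only [mem_map, RelEmbedding.coe_toEmbedding, not_exists, not_and]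
      intro q hq hqw
      have h5 := (hw i).lev
      have h6 := (hw i).ne_empty hM
      have h7 := (hw i).ne_univ hZ
      rw [← hqw] at h5 h6 h7
      simp only [lift_apply] at h5 h6 h7
      by_cases h8 : q.2 = 0
      · exact h6 (by simp [g, h8])
      · exact h7 (by simp [g, h8, h5])
    · simp
  · rintro (i | a)
    · simp only [Sum.elim_inl, mem_insert, mem_map, RelEmbedding.coe_toEmbedding]
      rintro x (rfl | ⟨x, hx, rfl⟩) y (rfl | ⟨y, hy, rfl⟩)
      · exact Or.inl le_rfl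
      · exact (h3 i y hy).symm
      · exact h3 i x hx
      · simpa using h.copy.chain i x hx y hy
    · simp
  · rintro (i | a)
    · simp only [Sum.elim_inl, mem_insert, mem_map, RelEmbedding.coe_toEmbedding]
      rintro x (rfl | ⟨x, hx, rfl⟩)
      · exact Or.inr (Or.inl (hw i))
      · rcases h.copy.sub i x hx with rfl | h5
        · left
          rfl
        · right
          exact lift_mem_newF hF τ h5
    · simp only [Sum.elim_inr, mem_singleton]
      rintro x rfl
      exact Or.inr (Or.inl (hv1 a))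
  · rintro (i | a) (i' | a') hne
    · have hne' : i ≠ i' := fun h => hne (by rw [h])
      simp only [Sum.elim_inl, mem_insert, mem_map, RelEmbedding.coe_toEmbedding]
      rintro x (rfl | ⟨x, hx, rfl⟩) y (rfl | ⟨y, hy, rfl⟩)
      · exact fun h5 => hww i i' hne' ((hw i).antichain hsz (hw i') h5)
      · exact (hwl i i' hne' y hy).1
      · exact (hwl i' i hne'.symm x hx).2
      · simpa using h.copy.inc i i' hne' x hx y hy
    · simp only [Sum.elim_inl, Sum.elim_inr, mem_singleton, mem_insert, mem_map,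
        RelEmbedding.coe_toEmbedding]
      rintro x (rfl | ⟨x, hx, rfl⟩) y rfl
      · exact fun h5 => hvw a' i ((hw i).antichain hsz (hv1 a') h5).symm
      · exact (hv4 a' i x hx).2
    · simp only [Sum.elim_inl, Sum.elim_inr, mem_singleton, mem_insert, mem_map,
        RelEmbedding.coe_toEmbedding]
      rintro x rfl y (rfl | ⟨y, hy, rfl⟩)
      · exact fun h5 => hvw a i' ((hv1 a).antichain hsz (hw i') h5)
      · exact (hv4 a i' y hy).1
    · have hne' : a ≠ a' := fun h => hne (by rw [h])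
      simp only [Sum.elim_inr, mem_singleton]
      rintro x rfl y rfl
      exact fun h5 => hne' (hv3 ((hv1 a).antichain hsz (hv1 a') h5))
  · intro h5
    simp only [Prod.mk.injEq] at h5
    exact h.ne h5.1
  · rintro (i | a)
    · simp only [Sum.elim_inl, mem_insert, mem_map, RelEmbedding.coe_toEmbedding]
      rintro x (rfl | ⟨x, hx, rfl⟩) h0
      · -- low w
        intro h5
        have h6 : (p i).1 ≤ T2 := by rw [← h1]; exact h5.1
        rcases h2 i with h7 | h7
        · have h8 := hmid i _ (hp i) h7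
          rw [h8] at h6
          have h9 : ¬ T2 ≤ T := fun h9 => h.ne (le_antisymm h9 h6)
          have h10 := h5.2
          simp only [hv8 h9] at h10
          exact (hw i).ne_empty hM (Finset.subset_empty.mp h10)
        · rw [h0] at h7
          exact h.low i _ (hp i) h7.symm h6
      · intro h5
        exact h.low i x hx h0 h5.1
    · simp only [Sum.elim_inr, mem_singleton]
      rintro x rfl h0
      exact hv5 a h0
  · rintro (i | a)
    · simp only [Sum.elim_inl, mem_insert, mem_map, RelEmbedding.coe_toEmbedding]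
      rintro x (rfl | ⟨x, hx, rfl⟩) h0
      · -- high w
        intro h5
        have h6 : T2 ≤ (p i).1 := by rw [← h1]; exact h5.1
        rcases h2 i with h7 | h7
        · have h8 := hmid i _ (hp i) h7
          rw [h8] at h6
          have h10 := h5.2
          simp only [hv7 h6] at h10
          exact (hw i).ne_univ hZ (Finset.univ_subset_iff.mp h10)
        · rw [h0] at h7
          exact h.high i _ (hp i) h7.symm h6
      · intro h5
        exact h.high i x hx h0 h5.1
    · simp only [Sum.elim_inr, mem_singleton]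
      rintro x rfl h0
      exact hv6 a h0

lemma GoodIn.opA {sz : B → ℕ} (hsz : StrictMono sz) {M : ℕ} (hM : ∀ b, sz b ≤ M) {κ : Type}
    (hZ : M + 3 ≤ Fintype.card Z)
    (hV : ∀ s, 1 ≤ s → s ≤ M + 2 → ∃ ζ : κ → Finset Z, Function.Injective ζ ∧ ∀ a, (ζ a).card = s)
    {ι : Type} {lam : ι → ℕ} (hpos : ∀ i, 0 < lam i) (h : GoodIn B lam) :
    GoodIn (B × Finset Z) (Sum.elim (fun i => lam i + 1) (fun _ => 1) : ι ⊕ κ → ℕ) := by
  obtain ⟨F, h1, h2, h3⟩ := h
  refine ⟨newF sz (M + 2) F, ?_, ?_, ?_⟩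
  · rintro x (hx | ⟨x, hx, rfl⟩)
    · exact isW.lev hx
    · exact h1 x hx
  · exact fun h => newF_free hsz h2 h
  · rintro ⟨T, τ⟩
    obtain ⟨c, T2, h4⟩ := h3 T
    exact opA_catch hsz hM hZ hV h1 hpos h4 τ

end OpA

/-- `lam` is good in some finite Boolean lattice -/
def IGood {ι : Type} (lam : ι → ℕ) : Prop :=
  ∃ (X : Type) (_ : Fintype X), GoodIn (Finset X) lam

lemma IGood.reindex {ι ι' : Type} {lam : ι → ℕ} (h : IGood lam) {lam' : ι' → ℕ}
    (e : ι' ≃ ι) (he : ∀ i, lam' i = lam (e i)) : IGood lam' := by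
  obtain ⟨X, hX, h⟩ := h
  refine ⟨X, hX, ?_⟩
  have := h.reindex e
  rw [show lam' = fun i => lam (e i) from funext he]
  exact this

lemma IGood.opA {ι : Type} {lam : ι → ℕ} (hpos : ∀ i, 0 < lam i) (h : IGood lam) (j : ℕ) :
    IGood (Sum.elim (fun i => lam i + 1) (fun _ => 1) : ι ⊕ Fin j → ℕ) := by
  classical
  obtain ⟨X, hX, h⟩ := h
  refine ⟨X ⊕ (Fin j ⊕ Fin (Fintype.card X + 3)), inferInstance, ?_⟩
  have h1 : GoodIn (Finset X × Finset (Fin j ⊕ Fin (Fintype.card X + 3)))
    (Sum.elim (fun i => lam i + 1) (fun _ => 1) : ι ⊕ Fin j → ℕ) := by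
    refine GoodIn.opA (sz := fun s : Finset X => s.card) (fun a b hab => Finset.card_lt_card hab)
      (M := Fintype.card X) (fun b => Finset.card_le_univ b) ?_ ?_ hpos h
    · simp
    · intro s hs1 hs2
      obtain ⟨A, -, hA⟩ := Finset.exists_subset_card_eq
        (s := (univ : Finset (Fin (Fintype.card X + 3)))) (n := s - 1)
        (by rw [card_univ, Fintype.card_fin]; omega)
      refine ⟨fun a => Finset.disjSum {a} A, ?_, ?_⟩
      · intro a b hab
        have h2 : Sum.inl a ∈ Finset.disjSum {b} A := by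
          rw [← show Finset.disjSum {a} A = Finset.disjSum {b} A from hab]
          simp
        simpa using h2
      · intro a
        rw [card_disjSum, card_singleton, hA]
        omega
  exact h1.congr Finset.sumEquiv.symm

end Pool.Agent.R128.ChainSat
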