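import Pool.Agent.R128.ChainSat

/-!
# Bounded induced saturation numbers for unions of chains: the base case
-/

namespace Pool.Agent.R128.ChainSat

set_option linter.unusedVariables false
set_option linter.unusedSectionVars false

open Finset

lemma exists_flag {Z : Type} [Fintype Z] [DecidableEq Z] (t : Finset Z) :
    ∃ Φ : ℕ → Finset Z, Monotone Φ ∧ (∀ s ≤ Fintype.card Z, (Φ s).card = s) ∧ Φ t.card = t := by
  have hnd : (t.toList ++ tᶜ.toList).Nodup := by
    rw [List.nodup_append']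
    refine ⟨t.nodup_toList, tᶜ.nodup_toList, ?_⟩
    intro x hx hx'
    simp at hx hx'
    exact hx' hx
  refine ⟨fun s => ((t.toList ++ tᶜ.toList).take s).toFinset, ?_, ?_, ?_⟩
  · intro a b hab x hx
    simp only [List.mem_toFinset] at hx ⊢
    exact (List.take_subset_take_left _ hab) hx
  · intro s hs
    rw [List.toFinset_card_of_nodup (hnd.sublist (List.take_sublist _ _)), List.length_take,
      List.length_append, length_toList, length_toList, card_add_card_compl]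
    omega
  · show ((t.toList ++ tᶜ.toList).take t.card).toFinset = t
    rw [List.take_left' (by simp)]
    simp

lemma chain_image {α : Type} [PartialOrder α] [DecidableEq α] (s : Finset ℕ) (f : ℕ → α)
    (hf : ∀ i ∈ s, ∀ j ∈ s, i < j → f i < f j) :
    (s.image f).card = s.card ∧ ∀ a ∈ s.image f, ∀ b ∈ s.image f, a ≤ b ∨ b ≤ a := by
  constructor
  · apply card_image_of_injOn
    intro i hi j hj hij
    by_contra hne
    rcases lt_or_gt_of_ne hne with h | h
    · exact (hf i hi j hj h).ne hij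
    · exact (hf j hj i hi h).ne hij.symm
  · intro a ha b hb
    simp only [mem_image] at ha hb
    obtain ⟨i, hi, rfl⟩ := ha
    obtain ⟨j, hj, rfl⟩ := hb
    rcases lt_trichotomy i j with h | h | h
    · exact Or.inl (hf i hi j hj h).le
    · subst h; exact Or.inl le_rfl
    · exact Or.inr (hf j hj i hi h).le

section Base

variable {R J Z : Type} [Fintype R] [DecidableEq R] [Fintype J] [DecidableEq J] [Fintype Z]
  [DecidableEq Z]

def FK (k : ℕ) (A : Finset Z) (l : Fin 3) : Prop :=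
  (l = 0 ∧ (A = ∅ ∨ (2 ≤ A.card ∧ A.card ≤ k))) ∨
    (l = 2 ∧ ((1 ≤ A.card ∧ A.card + 1 ≤ k) ∨ A = univ))

def FW (k : ℕ) (Ψ : ℕ → Finset Z) (A : Finset Z) (l : Fin 3) : Prop :=
  l = 0 ∧ ∃ i, i + 2 ≤ k ∧ A = Ψ i

def baseF (R J : Type) (k : ℕ) (Ψ : ℕ → Finset Z) :
    Set ((Finset ((R ⊕ J) ⊕ Bool) × Finset Z) × Fin 3) :=
  {p | (∃ m : R, p.1.1 = {Sum.inl (Sum.inl m)} ∧ FK k p.1.2 p.2) ∨
    ∃ a : J, p.1.1 = {Sum.inl (Sum.inr a)} ∧ FW k Ψ p.1.2 p.2}

lemma FK.comparable {k : ℕ} {u : Finset ((R ⊕ J) ⊕ Bool)} {s : Finset ((Finset ((R ⊕ J) ⊕ Bool) × Finset Z) × Fin 3)}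
    (hs : ∀ p ∈ s, p.1.1 = u ∧ FK k p.1.2 p.2) (hcard : s.card = k) (hk : 2 ≤ k)
    (hch : ∀ a ∈ s, ∀ b ∈ s, a ≤ b ∨ b ≤ a) :
    ∃ z ∈ s, ∀ q : (Finset ((R ⊕ J) ⊕ Bool) × Finset Z) × Fin 3, q.1.1 = u → z ≤ q ∨ q ≤ z := by
  by_cases h1 : (((u, ∅), 0) : (Finset ((R ⊕ J) ⊕ Bool) × Finset Z) × Fin 3) ∈ s
  · refine ⟨_, h1, ?_⟩
    rintro ⟨⟨q1, q2⟩, q3⟩ hq
    left
    simp only at hq
    subst hq
    simp [Prod.mk_le_mk]
  by_cases h2 : (((u, univ), 2) : (Finset ((R ⊕ J) ⊕ Bool) × Finset Z) × Fin 3) ∈ s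
  · refine ⟨_, h2, ?_⟩
    rintro ⟨⟨q1, q2⟩, q3⟩ hq
    right
    simp only at hq
    subst hq
    simp [Prod.mk_le_mk]
    omega
  exfalso
  let rk : (Finset ((R ⊕ J) ⊕ Bool) × Finset Z) × Fin 3 → ℕ :=
    fun p => if p.2 = 0 then p.1.2.card - 1 else p.1.2.card
  have hrk : ∀ p ∈ s, 1 ≤ rk p ∧ rk p < k := by
    intro p hp
    obtain ⟨h3, h4⟩ := hs p hp
    obtain ⟨⟨p1, p2⟩, p3⟩ := p
    simp only at h3 h4
    subst h3
    rcases h4 with ⟨rfl, rfl | ⟨h5, h6⟩⟩ | ⟨rfl, ⟨h5, h6⟩ | rfl⟩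
    · exact absurd hp h1
    · simp only [rk, if_true]; omega
    · simp only [rk, if_neg (show (2 : Fin 3) ≠ 0 by decide)]; omega
    · exact absurd hp h2
  have hmono : ∀ p ∈ s, ∀ q ∈ s, p < q → rk p < rk q := by
    intro p hp q hq hpq
    obtain ⟨h3, h4⟩ := hs p hp
    obtain ⟨h3', h4'⟩ := hs q hq
    have hr := hrk p hp
    obtain ⟨⟨p1, p2⟩, p3⟩ := p
    obtain ⟨⟨q1, q2⟩, q3⟩ := q
    simp only at h3 h4 h3' h4'
    subst h3 h3'
    have hle := hpq.le
    have hne := hpq.ne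
    simp only [Prod.mk_le_mk] at hle
    have hc := card_le_card hle.1.2
    have hlt : p2 ≠ q2 → p2.card < q2.card := fun h => card_lt_card (lt_of_le_of_ne hle.1.2 h)
    rcases h4 with ⟨rfl, h4⟩ | ⟨rfl, h4⟩ <;> rcases h4' with ⟨rfl, h4'⟩ | ⟨rfl, h4'⟩
    · have h6 : p2 ≠ q2 := fun h => hne (by rw [h])
      have h7 := hlt h6
      simp only [rk, if_true] at hr ⊢
      omega
    · simp only [rk, if_true, if_neg (show (2 : Fin 3) ≠ 0 by decide)] at hr ⊢
      omega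
    · exact absurd hle.2 (by decide)
    · have h6 : p2 ≠ q2 := fun h => hne (by rw [h])
      have h7 := hlt h6
      simp only [rk, if_neg (show (2 : Fin 3) ≠ 0 by decide)] at hr ⊢
      omega
  have hinj : Set.InjOn rk s := by
    intro p hp q hq hpq
    by_contra hne
    rcases hch p hp q hq with h | h
    · exact (hmono p hp q hq (lt_of_le_of_ne h hne)).ne hpq
    · exact (hmono q hq p hp (lt_of_le_of_ne h (Ne.symm hne))).ne hpq.symm
  have h5 : (s.image rk).card = s.card := card_image_of_injOn hinj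
  have h6 : s.image rk ⊆ Icc 1 (k - 1) := by
    intro x hx
    simp only [mem_image] at hx
    obtain ⟨p, hp, rfl⟩ := hx
    have := hrk p hp
    rw [mem_Icc]
    omega
  have h7 := card_le_card h6
  rw [h5, hcard, Nat.card_Icc] at h7
  omega

lemma base_free {k : ℕ} (hk : 2 ≤ k) {Ψ : ℕ → Finset Z} (hΨ : Monotone Ψ) :
    ¬ ∃ c, IsCopy (Sum.elim (fun _ => k) (fun _ => 1) : R ⊕ Option J → ℕ) (baseF R J k Ψ) c := by
  rintro ⟨c, hc⟩
  have hne : ∀ i, (c i).Nonempty := by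
    intro i
    rw [← card_pos, hc.card i]
    rcases i with i | i
    · simp; omega
    · simp
  choose x hx using hne
  have hcol : ∀ i, ∃ u : R ⊕ J, ∀ p ∈ c i, p.1.1 = {Sum.inl u} := by
    intro i
    have key : ∀ p ∈ c i, ∃ u : R ⊕ J, p.1.1 = {Sum.inl u} := by
      intro p hp
      rcases hc.sub i p hp with ⟨m, h1, -⟩ | ⟨a, h1, -⟩
      · exact ⟨_, h1⟩
      · exact ⟨_, h1⟩
    obtain ⟨u, hu⟩ := key (x i) (hx i)
    refine ⟨u, ?_⟩
    intro p hp
    obtain ⟨v, hv⟩ := key p hp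
    rcases hc.chain i p hp (x i) (hx i) with h | h
    · have := h.1.1
      rw [hu, hv] at this
      simp at this
      rw [hv, this]
    · have := h.1.1
      rw [hu, hv] at this
      simp at this
      rw [hv, this]
  choose χ hχ using hcol
  have step1 : ∀ l : R, ∃ m : R, χ (Sum.inl l) = Sum.inl m := by
    intro l
    rcases h : χ (Sum.inl l) with m | a
    · exact ⟨m, rfl⟩
    · exfalso
      have h1 : c (Sum.inl l) ⊆ (range (k - 1)).image
          (fun i => (((({Sum.inl (Sum.inr a)} : Finset ((R ⊕ J) ⊕ Bool)), Ψ i), 0) :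
            (Finset ((R ⊕ J) ⊕ Bool) × Finset Z) × Fin 3)) := by
        intro p hp
        have h2 := hχ _ p hp
        rw [h] at h2
        rcases hc.sub _ p hp with ⟨m, h3, -⟩ | ⟨a', h3, h4, i, h5, h6⟩
        · rw [h2] at h3; simp at h3
        · rw [mem_image]
          refine ⟨i, by rw [mem_range]; omega, ?_⟩
          rw [← h2, ← h6, ← h4]
      have h2 := card_le_card h1
      have h3 := hc.card (Sum.inl l)
      have h4 := card_image_le (s := range (k - 1)) (f := (fun i => (((({Sum.inl (Sum.inr a)} : Finset ((R ⊕ J) ⊕ Bool)), Ψ i), 0) :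
            (Finset ((R ⊕ J) ⊕ Bool) × Finset Z) × Fin 3)))
      simp only [Sum.elim_inl, card_range] at h3 h4
      omega
  choose m hm using step1
  have step2 : ∀ l : R, ∃ z ∈ c (Sum.inl l), ∀ q : (Finset ((R ⊕ J) ⊕ Bool) × Finset Z) × Fin 3,
      q.1.1 = {Sum.inl (Sum.inl (m l))} → z ≤ q ∨ q ≤ z := by
    intro l
    refine FK.comparable (k := k) ?_ (by simpa using hc.card (Sum.inl l)) hk (hc.chain _)
    intro p hp
    have h2 := hχ _ p hp
    rw [hm] at h2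
    refine ⟨h2, ?_⟩
    rcases hc.sub _ p hp with ⟨m', h3, h4⟩ | ⟨a', h3, h4, i, h5, h6⟩
    · exact h4
    · rw [h2] at h3; simp at h3
  have step3 : ∀ i l, χ i = Sum.inl (m l) → i = Sum.inl l := by
    intro i l h
    by_contra hne
    obtain ⟨z, hz1, hz2⟩ := step2 l
    rcases hz2 (x i) (by rw [hχ i _ (hx i), h]) with h1 | h1
    · exact hc.inc _ _ (Ne.symm hne) z hz1 _ (hx i) h1
    · exact hc.inc _ _ hne _ (hx i) z hz1 h1
  have step4 : Function.Injective m := by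
    intro l l' h
    have := step3 (Sum.inl l') l (by rw [hm, h])
    simpa using this.symm
  have hsurj : Function.Surjective m := Finite.injective_iff_surjective.mp step4
  have step5 : Function.Injective χ := by
    intro i i' h
    rcases h1 : χ i with y | a
    · obtain ⟨l, rfl⟩ := hsurj y
      rw [step3 i l h1, step3 i' l (by rw [← h, h1])]
    · by_contra hne
      have h2 := hχ i _ (hx i)
      have h3 := hχ i' _ (hx i')
      rw [h1] at h2
      rw [← h, h1] at h3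
      rcases hc.sub _ _ (hx i) with ⟨m', h4, -⟩ | ⟨a1, -, h4, j, h5, h6⟩
      · rw [h2] at h4; simp at h4
      rcases hc.sub _ _ (hx i') with ⟨m', h4', -⟩ | ⟨a1', -, h4', j', h5', h6'⟩
      · rw [h3] at h4'; simp at h4'
      rcases le_total j j' with h7 | h7
      · refine hc.inc i i' hne _ (hx i) _ (hx i') ⟨⟨?_, ?_⟩, ?_⟩
        · rw [h2, h3]
        · rw [h6, h6']; exact hΨ h7
        · rw [h4, h4']
      · refine hc.inc i' i (Ne.symm hne) _ (hx i') _ (hx i) ⟨⟨?_, ?_⟩, ?_⟩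
        · rw [h2, h3]
        · rw [h6, h6']; exact hΨ h7
        · rw [h4, h4']
  have := Fintype.card_le_of_injective χ step5
  simp at this

/-- elements in a given column -/
abbrev el (u : R ⊕ J) (A : Finset Z) (l : Fin 3) :
    (Finset ((R ⊕ J) ⊕ Bool) × Finset Z) × Fin 3 := (({Sum.inl u}, A), l)

lemma el_not_le {u v : R ⊕ J} (h : u ≠ v) (A A' : Finset Z) (l l' : Fin 3) :
    ¬ el u A l ≤ el v A' l' := by
  intro h'
  have := h'.1.1
  simp at this
  exact h this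

/-- low chain in the column of `m` -/
def lowC (m : R) (k : ℕ) (Φ : ℕ → Finset Z) :
    Finset ((Finset ((R ⊕ J) ⊕ Bool) × Finset Z) × Fin 3) :=
  (range k).image (fun i => el (Sum.inl m) (Φ (if i = 0 then 0 else i + 1)) 0)

/-- high chain in the column of `m` -/
def highC (m : R) (k : ℕ) (Φ : ℕ → Finset Z) :
    Finset ((Finset ((R ⊕ J) ⊕ Bool) × Finset Z) × Fin 3) :=
  (range k).image (fun i => el (Sum.inl m) (Φ (if i + 1 = k then Fintype.card Z else i + 1)) 2)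

lemma flag_lt {Φ : ℕ → Finset Z} (hΦ : Monotone Φ) (hΦc : ∀ s ≤ Fintype.card Z, (Φ s).card = s)
    {a b : ℕ} (hab : a < b) (hb : b ≤ Fintype.card Z) : Φ a < Φ b := by
  refine lt_of_le_of_ne (hΦ hab.le) ?_
  intro h
  have h1 := hΦc a (by omega)
  have h2 := hΦc b hb
  rw [h] at h1
  omega

lemma el_lt {u : R ⊕ J} {A A' : Finset Z} {l l' : Fin 3} (h : A < A') (hl : l ≤ l') :
    el u A l < el u A' l' := by
  refine lt_of_le_of_ne ⟨⟨le_rfl, h.le⟩, hl⟩ ?_
  intro h'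
  simp only [el, Prod.mk.injEq, true_and] at h'
  exact h.ne h'.1

lemma el_lt' {u : R ⊕ J} {A A' : Finset Z} {l l' : Fin 3} (h : A ≤ A') (hl : l < l') :
    el u A l < el u A' l' := by
  refine lt_of_le_of_ne ⟨⟨le_rfl, h⟩, hl.le⟩ ?_
  intro h'
  simp only [el, Prod.mk.injEq, true_and] at h'
  exact hl.ne h'.2

lemma lowC_card (m : R) {k : ℕ} {Φ : ℕ → Finset Z} (hΦ : Monotone Φ)
    (hΦc : ∀ s ≤ Fintype.card Z, (Φ s).card = s) (hk : k + 1 ≤ Fintype.card Z) :
    (lowC (J := J) m k Φ).card = k ∧ ∀ a ∈ lowC (J := J) m k Φ, ∀ b ∈ lowC (J := J) m k Φ, a ≤ b ∨ b ≤ a := by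
  have := chain_image (range k) (fun i => el (J := J) (Sum.inl m) (Φ (if i = 0 then 0 else i + 1)) 0)
    (by
      intro i hi j hj hij
      simp only [mem_range] at hi hj
      refine el_lt (flag_lt hΦ hΦc ?_ ?_) le_rfl
      · split_ifs <;> omega
      · split_ifs <;> omega)
  rw [card_range] at this
  exact this

lemma highC_card (m : R) {k : ℕ} {Φ : ℕ → Finset Z} (hΦ : Monotone Φ)
    (hΦc : ∀ s ≤ Fintype.card Z, (Φ s).card = s) (hk : k + 1 ≤ Fintype.card Z) :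
    (highC (J := J) m k Φ).card = k ∧ ∀ a ∈ highC (J := J) m k Φ, ∀ b ∈ highC (J := J) m k Φ, a ≤ b ∨ b ≤ a := by
  have := chain_image (range k) (fun i => el (J := J) (Sum.inl m)
    (Φ (if i + 1 = k then Fintype.card Z else i + 1)) 2)
    (by
      intro i hi j hj hij
      simp only [mem_range] at hi hj
      refine el_lt (flag_lt hΦ hΦc ?_ ?_) le_rfl
      · split_ifs <;> omega
      · split_ifs <;> omega)
  rw [card_range] at this
  exact this

lemma mem_lowC {m : R} {k : ℕ} {Φ : ℕ → Finset Z}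
    (hΦc : ∀ s ≤ Fintype.card Z, (Φ s).card = s) (hk : k + 1 ≤ Fintype.card Z)
    {p : (Finset ((R ⊕ J) ⊕ Bool) × Finset Z) × Fin 3} (hp : p ∈ lowC m k Φ) :
    ∃ A, p = el (Sum.inl m) A 0 ∧ FK k A 0 := by
  simp only [lowC, mem_image, mem_range] at hp
  obtain ⟨i, hi, rfl⟩ := hp
  refine ⟨_, rfl, Or.inl ⟨rfl, ?_⟩⟩
  split_ifs with h
  · left
    rw [← card_eq_zero, hΦc 0 (by omega)]
  · right
    rw [hΦc (i + 1) (by omega)]
    omega

lemma mem_highC {m : R} {k : ℕ} {Φ : ℕ → Finset Z}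
    (hΦc : ∀ s ≤ Fintype.card Z, (Φ s).card = s) (hk : k + 1 ≤ Fintype.card Z)
    {p : (Finset ((R ⊕ J) ⊕ Bool) × Finset Z) × Fin 3} (hp : p ∈ highC m k Φ) :
    ∃ A, p = el (Sum.inl m) A 2 ∧ FK k A 2 := by
  simp only [highC, mem_image, mem_range] at hp
  obtain ⟨i, hi, rfl⟩ := hp
  refine ⟨_, rfl, Or.inr ⟨rfl, ?_⟩⟩
  split_ifs with h
  · right
    rw [← card_eq_iff_eq_univ, hΦc _ le_rfl]
  · left
    rw [hΦc (i + 1) (by omega)]
    omega

lemma mem_baseF_K {k : ℕ} {Ψ : ℕ → Finset Z} {m : R} {A : Finset Z} {l : Fin 3} (h : FK k A l) :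
    el (Sum.inl m) A l ∈ baseF R J k Ψ := Or.inl ⟨m, rfl, h⟩

lemma mem_baseF_W {k : ℕ} {Ψ : ℕ → Finset Z} {a : J} {A : Finset Z} {l : Fin 3} (h : FW k Ψ A l) :
    el (Sum.inr a) A l ∈ baseF R J k Ψ := Or.inr ⟨a, rfl, h⟩

lemma FW_top {k : ℕ} (hk : 2 ≤ k) (Ψ : ℕ → Finset Z) : FW k Ψ (Ψ (k - 2)) 0 :=
  ⟨rfl, k - 2, by omega, rfl⟩

/-- Case (i): `T = (∅, t)`. -/
lemma catch_i {k : ℕ} (hk : 2 ≤ k) (hkZ : k + 1 ≤ Fintype.card Z) {Ψ : ℕ → Finset Z}
    (hΨ : Monotone Ψ) (hΨc : ∀ s ≤ Fintype.card Z, (Ψ s).card = s) (t : Finset Z) :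
    ∃ c T2, Catch (Sum.elim (fun _ => k) (fun _ => 1) : R ⊕ Option J → ℕ) (baseF R J k Ψ)
      (∅, t) T2 c := by
  have : Nonempty Z := Fintype.card_pos_iff.mp (by omega)
  obtain ⟨t2, ht2⟩ := exists_ne t
  let c : R ⊕ Option J → Finset ((Finset ((R ⊕ J) ⊕ Bool) × Finset Z) × Fin 3) := fun i =>
    match i with
    | Sum.inl l => lowC l k Ψ
    | Sum.inr (some a) => {el (Sum.inr a) (Ψ (k - 2)) 0}
    | Sum.inr none => {((∅, t), 1)}
  have hcol : ∀ i, ∀ p ∈ c i, (∃ A, p.1.2 = A ∧ p.2 = 0 ∧ ((∃ l, i = Sum.inl l ∧ p.1.1 = {Sum.inl (Sum.inl l)}) ∨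
      (∃ a, i = Sum.inr (some a) ∧ p.1.1 = {Sum.inl (Sum.inr a)}))) ∨ (i = Sum.inr none ∧ p = ((∅, t), 1)) := by
    rintro (l | (_ | a)) p hp
    · left
      obtain ⟨A, rfl, -⟩ := mem_lowC hΨc hkZ hp
      exact ⟨A, rfl, rfl, Or.inl ⟨l, rfl, rfl⟩⟩
    · right
      simp only [c, mem_singleton] at hp
      exact ⟨rfl, hp⟩
    · left
      simp only [c, mem_singleton] at hp
      subst hp
      exact ⟨_, rfl, rfl, Or.inr ⟨a, rfl, rfl⟩⟩
  refine ⟨c, (∅, t2), ⟨?_, ?_, ?_, ?_⟩, ?_, ?_, ?_⟩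
  · rintro (l | (_ | a))
    · exact (lowC_card l hΨ hΨc hkZ).1
    · simp [c]
    · simp [c]
  · rintro (l | (_ | a))
    · exact (lowC_card l hΨ hΨc hkZ).2
    · simp [c]
    · simp [c]
  · rintro (l | (_ | a)) p hp
    · obtain ⟨A, rfl, hA⟩ := mem_lowC hΨc hkZ hp
      exact Or.inr (mem_baseF_K hA)
    · simp only [c, mem_singleton] at hp
      subst hp
      exact Or.inl rfl
    · simp only [c, mem_singleton] at hp
      subst hp
      exact Or.inr (mem_baseF_W (FW_top hk Ψ))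
  · intro i i' hne p hp q hq hpq
    rcases hcol i p hp with ⟨A, -, h2, h3⟩ | ⟨rfl, rfl⟩ <;>
      rcases hcol i' q hq with ⟨A', -, h2', h3'⟩ | ⟨rfl, rfl⟩
    · have h4 := hpq.1.1
      rcases h3 with ⟨l, rfl, h5⟩ | ⟨a, rfl, h5⟩ <;> rcases h3' with ⟨l', rfl, h5'⟩ | ⟨a', rfl, h5'⟩ <;>
        rw [h5, h5'] at h4 <;> simp at h4 <;> simp_all
    · have h4 := hpq.1.1
      rcases h3 with ⟨l, rfl, h5⟩ | ⟨a, rfl, h5⟩ <;> rw [h5] at h4 <;> simp at h4
    · have := hpq.2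
      rw [h2'] at this
      simp at this
    · exact hne rfl
  · intro h
    simp only [Prod.mk.injEq, true_and] at h
    exact ht2 h
  · intro i p hp h0 h
    have h4 := h.1
    rcases hcol i p hp with ⟨A, -, h2, h3⟩ | ⟨rfl, rfl⟩
    · rcases h3 with ⟨l, rfl, h5⟩ | ⟨a, rfl, h5⟩ <;> rw [h5] at h4 <;> simp at h4
    · simp at h0
  · intro i p hp h0 h
    rcases hcol i p hp with ⟨A, -, h2, h3⟩ | ⟨rfl, rfl⟩
    · rw [h2] at h0; simp at h0
    · simp at h0

lemma el_le_iff {u : R ⊕ J} {A A' : Finset Z} {l l' : Fin 3} :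
    el u A l ≤ el u A' l' ↔ A ⊆ A' ∧ l ≤ l' := by
  simp [el, Prod.mk_le_mk]

/-- the part of the caught chain in case (ii) -/
def eii (t : Finset Z) (Φ : ℕ → Finset Z) (m : R) (i : ℕ) :
    (Finset ((R ⊕ J) ⊕ Bool) × Finset Z) × Fin 3 :=
  if i < t.card then el (Sum.inl m) (Φ (i + 1)) 0 else el (Sum.inl m) (Φ i) 2

lemma exists_vii {k : ℕ} (hk : 2 ≤ k) (hkZ : k + 1 ≤ Fintype.card Z) {t : Finset Z}
    {Φ : ℕ → Finset Z} (hΦ : Monotone Φ) (hΦc : ∀ s ≤ Fintype.card Z, (Φ s).card = s)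
    (hΦt : Φ t.card = t) (m : R) :
    ∃ (V : Finset Z) (lv : Fin 3) (ρ : Finset Z), FK k V lv ∧
      (∀ i, 1 ≤ i → i + 1 ≤ k → ¬ eii (J := J) t Φ m i ≤ el (Sum.inl m) V lv ∧
        ¬ el (Sum.inl m) V lv ≤ eii (J := J) t Φ m i) ∧
      (¬ el (J := J) (Sum.inl m) t 1 ≤ el (Sum.inl m) V lv) ∧
      (¬ el (J := J) (Sum.inl m) V lv ≤ el (Sum.inl m) t 1) ∧
      (∀ i, i + 1 ≤ k → t.card ≤ i → ¬ ρ ⊆ Φ i) ∧ (lv = 2 → ¬ ρ ⊆ V) := by
  by_cases ht : t.card < k
  · have h1 : 2 ≤ ((Φ (k - 1))ᶜ).card := by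
      rw [card_compl, hΦc _ (by omega)]; omega
    obtain ⟨V, hV, hVc⟩ := exists_subset_card_eq h1
    have hVne : V.Nonempty := by rw [← card_pos]; omega
    obtain ⟨y, hy⟩ := hVne
    have hyn : ∀ i, i + 1 ≤ k → y ∉ Φ i := by
      intro i hi hyi
      have h2 := hV hy
      rw [mem_compl] at h2
      exact h2 (hΦ (show i ≤ k - 1 by omega) hyi)
    refine ⟨V, 0, {y}, Or.inl ⟨rfl, Or.inr ⟨by omega, by omega⟩⟩, ?_, ?_, ?_, ?_, ?_⟩
    · intro i hi1 hi2
      unfold eii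
      split_ifs with h
      · rw [el_le_iff, el_le_iff]
        have h3 : ¬ V ⊆ Φ (i + 1) := fun h4 => hyn (i + 1) (by omega) (h4 hy)
        refine ⟨?_, fun h4 => h3 h4.1⟩
        intro h4
        have h5 := eq_of_subset_of_card_le h4.1 (by rw [hVc, hΦc _ (by omega)]; omega)
        rw [h5] at h3
        exact h3 subset_rfl
      · rw [el_le_iff, el_le_iff]
        refine ⟨fun h4 => absurd h4.2 (by decide), fun h4 => hyn i hi2 (h4.1 hy)⟩
    · rw [el_le_iff]
      exact fun h4 => absurd h4.2 (by decide)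
    · rw [el_le_iff]
      intro h4
      refine hyn t.card (by omega) ?_
      rw [hΦt]
      exact h4.1 hy
    · intro i hi1 hi2 h3
      exact hyn i hi1 (h3 (mem_singleton_self y))
    · intro h
      exact absurd h (by decide)
  · have : Nonempty Z := Fintype.card_pos_iff.mp (by omega)
    obtain ⟨z⟩ := this
    refine ⟨{z}, 2, univ, Or.inr ⟨rfl, Or.inl ⟨by simp, by simp; omega⟩⟩, ?_, ?_, ?_, ?_, ?_⟩
    · intro i hi1 hi2
      unfold eii
      rw [if_pos (by omega)]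
      rw [el_le_iff, el_le_iff]
      refine ⟨?_, fun h4 => absurd h4.2 (by decide)⟩
      intro h4
      have h5 := card_le_card h4.1
      rw [hΦc _ (by omega), card_singleton] at h5
      omega
    · rw [el_le_iff]
      intro h4
      have h5 := card_le_card h4.1
      rw [card_singleton] at h5
      omega
    · rw [el_le_iff]
      exact fun h4 => absurd h4.2 (by decide)
    · intro i hi1 hi2
      omega
    · intro _ h
      have h5 := card_le_card h
      rw [card_univ, card_singleton] at h5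
      omega

/-- the caught chain in case (ii) -/
def cii (t : Finset Z) (Φ : ℕ → Finset Z) (m : R) (k : ℕ) :
    Finset ((Finset ((R ⊕ J) ⊕ Bool) × Finset Z) × Fin 3) :=
  insert (el (Sum.inl m) t 1) ((Icc 1 (k - 1)).image (eii t Φ m))

lemma cii_props {k : ℕ} (hk : 2 ≤ k) (hkZ : k + 1 ≤ Fintype.card Z) {t : Finset Z}
    {Φ : ℕ → Finset Z} (hΦ : Monotone Φ) (hΦc : ∀ s ≤ Fintype.card Z, (Φ s).card = s)
    (hΦt : Φ t.card = t) (m : R) :
    (cii (J := J) t Φ m k).card = k ∧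
      (∀ a ∈ cii (J := J) t Φ m k, ∀ b ∈ cii (J := J) t Φ m k, a ≤ b ∨ b ≤ a) ∧
      (∀ a ∈ cii (J := J) t Φ m k, a = el (Sum.inl m) t 1 ∨
        ∃ i, 1 ≤ i ∧ i + 1 ≤ k ∧ a = eii t Φ m i) := by
  have h0 := chain_image (Icc 1 (k - 1)) (eii (J := J) t Φ m) (by
    intro i hi j hj hij
    simp only [mem_Icc] at hi hj
    unfold eii
    split_ifs with h1 h2 h2
    · exact el_lt (flag_lt hΦ hΦc (by omega) (by omega)) le_rfl
    · exact el_lt' (hΦ (by omega)) (by decide)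
    · omega
    · exact el_lt (flag_lt hΦ hΦc (by omega) (by omega)) le_rfl)
  have hSe : ∀ i, eii (J := J) t Φ m i ≤ el (Sum.inl m) t 1 ∨
      el (Sum.inl m) t 1 ≤ eii (J := J) t Φ m i := by
    intro i
    unfold eii
    split_ifs with h1
    · left
      rw [el_le_iff]
      refine ⟨?_, by decide⟩
      conv_rhs => rw [← hΦt]
      exact hΦ (by omega)
    · right
      rw [el_le_iff]
      refine ⟨?_, by decide⟩
      conv_lhs => rw [← hΦt]
      exact hΦ (by omega)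
  refine ⟨?_, ?_, ?_⟩
  · unfold cii
    rw [card_insert_of_notMem, h0.1, Nat.card_Icc]
    · omega
    · simp only [mem_image, not_exists, not_and]
      intro i _ h
      have h1 := congrArg Prod.snd h
      unfold eii at h1
      split_ifs at h1 <;> simp at h1
  · intro a ha b hb
    simp only [cii, mem_insert] at ha hb
    rcases ha with rfl | ha <;> rcases hb with rfl | hb
    · exact Or.inl le_rfl
    · simp only [mem_image] at hb
      obtain ⟨i, -, rfl⟩ := hb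
      exact (hSe i).symm
    · simp only [mem_image] at ha
      obtain ⟨i, -, rfl⟩ := ha
      exact hSe i
    · exact h0.2 a ha b hb
  · intro a ha
    simp only [cii, mem_insert, mem_image, mem_Icc] at ha
    rcases ha with rfl | ⟨i, hi, rfl⟩
    · exact Or.inl rfl
    · exact Or.inr ⟨i, hi.1, by omega, rfl⟩

lemma eii_FK {k : ℕ} (hkZ : k + 1 ≤ Fintype.card Z) {t : Finset Z}
    {Φ : ℕ → Finset Z} (hΦc : ∀ s ≤ Fintype.card Z, (Φ s).card = s) (m : R) {i : ℕ}
    (h1 : 1 ≤ i) (h2 : i + 1 ≤ k) : ∃ A l, eii (J := J) t Φ m i = el (Sum.inl m) A l ∧ FK k A l := by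
  unfold eii
  split_ifs with h
  · exact ⟨_, _, rfl, Or.inl ⟨rfl, Or.inr (by rw [hΦc _ (by omega)]; omega)⟩⟩
  · exact ⟨_, _, rfl, Or.inr ⟨rfl, Or.inl (by rw [hΦc _ (by omega)]; omega)⟩⟩

/-- Case (ii): `T = ({m}, t)`. -/
lemma catch_ii {k : ℕ} (hk : 2 ≤ k) (hkZ : k + 1 ≤ Fintype.card Z) {Ψ : ℕ → Finset Z}
    (hΨ : Monotone Ψ) (hΨc : ∀ s ≤ Fintype.card Z, (Ψ s).card = s) (t : Finset Z) (m : R) :
    ∃ c T2, Catch (Sum.elim (fun _ => k) (fun _ => 1) : R ⊕ Option J → ℕ) (baseF R J k Ψ)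
      ({Sum.inl (Sum.inl m)}, t) T2 c := by
  obtain ⟨Φ, hΦ, hΦc, hΦt⟩ := exists_flag t
  obtain ⟨V, lv, ρ, hV1, hV2, hV3, hV4, hV5, hV6⟩ := exists_vii (J := J) hk hkZ hΦ hΦc hΦt m
  obtain ⟨hc1, hc2, hc3⟩ := cii_props (J := J) hk hkZ hΦ hΦc hΦt m
  let c : R ⊕ Option J → Finset ((Finset ((R ⊕ J) ⊕ Bool) × Finset Z) × Fin 3) := fun i =>
    match i with
    | Sum.inl l => if l = m then cii t Φ m k else lowC l k Ψ
    | Sum.inr (some a) => {el (Sum.inr a) (Ψ (k - 2)) 0}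
    | Sum.inr none => {el (Sum.inl m) V lv}
  let χ : R ⊕ Option J → R ⊕ J := fun i =>
    match i with
    | Sum.inl l => Sum.inl l
    | Sum.inr (some a) => Sum.inr a
    | Sum.inr none => Sum.inl m
  have hcol : ∀ i, ∀ p ∈ c i, ∃ A l, p = el (χ i) A l := by
    rintro (l | (_ | a)) p hp
    · simp only [c] at hp
      split_ifs at hp with h
      · subst h
        rcases hc3 p hp with rfl | ⟨i, hi1, hi2, rfl⟩
        · exact ⟨_, _, rfl⟩
        · obtain ⟨A, l', h, -⟩ := eii_FK (J := J) hkZ (t := t) hΦc l hi1 hi2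
          exact ⟨A, l', h⟩
      · obtain ⟨A, rfl, -⟩ := mem_lowC hΨc hkZ hp
        exact ⟨A, _, rfl⟩
    · simp only [c, mem_singleton] at hp
      exact ⟨_, _, hp⟩
    · simp only [c, mem_singleton] at hp
      exact ⟨_, _, hp⟩
  have hvm : ∀ p ∈ c (Sum.inl m), ¬ p ≤ el (Sum.inl m) V lv ∧ ¬ el (Sum.inl m) V lv ≤ p := by
    intro p hp
    simp only [c, if_true] at hp
    rcases hc3 p hp with rfl | ⟨i, hi1, hi2, rfl⟩
    · exact ⟨hV3, hV4⟩
    · exact hV2 i hi1 hi2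
  refine ⟨c, (∅, ρ), ⟨?_, ?_, ?_, ?_⟩, ?_, ?_, ?_⟩
  · rintro (l | (_ | a))
    · simp only [c, Sum.elim_inl]
      split_ifs with h
      · exact hc1
      · exact (lowC_card l hΨ hΨc hkZ).1
    · simp [c]
    · simp [c]
  · rintro (l | (_ | a))
    · simp only [c]
      split_ifs with h
      · exact hc2
      · exact (lowC_card l hΨ hΨc hkZ).2
    · simp [c]
    · simp [c]
  · rintro (l | (_ | a)) p hp
    · simp only [c] at hp
      split_ifs at hp with h
      · subst h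
        rcases hc3 p hp with rfl | ⟨i, hi1, hi2, rfl⟩
        · exact Or.inl rfl
        · obtain ⟨A, l', h, hA⟩ := eii_FK (J := J) hkZ (t := t) hΦc l hi1 hi2
          rw [h]
          exact Or.inr (mem_baseF_K hA)
      · obtain ⟨A, rfl, hA⟩ := mem_lowC hΨc hkZ hp
        exact Or.inr (mem_baseF_K hA)
    · simp only [c, mem_singleton] at hp
      subst hp
      exact Or.inr (mem_baseF_K hV1)
    · simp only [c, mem_singleton] at hp
      subst hp
      exact Or.inr (mem_baseF_W (FW_top hk Ψ))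
  · intro i i' hne p hp q hq hpq
    by_cases hχ : χ i = χ i'
    · rcases i with l | (_ | a) <;> rcases i' with l' | (_ | a') <;> simp only [χ] at hχ
      · exact hne (congrArg Sum.inl (Sum.inl.inj hχ))
      · have := Sum.inl.inj hχ
        subst this
        simp only [c, mem_singleton] at hq
        subst hq
        exact (hvm p hp).1 hpq
      · simp at hχ
      · have := Sum.inl.inj hχ
        subst this
        simp only [c, mem_singleton] at hp
        subst hp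
        exact (hvm q hq).2 hpq
      · exact hne rfl
      · simp at hχ
      · simp at hχ
      · simp at hχ
      · exact hne (by rw [Sum.inr.inj hχ])
    · obtain ⟨A, l, rfl⟩ := hcol i p hp
      obtain ⟨A', l', rfl⟩ := hcol i' q hq
      exact el_not_le hχ _ _ _ _ hpq
  · intro h
    simp only [Prod.mk.injEq] at h
    have := h.1
    simp at this
  · intro i p hp h0 h
    have h4 := h.1
    obtain ⟨A, l, rfl⟩ := hcol i p hp
    simp at h4
  · intro i p hp h0 h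
    have h4 : ρ ⊆ p.1.2 := h.2
    rcases i with l | (_ | a)
    · simp only [c] at hp
      split_ifs at hp with h5
      · subst h5
        rcases hc3 p hp with rfl | ⟨i, hi1, hi2, rfl⟩
        · simp at h0
        · unfold eii at h0 h4
          split_ifs at h0 h4 with h6
          · simp at h0
          · exact hV5 i hi2 (by omega) h4
      · obtain ⟨A, rfl, hA⟩ := mem_lowC hΨc hkZ hp
        simp at h0
    · simp only [c, mem_singleton] at hp
      subst hp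
      exact hV6 h0 h4
    · simp only [c, mem_singleton] at hp
      subst hp
      simp at h0

/-- Case (iii-a): `T = (c, t)` with `c` nonempty, not a `K`-singleton, containing the `W`-colour
`a0` with `Ψ (k-2) ⊆ t`. -/
lemma catch_iiia {k : ℕ} (hk : 2 ≤ k) (hkZ : k + 1 ≤ Fintype.card Z)
    (hJZ : Fintype.card J + 1 ≤ Fintype.card Z) {Ψ : ℕ → Finset Z}
    (hΨ : Monotone Ψ) (hΨc : ∀ s ≤ Fintype.card Z, (Ψ s).card = s)
    (u : Finset ((R ⊕ J) ⊕ Bool)) (t : Finset Z) (hu : ∀ m : R, ¬ u ⊆ {Sum.inl (Sum.inl m)})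
    (m0 : R) (a0 : J) (ha0 : Sum.inl (Sum.inr a0) ∈ u) (ht : Ψ (k - 2) ⊆ t) :
    ∃ c T2, Catch (Sum.elim (fun _ => k) (fun _ => 1) : R ⊕ Option J → ℕ) (baseF R J k Ψ)
      (u, t) T2 c := by
  obtain ⟨z⟩ : Nonempty (Option J ↪ Z) := by
    rw [Function.Embedding.nonempty_iff_card_le, Fintype.card_option]
    exact hJZ
  have hW := chain_image (range (k - 1)) (fun i => el (R := R) (Sum.inr a0) (Ψ i) 0) (by
    intro i hi j hj hij
    simp only [mem_range] at hi hj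
    exact el_lt (flag_lt hΨ hΨc hij (by omega)) le_rfl)
  have hWS : ∀ p ∈ (range (k - 1)).image (fun i => el (R := R) (Sum.inr a0) (Ψ i) 0),
      p ≤ ((u, t), 1) := by
    intro p hp
    simp only [mem_image, mem_range] at hp
    obtain ⟨i, hi, rfl⟩ := hp
    refine ⟨⟨?_, ?_⟩, ?_⟩
    · simpa using ha0
    · exact (hΨ (show i ≤ k - 2 by omega)).trans ht
    · simp
  let c : R ⊕ Option J → Finset ((Finset ((R ⊕ J) ⊕ Bool) × Finset Z) × Fin 3) := fun i =>
    match i with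
    | Sum.inl l => if l = m0 then
        insert ((u, t), 1) ((range (k - 1)).image (fun i => el (R := R) (Sum.inr a0) (Ψ i) 0))
        else highC l k Ψ
    | Sum.inr o => {el (Sum.inl m0) {z o} 2}
  have hcol : ∀ i, ∀ p ∈ c i, (i = Sum.inl m0 ∧ p = ((u, t), 1)) ∨
      (i = Sum.inl m0 ∧ ∃ j, j + 2 ≤ k ∧ p = el (Sum.inr a0) (Ψ j) 0) ∨
      (∃ l A, i = Sum.inl l ∧ l ≠ m0 ∧ p = el (Sum.inl l) A 2 ∧ FK k A 2) ∨
      (∃ o, i = Sum.inr o ∧ p = el (Sum.inl m0) {z o} 2) := by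
    rintro (l | o) p hp
    · simp only [c] at hp
      split_ifs at hp with h
      · subst h
        simp only [mem_insert, mem_image, mem_range] at hp
        rcases hp with rfl | ⟨i, hi, rfl⟩
        · exact Or.inl ⟨rfl, rfl⟩
        · exact Or.inr (Or.inl ⟨rfl, i, by omega, rfl⟩)
      · obtain ⟨A, rfl, hA⟩ := mem_highC hΨc hkZ hp
        exact Or.inr (Or.inr (Or.inl ⟨l, A, rfl, h, rfl, hA⟩))
    · simp only [c, mem_singleton] at hp
      exact Or.inr (Or.inr (Or.inr ⟨o, rfl, hp⟩))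
  refine ⟨c, ({Sum.inr true, Sum.inr false}, ∅), ⟨?_, ?_, ?_, ?_⟩, ?_, ?_, ?_⟩
  · rintro (l | o)
    · simp only [c, Sum.elim_inl]
      split_ifs with h
      · rw [card_insert_of_notMem, hW.1, card_range]
        · omega
        · simp only [mem_image, not_exists, not_and]
          intro i _ h
          have h1 := congrArg Prod.snd h
          simp at h1
      · exact (highC_card l hΨ hΨc hkZ).1
    · simp [c]
  · rintro (l | o)
    · simp only [c]
      split_ifs with h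
      · intro a ha b hb
        simp only [mem_insert] at ha hb
        rcases ha with rfl | ha <;> rcases hb with rfl | hb
        · exact Or.inl le_rfl
        · exact Or.inr (hWS b hb)
        · exact Or.inl (hWS a ha)
        · exact hW.2 a ha b hb
      · exact (highC_card l hΨ hΨc hkZ).2
    · simp [c]
  · intro i p hp
    rcases hcol i p hp with ⟨rfl, rfl⟩ | ⟨rfl, j, hj, rfl⟩ | ⟨l, A, rfl, h1, rfl, hA⟩ | ⟨o, rfl, rfl⟩
    · exact Or.inl rfl
    · exact Or.inr (mem_baseF_W ⟨rfl, j, hj, rfl⟩)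
    · exact Or.inr (mem_baseF_K hA)
    · exact Or.inr (mem_baseF_K (Or.inr ⟨rfl, Or.inl (by rw [card_singleton]; omega)⟩))
  · intro i i' hne p hp q hq hpq
    rcases hcol i p hp with ⟨rfl, rfl⟩ | ⟨rfl, j, hj, rfl⟩ | ⟨l, A, rfl, h1, rfl, hA⟩ | ⟨o, rfl, rfl⟩ <;>
    rcases hcol i' q hq with ⟨rfl, rfl⟩ | ⟨rfl, j', hj', rfl⟩ | ⟨l', A', rfl, h1', rfl, hA'⟩ | ⟨o', rfl, rfl⟩
    · exact hne rfl
    · exact hne rfl
    · exact hu _ hpq.1.1
    · exact hu _ hpq.1.1
    · exact hne rfl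
    · exact hne rfl
    · exact el_not_le (by simp) _ _ _ _ hpq
    · exact el_not_le (by simp) _ _ _ _ hpq
    · exact absurd hpq.2 (by simp)
    · exact absurd hpq.2 (by simp)
    · refine el_not_le ?_ _ _ _ _ hpq
      intro h
      exact hne (by rw [Sum.inl.inj h])
    · refine el_not_le ?_ _ _ _ _ hpq
      intro h
      exact h1 (Sum.inl.inj h)
    · exact absurd hpq.2 (by simp)
    · exact absurd hpq.2 (by simp)
    · refine el_not_le ?_ _ _ _ _ hpq
      intro h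
      exact h1' (Sum.inl.inj h).symm
    · rw [el_le_iff] at hpq
      have := hpq.1
      simp only [singleton_subset_iff, mem_singleton, EmbeddingLike.apply_eq_iff_eq] at this
      exact hne (by rw [this])
  · intro h
    simp only [Prod.mk.injEq] at h
    rw [← h.1] at ha0
    simp at ha0
  · intro i p hp h0 h
    have h4 := h.1
    rcases hcol i p hp with ⟨rfl, rfl⟩ | ⟨rfl, j, hj, rfl⟩ | ⟨l, A, rfl, h1, rfl, hA⟩ | ⟨o, rfl, rfl⟩
    · simp at h0
    · simp at h4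
    · simp at h0
    · simp at h0
  · intro i p hp h0 h
    have h4 := h.1
    rcases hcol i p hp with ⟨rfl, rfl⟩ | ⟨rfl, j, hj, rfl⟩ | ⟨l, A, rfl, h1, rfl, hA⟩ | ⟨o, rfl, rfl⟩
    · simp at h0
    · simp at h0
    · have := h4 (show Sum.inr true ∈ _ by simp)
      simp at this
    · have := h4 (show Sum.inr true ∈ _ by simp)
      simp at this

/-- Case (iii-b). -/
lemma catch_iiib {k : ℕ} (hk : 2 ≤ k) (hkZ : k + 1 ≤ Fintype.card Z)
    {Ψ : ℕ → Finset Z}
    (hΨ : Monotone Ψ) (hΨc : ∀ s ≤ Fintype.card Z, (Ψ s).card = s)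
    (u : Finset ((R ⊕ J) ⊕ Bool)) (t : Finset Z) (hu : ∀ m : R, ¬ u ⊆ {Sum.inl (Sum.inl m)})
    (ha : ∀ a : J, Sum.inl (Sum.inr a) ∈ u → ¬ Ψ (k - 2) ⊆ t) :
    ∃ c T2, Catch (Sum.elim (fun _ => k) (fun _ => 1) : R ⊕ Option J → ℕ) (baseF R J k Ψ)
      (u, t) T2 c := by
  have : Nonempty Z := Fintype.card_pos_iff.mp (by omega)
  obtain ⟨t2, ht2⟩ := exists_ne t
  let c : R ⊕ Option J → Finset ((Finset ((R ⊕ J) ⊕ Bool) × Finset Z) × Fin 3) := fun i =>
    match i with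
    | Sum.inl l => highC l k Ψ
    | Sum.inr (some a) => {el (Sum.inr a) (Ψ (k - 2)) 0}
    | Sum.inr none => {((u, t), 1)}
  have hcol : ∀ i, ∀ p ∈ c i, (i = Sum.inr none ∧ p = ((u, t), 1)) ∨
      (∃ l A, i = Sum.inl l ∧ p = el (Sum.inl l) A 2 ∧ FK k A 2) ∨
      (∃ a, i = Sum.inr (some a) ∧ p = el (Sum.inr a) (Ψ (k - 2)) 0) := by
    rintro (l | (_ | a)) p hp
    · obtain ⟨A, rfl, hA⟩ := mem_highC hΨc hkZ hp
      exact Or.inr (Or.inl ⟨l, A, rfl, rfl, hA⟩)
    · simp only [c, mem_singleton] at hp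
      exact Or.inl ⟨rfl, hp⟩
    · simp only [c, mem_singleton] at hp
      exact Or.inr (Or.inr ⟨a, rfl, hp⟩)
  refine ⟨c, ({Sum.inr true, Sum.inr false}, t2), ⟨?_, ?_, ?_, ?_⟩, ?_, ?_, ?_⟩
  · rintro (l | (_ | a))
    · exact (highC_card l hΨ hΨc hkZ).1
    · simp [c]
    · simp [c]
  · rintro (l | (_ | a))
    · exact (highC_card l hΨ hΨc hkZ).2
    · simp [c]
    · simp [c]
  · intro i p hp
    rcases hcol i p hp with ⟨rfl, rfl⟩ | ⟨l, A, rfl, rfl, hA⟩ | ⟨a, rfl, rfl⟩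
    · exact Or.inl rfl
    · exact Or.inr (mem_baseF_K hA)
    · exact Or.inr (mem_baseF_W (FW_top hk Ψ))
  · intro i i' hne p hp q hq hpq
    rcases hcol i p hp with ⟨rfl, rfl⟩ | ⟨l, A, rfl, rfl, hA⟩ | ⟨a, rfl, rfl⟩ <;>
    rcases hcol i' q hq with ⟨rfl, rfl⟩ | ⟨l', A', rfl, rfl, hA'⟩ | ⟨a', rfl, rfl⟩
    · exact hne rfl
    · exact hu _ hpq.1.1
    · exact absurd hpq.2 (by simp)
    · exact absurd hpq.2 (by simp)
    · refine el_not_le ?_ _ _ _ _ hpq
      intro h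
      exact hne (by rw [Sum.inl.inj h])
    · exact absurd hpq.2 (by simp)
    · refine ha a ?_ hpq.1.2
      have := hpq.1.1
      simpa using this
    · exact el_not_le (by simp) _ _ _ _ hpq
    · refine el_not_le ?_ _ _ _ _ hpq
      intro h
      exact hne (by rw [Sum.inr.inj h])
  · intro h
    simp only [Prod.mk.injEq] at h
    exact ht2 h.2
  · intro i p hp h0 h
    have h4 := h.1
    rcases hcol i p hp with ⟨rfl, rfl⟩ | ⟨l, A, rfl, rfl, hA⟩ | ⟨a, rfl, rfl⟩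
    · simp at h0
    · simp at h0
    · simp at h4
  · intro i p hp h0 h
    have h4 := h.1
    rcases hcol i p hp with ⟨rfl, rfl⟩ | ⟨l, A, rfl, rfl, hA⟩ | ⟨a, rfl, rfl⟩
    · simp at h0
    · have := h4 (show Sum.inr true ∈ _ by simp)
      simp at this
    · simp at h0

lemma base_good {k : ℕ} (hk : 2 ≤ k) (hkZ : k + 1 ≤ Fintype.card Z)
    (hJZ : Fintype.card J + 1 ≤ Fintype.card Z) (m0 : R) :
    GoodIn (Finset ((R ⊕ J) ⊕ Bool) × Finset Z)
      (Sum.elim (fun _ => k) (fun _ => 1) : R ⊕ Option J → ℕ) := by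
  obtain ⟨Ψ, hΨ, hΨc, -⟩ := exists_flag (∅ : Finset Z)
  refine ⟨baseF R J k Ψ, ?_, base_free hk hΨ, ?_⟩
  · rintro p (⟨m, -, ⟨h, -⟩ | ⟨h, -⟩⟩ | ⟨a, -, h, -⟩) <;> rw [h] <;> decide
  · rintro ⟨u, t⟩
    by_cases h1 : u = ∅
    · subst h1
      exact catch_i hk hkZ hΨ hΨc t
    by_cases h2 : ∃ m : R, u ⊆ {Sum.inl (Sum.inl m)}
    · obtain ⟨m, hm⟩ := h2
      have h3 : u = {Sum.inl (Sum.inl m)} := (Finset.subset_singleton_iff.mp hm).resolve_left h1
      subst h3
      exact catch_ii hk hkZ hΨ hΨc t m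
    push Not at h2
    by_cases h3 : ∃ a : J, Sum.inl (Sum.inr a) ∈ u ∧ Ψ (k - 2) ⊆ t
    · obtain ⟨a0, ha0, ht⟩ := h3
      exact catch_iiia hk hkZ hJZ hΨ hΨc u t h2 m0 a0 ha0 ht
    · push Not at h3
      exact catch_iiib hk hkZ hΨ hΨc u t h2 h3

end Base

lemma base_IGood {k : ℕ} (hk : 2 ≤ k) (R J : Type) [Fintype R] [Fintype J] (m0 : R) :
    IGood (Sum.elim (fun _ => k) (fun _ => 1) : R ⊕ Option J → ℕ) := by
  classical
  refine ⟨((R ⊕ J) ⊕ Bool) ⊕ Fin (k + 1 + (Fintype.card J + 1)), inferInstance, ?_⟩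
  refine (base_good (R := R) (J := J) (Z := Fin (k + 1 + (Fintype.card J + 1))) hk ?_ ?_ m0).congr
    Finset.sumEquiv.symm
  · simp
  · simp

end Pool.Agent.R128.ChainSat
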