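import Pool.Agent.R128.ChainSat2

/-!
# Bounded induced saturation numbers for unions of chains: induction and the final step
-/

namespace Pool.Agent.R128.ChainSat

set_option linter.unusedVariables false
set_option linter.unusedSectionVars false

open Finset

theorem igood_of_nonconstant (K : ℕ) : ∀ (ι : Type) [Fintype ι] (lam : ι → ℕ),
    (∀ i, 0 < lam i) → (∀ i, lam i ≤ K) → (∃ a b, lam a ≠ lam b) → IGood lam := by
  induction K with
  | zero =>
    rintro ι _ lam h1 h2 ⟨a, b, -⟩
    have := h1 a
    have := h2 a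
    omega
  | succ K ih =>
    rintro ι _ lam h1 h2 ⟨a, b, hab⟩
    classical
    let e : ι ≃ {i // 1 < lam i} ⊕ {i // ¬ 1 < lam i} := (Equiv.sumCompl (fun i => 1 < lam i)).symm
    have he1 : ∀ i (h : 1 < lam i), e i = Sum.inl ⟨i, h⟩ := by
      intro i h
      exact Equiv.sumCompl_symm_apply_of_pos (p := fun i => 1 < lam i) h
    have he2 : ∀ i (h : ¬ 1 < lam i), e i = Sum.inr ⟨i, h⟩ := by
      intro i h
      exact Equiv.sumCompl_symm_apply_of_neg (p := fun i => 1 < lam i) h
    by_cases hc : ∃ a b : {i // 1 < lam i}, lam a ≠ lam b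
    · obtain ⟨a', b', hab'⟩ := hc
      have h3 := ih {i // 1 < lam i} (fun i => lam i - 1)
        (fun i => by have := i.2; omega) (fun i => by have := h2 i; omega)
        ⟨a', b', by have := a'.2; have := b'.2; omega⟩
      have h4 := h3.opA (fun i => by have := i.2; omega) (Fintype.card {i // ¬ 1 < lam i})
      refine h4.reindex (e.trans (Equiv.sumCongr (Equiv.refl _) (Fintype.equivFin _))) ?_
      intro i
      by_cases h : 1 < lam i
      · simp [he1 i h]
        omega
      · simp [he2 i h]
        have := h1 i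
        omega
    · push Not at hc
      have hex : ∃ m0, 1 < lam m0 := by
        by_contra hcon
        push Not at hcon
        have := h1 a
        have := h1 b
        have := hcon a
        have := hcon b
        omega
      obtain ⟨m0, hm0⟩ := hex
      have hex2 : ∃ o, ¬ 1 < lam o := by
        by_contra hcon
        push Not at hcon
        exact hab (hc ⟨a, hcon a⟩ ⟨b, hcon b⟩)
      obtain ⟨o, ho⟩ := hex2
      have hcard : 1 ≤ Fintype.card {i // ¬ 1 < lam i} :=
        Fintype.card_pos_iff.mpr ⟨⟨o, ho⟩⟩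
      have h3 := base_IGood (k := lam m0) (by omega) {i // 1 < lam i}
        (Fin (Fintype.card {i // ¬ 1 < lam i} - 1)) ⟨m0, hm0⟩
      have e2 : {i // ¬ 1 < lam i} ≃ Option (Fin (Fintype.card {i // ¬ 1 < lam i} - 1)) :=
        Fintype.equivOfCardEq (by
          rw [Fintype.card_option, Fintype.card_fin]
          omega)
      refine h3.reindex (e.trans (Equiv.sumCongr (Equiv.refl _) e2)) ?_
      intro i
      by_cases h : 1 < lam i
      · simp [he1 i h]
        exact hc ⟨i, h⟩ ⟨m0, hm0⟩
      · simp [he2 i h]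
        have := h1 i
        omega

lemma IsCopy.image {α β : Type} [PartialOrder α] [PartialOrder β] [DecidableEq β] {ι : Type}
    {lam : ι → ℕ}
    {A : Set α} {c : ι → Finset α} (h : IsCopy lam A c) (f : α → β) {A' : Set β}
    (hf : ∀ a ∈ A, ∀ b ∈ A, f a ≤ f b ↔ a ≤ b)
    (hA : ∀ a ∈ A, f a ∈ A') :
    IsCopy lam A' (fun i => (c i).image f) where
  card i := by
    rw [card_image_of_injOn, h.card i]
    intro a ha b hb hab
    have ha' := h.sub i a ha
    have hb' := h.sub i b hb
    exact le_antisymm ((hf a ha' b hb').mp hab.le) ((hf b hb' a ha').mp hab.ge)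
  chain i := by
    intro a ha b hb
    simp only [mem_image] at ha hb
    obtain ⟨a, ha, rfl⟩ := ha
    obtain ⟨b, hb, rfl⟩ := hb
    rw [hf a (h.sub i a ha) b (h.sub i b hb), hf b (h.sub i b hb) a (h.sub i a ha)]
    exact h.chain i a ha b hb
  sub i := by
    intro a ha
    simp only [mem_image] at ha
    obtain ⟨a, ha, rfl⟩ := ha
    exact hA a (h.sub i a ha)
  inc i i' hii := by
    intro a ha b hb
    simp only [mem_image] at ha hb
    obtain ⟨a, ha, rfl⟩ := ha
    obtain ⟨b, hb, rfl⟩ := hb
    rw [hf a (h.sub i a ha) b (h.sub i' b hb)]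
    exact h.inc i i' hii a ha b hb

lemma exists_orderEmb {α : Type} [PartialOrder α] (s : Finset α) {k : ℕ} (hs : s.card = k)
    (hch : ∀ a ∈ s, ∀ b ∈ s, a ≤ b ∨ b ≤ a) :
    ∃ f : Fin k → α, (∀ a b, a ≤ b ↔ f a ≤ f b) ∧ ∀ a, f a ∈ s := by
  classical
  let _ : LinearOrder {x // x ∈ s} :=
    { (inferInstance : PartialOrder {x // x ∈ s}) with
      le_total := fun a b => hch a.1 a.2 b.1 b.2
      toDecidableLE := Classical.decRel _ }
  have e := Fintype.orderIsoFinOfCardEq {x // x ∈ s} (by simpa using hs)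
  refine ⟨fun a => (e a).1, ?_, fun a => (e a).2⟩
  intro a b
  rw [← e.le_iff_le]
  rfl

/-- merging `Finset X` and level sets inside `Finset (Fin n)` -/
lemma emb_le_iff {X : Type} {n : ℕ} (e : X ↪ Fin n) {Y : Finset (Fin n)}
    (hY : ∀ x, e x ∉ Y) {A A' : Finset X} {G G' : Finset (Fin n)} (hG : G ⊆ Y) (hG' : G' ⊆ Y) :
    A.map e ∪ G ⊆ A'.map e ∪ G' ↔ A ⊆ A' ∧ G ⊆ G' := by
  constructor
  · intro h
    constructor
    · intro x hx
      have h1 : e x ∈ A'.map e ∪ G' := h (mem_union_left _ (mem_map_of_mem e hx))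
      rw [mem_union] at h1
      rcases h1 with h1 | h1
      · simpa using h1
      · exact absurd (hG' h1) (hY x)
    · intro y hy
      have h1 : y ∈ A'.map e ∪ G' := h (mem_union_right _ hy)
      rw [mem_union] at h1
      rcases h1 with h1 | h1
      · rw [mem_map] at h1
        obtain ⟨x, -, rfl⟩ := h1
        exact absurd (hG hy) (hY x)
      · exact h1
  · rintro ⟨h1, h2⟩
    exact union_subset_union (map_subset_map.mpr h1) h2

theorem exists_small {ι : Type} {lam : ι → ℕ} {X : Type} [Fintype X] (h : GoodIn (Finset X) lam)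
    {n : ℕ} (hn : Fintype.card X < n) :
    ∃ F0 : Finset (Finset (Fin n)), (¬ ∃ c, IsCopy lam (F0 : Set (Finset (Fin n))) c) ∧
      ∀ F : Finset (Finset (Fin n)), F0 ⊆ F → (¬ ∃ c, IsCopy lam (F : Set (Finset (Fin n))) c) →
        F.card ≤ 2 ^ (Fintype.card X + 1) := by
  classical
  obtain ⟨F, hF1, hF2, hF3⟩ := h
  obtain ⟨e⟩ : Nonempty (X ↪ Fin n) := by
    rw [Function.Embedding.nonempty_iff_card_le, Fintype.card_fin]
    exact hn.le
  let Y : Finset (Fin n) := (univ.map e)ᶜ
  have hY : ∀ x, e x ∉ Y := by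
    intro x
    simp [Y]
  have hYne : Y.Nonempty := by
    rw [← card_pos, card_compl, card_map, Fintype.card_fin, card_univ]
    omega
  have hYpre : ∀ y, y ∉ Y → ∃ x, e x = y := by
    intro y hy
    simp only [Y, mem_compl, mem_map, mem_univ, true_and, not_not] at hy
    exact hy
  let lev : Finset (Fin n) → Fin 3 → Finset (Fin n) := fun Q l =>
    if l = 0 then ∅ else if l = 1 then Q else Y
  have hlevY : ∀ Q, Q ⊆ Y → ∀ l, lev Q l ⊆ Y := by
    intro Q hQ l
    simp only [lev]
    split_ifs
    · exact empty_subset _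
    · exact hQ
    · exact subset_rfl
  let φ : Finset (Fin n) → Finset X × Fin 3 → Finset (Fin n) := fun Q p => p.1.map e ∪ lev Q p.2
  have hφ1 : ∀ Q, ∀ p ∈ F, ∀ Q', φ Q p = φ Q' p := by
    intro Q p hp Q'
    have := hF1 p hp
    simp only [φ, lev]
    rw [if_neg this, if_neg this]
  have hφ2 : ∀ a ∈ F, ∀ b ∈ F, φ ∅ a ≤ φ ∅ b ↔ a ≤ b := by
    intro a ha b hb
    have h1 := hF1 a ha
    have h2 := hF1 b hb
    simp only [φ]
    rw [emb_le_iff e hY (hlevY _ (empty_subset _) _)
      (hlevY _ (empty_subset _) _), Prod.le_def]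
    have h3 : lev ∅ a.2 ⊆ lev ∅ b.2 ↔ a.2 ≤ b.2 := by
      generalize a.2 = l at h1 ⊢
      generalize b.2 = l' at h2 ⊢
      have hYe : Y ≠ ∅ := hYne.ne_empty
      fin_cases l <;> fin_cases l' <;> simp_all [lev]
    rw [h3]
  have hφ3 : ∀ Q, Q ⊆ Y → Q ≠ ∅ → Q ≠ Y → ∀ a b, φ Q a ≤ φ Q b ↔ a ≤ b := by
    intro Q hQ hQ1 hQ2 a b
    simp only [φ]
    rw [emb_le_iff e hY (hlevY _ hQ _)
      (hlevY _ hQ _), Prod.le_def]
    have h3 : lev Q a.2 ⊆ lev Q b.2 ↔ a.2 ≤ b.2 := by
      generalize a.2 = l
      generalize b.2 = l'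
      have hYe : Y ≠ ∅ := hYne.ne_empty
      have hYQ : ¬ Y ⊆ Q := fun h => hQ2 (subset_antisymm hQ h)
      fin_cases l <;> fin_cases l' <;> simp_all [lev]
    rw [h3]
  refine ⟨univ.filter (fun S => ∃ p ∈ F, φ ∅ p = S), ?_, ?_⟩
  · rintro ⟨c, hc⟩
    apply hF2
    have hex : ∀ S : Finset (Fin n), ∃ p : Finset X × Fin 3, (∃ p ∈ F, φ ∅ p = S) →
        p ∈ F ∧ φ ∅ p = S := by
      intro S
      by_cases h : ∃ p ∈ F, φ ∅ p = S
      · obtain ⟨p, hp⟩ := h
        exact ⟨p, fun _ => hp⟩
      · exact ⟨(∅, 0), fun h' => absurd h' h⟩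
    choose g hg using hex
    refine ⟨_, hc.image g ?_ ?_⟩
    · intro a ha b hb
      simp only [coe_filter, mem_univ, true_and, Set.mem_ofPred_eq] at ha hb
      rw [← hφ2 _ (hg a ha).1 _ (hg b hb).1, (hg a ha).2, (hg b hb).2]
    · intro a ha
      simp only [coe_filter, mem_univ, true_and, Set.mem_ofPred_eq] at ha
      exact (hg a ha).1
  · intro G hG hGfree
    have hkey : ∀ S ∈ G, S ∩ Y = ∅ ∨ S ∩ Y = Y := by
      intro S hS
      by_contra hcon
      push Not at hcon
      apply hGfree
      obtain ⟨c, T2, hc⟩ := hF3 (univ.filter (fun x => e x ∈ S))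
      refine ⟨_, hc.copy.image (φ (S ∩ Y)) ?_ ?_⟩
      · intro a _ b _
        exact hφ3 _ inter_subset_right hcon.1.ne_empty hcon.2 a b
      · rintro a (rfl | ha)
        · have : φ (S ∩ Y) (univ.filter (fun x => e x ∈ S), 1) = S := by
            simp only [φ, lev]
            ext y
            simp only [if_neg (show (1 : Fin 3) ≠ 0 by decide), if_true, mem_union, mem_map,
              mem_filter, mem_univ, true_and, mem_inter]
            constructor
            · rintro (⟨x, hx, rfl⟩ | h)
              · exact hx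
              · exact h.1
            · intro hy
              by_cases hyY : y ∈ Y
              · exact Or.inr ⟨hy, hyY⟩
              · obtain ⟨x, rfl⟩ := hYpre y hyY
                exact Or.inl ⟨x, hy, rfl⟩
          rw [this]
          exact hS
        · rw [hφ1 (S ∩ Y) a ha ∅]
          apply hG
          simp only [mem_filter, mem_univ, true_and]
          exact ⟨a, ha, rfl⟩
    have hsub : G ⊆ (univ : Finset (Finset X × Bool)).image
        (fun p => p.1.map e ∪ (if p.2 then Y else ∅)) := by
      intro S hS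
      have hS' : S = (univ.filter (fun x => e x ∈ S)).map e ∪ (S ∩ Y) := by
        ext y
        simp only [mem_union, mem_map, mem_filter, mem_univ, true_and, mem_inter]
        constructor
        · intro hy
          by_cases hyY : y ∈ Y
          · exact Or.inr ⟨hy, hyY⟩
          · obtain ⟨x, rfl⟩ := hYpre y hyY
            exact Or.inl ⟨x, hy, rfl⟩
        · rintro (⟨x, hx, rfl⟩ | h)
          · exact hx
          · exact h.1
      rw [mem_image]
      rcases hkey S hS with h | h
      · refine ⟨(univ.filter (fun x => e x ∈ S), false), mem_univ _, ?_⟩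
        conv_rhs => rw [hS', h]
        simp
      · refine ⟨(univ.filter (fun x => e x ∈ S), true), mem_univ _, ?_⟩
        conv_rhs => rw [hS', h]
        simp
    refine (card_le_card hsub).trans (card_image_le.trans ?_)
    rw [card_univ, Fintype.card_prod, Fintype.card_finset, Fintype.card_bool, pow_succ]

end Pool.Agent.R128.ChainSat
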