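import Mathlib

/-!
# Fractional dimension of the convex geometries `P(k, n)`
-/

namespace Pool.Agent.R128.FracDim

open Finset

/-- The linear extensions of a finite poset `P`, as order preserving bijections with the positions
`0, …, |P| - 1`. -/
def LinExt (P : Type) [Fintype P] [PartialOrder P] : Type :=
  {f : P ≃ Fin (Fintype.card P) // ∀ u v, u < v → f u < f v}

noncomputable instance (P : Type) [Fintype P] [PartialOrder P] : Fintype (LinExt P) := by
  classical
  unfold LinExt
  infer_instance

open Classical in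
/-- `w` is a fractional realizer of `P`: a nonnegative weighting of the linear extensions such that
for every ordered pair `(a, b)` of incomparable elements the linear extensions with `a` above `b`
have total weight at least `1`. -/
def IsFracRealizer (P : Type) [Fintype P] [PartialOrder P] (w : LinExt P → ℝ) : Prop :=
  (∀ L, 0 ≤ w L) ∧ ∀ a b : P, ¬ a ≤ b → ¬ b ≤ a → 1 ≤ ∑ L with L.1 b < L.1 a, w L

open Classical in
/-- The fractional dimension of a finite poset: `1` for a chain, otherwise the least total weight of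
a fractional realizer. -/
noncomputable def fdim (P : Type) [Fintype P] [PartialOrder P] : ℝ :=
  if ∀ a b : P, a ≤ b ∨ b ≤ a then 1
  else sInf {s : ℝ | ∃ w : LinExt P → ℝ, IsFracRealizer P w ∧ ∑ L, w L = s}

/-- The members of `P(k, n)`: the sets `A ⊆ {1, …, n}` such that `|A| = k + i - 1` implies
`{1, …, i - 1} ⊆ A`. Ordered by inclusion. -/
def ConvGeom (k n : ℕ) : Type :=
  {A : Finset ℕ // A ⊆ Icc 1 n ∧ ∀ i : ℕ, 1 ≤ i → A.card = k + i - 1 → Icc 1 (i - 1) ⊆ A}

instance (k n : ℕ) : PartialOrder (ConvGeom k n) := by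
  unfold ConvGeom
  infer_instance

noncomputable instance (k n : ℕ) : Fintype (ConvGeom k n) := by
  classical
  exact Fintype.subtype ((Icc 1 n).powerset.filter
    (fun A => ∀ i : ℕ, 1 ≤ i → A.card = k + i - 1 → Icc 1 (i - 1) ⊆ A)) (by simp)

lemma exists_linExt (P : Type) [Fintype P] [PartialOrder P] (φ : P → ℕ) (hφ : Monotone φ) :
    ∃ L : LinExt P, ∀ x y, φ x < φ y → L.1 x < L.1 y := by
  classical
  let g : P → ℕ ×ₗ LinearExtension P := fun x => toLex (φ x, toLinearExtension x)
  have hinj0 : Function.Injective (toLinearExtension : P →o LinearExtension P) := by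
    intro x y h
    exact h
  have hg : Function.Injective g := by
    intro x y h
    have h1 := congrArg (fun z => (ofLex z).2) h
    exact hinj0 h1
  have hmono : ∀ x y, x < y → g x < g y := by
    intro x y h
    refine lt_of_le_of_ne ?_ (fun h' => h.ne (hg h'))
    rw [Prod.Lex.toLex_le_toLex]
    rcases (hφ h.le).lt_or_eq with h1 | h1
    · exact Or.inl h1
    · exact Or.inr ⟨h1, toLinearExtension.monotone h.le⟩
  have hlt : ∀ x y, φ x < φ y → g x < g y := by
    intro x y h
    rw [Prod.Lex.toLex_lt_toLex]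
    exact Or.inl h
  let S : Finset (ℕ ×ₗ LinearExtension P) := univ.image g
  have hS : S.card = Fintype.card P := by
    rw [card_image_of_injective _ hg, card_univ]
  let e := S.orderIsoOfFin hS
  let f : P → Fin (Fintype.card P) := fun x => e.symm ⟨g x, mem_image_of_mem g (mem_univ x)⟩
  have hflt : ∀ x y, g x < g y → f x < f y := by
    intro x y h
    show e.symm _ < e.symm _
    rw [OrderIso.lt_iff_lt]
    exact h
  have hfinj : Function.Injective f := by
    intro x y h
    have h1 := e.symm.injective h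
    simp only [Subtype.mk.injEq] at h1
    exact hg h1
  have hfbij : Function.Bijective f :=
    (Fintype.bijective_iff_injective_and_card f).mpr ⟨hfinj, by simp⟩
  exact ⟨⟨Equiv.ofBijective f hfbij, fun u v h => hflt u v (hmono u v h)⟩,
    fun x y h => hflt x y (hlt x y h)⟩

/-- the sorting statistic -/
def phi {k n : ℕ} (A : Finset ℕ) (X : ConvGeom k n) : ℕ := (X.1 ∩ A).sup id

lemma phi_mono {k n : ℕ} (A : Finset ℕ) : Monotone (phi (k := k) (n := n) A) := by
  intro X Y h
  exact sup_mono (inter_subset_inter_right h)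

lemma prob_sum (U : Finset ℕ) (p : ℝ) (x : ℕ) (hx : x ∈ U) (B : Finset ℕ) (hB : B ⊆ U)
    (hxB : x ∉ B) :
    ∑ A ∈ U.powerset, (if x ∈ A ∧ Disjoint A B then p ^ A.card * (1 - p) ^ (U \ A).card else 0) =
      p * (1 - p) ^ B.card := by
  classical
  have h := Finset.prod_add (fun u => if u ∈ B then (0 : ℝ) else p)
    (fun u => if u = x then (0 : ℝ) else 1 - p) U
  have h1 : ∏ u ∈ U, ((if u ∈ B then (0 : ℝ) else p) + (if u = x then (0 : ℝ) else 1 - p)) =
      p * (1 - p) ^ B.card := by
    rw [← Finset.mul_prod_erase U _ hx]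
    rw [if_neg hxB, if_pos rfl, add_zero]
    congr 1
    have hBU : B ⊆ U.erase x := by
      intro u hu
      rw [mem_erase]
      exact ⟨fun h => hxB (h ▸ hu), hB hu⟩
    rw [← Finset.prod_sdiff hBU]
    have h2 : ∏ u ∈ U.erase x \ B, ((if u ∈ B then (0 : ℝ) else p) +
        (if u = x then (0 : ℝ) else 1 - p)) = 1 := by
      apply Finset.prod_eq_one
      intro u hu
      rw [mem_sdiff, mem_erase] at hu
      rw [if_neg hu.2, if_neg hu.1.1]
      ring
    have h3 : ∏ u ∈ B, ((if u ∈ B then (0 : ℝ) else p) +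
        (if u = x then (0 : ℝ) else 1 - p)) = (1 - p) ^ B.card := by
      rw [Finset.prod_congr rfl (g := fun _ => 1 - p), Finset.prod_const]
      intro u hu
      rw [if_pos hu, if_neg (fun h : u = x => hxB (h ▸ hu)), zero_add]
    rw [h2, h3, one_mul]
  rw [← h1, h]
  apply Finset.sum_congr rfl
  intro A hA
  rw [mem_powerset] at hA
  split_ifs with hc
  · have h2 : ∏ u ∈ A, (if u ∈ B then (0 : ℝ) else p) = p ^ A.card := by
      rw [Finset.prod_congr rfl (g := fun _ => p), Finset.prod_const]
      intro u hu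
      rw [if_neg (Finset.disjoint_left.mp hc.2 hu)]
    have h3 : ∏ u ∈ U \ A, (if u = x then (0 : ℝ) else 1 - p) = (1 - p) ^ (U \ A).card := by
      rw [Finset.prod_congr rfl (g := fun _ => 1 - p), Finset.prod_const]
      intro u hu
      rw [mem_sdiff] at hu
      rw [if_neg (fun h : u = x => hu.2 (h ▸ hc.1))]
    rw [h2, h3]
  · rw [not_and_or] at hc
    rcases hc with hc | hc
    · rw [Finset.prod_eq_zero (s := U \ A) (i := x) (by rw [mem_sdiff]; exact ⟨hx, hc⟩) (by simp),
        mul_zero]
    · rw [Finset.not_disjoint_iff] at hc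
      obtain ⟨u, hu1, hu2⟩ := hc
      rw [Finset.prod_eq_zero (s := A) (i := u) hu1 (by simp [hu2]), zero_mul]

lemma prob_total (U : Finset ℕ) (p : ℝ) :
    ∑ A ∈ U.powerset, p ^ A.card * (1 - p) ^ (U \ A).card = 1 := by
  classical
  have h := Finset.prod_add (fun _ : ℕ => p) (fun _ => 1 - p) U
  simp only [Finset.prod_const] at h
  rw [← h]
  simp

lemma card_above_le {k n : ℕ} (b : ConvGeom k n) {x : ℕ} (hx1 : 1 ≤ x) (hx : x ∉ b.1) :
    (b.1.filter (fun y => x < y)).card ≤ k := by
  by_cases hm : b.1.card ≤ k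
  · exact (card_filter_le _ _).trans hm
  · push Not at hm
    have h1 := b.2.2 (b.1.card - k + 1) (by omega) (by omega)
    rw [Nat.add_sub_cancel] at h1
    have h2 : b.1.card - k < x := by
      by_contra hcon
      push Not at hcon
      exact hx (h1 (mem_Icc.mpr ⟨hx1, hcon⟩))
    have h3 : Disjoint (Icc 1 (b.1.card - k)) (b.1.filter (fun y => x < y)) := by
      rw [Finset.disjoint_left]
      intro y hy hy'
      rw [mem_Icc] at hy
      rw [mem_filter] at hy'
      omega
    have h4 : Icc 1 (b.1.card - k) ∪ b.1.filter (fun y => x < y) ⊆ b.1 :=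
      union_subset h1 (filter_subset _ _)
    have h5 := card_le_card h4
    rw [card_union_of_disjoint h3, Nat.card_Icc] at h5
    omega

lemma phi_lt {k n : ℕ} {A : Finset ℕ} {a b : ConvGeom k n} {x : ℕ} (hx1 : 1 ≤ x) (hxa : x ∈ a.1)
    (hxb : x ∉ b.1) (hxA : x ∈ A) (hdis : Disjoint A (b.1.filter (fun y => x < y))) :
    phi A b < phi A a := by
  have h1 : x ≤ phi A a := by
    unfold phi
    exact Finset.le_sup (f := id) (mem_inter.mpr ⟨hxa, hxA⟩)
  refine lt_of_lt_of_le ?_ h1
  unfold phi
  rw [Finset.sup_lt_iff (show (0 : ℕ) < x by omega)]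
  intro y hy
  rw [mem_inter] at hy
  rw [Finset.disjoint_left] at hdis
  have h2 := hdis hy.2
  rw [mem_filter] at h2
  have h3 : y ≠ x := fun h => hxb (h ▸ hy.1)
  simp only [id]
  by_contra hcon
  exact h2 ⟨hy.1, by omega⟩

/-- `fdim (P(k, n)) ≤ (k + 1) ^ (k + 1) / k ^ k`. -/
theorem fdim_le (k n : ℕ) (hk : 1 ≤ k) :
    fdim (ConvGeom k n) ≤ ((k : ℝ) + 1) ^ (k + 1) / (k : ℝ) ^ k := by
  classical
  have hk0 : (0 : ℝ) < k := by exact_mod_cast hk
  unfold fdim
  split_ifs with hchain
  · rw [le_div_iff₀ (pow_pos hk0 k), one_mul]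
    calc (k : ℝ) ^ k ≤ ((k : ℝ) + 1) ^ k := by gcongr; linarith
      _ ≤ ((k : ℝ) + 1) ^ (k + 1) := by
          apply pow_le_pow_right₀ (by linarith) (by omega)
  set p : ℝ := 1 / ((k : ℝ) + 1) with hp
  set c : ℝ := ((k : ℝ) + 1) ^ (k + 1) / (k : ℝ) ^ k with hc
  have hp0 : 0 < p := by positivity
  have hp1 : p ≤ 1 := by
    rw [hp, div_le_one (by linarith)]
    linarith
  have hq : 1 - p = k / ((k : ℝ) + 1) := by
    rw [hp]; field_simp; ring
  have hc0 : 0 < c := by positivity
  have hcp : c * (p * (1 - p) ^ k) = 1 := by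
    rw [hq, hc, hp, div_pow, pow_succ]
    field_simp
  have hex := fun A : Finset ℕ => exists_linExt (ConvGeom k n) (phi A) (phi_mono A)
  choose LA hLA using hex
  let U := Icc 1 n
  let gg : Finset ℕ → ℝ := fun A => c * (p ^ A.card * (1 - p) ^ (U \ A).card)
  have hgg : ∀ A, 0 ≤ gg A := fun A => mul_nonneg hc0.le (mul_nonneg (pow_nonneg hp0.le _)
    (pow_nonneg (by linarith) _))
  have htotal : ∑ A ∈ U.powerset, gg A = c := by
    simp only [gg]
    rw [← Finset.mul_sum, prob_total, mul_one]
  let w : LinExt (ConvGeom k n) → ℝ := fun L => ∑ A ∈ U.powerset with LA A = L, gg A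
  apply csInf_le
  · refine ⟨0, ?_⟩
    rintro s ⟨w', hw', rfl⟩
    exact Finset.sum_nonneg fun L _ => hw'.1 L
  · refine ⟨w, ⟨fun L => Finset.sum_nonneg fun A _ => hgg A, ?_⟩, ?_⟩
    · intro a b hab hba
      obtain ⟨x, hxa, hxb⟩ := Finset.not_subset.mp hab
      have hx1 : 1 ≤ x := (mem_Icc.mp (a.2.1 hxa)).1
      set B := b.1.filter (fun y => x < y) with hB
      have hBU : B ⊆ U := (filter_subset _ _).trans b.2.1
      have hxB : x ∉ B := by
        rw [hB, mem_filter]
        exact fun h => hxb h.1
      have h1 := prob_sum U p x (a.2.1 hxa) B hBU hxB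
      have h2 : (1 : ℝ) ≤ c * (p * (1 - p) ^ B.card) := by
        have h3 : (1 - p) ^ k ≤ (1 - p) ^ B.card :=
          pow_le_pow_of_le_one (by linarith) (by linarith) (card_above_le b hx1 hxb)
        have h4 := mul_le_mul_of_nonneg_left (mul_le_mul_of_nonneg_left h3 hp0.le) hc0.le
        linarith
      refine h2.trans ?_
      rw [← h1, Finset.mul_sum, Finset.sum_filter]
      have h4 : ∀ L : LinExt (ConvGeom k n), (if L.1 b < L.1 a then w L else 0) =
          ∑ A ∈ U.powerset with LA A = L, (if (LA A).1 b < (LA A).1 a then gg A else 0) := by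
        intro L
        split_ifs with h
        · apply Finset.sum_congr rfl
          intro A hA
          rw [mem_filter] at hA
          rw [hA.2, if_pos h]
        · symm
          apply Finset.sum_eq_zero
          intro A hA
          rw [mem_filter] at hA
          rw [hA.2, if_neg h]
      rw [Finset.sum_congr rfl (fun L _ => h4 L)]
      refine le_trans ?_ (le_of_eq (Finset.sum_fiberwise U.powerset LA
        (fun A => if (LA A).1 b < (LA A).1 a then gg A else 0)).symm)
      apply Finset.sum_le_sum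
      intro A _
      by_cases hA : x ∈ A ∧ Disjoint A B
      · rw [if_pos hA, if_pos (hLA A b a (phi_lt hx1 hxa hxb hA.1 hA.2))]
      · rw [if_neg hA, mul_zero]
        split_ifs
        · exact hgg A
        · exact le_rfl
    · exact (Finset.sum_fiberwise U.powerset LA gg).trans htotal

/-- The bound is below `2 ^ (k + 1)` already for `k = 2`. -/
theorem bound_two : ((2 : ℝ) + 1) ^ (2 + 1) / (2 : ℝ) ^ 2 = 27 / 4 := by norm_num

end Pool.Agent.R128.FracDim
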