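import Mathlib

set_option autoImplicit false

/-!
# The fractional local `t`-dimension of chains (MP_c6110c_co, MP_5b7fe5_co)
-/

namespace Pool.Agent.R128.FracLocalDim

/-- The monotone partial functions from `P` to the chain `Fin t` with `t` elements. The value `none`
means that the function is not defined at the point. -/
def MPF (t : ℕ) (P : Type) [PartialOrder P] : Type :=
  {f : P → Option (Fin t) // ∀ x y a b, x ≤ y → f x = some a → f y = some b → a ≤ b}

open Classical in
noncomputable instance (t : ℕ) (P : Type) [PartialOrder P] [Fintype P] : Fintype (MPF t P) :=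
  inferInstanceAs (Fintype {f : P → Option (Fin t) //
    ∀ x y a b, x ≤ y → f x = some a → f y = some b → a ≤ b})

/-- `x` and `y` are in the domain of `f` and `f x < f y`. -/
def Sep {t : ℕ} {P : Type} (f : P → Option (Fin t)) (x y : P) : Prop :=
  ∃ a b, f x = some a ∧ f y = some b ∧ a < b

open Classical in
/-- `w` is a fractional local `t`-realiser of `P`. -/
def IsFracLocalRealiser (t : ℕ) (P : Type) [PartialOrder P] [Fintype P]
    (w : MPF t P → ℝ) : Prop :=
  (∀ f, 0 ≤ w f) ∧ ∀ x y : P, ¬ y ≤ x → 1 ≤ ∑ f : MPF t P with Sep f.1 x y, w f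

open Classical in
/-- The local weight of `w` at `x`: the total weight of the functions defined at `x`. -/
noncomputable def localWeight {t : ℕ} {P : Type} [PartialOrder P] [Fintype P]
    (w : MPF t P → ℝ) (x : P) : ℝ :=
  ∑ f : MPF t P with f.1 x ≠ none, w f

/-- The fractional local `t`-dimension of `P`: the infimum (it is a minimum) over all fractional
local `t`-realisers of the maximum of the local weights. -/
noncomputable def fldim (t : ℕ) (P : Type) [PartialOrder P] [Fintype P] : ℝ :=
  sInf {r : ℝ | ∃ w : MPF t P → ℝ, IsFracLocalRealiser t P w ∧ ∀ x, localWeight w x ≤ r}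

open Classical in
/-- There is a weighted family of monotone partial functions from the chain with `n` elements to
the chain with `t` elements that separates every pair with total weight at least `1`, with all
local weights at most `r`. -/
def Adm (t n : ℕ) (r : ℝ) : Prop :=
  ∃ (ι : Type) (_ : Fintype ι) (F : ι → Fin n → Option (Fin t)) (w : ι → ℝ),
    (∀ i, 0 ≤ w i) ∧ (∀ i x y a b, x ≤ y → F i x = some a → F i y = some b → a ≤ b) ∧
    (∀ x y : Fin n, x < y → 1 ≤ ∑ i with Sep (F i) x y, w i) ∧
    ∀ x : Fin n, ∑ i with F i x ≠ none, w i ≤ r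

theorem Adm.of_realiser {t n : ℕ} {r : ℝ} {w : MPF t (Fin n) → ℝ}
    (hw : IsFracLocalRealiser t (Fin n) w) (hr : ∀ x, localWeight w x ≤ r) : Adm t n r := by
  classical
  refine ⟨MPF t (Fin n), inferInstance, fun f => f.1, w, hw.1, fun f => f.2, ?_, ?_⟩
  · intro x y hxy
    exact hw.2 x y (not_le.2 hxy)
  · intro x
    exact hr x

/-! ### Products -/

theorem Adm.zero_one (t : ℕ) : Adm t 1 0 := by
  classical
  refine ⟨Empty, inferInstance, fun i => i.elim, fun i => i.elim, fun i => i.elim,
    fun i => i.elim, ?_, ?_⟩
  · intro x y hxy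
    omega
  · intro x
    simp

theorem Adm.mul {t m n : ℕ} {r s : ℝ} (hm : Adm t m r) (hn : Adm t n s) :
    Adm t (m * n) (r + s) := by
  classical
  obtain ⟨ι, _, F, w, hw, hF, hsep, hloc⟩ := hm
  obtain ⟨κ, _, G, v, hv, hG, hsep', hloc'⟩ := hn
  -- the two coordinates of an element of the product
  let q : Fin (m * n) → Fin m := fun x => x.divNat
  let p : Fin (m * n) → Fin n := fun x => x.modNat
  have hq : ∀ x y : Fin (m * n), x ≤ y → q x ≤ q y := by
    intro x y h
    exact Nat.div_le_div_right (c := n) h
  have hp : ∀ x y : Fin (m * n), q x = q y → x ≤ y → p x ≤ p y := by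
    intro x y h hxy
    have h1 : x.1 / n = y.1 / n := congrArg Fin.val h
    have h2 := Nat.div_add_mod x.1 n
    have h3 := Nat.div_add_mod y.1 n
    show x.1 % n ≤ y.1 % n
    have h4 : x.1 ≤ y.1 := hxy
    rw [h1] at h2
    omega
  have hlt : ∀ x y : Fin (m * n), x < y → q x < q y ∨ (q x = q y ∧ p x < p y) := by
    intro x y h
    rcases (hq x y h.le).lt_or_eq with h1 | h1
    · exact Or.inl h1
    · refine Or.inr ⟨h1, lt_of_le_of_ne (hp x y h1 h.le) fun h2 => ?_⟩
      have e1 : x.1 / n = y.1 / n := congrArg Fin.val h1
      have e2 : x.1 % n = y.1 % n := congrArg Fin.val h2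
      have h3 := Nat.div_add_mod x.1 n
      have h4 := Nat.div_add_mod y.1 n
      rw [e1, e2] at h3
      have : x.1 < y.1 := h
      omega
  let H : ι ⊕ (Fin m × κ) → Fin (m * n) → Option (Fin t) := fun i x =>
    match i with
    | Sum.inl i => F i (q x)
    | Sum.inr (a, k) => if q x = a then G k (p x) else none
  let u : ι ⊕ (Fin m × κ) → ℝ := fun i =>
    match i with
    | Sum.inl i => w i
    | Sum.inr (_, k) => v k
  refine ⟨ι ⊕ (Fin m × κ), inferInstance, H, u, ?_, ?_, ?_, ?_⟩
  · rintro (i | ⟨a, k⟩)
    · exact hw i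
    · exact hv k
  · rintro (i | ⟨a, k⟩) x y c d hxy h1 h2
    · exact hF i (q x) (q y) c d (hq x y hxy) h1 h2
    · simp only [H] at h1 h2
      split_ifs at h1 with e1
      · split_ifs at h2 with e2
        · exact hG k (p x) (p y) c d (hp x y (e1.trans e2.symm) hxy) h1 h2
  · intro x y hxy
    rw [Finset.sum_filter, Fintype.sum_sum_type, Fintype.sum_prod_type]
    have nn1 : ∀ i, 0 ≤ (if Sep (H (Sum.inl i)) x y then u (Sum.inl i) else 0) := by
      intro i
      split_ifs
      · exact hw i
      · exact le_refl _
    have nn2 : ∀ a k, 0 ≤ (if Sep (H (Sum.inr (a, k))) x y then u (Sum.inr (a, k)) else 0) := by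
      intro a k
      split_ifs
      · exact hv k
      · exact le_refl _
    rcases hlt x y hxy with h | ⟨h1, h2⟩
    · have e := hsep (q x) (q y) h
      rw [Finset.sum_filter] at e
      have e2 : 0 ≤ ∑ a, ∑ k, (if Sep (H (Sum.inr (a, k))) x y then u (Sum.inr (a, k)) else 0) :=
        Finset.sum_nonneg fun a _ => Finset.sum_nonneg fun k _ => nn2 a k
      have e3 : ∑ i, (if Sep (H (Sum.inl i)) x y then u (Sum.inl i) else 0) =
          ∑ i, (if Sep (F i) (q x) (q y) then w i else 0) := rfl
      rw [e3]
      linarith
    · have e := hsep' (p x) (p y) h2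
      rw [Finset.sum_filter] at e
      have e1 : 0 ≤ ∑ i, (if Sep (H (Sum.inl i)) x y then u (Sum.inl i) else 0) :=
        Finset.sum_nonneg fun i _ => nn1 i
      have e2 : ∑ k, (if Sep (H (Sum.inr (q x, k))) x y then u (Sum.inr (q x, k)) else 0) ≤
          ∑ a, ∑ k, (if Sep (H (Sum.inr (a, k))) x y then u (Sum.inr (a, k)) else 0) :=
        Finset.single_le_sum (f := fun a => ∑ k, (if Sep (H (Sum.inr (a, k))) x y then
          u (Sum.inr (a, k)) else 0)) (fun a _ => Finset.sum_nonneg fun k _ => nn2 a k)
          (Finset.mem_univ (q x))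
      have e3 : ∑ k, (if Sep (H (Sum.inr (q x, k))) x y then u (Sum.inr (q x, k)) else 0) =
          ∑ k, (if Sep (G k) (p x) (p y) then v k else 0) := by
        apply Finset.sum_congr rfl
        intro k _
        have e4 : Sep (H (Sum.inr (q x, k))) x y ↔ Sep (G k) (p x) (p y) := by
          simp only [Sep, H, if_true, h1]
        simp only [e4, u]
      linarith
  · intro x
    rw [Finset.sum_filter, Fintype.sum_sum_type, Fintype.sum_prod_type]
    have e1 := hloc (q x)
    have e2 := hloc' (p x)
    rw [Finset.sum_filter] at e1 e2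
    have e3 : ∑ i, (if H (Sum.inl i) x ≠ none then u (Sum.inl i) else 0) =
          ∑ i, (if F i (q x) ≠ none then w i else 0) := rfl
    have e4 : ∑ a, ∑ k, (if H (Sum.inr (a, k)) x ≠ none then u (Sum.inr (a, k)) else 0) =
        ∑ k, (if G k (p x) ≠ none then v k else 0) := by
      rw [Finset.sum_eq_single (q x)]
      · apply Finset.sum_congr rfl
        intro k _
        simp only [H, if_true, u]
      · intro a _ ha
        apply Finset.sum_eq_zero
        intro k _
        simp only [H, if_neg (Ne.symm ha), ne_eq, not_true_eq_false, if_false]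
      · intro h
        exact absurd (Finset.mem_univ _) h
    rw [e3, e4]
    linarith

theorem Adm.pow {t m : ℕ} {r : ℝ} (hm : Adm t m r) (k : ℕ) :
    Adm t (m ^ k) (k * r) := by
  induction k with
  | zero => simpa using Adm.zero_one t
  | succ k ih =>
    have := Adm.mul ih hm
    rw [pow_succ]
    convert this using 1
    push_cast
    ring

/-! ### The key inequality -/

/-- `∑ 1 / d` over a set of naturals that are at least `p` is at most the sum over the
first numbers from `p` on. -/
theorem sum_inv_le (p : ℕ) (S : Finset ℕ) (hp : 0 < p) (hS : ∀ d ∈ S, p ≤ d) :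
    ∑ d ∈ S, (1 / d : ℝ) ≤ ∑ d ∈ Finset.Ico p (p + S.card), (1 / d : ℝ) := by
  classical
  induction S using Finset.induction_on_max with
  | empty => simp
  | insert a S ha ih =>
    have hnot : a ∉ S := fun h => lt_irrefl _ (ha a h)
    rw [Finset.sum_insert hnot, Finset.card_insert_of_notMem hnot, ← add_assoc,
      Finset.sum_Ico_succ_top (by omega)]
    have h1 := ih fun d hd => hS d (Finset.mem_insert_of_mem hd)
    have h2 : p + S.card ≤ a := by
      have hsub : S ⊆ Finset.Ico p a := by
        intro d hd
        rw [Finset.mem_Ico]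
        exact ⟨hS d (Finset.mem_insert_of_mem hd), ha d hd⟩
      have h3 := Finset.card_le_card hsub
      rw [Nat.card_Ico] at h3
      have h4 := hS a (Finset.mem_insert_self _ _)
      omega
    have h3 : (1 / a : ℝ) ≤ 1 / ((p + S.card : ℕ) : ℝ) := by
      apply one_div_le_one_div_of_le
      · exact_mod_cast (by omega : 0 < p + S.card)
      · exact_mod_cast h2
    linarith

/-- The function `p ↦ p H_p`. -/
noncomputable def G (p : ℕ) : ℝ := p * (harmonic p : ℝ)

theorem G_succ (p : ℕ) : G (p + 1) = G p + harmonic p + 1 := by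
  unfold G
  rw [harmonic_succ]
  push_cast
  have : (p : ℝ) + 1 ≠ 0 := by positivity
  field_simp

theorem sum_Ico_inv (a b : ℕ) (h : a ≤ b) :
    ∑ d ∈ Finset.Ico (a + 1) (b + 1), (1 / d : ℝ) = harmonic b - harmonic a := by
  induction b, h using Nat.le_induction with
  | base => simp
  | succ b hb ih =>
    rw [Finset.sum_Ico_succ_top (by omega), ih, harmonic_succ]
    push_cast
    ring

section key

variable {t : ℕ} (f : ℕ → Option (Fin t))
  (hf : ∀ x y a b, x ≤ y → f x = some a → f y = some b → a ≤ b)

open Classical in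
/-- The number of points of the domain below `n`. -/
noncomputable def cnt (n : ℕ) : ℕ := ((Finset.range n).filter fun x => f x ≠ none).card

open Classical in
/-- The number of points below `n` with value `j`. -/
noncomputable def cntj (n : ℕ) (j : Fin t) : ℕ :=
  ((Finset.range n).filter fun x => f x = some j).card

open Classical in
/-- The sum of `1 / (y - x)` over the separated pairs `x < y < n`. -/
noncomputable def pairSum (n : ℕ) : ℝ :=
  ∑ y ∈ Finset.range n, ∑ x ∈ (Finset.range y).filter fun x => Sep f x y, (1 / ((y : ℝ) - x))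

theorem cnt_eq_sum (n : ℕ) : cnt f n = ∑ j, cntj f n j := by
  classical
  unfold cnt cntj
  rw [← Finset.card_biUnion]
  · congr 1
    ext x
    simp only [Finset.mem_filter, Finset.mem_biUnion, Finset.mem_univ, true_and]
    constructor
    · rintro ⟨h1, h2⟩
      obtain ⟨j, hj⟩ := Option.ne_none_iff_exists'.1 h2
      exact ⟨j, h1, hj⟩
    · rintro ⟨j, h1, h2⟩
      exact ⟨h1, by rw [h2]; simp⟩
  · intro i _ j _ hij
    rw [Function.onFun, Finset.disjoint_left]
    intro x h1 h2
    have e1 := (Finset.mem_filter.1 h1).2
    have e2 := (Finset.mem_filter.1 h2).2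
    rw [e1] at e2
    exact hij (Option.some.inj e2)

include hf in
theorem step_sum (n : ℕ) (j : Fin t) (hj : f n = some j) :
    (∑ x ∈ (Finset.range n).filter (fun x => ∃ a, f x = some a ∧ a < j), (1 / ((n : ℝ) - x))) ≤
      harmonic (cnt f n) - harmonic (cntj f n j) := by
  classical
  set E := (Finset.range n).filter (fun x => ∃ a, f x = some a ∧ a < j) with hE
  -- the number of elements of `E`
  have hcard : E.card + cntj f n j = cnt f n := by
    unfold cntj cnt
    rw [← Finset.card_union_of_disjoint]
    · congr 1
      ext x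
      simp only [hE, Finset.mem_union, Finset.mem_filter, Finset.mem_range]
      constructor
      · rintro (⟨h1, a, h2, -⟩ | ⟨h1, h2⟩)
        · exact ⟨h1, by rw [h2]; simp⟩
        · exact ⟨h1, by rw [h2]; simp⟩
      · rintro ⟨h1, h2⟩
        obtain ⟨a, ha⟩ := Option.ne_none_iff_exists'.1 h2
        rcases (hf x n a j h1.le ha hj).lt_or_eq with h | h
        · exact Or.inl ⟨h1, a, ha, h⟩
        · exact Or.inr ⟨h1, by rw [ha, h]⟩
    · rw [Finset.disjoint_left]
      intro x h1 h2
      obtain ⟨-, a, h3, h4⟩ := Finset.mem_filter.1 h1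
      obtain ⟨-, h5⟩ := Finset.mem_filter.1 h2
      rw [h3] at h5
      exact absurd (Option.some.inj h5) h4.ne
  -- the differences
  have himg : ∑ x ∈ E, (1 / ((n : ℝ) - x)) = ∑ d ∈ E.image (fun x => n - x), (1 / d : ℝ) := by
    rw [Finset.sum_image]
    · apply Finset.sum_congr rfl
      intro x hx
      have h1 : x < n := Finset.mem_range.1 (Finset.mem_filter.1 hx).1
      rw [Nat.cast_sub h1.le]
    · intro x hx y hy hxy
      have h1 : x < n := Finset.mem_range.1 (Finset.mem_filter.1 hx).1
      have h2 : y < n := Finset.mem_range.1 (Finset.mem_filter.1 hy).1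
      simp only at hxy
      omega
  have hcard' : (E.image (fun x => n - x)).card = E.card := by
    apply Finset.card_image_of_injOn
    intro x hx y hy hxy
    have h1 : x < n := Finset.mem_range.1 (Finset.mem_filter.1 hx).1
    have h2 : y < n := Finset.mem_range.1 (Finset.mem_filter.1 hy).1
    simp only at hxy
    omega
  have hlow : ∀ d ∈ E.image (fun x => n - x), cntj f n j + 1 ≤ d := by
    intro d hd
    obtain ⟨x, hx, rfl⟩ := Finset.mem_image.1 hd
    obtain ⟨h1, a, h2, h3⟩ := Finset.mem_filter.1 hx
    rw [Finset.mem_range] at h1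
    have hsub : ((Finset.range n).filter fun y => f y = some j) ⊆ Finset.Ioo x n := by
      intro y hy
      obtain ⟨h4, h5⟩ := Finset.mem_filter.1 hy
      rw [Finset.mem_Ioo]
      refine ⟨?_, Finset.mem_range.1 h4⟩
      by_contra hxy
      push Not at hxy
      exact absurd (hf y x j a hxy h5 h2) (not_le.2 h3)
    have h6 := Finset.card_le_card hsub
    rw [Nat.card_Ioo] at h6
    unfold cntj
    omega
  rw [himg]
  refine (sum_inv_le (cntj f n j + 1) _ (Nat.succ_pos _) hlow).trans ?_
  rw [hcard']
  have e : cntj f n j + 1 + E.card = cnt f n + 1 := by omega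
  rw [e, sum_Ico_inv _ _ (by omega)]

include hf in
theorem pairSum_le (n : ℕ) : pairSum f n ≤ G (cnt f n) - ∑ j, G (cntj f n j) := by
  classical
  induction n with
  | zero => simp [pairSum, cnt, cntj, G]
  | succ n ih =>
    have hps : pairSum f (n + 1) = pairSum f n +
        ∑ x ∈ (Finset.range n).filter (fun x => Sep f x n), (1 / ((n : ℝ) - x)) := by
      unfold pairSum
      rw [Finset.sum_range_succ]
    rcases hn : f n with _ | j
    · have h1 : cnt f (n + 1) = cnt f n := by
        unfold cnt
        rw [Finset.range_add_one, Finset.filter_insert, if_neg (by simp [hn])]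
      have h2 : ∀ j, cntj f (n + 1) j = cntj f n j := by
        intro j
        unfold cntj
        rw [Finset.range_add_one, Finset.filter_insert, if_neg (by simp [hn])]
      have h3 : ((Finset.range n).filter fun x => Sep f x n) = ∅ := by
        apply Finset.filter_eq_empty_iff.2
        rintro x _ ⟨a, b, -, h, -⟩
        rw [hn] at h
        exact absurd h (by simp)
      rw [hps, h1, h3, Finset.sum_empty, add_zero]
      simp only [h2]
      exact ih
    · have h1 : cnt f (n + 1) = cnt f n + 1 := by
        unfold cnt
        rw [Finset.range_add_one, Finset.filter_insert, if_pos (by simp [hn]),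
          Finset.card_insert_of_notMem (by simp)]
      have h2 : cntj f (n + 1) j = cntj f n j + 1 := by
        unfold cntj
        rw [Finset.range_add_one, Finset.filter_insert, if_pos hn,
          Finset.card_insert_of_notMem (by simp)]
      have h3 : ∀ i, i ≠ j → cntj f (n + 1) i = cntj f n i := by
        intro i hi
        unfold cntj
        rw [Finset.range_add_one, Finset.filter_insert, if_neg]
        rw [hn]
        exact fun h => hi (Option.some.inj h).symm
      have h4 : ((Finset.range n).filter fun x => Sep f x n) =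
          (Finset.range n).filter (fun x => ∃ a, f x = some a ∧ a < j) := by
        apply Finset.filter_congr
        intro x _
        unfold Sep
        constructor
        · rintro ⟨a, b, ha, hb, hab⟩
          rw [hn] at hb
          have := Option.some.inj hb
          subst this
          exact ⟨a, ha, hab⟩
        · rintro ⟨a, ha, hab⟩
          exact ⟨a, j, ha, hn, hab⟩
      have h5 := step_sum f hf n j hn
      rw [hps, h4, h1, G_succ]
      have h6 : ∑ i, G (cntj f (n + 1) i) = ∑ i, G (cntj f n i) + (harmonic (cntj f n j) + 1) := by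
        rw [← Finset.add_sum_erase _ _ (Finset.mem_univ j),
          ← Finset.add_sum_erase (Finset.univ) (fun i => G (cntj f n i)) (Finset.mem_univ j), h2,
          G_succ]
        have : ∑ i ∈ Finset.univ.erase j, G (cntj f (n + 1) i) =
            ∑ i ∈ Finset.univ.erase j, G (cntj f n i) := by
          apply Finset.sum_congr rfl
          intro i hi
          rw [h3 i (Finset.ne_of_mem_erase hi)]
        rw [this]
        ring
      rw [h6]
      linarith

theorem harmonic_sub_le {p s : ℕ} (hp : 0 < p) (hps : p ≤ s) :
    (harmonic s : ℝ) - harmonic p ≤ Real.log s - Real.log p := by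
  have h := Real.strictAnti_eulerMascheroniSeq'.antitone hps
  unfold Real.eulerMascheroniSeq' at h
  rw [if_neg (by omega), if_neg (by omega)] at h
  linarith

include hf in
theorem pairSum_le_log (ht : 0 < t) (n : ℕ) : pairSum f n ≤ Real.log t * cnt f n := by
  classical
  refine (pairSum_le f hf n).trans ?_
  set s := cnt f n with hs
  have hsum : (s : ℝ) = ∑ j, (cntj f n j : ℝ) := by
    rw [hs, cnt_eq_sum]
    push_cast
    rfl
  rcases Nat.eq_zero_or_pos s with h0 | hpos
  · have h1 : ∀ j, cntj f n j = 0 := by
      intro j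
      have h2 := cnt_eq_sum f n
      rw [← hs, h0] at h2
      exact (Finset.sum_eq_zero_iff.1 h2.symm) j (Finset.mem_univ j)
    simp [h0, h1, G]
  · have hle : ∀ j, cntj f n j ≤ s := by
      intro j
      rw [hs, cnt_eq_sum]
      exact Finset.single_le_sum (f := fun j => cntj f n j) (fun _ _ => Nat.zero_le _)
        (Finset.mem_univ j)
    have hst : (0 : ℝ) < s := by exact_mod_cast hpos
    have htt : (0 : ℝ) < t := by exact_mod_cast ht
    have e1 : G s - ∑ j, G (cntj f n j) =
        ∑ j, (cntj f n j : ℝ) * ((harmonic s : ℝ) - harmonic (cntj f n j)) := by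
      unfold G
      simp only [mul_sub]
      rw [Finset.sum_sub_distrib, ← Finset.sum_mul, ← hsum]
    rw [e1, hsum, Finset.mul_sum]
    have e2 : ∀ j, (cntj f n j : ℝ) * ((harmonic s : ℝ) - harmonic (cntj f n j)) ≤
        Real.log t * (cntj f n j : ℝ) + (s / t - cntj f n j) := by
      intro j
      rcases Nat.eq_zero_or_pos (cntj f n j) with hj | hj
      · rw [hj]
        simp
        positivity
      · have hjp : (0 : ℝ) < cntj f n j := by exact_mod_cast hj
        have h3 := harmonic_sub_le hj (hle j)
        have h4 : Real.log (s / (t * cntj f n j)) ≤ s / (t * cntj f n j) - 1 :=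
          Real.log_le_sub_one_of_pos (by positivity)
        rw [Real.log_div hst.ne' (by positivity), Real.log_mul htt.ne' hjp.ne'] at h4
        have h5 : (cntj f n j : ℝ) * ((harmonic s : ℝ) - harmonic (cntj f n j)) ≤
            (cntj f n j : ℝ) * (Real.log t + (s / (t * cntj f n j) - 1)) := by
          apply mul_le_mul_of_nonneg_left _ hjp.le
          linarith
        refine h5.trans (le_of_eq ?_)
        field_simp
    calc ∑ j, (cntj f n j : ℝ) * ((harmonic s : ℝ) - harmonic (cntj f n j)) ≤
          ∑ j, (Real.log t * (cntj f n j : ℝ) + (s / t - cntj f n j)) :=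
          Finset.sum_le_sum fun j _ => e2 j
      _ = ∑ j, Real.log t * (cntj f n j : ℝ) := by
          rw [Finset.sum_add_distrib, Finset.sum_sub_distrib, ← hsum]
          simp only [Finset.sum_const, Finset.card_univ, Fintype.card_fin, nsmul_eq_mul]
          field_simp
          ring

end key

/-! ### The lower bound -/

theorem sum_inv_total (n : ℕ) :
    ∑ y ∈ Finset.range n, ∑ x ∈ Finset.range y, (1 / ((y : ℝ) - x)) = G n - n := by
  induction n with
  | zero => simp [G]
  | succ n ih =>
    rw [Finset.sum_range_succ, ih, G_succ]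
    have h : ∑ x ∈ Finset.range n, (1 / ((n : ℝ) - x)) = harmonic n := by
      have h1 : ∑ x ∈ Finset.range n, (1 / ((n : ℝ) - x)) =
          ∑ x ∈ Finset.range n, (fun k : ℕ => (1 / ((k : ℝ) + 1))) (n - 1 - x) := by
        apply Finset.sum_congr rfl
        intro x hx
        rw [Finset.mem_range] at hx
        have : ((n - 1 - x : ℕ) : ℝ) + 1 = (n : ℝ) - x := by
          rw [← Nat.cast_add_one, ← Nat.cast_sub hx.le]
          congr 1
          omega
        simp only [this]
      rw [h1, Finset.sum_range_reflect (fun k : ℕ => (1 / ((k : ℝ) + 1))) n]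
      unfold harmonic
      push_cast
      simp only [one_div]
    rw [h]
    push_cast
    ring

theorem Adm.bound {t n : ℕ} {r : ℝ} (ht : 0 < t) (h : Adm t n r) :
    G n - n ≤ Real.log t * (n * r) := by
  classical
  obtain ⟨ι, _, F, w, hw, hF, hsep, hloc⟩ := h
  let f : ι → ℕ → Option (Fin t) := fun i x => if h : x < n then F i ⟨x, h⟩ else none
  have hf : ∀ i x y a b, x ≤ y → f i x = some a → f i y = some b → a ≤ b := by
    intro i x y a b hxy h1 h2
    simp only [f] at h1 h2
    split_ifs at h1 with e1
    split_ifs at h2 with e2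
    exact hF i ⟨x, e1⟩ ⟨y, e2⟩ a b hxy h1 h2
  have hlogt : 0 ≤ Real.log t := Real.log_nonneg (by exact_mod_cast ht)
  -- upper bound of the weighted sum
  have hup : ∑ i, w i * pairSum (f i) n ≤ Real.log t * (n * r) := by
    calc ∑ i, w i * pairSum (f i) n ≤ ∑ i, w i * (Real.log t * cnt (f i) n) :=
          Finset.sum_le_sum fun i _ =>
            mul_le_mul_of_nonneg_left (pairSum_le_log (f i) (hf i) ht n) (hw i)
      _ = Real.log t * ∑ i, w i * cnt (f i) n := by
          rw [Finset.mul_sum]
          apply Finset.sum_congr rfl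
          intro i _
          ring
      _ ≤ Real.log t * (n * r) := by
          apply mul_le_mul_of_nonneg_left _ hlogt
          have e1 : ∀ i, w i * (cnt (f i) n : ℝ) =
              ∑ x ∈ Finset.range n, if f i x ≠ none then w i else 0 := by
            intro i
            unfold cnt
            rw [← Finset.sum_filter, Finset.sum_const, nsmul_eq_mul]
            ring
          simp only [e1]
          rw [Finset.sum_comm]
          calc ∑ x ∈ Finset.range n, ∑ i, (if f i x ≠ none then w i else 0) ≤
                ∑ x ∈ Finset.range n, r := by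
                apply Finset.sum_le_sum
                intro x hx
                rw [Finset.mem_range] at hx
                have := hloc ⟨x, hx⟩
                rw [Finset.sum_filter] at this
                refine le_trans (le_of_eq ?_) this
                apply Finset.sum_congr rfl
                intro i _
                simp only [f, dif_pos hx]
            _ = n * r := by rw [Finset.sum_const, Finset.card_range, nsmul_eq_mul]
  refine le_trans ?_ hup
  rw [← sum_inv_total]
  have e2 : ∀ i, w i * pairSum (f i) n = ∑ y ∈ Finset.range n, ∑ x ∈ Finset.range y,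
      (1 / ((y : ℝ) - x)) * (if Sep (f i) x y then w i else 0) := by
    intro i
    unfold pairSum
    rw [Finset.mul_sum]
    apply Finset.sum_congr rfl
    intro y _
    rw [Finset.sum_filter, Finset.mul_sum]
    apply Finset.sum_congr rfl
    intro x _
    split_ifs <;> ring
  simp only [e2]
  rw [Finset.sum_comm]
  apply Finset.sum_le_sum
  intro y hy
  rw [Finset.sum_comm]
  apply Finset.sum_le_sum
  intro x hx
  rw [Finset.mem_range] at hx hy
  rw [← Finset.mul_sum]
  have h1 := hsep ⟨x, hx.trans hy⟩ ⟨y, hy⟩ hx
  rw [Finset.sum_filter] at h1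
  have h2 : ∑ i, (if Sep (F i) ⟨x, hx.trans hy⟩ ⟨y, hy⟩ then w i else 0) =
      ∑ i, (if Sep (f i) x y then w i else 0) := by
    apply Finset.sum_congr rfl
    intro i _
    have : Sep (F i) ⟨x, hx.trans hy⟩ ⟨y, hy⟩ ↔ Sep (f i) x y := by
      simp only [Sep, f, dif_pos (hx.trans hy), dif_pos hy]
    simp only [this]
  rw [h2] at h1
  have h3 : (0 : ℝ) < 1 / ((y : ℝ) - x) := by
    apply one_div_pos.2
    have : (x : ℝ) < y := by exact_mod_cast hx
    linarith
  nlinarith

/-- Every admissible value for the chain with `m` elements is at least `log_t m`. -/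
theorem Adm.log_le {t m : ℕ} {r : ℝ} (ht : 2 ≤ t) (hm0 : 0 < m) (hm : Adm t m r) :
    Real.logb t m ≤ r := by
  have htlog : 0 < Real.log t := Real.log_pos (by exact_mod_cast (by omega : 1 < t))
  rw [Real.logb, div_le_iff₀ htlog]
  -- for every `k` one has `k (log m - r log t) ≤ 1`
  have key : ∀ k : ℕ, (k : ℝ) * (Real.log m - r * Real.log t) ≤ 1 := by
    intro k
    have h1 := Adm.bound (by omega) (hm.pow k)
    have hpos : (0 : ℝ) < ((m ^ k : ℕ) : ℝ) := by exact_mod_cast pow_pos hm0 k
    unfold G at h1
    have h2 : (harmonic (m ^ k) : ℝ) - 1 ≤ Real.log t * (k * r) := by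
      have h3 : ((m ^ k : ℕ) : ℝ) * ((harmonic (m ^ k) : ℝ) - 1) ≤
          ((m ^ k : ℕ) : ℝ) * (Real.log t * (k * r)) := by linarith
      exact le_of_mul_le_mul_left h3 hpos
    have h4 := log_add_one_le_harmonic (m ^ k)
    have h5 : Real.log ((m ^ k : ℕ) : ℝ) ≤ Real.log ((m ^ k + 1 : ℕ) : ℝ) := by
      apply Real.log_le_log hpos
      push_cast
      linarith
    rw [Nat.cast_pow, Real.log_pow] at h5
    push_cast at h4 h5
    nlinarith
  by_contra hcon
  push Not at hcon
  have hpos : 0 < Real.log m - r * Real.log t := by linarith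
  obtain ⟨k, hk⟩ := exists_nat_gt (1 / (Real.log m - r * Real.log t))
  rw [div_lt_iff₀ hpos] at hk
  have := key k
  linarith

/-- All monotone partial functions together, each with weight one, form a realiser. -/
theorem exists_realiser {t n : ℕ} (ht : 2 ≤ t) :
    IsFracLocalRealiser t (Fin n) (fun _ => 1) := by
  classical
  refine ⟨fun _ => zero_le_one, fun x y hxy => ?_⟩
  rw [not_le] at hxy
  let f : MPF t (Fin n) := ⟨fun z => if z ≤ x then some ⟨0, by omega⟩ else some ⟨1, by omega⟩, by
    intro u v a b huv ha hb
    simp only at ha hb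
    split_ifs at ha with h1
    · rw [← Option.some.inj ha]
      exact Fin.mk_le_of_le_val (Nat.zero_le _)
    · rw [if_neg (fun h2 => h1 (huv.trans h2))] at hb
      rw [← Option.some.inj ha, ← Option.some.inj hb]⟩
  have hf : Sep f.1 x y := ⟨⟨0, by omega⟩, ⟨1, by omega⟩, if_pos le_rfl, if_neg (not_le.2 hxy),
    Nat.zero_lt_one⟩
  calc (1 : ℝ) = ∑ f ∈ {f}, (1 : ℝ) := by simp
    _ ≤ _ := Finset.sum_le_sum_of_subset_of_nonneg (by
        intro g hg
        rw [Finset.mem_singleton] at hg
        subst hg
        exact Finset.mem_filter.2 ⟨Finset.mem_univ _, hf⟩) (fun _ _ _ => zero_le_one)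

/-- The fractional local `t`-dimension of the chain with `m` elements is at least `log_t m`. -/
theorem logb_le_fldim {t m : ℕ} (ht : 2 ≤ t) (hm : 0 < m) :
    Real.logb t m ≤ fldim t (Fin m) := by
  apply le_csInf
  · obtain ⟨R, hR⟩ : ∃ R : ℝ, ∀ x : Fin m,
        localWeight (fun _ : MPF t (Fin m) => (1 : ℝ)) x ≤ R := by
      have := Set.finite_range fun x : Fin m => localWeight (fun _ : MPF t (Fin m) => (1 : ℝ)) x
      obtain ⟨R, hR⟩ := this.bddAbove
      exact ⟨R, fun x => hR ⟨x, rfl⟩⟩
    exact ⟨R, _, exists_realiser ht, hR⟩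
  · rintro r ⟨w, hw, hr⟩
    exact Adm.log_le ht hm (Adm.of_realiser hw hr)

end Pool.Agent.R128.FracLocalDim
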