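import Mathlib

set_option autoImplicit false

/-!
# Irreducible posets for the `k`-dimension (MP_f639ae_co)
-/

namespace Pool.Agent.R128.KDim

/-- `P` embeds in the product `k ^ t` of `t` copies of the chain with `k` elements. -/
def Emb (k t : ℕ) (P : Type) [PartialOrder P] : Prop := Nonempty (P ↪o (Fin t → Fin k))

/-- The `k`-dimension of `P`: the least `t` such that `P` embeds in `k ^ t`. -/
noncomputable def kdim (k : ℕ) (P : Type) [PartialOrder P] : ℕ := sInf {t : ℕ | Emb k t P}

/-- `P` is `k`-irreducible: deleting any element lowers the `k`-dimension. -/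
def IsIrred (k : ℕ) (P : Type) [PartialOrder P] : Prop :=
  ∀ x : P, kdim k {y : P // y ≠ x} < kdim k P

/-- Finite posets. -/
structure FinPoset where
  carrier : Type
  [fin : Finite carrier]
  [ord : PartialOrder carrier]

attribute [instance] FinPoset.fin FinPoset.ord

/-- Isomorphism of finite posets. -/
instance FinPoset.isoSetoid : Setoid FinPoset where
  r P Q := Nonempty (P.carrier ≃o Q.carrier)
  iseqv :=
    { refl := fun _ => ⟨OrderIso.refl _⟩
      symm := fun ⟨e⟩ => ⟨e.symm⟩
      trans := fun ⟨e⟩ ⟨f⟩ => ⟨e.trans f⟩ }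

/-- The number (possibly infinite) of isomorphism classes of `k`-irreducible finite posets `P` with
`k`-dimension `t`. -/
noncomputable def N (k t : ℕ) : ℕ∞ :=
  Set.encard {c : Quotient FinPoset.isoSetoid | ∃ P : FinPoset, ⟦P⟧ = c ∧
    IsIrred k P.carrier ∧ kdim k P.carrier = t}

/-! ### Ordinal sums of antichains -/

/-- The ordinal sum of antichains with `w[0]`, `w[1]`, … elements. -/
structure Elt (w : List ℕ) where
  blk : Fin w.length
  idx : Fin (w.get blk)
  deriving DecidableEq

variable {w : List ℕ}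

instance : PartialOrder (Elt w) where
  le x y := x = y ∨ x.blk < y.blk
  le_refl x := Or.inl rfl
  le_trans x y z := by
    rintro (rfl | h1) (rfl | h2)
    · exact Or.inl rfl
    · exact Or.inr h2
    · exact Or.inr h1
    · exact Or.inr (h1.trans h2)
  le_antisymm x y := by
    rintro (rfl | h1) (h | h2)
    · rfl
    · rfl
    · exact h.symm
    · exact absurd (h1.trans h2) (lt_irrefl _)

theorem le_iff {x y : Elt w} : x ≤ y ↔ x = y ∨ x.blk < y.blk := Iff.rfl

theorem lt_iff {x y : Elt w} : x < y ↔ x.blk < y.blk := by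
  constructor
  · intro h
    rcases le_iff.1 h.le with h1 | h1
    · exact absurd h1 h.ne
    · exact h1
  · intro h
    exact lt_of_le_of_ne (Or.inr h) fun h' => lt_irrefl _ (h' ▸ h)

theorem ext_val {x y : Elt w} (h1 : x.blk = y.blk) (h2 : x.idx.1 = y.idx.1) : x = y := by
  obtain ⟨a, b⟩ := x
  obtain ⟨c, d⟩ := y
  simp only at h1
  subst h1
  have h3 : b = d := Fin.ext h2
  subst h3
  rfl

instance : Finite (Elt w) :=
  Finite.of_injective (fun x : Elt w => (⟨x.blk, x.idx⟩ : Σ i : Fin w.length, Fin (w.get i))) (by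
    rintro ⟨a, b⟩ ⟨c, d⟩ h
    simp only [Sigma.mk.injEq] at h
    obtain ⟨rfl, h⟩ := h
    rw [eq_of_heq h])

/-! ### Isomorphic sums have the same word -/

section iso

variable {v : List ℕ}

theorem iso_blk (hw : ∀ i, 0 < w.get i) (hv : ∀ i, 0 < v.get i) (e : Elt w ≃o Elt v) :
    ∀ (n : ℕ) (x : Elt w), x.blk.1 = n → (e x).blk.1 = n := by
  intro n
  induction n using Nat.strong_induction_on with
  | _ n ih =>
    intro x hx
    apply le_antisymm
    · by_contra hcon
      push Not at hcon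
      -- there is an element of block `n` below `e x`
      let z : Elt v := ⟨⟨n, hcon.trans (e x).blk.2⟩, ⟨0, hv _⟩⟩
      have hz : z < e x := lt_iff.2 hcon
      have hz' : e.symm z < x := by
        rw [← e.lt_iff_lt, e.apply_symm_apply]
        exact hz
      have h1 : (e.symm z).blk.1 < n := by
        have := lt_iff.1 hz'
        rw [← hx]
        exact this
      have h2 := ih _ h1 (e.symm z) rfl
      rw [e.apply_symm_apply] at h2
      have h3 : z.blk.1 = n := rfl
      omega
    · by_contra hcon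
      push Not at hcon
      let z : Elt w := ⟨⟨(e x).blk.1, by have := x.blk.2; omega⟩, ⟨0, hw _⟩⟩
      have hz : z < x := lt_iff.2 (by show (e x).blk.1 < x.blk.1; omega)
      have h1 := ih (e x).blk.1 hcon z rfl
      have h2 := lt_iff.1 (e.lt_iff_lt.2 hz)
      have h3 : (e z).blk.1 < (e x).blk.1 := h2
      omega

theorem iso_length_le (hw : ∀ i, 0 < w.get i) (hv : ∀ i, 0 < v.get i) (e : Elt w ≃o Elt v) :
    w.length ≤ v.length := by
  by_contra hcon
  push Not at hcon
  let x : Elt w := ⟨⟨v.length, hcon⟩, ⟨0, hw _⟩⟩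
  have := iso_blk hw hv e _ x rfl
  have h2 := (e x).blk.2
  have h3 : x.blk.1 = v.length := rfl
  omega

theorem iso_get_le (hw : ∀ i, 0 < w.get i) (hv : ∀ i, 0 < v.get i) (e : Elt w ≃o Elt v)
    (n : ℕ) (h1 : n < w.length) (h2 : n < v.length) : w.get ⟨n, h1⟩ ≤ v.get ⟨n, h2⟩ := by
  have hblk : ∀ a : Fin (w.get ⟨n, h1⟩), (e ⟨⟨n, h1⟩, a⟩).blk = ⟨n, h2⟩ := fun a =>
    Fin.ext (iso_blk hw hv e n ⟨⟨n, h1⟩, a⟩ rfl)
  have hinj : Function.Injective fun a : Fin (w.get ⟨n, h1⟩) =>
      Fin.cast (congrArg v.get (hblk a)) (e ⟨⟨n, h1⟩, a⟩).idx := by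
    intro a b hab
    have h3 : e ⟨⟨n, h1⟩, a⟩ = e ⟨⟨n, h1⟩, b⟩ :=
      ext_val (by rw [hblk a, hblk b]) (congrArg Fin.val hab)
    have h4 := e.injective h3
    simp only [Elt.mk.injEq, heq_eq_eq, true_and] at h4
    exact h4
  simpa using Fintype.card_le_of_injective _ hinj

theorem eq_of_iso (hw : ∀ i, 0 < w.get i) (hv : ∀ i, 0 < v.get i) (e : Elt w ≃o Elt v) :
    w = v := by
  apply List.ext_get
  · exact le_antisymm (iso_length_le hw hv e) (iso_length_le hv hw e.symm)
  · intro n h1 h2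
    exact le_antisymm (iso_get_le hw hv e n h1 h2) (iso_get_le hv hw e.symm n h2 h1)

end iso

/-! ### The lower bound for the dimension -/

section lower

variable {k t : ℕ}

/-- The rank of an element of `k ^ t`. -/
def rk (g : Fin t → Fin k) : ℕ := ∑ c, (g c : ℕ)

theorem rk_mono {g h : Fin t → Fin k} (hgh : g ≤ h) : rk g ≤ rk h :=
  Finset.sum_le_sum fun c _ => hgh c

theorem rk_lt {g h : Fin t → Fin k} (hgh : g < h) : rk g < rk h := by
  obtain ⟨h1, i, h2⟩ := Pi.lt_def.1 hgh
  exact Finset.sum_lt_sum (fun c _ => h1 c) ⟨i, Finset.mem_univ _, h2⟩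

theorem rk_eq {g h : Fin t → Fin k} (hgh : g ≤ h) (hr : rk h ≤ rk g) : g = h := by
  rcases hgh.lt_or_eq with h1 | h1
  · exact absurd (rk_lt h1) (not_lt.2 hr)
  · exact h1

theorem rk_two {a b : Fin t → Fin k} (hab : ¬ a ≤ b) (hba : ¬ b ≤ a) :
    rk (a ⊓ b) + 2 ≤ rk (a ⊔ b) := by
  have h1 : rk (a ⊓ b) < rk a := rk_lt (inf_lt_left.2 hab)
  have h2 : rk a < rk (a ⊔ b) := rk_lt (left_lt_sup.2 hba)
  omega

theorem rk_three {a b c : Fin t → Fin k} (hab : ¬ a ≤ b) (hba : ¬ b ≤ a) (hac : ¬ a ≤ c)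
    (hca : ¬ c ≤ a) (hcb : ¬ c ≤ b) :
    rk (a ⊓ b ⊓ c) + 3 ≤ rk (a ⊔ b ⊔ c) := by
  by_contra hcon
  push Not at hcon
  have ha : rk (a ⊓ b ⊓ c) < rk a := rk_lt (lt_of_le_of_lt inf_le_left (inf_lt_left.2 hab))
  have hc : rk (a ⊓ b ⊓ c) < rk c := by
    apply rk_lt
    refine lt_of_le_of_lt ?_ (inf_lt_right.2 hca)
    exact le_inf (inf_le_left.trans inf_le_left) inf_le_right
  have ha2 : rk a < rk (a ⊔ b) := rk_lt (left_lt_sup.2 hba)
  have hc2 : rk c < rk (a ⊔ b ⊔ c) := by
    apply rk_lt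
    refine lt_of_lt_of_le (right_lt_sup.2 hac) ?_
    exact sup_le (le_sup_left.trans le_sup_left) le_sup_right
  -- the join of `a` and `b` is the top
  have h1 : a ⊔ b = a ⊔ b ⊔ c := rk_eq le_sup_left (by omega)
  have h2 : a ⊓ b ⊓ c = c ⊓ a := by
    apply rk_eq
    · exact le_inf inf_le_right (inf_le_left.trans inf_le_left)
    · have : rk (c ⊓ a) < rk c := rk_lt (inf_lt_left.2 hca)
      omega
  have h3 : a ⊓ b ⊓ c = c ⊓ b := by
    apply rk_eq
    · exact le_inf inf_le_right (inf_le_left.trans inf_le_right)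
    · have : rk (c ⊓ b) < rk c := rk_lt (inf_lt_left.2 hcb)
      omega
  have h4 : c = a ⊓ b ⊓ c := by
    calc c = c ⊓ (a ⊔ b) := by
          rw [h1]
          exact (inf_eq_left.2 le_sup_right).symm
      _ = (c ⊓ a) ⊔ (c ⊓ b) := inf_sup_left _ _ _
      _ = a ⊓ b ⊓ c := by rw [← h2, ← h3, sup_idem]
  have h5 : c ≤ a := by
    rw [h4]
    exact inf_le_left.trans inf_le_left
  exact hca h5

/-- For every block there is an upper bound (the join of the block) of rank at least the sum of
the sizes of the blocks up to this one, below all upper bounds of the block. -/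
theorem exists_join (hw : ∀ i, w.get i = 2 ∨ w.get i = 3) (f : Elt w ↪o (Fin t → Fin k)) :
    ∀ (n : ℕ) (hn : n < w.length), ∃ J : Fin t → Fin k,
      (w.take (n + 1)).sum ≤ rk J ∧ ∀ B : Fin t → Fin k,
        (∀ a : Fin (w.get ⟨n, hn⟩), f ⟨⟨n, hn⟩, a⟩ ≤ B) → J ≤ B := by
  intro n
  induction n with
  | zero =>
    intro hn
    have hsum : (w.take (0 + 1)).sum = w.get ⟨0, hn⟩ := by
      rw [List.sum_take_succ _ _ hn]
      simp
    rw [hsum]
    have hinc : ∀ a b : Fin (w.get ⟨0, hn⟩), a ≠ b → ¬ f ⟨⟨0, hn⟩, a⟩ ≤ f ⟨⟨0, hn⟩, b⟩ := by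
      intro a b hab h
      rw [f.le_iff_le, le_iff] at h
      rcases h with h | h
      · simp only [Elt.mk.injEq, heq_eq_eq, true_and] at h
        exact hab h
      · exact lt_irrefl _ h
    rcases hw ⟨0, hn⟩ with h2 | h3
    · have hne : (⟨0, by omega⟩ : Fin (w.get ⟨0, hn⟩)) ≠ ⟨1, by omega⟩ := by
        simp
      refine ⟨f ⟨⟨0, hn⟩, ⟨0, by omega⟩⟩ ⊔ f ⟨⟨0, hn⟩, ⟨1, by omega⟩⟩, ?_, fun B hB =>
        sup_le (hB _) (hB _)⟩
      have := rk_two (hinc _ _ hne) (hinc _ _ hne.symm)
      omega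
    · refine ⟨f ⟨⟨0, hn⟩, ⟨0, by omega⟩⟩ ⊔ f ⟨⟨0, hn⟩, ⟨1, by omega⟩⟩ ⊔
        f ⟨⟨0, hn⟩, ⟨2, by omega⟩⟩, ?_, fun B hB => sup_le (sup_le (hB _) (hB _)) (hB _)⟩
      have := rk_three (hinc ⟨0, by omega⟩ ⟨1, by omega⟩ (by simp))
        (hinc ⟨1, by omega⟩ ⟨0, by omega⟩ (by simp)) (hinc ⟨0, by omega⟩ ⟨2, by omega⟩ (by simp))
        (hinc ⟨2, by omega⟩ ⟨0, by omega⟩ (by simp)) (hinc ⟨2, by omega⟩ ⟨1, by omega⟩ (by simp))
      omega
  | succ n ih =>
    intro hn
    obtain ⟨J, hJ1, hJ2⟩ := ih (by omega)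
    have hbelow : ∀ b : Fin (w.get ⟨n + 1, hn⟩), J ≤ f ⟨⟨n + 1, hn⟩, b⟩ := by
      intro b
      apply hJ2
      intro a
      rw [f.le_iff_le]
      exact Or.inr (Nat.lt_succ_self n)
    have hsum : (w.take (n + 1 + 1)).sum = (w.take (n + 1)).sum + w.get ⟨n + 1, hn⟩ := by
      rw [List.sum_take_succ _ _ hn]
      rfl
    rw [hsum]
    have hinc : ∀ a b : Fin (w.get ⟨n + 1, hn⟩), a ≠ b →
        ¬ f ⟨⟨n + 1, hn⟩, a⟩ ≤ f ⟨⟨n + 1, hn⟩, b⟩ := by
      intro a b hab h
      rw [f.le_iff_le, le_iff] at h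
      rcases h with h | h
      · simp only [Elt.mk.injEq, heq_eq_eq, true_and] at h
        exact hab h
      · exact lt_irrefl _ h
    rcases hw ⟨n + 1, hn⟩ with h2 | h3
    · refine ⟨f ⟨⟨n + 1, hn⟩, ⟨0, by omega⟩⟩ ⊔ f ⟨⟨n + 1, hn⟩, ⟨1, by omega⟩⟩, ?_, fun B hB =>
        sup_le (hB _) (hB _)⟩
      have h4 := rk_two (hinc ⟨0, by omega⟩ ⟨1, by omega⟩ (by simp))
        (hinc ⟨1, by omega⟩ ⟨0, by omega⟩ (by simp))
      have h5 := rk_mono (le_inf (hbelow ⟨0, by omega⟩) (hbelow ⟨1, by omega⟩))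
      omega
    · refine ⟨f ⟨⟨n + 1, hn⟩, ⟨0, by omega⟩⟩ ⊔ f ⟨⟨n + 1, hn⟩, ⟨1, by omega⟩⟩ ⊔
        f ⟨⟨n + 1, hn⟩, ⟨2, by omega⟩⟩, ?_, fun B hB => sup_le (sup_le (hB _) (hB _)) (hB _)⟩
      have h4 := rk_three (hinc ⟨0, by omega⟩ ⟨1, by omega⟩ (by simp))
        (hinc ⟨1, by omega⟩ ⟨0, by omega⟩ (by simp)) (hinc ⟨0, by omega⟩ ⟨2, by omega⟩ (by simp))
        (hinc ⟨2, by omega⟩ ⟨0, by omega⟩ (by simp)) (hinc ⟨2, by omega⟩ ⟨1, by omega⟩ (by simp))
      have h5 := rk_mono (le_inf (le_inf (hbelow ⟨0, by omega⟩) (hbelow ⟨1, by omega⟩))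
        (hbelow ⟨2, by omega⟩))
      omega

theorem sum_le_of_emb (hk : 1 ≤ k) (hw : ∀ i, w.get i = 2 ∨ w.get i = 3) (h : Emb k t (Elt w)) :
    w.sum ≤ t * (k - 1) := by
  obtain ⟨f⟩ := h
  rcases Nat.eq_zero_or_pos w.length with h0 | hpos
  · rw [List.eq_nil_of_length_eq_zero h0]
    simp
  · obtain ⟨J, hJ, -⟩ := exists_join hw f (w.length - 1) (by omega)
    have h1 : w.take (w.length - 1 + 1) = w := List.take_of_length_le (by omega)
    rw [h1] at hJ
    refine hJ.trans ?_
    unfold rk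
    calc ∑ c, (J c : ℕ) ≤ ∑ _c : Fin t, (k - 1) := Finset.sum_le_sum fun c _ => by
          have := (J c).2
          omega
      _ = t * (k - 1) := by simp

end lower

/-! ### The embedding -/

section upper

variable {k s : ℕ} {P : Type} [PartialOrder P]

/-- The number of `u < p` in the residue class `c` modulo `s`. -/
def cnt (s p c : ℕ) : ℕ := Nat.count (fun u => u % s = c) p

theorem cnt_mono (s c : ℕ) {p p' : ℕ} (h : p ≤ p') : cnt s p c ≤ cnt s p' c :=
  Nat.count_monotone _ h

theorem cnt_add_le (s c : ℕ) {p p' u : ℕ} (h1 : p ≤ u) (h2 : u < p') :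
    cnt s p c + (if u % s = c then 1 else 0) ≤ cnt s p' c := by
  have h3 : cnt s (u + 1) c = cnt s u c + (if u % s = c then 1 else 0) := Nat.count_succ _ _
  have h4 := cnt_mono s c h1
  have h5 := cnt_mono s c (show u + 1 ≤ p' from h2)
  omega

theorem sum_cnt (hs : 0 < s) (p : ℕ) : ∑ c : Fin s, cnt s p c = p := by
  induction p with
  | zero => simp [cnt]
  | succ p ih =>
    have h : ∀ c : Fin s, cnt s (p + 1) c = cnt s p c +
        (if (⟨p % s, Nat.mod_lt _ hs⟩ : Fin s) = c then 1 else 0) := by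
      intro c
      unfold cnt
      rw [Nat.count_succ]
      congr 1
      simp only [Fin.ext_iff]
    rw [Finset.sum_congr rfl fun c _ => h c, Finset.sum_add_distrib, ih,
      Finset.sum_ite_eq]
    simp

theorem cnt_le {p : ℕ} (c : Fin s) (hp : p ≤ s * (k - 1)) : cnt s p c ≤ k - 1 := by
  refine (cnt_mono s c hp).trans ?_
  have h : ∀ m, cnt s (s * m) c = m := by
    intro m
    induction m with
    | zero => simp [cnt]
    | succ m ih =>
      rw [Nat.mul_succ]
      unfold cnt at ih ⊢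
      rw [Nat.count_add, ih]
      have h1 : Nat.count (fun u => (s * m + u) % s = c) s = 1 := by
        have h2 : (fun u => (s * m + u) % s = (c : ℕ)) = fun u => u % s = c := by
          funext u
          rw [Nat.mul_add_mod]
        simp only [Nat.mul_add_mod]
        rw [Nat.count_eq_card_filter_range]
        rw [Finset.card_eq_one]
        refine ⟨c, ?_⟩
        ext u
        simp only [Finset.mem_filter, Finset.mem_range, Finset.mem_singleton]
        constructor
        · rintro ⟨h3, h4⟩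
          rwa [Nat.mod_eq_of_lt h3] at h4
        · rintro rfl
          exact ⟨c.2, Nat.mod_eq_of_lt c.2⟩
      rw [h1]
  rw [h]

/-- The contribution of an optional extra slot. -/
def ext (s : ℕ) (o : Option ℕ) (c : ℕ) : ℕ := o.elim 0 fun u => if u % s = c then 1 else 0

theorem sum_ext (hs : 0 < s) (o : Option ℕ) :
    ∑ c : Fin s, ext s o c = if o.isSome then 1 else 0 := by
  cases o with
  | none => simp [ext]
  | some u =>
    have h : ∀ c : Fin s, ext s (some u) c =
        (if (⟨u % s, Nat.mod_lt _ hs⟩ : Fin s) = c then 1 else 0) := by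
      intro c
      simp only [ext, Option.elim_some, Fin.ext_iff]
    rw [Finset.sum_congr rfl fun c _ => h c, Finset.sum_ite_eq]
    simp

theorem emb_of_slots (hs : 0 < s) (hk : 1 ≤ k) (blk : P → ℕ) (p : ℕ → ℕ) (q : P → Option ℕ)
    (hlt : ∀ x y, x < y ↔ blk x < blk y) (hp : Monotone p)
    (hpk : ∀ x, p (blk x + 1) ≤ s * (k - 1))
    (hq : ∀ x u, q x = some u → p (blk x) ≤ u ∧ u < p (blk x + 1))
    (hne : ∀ x y, x ≠ y → blk x = blk y → ∃ u, q x = some u ∧ ∀ v, q y = some v → u % s ≠ v % s)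
    (hstrict : ∀ x y, blk x < blk y →
      p (blk x) + (if (q x).isSome then 1 else 0) < p (blk y) + (if (q y).isSome then 1 else 0)) :
    Emb k s P := by
  have hle : ∀ x c, cnt s (p (blk x)) c + ext s (q x) c ≤ cnt s (p (blk x + 1)) c := by
    intro x c
    cases h : q x with
    | none => simpa [ext] using cnt_mono s c (hp (Nat.le_succ _))
    | some u => exact cnt_add_le s c (hq x u h).1 (hq x u h).2
  have hbd : ∀ x (c : Fin s), cnt s (p (blk x)) c + ext s (q x) c < k := by
    intro x c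
    have h1 := hle x c
    have h2 := cnt_le (k := k) c (hpk x)
    omega
  let f : P → Fin s → Fin k := fun x c => ⟨cnt s (p (blk x)) c + ext s (q x) c, hbd x c⟩
  have hsum : ∀ x, ∑ c : Fin s, (f x c : ℕ) = p (blk x) + (if (q x).isSome then 1 else 0) := by
    intro x
    simp only [f]
    rw [Finset.sum_add_distrib, sum_cnt hs, sum_ext hs]
  refine ⟨OrderEmbedding.ofMapLEIff f ?_⟩
  intro x y
  constructor
  · intro hxy
    by_contra hcon
    have hne' : x ≠ y := fun h => hcon h.le
    rcases lt_trichotomy (blk x) (blk y) with h | h | h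
    · exact hcon ((hlt x y).2 h).le
    · obtain ⟨u, hu1, hu2⟩ := hne x y hne' h
      have h1 : (f x ⟨u % s, Nat.mod_lt _ hs⟩ : ℕ) ≤ f y ⟨u % s, Nat.mod_lt _ hs⟩ := hxy _
      simp only [f] at h1
      rw [h, hu1] at h1
      have h2 : ext s (some u) (u % s) = 1 := by simp [ext]
      have h3 : ext s (q y) (u % s) = 0 := by
        cases h4 : q y with
        | none => simp [ext]
        | some v =>
          have := hu2 v h4
          simp only [ext, Option.elim_some]
          rw [if_neg (Ne.symm this)]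
      omega
    · have h1 := hstrict y x h
      rw [← hsum, ← hsum] at h1
      have h2 : ∑ c, (f x c : ℕ) ≤ ∑ c, (f y c : ℕ) := Finset.sum_le_sum fun c _ => hxy c
      omega
  · intro hxy c
    rcases hxy.lt_or_eq with h | h
    · have h1 := (hlt x y).1 h
      show cnt s (p (blk x)) c + ext s (q x) c ≤ cnt s (p (blk y)) c + ext s (q y) c
      have h2 := hle x c
      have h3 := cnt_mono s c (hp (show blk x + 1 ≤ blk y from h1))
      omega
    · rw [h]

end upper

/-! ### Embeddings of the ordinal sums and of their one-element deletions -/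

section words

variable {k s : ℕ}

theorem take_sum_mono (w : List ℕ) : Monotone fun n => (w.take n).sum := by
  apply monotone_nat_of_le_succ
  intro n
  rcases Nat.lt_or_ge n w.length with h | h
  · rw [List.sum_take_succ _ _ h]
    exact Nat.le_add_right _ _
  · rw [List.take_of_length_le h, List.take_of_length_le (h.trans (Nat.le_succ n))]

theorem take_sum_le (w : List ℕ) (n : ℕ) : (w.take n).sum ≤ w.sum := by
  rcases Nat.lt_or_ge n w.length with h | h
  · have h1 := take_sum_mono w h.le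
    simpa using h1
  · rw [List.take_of_length_le h]

theorem take_succ (w : List ℕ) (b : Fin w.length) :
    (w.take (b + 1)).sum = (w.take b).sum + w.get b := List.sum_take_succ _ _ b.2

theorem mod_ne {s p i j : ℕ} (hi : i < s) (hj : j < s) (hij : i ≠ j) : (p + i) % s ≠ (p + j) % s := by
  intro h
  have h1 : i % s = j % s := Nat.ModEq.add_left_cancel' p h
  rw [Nat.mod_eq_of_lt hi, Nat.mod_eq_of_lt hj] at h1
  exact hij h1

theorem emb_elt (hs : 3 ≤ s) (hk : 1 ≤ k) (hw : ∀ i, w.get i = 2 ∨ w.get i = 3)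
    (hsum : w.sum ≤ s * (k - 1)) : Emb k s (Elt w) := by
  refine emb_of_slots (by omega) hk (fun x => x.blk) (fun n => (w.take n).sum)
    (fun x => some ((w.take x.blk).sum + x.idx)) ?_ (take_sum_mono w) ?_ ?_ ?_ ?_
  · intro x y
    exact lt_iff
  · intro x
    exact (take_sum_le w _).trans hsum
  · intro x u hu
    rw [Option.some.injEq] at hu
    have h1 := take_succ w x.blk
    have h2 := x.idx.2
    constructor <;> omega
  · intro x y hxy hb
    refine ⟨_, rfl, ?_⟩
    intro v hv
    rw [Option.some.injEq] at hv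
    rw [← hv, show x.blk.1 = y.blk.1 from hb]
    have h1 := x.idx.2
    have h2 := y.idx.2
    have h3 := hw x.blk
    have h4 := hw y.blk
    apply mod_ne (by omega) (by omega)
    intro h
    exact hxy (ext_val (Fin.ext hb) h)
  · intro x y hxy
    have h1 := take_succ w x.blk
    have h2 : (w.take (x.blk + 1)).sum ≤ (w.take y.blk).sum :=
      take_sum_mono w (show x.blk.1 + 1 ≤ y.blk from hxy)
    have h3 := hw x.blk
    simp only [Option.isSome_some, if_true]
    omega

theorem emb_del (hs : 3 ≤ s) (hk : 1 ≤ k) (hw : ∀ i, w.get i = 2 ∨ w.get i = 3) (x₀ : Elt w)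
    (hsum : w.sum ≤ s * (k - 1) + 1) : Emb k s {y : Elt w // y ≠ x₀} := by
  have hdec : ∀ y : {y : Elt w // y ≠ x₀}, y.1.blk = x₀.blk → y.1.idx.1 ≠ x₀.idx.1 := fun y h1 h2 =>
    y.2 (ext_val h1 h2)
  -- the decrease of the cost of the block
  let d : ℕ := if w.get x₀.blk = 2 then 2 else 1
  have hd : w.get x₀.blk = 2 ∧ d = 2 ∨ w.get x₀.blk = 3 ∧ d = 1 := by
    rcases hw x₀.blk with h | h
    · exact Or.inl ⟨h, if_pos h⟩
    · exact Or.inr ⟨h, if_neg (by omega)⟩
  let p : ℕ → ℕ := fun n => (w.take n).sum - if x₀.blk.1 < n then d else 0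
  have hp1 : ∀ n, n ≤ x₀.blk.1 → p n = (w.take n).sum := by
    intro n hn
    simp only [p]
    rw [if_neg (by omega)]
    rfl
  have hp2 : ∀ n, x₀.blk.1 < n → p n + d = (w.take n).sum := by
    intro n hn
    simp only [p]
    rw [if_pos hn]
    have h1 := take_sum_mono w (show x₀.blk.1 + 1 ≤ n from hn)
    have h2 := take_succ w x₀.blk
    dsimp only at h1
    omega
  have hpsucc : ∀ b : Fin w.length, p (b + 1) = p b + (w.get b - if b = x₀.blk then d else 0) := by
    intro b
    have h1 := take_succ w b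
    rcases lt_trichotomy b.1 x₀.blk.1 with h | h | h
    · rw [hp1 _ h.le, hp1 _ h, h1, if_neg (fun h' => by rw [h'] at h; exact lt_irrefl _ h)]
      rfl
    · have hb : b = x₀.blk := Fin.ext h
      rw [if_pos hb]
      have h2 := hp1 _ h.le
      have h3 := hp2 (b + 1) (by omega)
      subst hb
      omega
    · rw [if_neg (fun h' => by rw [h'] at h; exact lt_irrefl _ h)]
      have h2 := hp2 _ h
      have h3 := hp2 (b + 1) (by omega)
      omega
  have hpmono : Monotone p := by
    apply monotone_nat_of_le_succ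
    intro n
    rcases Nat.lt_or_ge n w.length with h | h
    · have := hpsucc ⟨n, h⟩
      simp only at this
      omega
    · have h1 : (w.take (n + 1)).sum = (w.take n).sum := by
        rw [List.take_of_length_le h, List.take_of_length_le (h.trans (Nat.le_succ n))]
      have h2 := x₀.blk.2
      have h3 := hp2 n (by omega)
      have h4 := hp2 (n + 1) (by omega)
      omega
  let q : {y : Elt w // y ≠ x₀} → Option ℕ := fun y =>
    if y.1.blk = x₀.blk then
      if w.get x₀.blk = 2 then none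
      else some (p y.1.blk + (if y.1.idx.1 < x₀.idx.1 then y.1.idx.1 else y.1.idx.1 - 1))
    else some (p y.1.blk + y.1.idx)
  refine emb_of_slots (by omega) hk (fun x => x.1.blk) p q ?_ hpmono ?_ ?_ ?_ ?_
  · intro x y
    rw [← Subtype.coe_lt_coe]
    exact lt_iff
  · intro x
    have h1 : p (x.1.blk + 1) ≤ p w.length := hpmono x.1.blk.2
    have h2 := hp2 w.length x₀.blk.2
    rw [List.take_length] at h2
    omega
  · intro x u hu
    have h1 := hpsucc x.1.blk
    have h2 := x.1.idx.2
    simp only [q] at hu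
    by_cases hb : x.1.blk = x₀.blk
    · rw [if_pos hb] at hu h1
      have h3 := hdec x hb
      have h4 := x₀.idx.2
      have h5 : w.get x.1.blk = w.get x₀.blk := by rw [hb]
      by_cases hb2 : w.get x₀.blk = 2
      · rw [if_pos hb2] at hu
        cases hu
      · rw [if_neg hb2, Option.some.injEq] at hu
        split_ifs at hu
        · constructor <;> omega
        · constructor <;> omega
    · rw [if_neg hb] at hu h1
      rw [Option.some.injEq] at hu
      constructor <;> omega
  · intro x y hxy hb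
    have hbb : x.1.blk = y.1.blk := Fin.ext hb
    have hidx : x.1.idx.1 ≠ y.1.idx.1 := fun h => hxy (Subtype.ext (ext_val hbb h))
    have h1 := x.1.idx.2
    have h2 := y.1.idx.2
    have h3 := hw x.1.blk
    have h4 := hw y.1.blk
    have h5 : p x.1.blk = p y.1.blk := by rw [hbb]
    simp only [q]
    by_cases hb0 : x.1.blk = x₀.blk
    · have hb1 : y.1.blk = x₀.blk := hbb ▸ hb0
      have h6 := hdec x hb0
      have h7 := hdec y hb1
      have h8 := x₀.idx.2
      have h9 : w.get x.1.blk = w.get x₀.blk := by rw [hb0]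
      have h10 : w.get y.1.blk = w.get x₀.blk := by rw [hb1]
      rw [if_pos hb0, if_pos hb1]
      by_cases hb2 : w.get x₀.blk = 2
      · exfalso
        omega
      · rw [if_neg hb2, if_neg hb2]
        refine ⟨_, rfl, ?_⟩
        intro v hv
        rw [Option.some.injEq] at hv
        rw [← hv, h5]
        apply mod_ne
        · split_ifs <;> omega
        · split_ifs <;> omega
        · split_ifs <;> omega
    · rw [if_neg hb0, if_neg (fun h => hb0 (hbb.trans h))]
      refine ⟨_, rfl, ?_⟩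
      intro v hv
      rw [Option.some.injEq] at hv
      rw [← hv, h5]
      exact mod_ne (by omega) (by omega) hidx
  · intro x y hxy
    have h1 := hpsucc x.1.blk
    have h2 : p (x.1.blk + 1) ≤ p y.1.blk := hpmono (show x.1.blk.1 + 1 ≤ y.1.blk from hxy)
    have h3 := hw x.1.blk
    show p x.1.blk + (if (q x).isSome = true then 1 else 0) <
      p y.1.blk + (if (q y).isSome = true then 1 else 0)
    by_cases hb0 : x.1.blk = x₀.blk
    · have hb1 : y.1.blk ≠ x₀.blk := fun h => by
        rw [hb0, h] at hxy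
        exact lt_irrefl _ hxy
      rw [if_pos hb0] at h1
      have hqy : (q y).isSome = true := by
        simp only [q]
        rw [if_neg hb1]
        rfl
      have h5 : w.get x.1.blk = w.get x₀.blk := by rw [hb0]
      by_cases hb2 : w.get x₀.blk = 2
      · have hqx : (q x).isSome = false := by
          simp only [q]
          rw [if_pos hb0, if_pos hb2]
          rfl
        simp only [hqx, hqy, if_true, Bool.false_eq_true, if_false]
        omega
      · simp only [hqy, if_true]
        split_ifs <;> omega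
    · rw [if_neg hb0] at h1
      have hqx : (q x).isSome = true := by
        simp only [q]
        rw [if_neg hb0]
        rfl
      simp only [hqx, if_true]
      split_ifs <;> omega

end words

/-! ### The dimension and irreducibility of the ordinal sums -/

section main

variable {k t : ℕ}

theorem kdim_elt (hk : 2 ≤ k) (ht : 4 ≤ t) (hw : ∀ i, w.get i = 2 ∨ w.get i = 3)
    (hsum : w.sum = (t - 1) * (k - 1) + 1) : kdim k (Elt w) = t := by
  have hmul : (t - 1) * (k - 1) + (k - 1) = t * (k - 1) := by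
    obtain ⟨t', rfl⟩ : ∃ t', t = t' + 1 := ⟨t - 1, by omega⟩
    simp only [Nat.add_sub_cancel]
    ring
  apply le_antisymm
  · exact Nat.sInf_le (emb_elt (by omega) (by omega) hw (by omega))
  · apply le_csInf ⟨t, emb_elt (by omega) (by omega) hw (by omega)⟩
    intro t' ht'
    have h1 := sum_le_of_emb (by omega) hw ht'
    by_contra hcon
    push Not at hcon
    have h2 : t' * (k - 1) ≤ (t - 1) * (k - 1) := Nat.mul_le_mul_right _ (by omega)
    omega

theorem irred_elt (hk : 2 ≤ k) (ht : 4 ≤ t) (hw : ∀ i, w.get i = 2 ∨ w.get i = 3)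
    (hsum : w.sum = (t - 1) * (k - 1) + 1) : IsIrred k (Elt w) := by
  intro x
  rw [kdim_elt hk ht hw hsum]
  have h1 : kdim k {y : Elt w // y ≠ x} ≤ t - 1 :=
    Nat.sInf_le (emb_del (by omega) (by omega) hw x (by omega))
  omega

/-- The word attached to a list of bits, with a prescribed tail. -/
def code (tail : List ℕ) : List Bool → List ℕ
  | [] => tail
  | b :: l => (if b then [2, 2, 2] else [3, 3]) ++ code tail l

theorem code_sum (tail : List ℕ) (l : List Bool) : (code tail l).sum = 6 * l.length + tail.sum := by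
  induction l with
  | nil => simp [code]
  | cons b l ih =>
    simp only [code, List.sum_append, ih, List.length_cons]
    cases b <;> simp <;> omega

theorem code_mem (tail : List ℕ) (ht : ∀ a ∈ tail, a = 2 ∨ a = 3) (l : List Bool) :
    ∀ a ∈ code tail l, a = 2 ∨ a = 3 := by
  induction l with
  | nil => exact ht
  | cons b l ih =>
    intro a ha
    simp only [code, List.mem_append] at ha
    rcases ha with ha | ha
    · cases b
      · simp at ha
        exact Or.inr ha
      · simp at ha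
        exact Or.inl ha
    · exact ih a ha

theorem code_inj (tail : List ℕ) : ∀ l l' : List Bool, l.length = l'.length →
    code tail l = code tail l' → l = l' := by
  intro l
  induction l with
  | nil =>
    intro l' h _
    exact (List.eq_nil_of_length_eq_zero h.symm).symm
  | cons b l ih =>
    intro l' h h2
    cases l' with
    | nil => simp at h
    | cons b' l' =>
      simp only [code] at h2
      cases b <;> cases b' <;> simp at h2 h
      · rw [ih l' h h2]
      · rw [ih l' h h2]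

theorem exists_tail (m : ℕ) (h1 : 2 ≤ m) (h2 : m ≤ 7) :
    ∃ tail : List ℕ, (∀ a ∈ tail, a = 2 ∨ a = 3) ∧ tail.sum = m := by
  have : m = 2 ∨ m = 3 ∨ m = 4 ∨ m = 5 ∨ m = 6 ∨ m = 7 := by omega
  rcases this with rfl | rfl | rfl | rfl | rfl | rfl
  · exact ⟨[2], by simp, by simp⟩
  · exact ⟨[3], by simp, by simp⟩
  · exact ⟨[2, 2], by simp, by simp⟩
  · exact ⟨[2, 3], by simp, by simp⟩
  · exact ⟨[3, 3], by simp, by simp⟩
  · exact ⟨[2, 2, 3], by simp, by simp⟩

theorem two_pow_le (hk : 2 ≤ k) (ht : 4 ≤ t) :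
    ((2 ^ (((t - 1) * (k - 1) - 1) / 6) : ℕ) : ℕ∞) ≤ N k t := by
  have h3 : 3 * 1 ≤ (t - 1) * (k - 1) := Nat.mul_le_mul (by omega) (by omega)
  generalize hM : (t - 1) * (k - 1) = M at *
  obtain ⟨tail, ht1, ht2⟩ := exists_tail (M + 1 - 6 * ((M - 1) / 6)) (by omega) (by omega)
  let W : (Fin ((M - 1) / 6) → Bool) → List ℕ := fun b => code tail (List.ofFn b)
  have hmem : ∀ b, ∀ a ∈ W b, a = 2 ∨ a = 3 := fun b => code_mem tail ht1 _
  have hget : ∀ b i, (W b).get i = 2 ∨ (W b).get i = 3 := fun b i => hmem b _ (List.get_mem _ _)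
  have hpos : ∀ b i, 0 < (W b).get i := fun b i => by have := hget b i; omega
  have hsum : ∀ b, (W b).sum = (t - 1) * (k - 1) + 1 := by
    intro b
    show (code tail (List.ofFn b)).sum = _
    rw [code_sum, List.length_ofFn, ht2, hM]
    omega
  let F : (Fin ((M - 1) / 6) → Bool) → Quotient FinPoset.isoSetoid := fun b => ⟦⟨Elt (W b)⟩⟧
  have hF : Function.Injective F := by
    intro b b' h
    obtain ⟨e⟩ : Nonempty (Elt (W b) ≃o Elt (W b')) := Quotient.exact h
    have h1 : W b = W b' := eq_of_iso (hpos b) (hpos b') e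
    have h2 := code_inj tail _ _ (by simp) h1
    exact List.ofFn_injective h2
  have h4 : Set.range F ⊆ {c : Quotient FinPoset.isoSetoid | ∃ P : FinPoset, ⟦P⟧ = c ∧
      IsIrred k P.carrier ∧ kdim k P.carrier = t} := by
    rintro _ ⟨b, rfl⟩
    exact ⟨⟨Elt (W b)⟩, rfl, irred_elt hk ht (hget b) (hsum b), kdim_elt hk ht (hget b) (hsum b)⟩
  have h5 := Set.encard_le_encard h4
  refine le_trans (le_of_eq ?_) h5
  rw [← Set.image_univ, hF.encard_image, Set.encard_univ, ENat.card_eq_coe_fintype_card]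
  simp

/-- `N k t` has no polynomial upper bound. -/
theorem not_poly (hk : 2 ≤ k) (c C : ℕ) : ∃ t : ℕ, 1 ≤ t ∧ ((C * t ^ c : ℕ) : ℕ∞) < N k t := by
  -- exponentials beat polynomials
  have h1 : ∃ m : ℕ, C * (6 * m + 8) ^ c < 2 ^ m := by
    have hlim := tendsto_pow_const_div_const_pow_of_one_lt c (show (1 : ℝ) < 2 by norm_num)
    have h2 : Filter.Tendsto (fun n : ℕ => (C * 14 ^ c : ℝ) * ((n : ℝ) ^ c / 2 ^ n)) Filter.atTop
        (nhds ((C * 14 ^ c : ℝ) * 0)) := hlim.const_mul _
    rw [mul_zero] at h2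
    have h3 := (h2.eventually (gt_mem_nhds (show (0 : ℝ) < 1 by norm_num))).and
      (Filter.eventually_ge_atTop 1)
    obtain ⟨n, hn1, hn2⟩ := h3.exists
    refine ⟨n, ?_⟩
    have h4 : (0 : ℝ) < 2 ^ n := by positivity
    have h5 : (C * 14 ^ c : ℝ) * (n : ℝ) ^ c < 2 ^ n := by
      have h6 : (C * 14 ^ c : ℝ) * ((n : ℝ) ^ c / 2 ^ n) * 2 ^ n < 1 * 2 ^ n :=
        mul_lt_mul_of_pos_right hn1 h4
      have h7 : (C * 14 ^ c : ℝ) * ((n : ℝ) ^ c / 2 ^ n) * 2 ^ n = (C * 14 ^ c : ℝ) * (n : ℝ) ^ c := by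
        field_simp
      rw [h7, one_mul] at h6
      exact h6
    have h8 : C * 14 ^ c * n ^ c < 2 ^ n := by exact_mod_cast h5
    have h9 : (6 * n + 8) ^ c ≤ 14 ^ c * n ^ c := by
      rw [← mul_pow]
      exact Nat.pow_le_pow_left (by omega) _
    calc C * (6 * n + 8) ^ c ≤ C * (14 ^ c * n ^ c) := Nat.mul_le_mul_left _ h9
      _ = C * 14 ^ c * n ^ c := by ring
      _ < 2 ^ n := h8
  obtain ⟨m, hm⟩ := h1
  refine ⟨6 * m + 8, by omega, ?_⟩
  refine lt_of_lt_of_le ?_ (two_pow_le hk (show 4 ≤ 6 * m + 8 by omega))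
  rw [Nat.cast_lt]
  refine lt_of_lt_of_le hm (Nat.pow_le_pow_right (by norm_num) ?_)
  have h2 : (6 * m + 8 - 1) * 1 ≤ (6 * m + 8 - 1) * (k - 1) := Nat.mul_le_mul_left _ (by omega)
  omega

end main

end Pool.Agent.R128.KDim
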