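import Mathlib

set_option autoImplicit false
set_option linter.unusedSimpArgs false
set_option linter.unnecessarySeqFocus false
set_option linter.unusedTactic false
set_option linter.unreachableTactic false
set_option linter.unusedVariables false

/-!
# Every finite poset embeds in a `k`-irreducible poset of larger `k`-dimension (MP_6e33d6_co)
-/

namespace Pool.Agent.R128.KIrrEmb

/-- `P` embeds in the product `k ^ n` of `n` copies of the chain with `k` elements. -/
def Emb (k n : ℕ) (P : Type) [PartialOrder P] : Prop := Nonempty (P ↪o (Fin n → Fin k))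

/-- The `k`-dimension of `P`: the least `n` such that `P` embeds in `k ^ n`. -/
noncomputable def kdim (k : ℕ) (P : Type) [PartialOrder P] : ℕ := sInf {n : ℕ | Emb k n P}

/-- `Q` is `k`-irreducible: deleting any element lowers the `k`-dimension. -/
def IsIrred (k : ℕ) (Q : Type) [PartialOrder Q] : Prop :=
  ∀ x : Q, kdim k {y : Q // y ≠ x} < kdim k Q

/-! ### General facts -/

section general

variable {k : ℕ}

theorem emb_card (hk : 2 ≤ k) (P : Type) [PartialOrder P] [Finite P] : Emb k (Nat.card P) P := by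
  classical
  let e := Finite.equivFin P
  refine ⟨OrderEmbedding.ofMapLEIff
    (fun x i => if e.symm i ≤ x then (⟨1, by omega⟩ : Fin k) else ⟨0, by omega⟩) ?_⟩
  intro a b
  constructor
  · intro h
    have h1 := h (e a)
    simp only [Equiv.symm_apply_apply, le_refl, if_true] at h1
    by_contra hab
    rw [if_neg hab] at h1
    have h2 : (1 : ℕ) ≤ 0 := h1
    omega
  · intro h i
    dsimp only
    by_cases h1 : e.symm i ≤ a
    · rw [if_pos h1, if_pos (h1.trans h)]
    · rw [if_neg h1]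
      show (0 : ℕ) ≤ _
      omega

theorem Emb.comp {n : ℕ} {P Q : Type} [PartialOrder P] [PartialOrder Q] (g : P ↪o Q)
    (h : Emb k n Q) : Emb k n P := by
  obtain ⟨f⟩ := h
  exact ⟨g.trans f⟩

theorem Emb.mono_dim {m n : ℕ} (hk : 2 ≤ k) (hmn : m ≤ n) {P : Type} [PartialOrder P]
    (h : Emb k m P) : Emb k n P := by
  obtain ⟨f⟩ := h
  refine ⟨OrderEmbedding.ofMapLEIff
    (fun x i => if h : i.1 < m then f x ⟨i.1, h⟩ else (⟨0, by omega⟩ : Fin k)) ?_⟩
  intro a b
  constructor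
  · intro h
    rw [← f.le_iff_le]
    intro i
    have h1 := h ⟨i.1, lt_of_lt_of_le i.2 hmn⟩
    simpa using h1
  · intro h i
    dsimp only
    by_cases h1 : i.1 < m
    · rw [dif_pos h1, dif_pos h1]
      exact f.le_iff_le.2 h _
    · rw [dif_neg h1, dif_neg h1]

theorem kdim_le {n : ℕ} {P : Type} [PartialOrder P] (h : Emb k n P) : kdim k P ≤ n :=
  Nat.sInf_le h

theorem emb_kdim (hk : 2 ≤ k) (P : Type) [PartialOrder P] [Finite P] : Emb k (kdim k P) P :=
  Nat.sInf_mem (s := {n : ℕ | Emb k n P}) ⟨_, emb_card hk P⟩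

theorem lt_kdim (hk : 2 ≤ k) {n : ℕ} {P : Type} [PartialOrder P] [Finite P] (h : ¬ Emb k n P) :
    n < kdim k P := by
  by_contra hcon
  exact h ((emb_kdim hk P).mono_dim hk (not_lt.1 hcon))

/-- The reduction: it is enough to find a finite poset `Q` containing `P`, not embeddable in `k ^ N`
and such that all the posets `Q - p` with `p` in the copy of `P` are embeddable in `k ^ N`. -/
theorem exists_irred (hk : 2 ≤ k) {P Q : Type} [PartialOrder P] [PartialOrder Q] [Finite Q]
    (φ : P ↪o Q) (N : ℕ) (hP : kdim k P ≤ N) (h1 : ¬ Emb k N Q)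
    (h2 : ∀ p : P, Emb k N {y : Q // y ≠ φ p}) :
    ∃ (Q' : Type) (_ : PartialOrder Q') (_ : Finite Q'),
      IsIrred k Q' ∧ Nonempty (P ↪o Q') ∧ kdim k P < kdim k Q' := by
  obtain ⟨A, hA⟩ := exists_minimal_of_wellFoundedLT (fun A : Set Q => ¬ Emb k N A)
    ⟨Set.univ, fun h => h1 (h.comp
      (OrderEmbedding.ofMapLEIff (fun x : Q => (⟨x, trivial⟩ : (Set.univ : Set Q)))
        (fun _ _ => Iff.rfl)))⟩
  have hmin : ∀ B : Set Q, B ⊆ A → ¬ A ⊆ B → Emb k N B := by
    intro B hB hAB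
    by_contra hcon
    exact hAB (hA.2 hcon hB)
  have hmem : ∀ p : P, φ p ∈ A := by
    intro p
    by_contra hp
    refine hA.1 ((h2 p).comp (OrderEmbedding.ofMapLEIff
      (fun x : A => (⟨x.1, fun h => hp (h ▸ x.2)⟩ : {y : Q // y ≠ φ p})) (fun _ _ => Iff.rfl)))
  refine ⟨A, inferInstance, inferInstance, ?_, ?_, ?_⟩
  · intro x
    have h3 : Emb k N (A \ {x.1} : Set Q) := by
      apply hmin
      · exact Set.sdiff_subset
      · intro h
        exact (h x.2).2 rfl
    have h4 : Emb k N {y : A // y ≠ x} := h3.comp (OrderEmbedding.ofMapLEIff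
      (fun y : {y : A // y ≠ x} => (⟨y.1.1, y.1.2, fun h => y.2 (Subtype.ext h)⟩ :
        (A \ {x.1} : Set Q))) (fun _ _ => Iff.rfl))
    exact lt_of_le_of_lt (kdim_le h4) (lt_kdim hk hA.1)
  · exact ⟨OrderEmbedding.ofMapLEIff (fun p : P => (⟨φ p, hmem p⟩ : A)) (fun a b => φ.le_iff_le)⟩
  · exact lt_of_le_of_lt hP (lt_kdim hk hA.1)

end general

/-! ### The construction -/

section construction

variable (n : ℕ) (L : ℕ → ℕ → Prop)

/-- All the positions `0, …, 3 n + 3`; the last one is an extra position. -/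
def full : Set ℕ := {x | x ≤ 3 * n + 3}

/-- The elements `g_q`. -/
def gs (q : ℕ) : Set ℕ := {x | x = 1 + q}

/-- The elements `r_i`. -/
def rs (i : ℕ) : Set ℕ :=
  {x | (x = n + 2 + i ∧ i < n) ∨ (x + 1 = 2 * n + 2 + i ∧ 0 < i) ∨ (x = 3 * n + 3 ∧ i = n)}

/-- The elements `r'_i`. -/
def rs' (i : ℕ) : Set ℕ :=
  {x | x ≤ 3 * n + 3 ∧ x ≠ n + 2 + i ∧ x ≠ 2 * n + 2 + i ∧ x ≠ n + 1 ∧
    ¬ (x = 3 * n + 3 ∧ i + 1 = n) ∧ (1 ≤ x → x ≤ n → L (x - 1) i)}

/-- The elements `p_j` (the copy of `P`). -/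
def ps (j : ℕ) : Set ℕ :=
  {x | x = 3 * n + 2 ∨ (1 ≤ x ∧ L (x - 1) j) ∨ (2 * n + 2 ≤ x ∧ L (x - (2 * n + 2)) j)}

/-- The element `T`. -/
def ts : Set ℕ := {x | (1 ≤ x ∧ x ≤ n + 1) ∨ (2 * n + 2 ≤ x ∧ x ≤ 3 * n + 2)}

/-- The elements of the first kind. -/
def RFam : Set (Set ℕ) :=
  {s | (s ⊆ full n ∧ (3 * n + 3 ∈ s ↔ 3 * n + 1 ∈ s) ∧ 0 ∈ s ∧ 3 * n + 2 ∉ s) ∨ s = ∅ ∨
    s = full n ∨ (∃ q ≤ n, s = gs q) ∨ (∃ i ≤ n, s = rs n i) ∨ (∃ i < n, s = rs' n L i)}

/-- The whole family of sets. -/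
def Fam : Set (Set ℕ) := {s | s ∈ RFam n L ∨ (∃ j < n, s = ps n L j) ∨ s = ts n}

/-- The chain. -/
def Cs (j : ℕ) : Set ℕ := {x | x ≤ 3 * n + 3 ∧ (x < j ∨ (x = 3 * n + 3 ∧ 3 * n + 1 < j))}

/-- `L` is a partial order on `{0, …, n - 1}`. -/
structure IsPO : Prop where
  pos : 0 < n
  left : ∀ a b, L a b → a < n
  right : ∀ a b, L a b → b < n
  refl : ∀ a, a < n → L a a
  antisymm : ∀ a b, L a b → L b a → a = b
  trans : ∀ a b c, L a b → L b c → L a c

variable {n L}

theorem Cs_mem_RFam (h : IsPO n L) (j : ℕ) : Cs n j ∈ RFam n L := by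
  have hn := h.pos
  rcases Nat.eq_zero_or_pos j with rfl | hj
  · right; left
    ext x
    simp [Cs]
  · by_cases hj2 : j ≤ 3 * n + 2
    · left
      refine ⟨fun x hx => hx.1, ?_, ?_, ?_⟩
      · simp only [Cs, Set.mem_ofPred_eq, true_and, and_true]; (try constructor) <;> (try intro _) <;> omega
      · simp only [Cs, Set.mem_ofPred_eq, true_and, and_true]; (try constructor) <;> (try intro _) <;> omega
      · simp only [Cs, Set.mem_ofPred_eq, true_and, and_true]; (try constructor) <;> (try intro _) <;> omega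
    · right; right; left
      ext x
      simp only [Cs, full, Set.mem_ofPred_eq, true_and, and_true]; omega

theorem RFam_props (h : IsPO n L) {s : Set ℕ} (hs : s ∈ RFam n L) :
    s ⊆ full n ∧ (3 * n + 3 ∈ s ↔ 3 * n + 1 ∈ s) ∧ (3 * n + 2 ∈ s → 0 ∈ s) := by
  have hn := h.pos
  rcases hs with h1 | rfl | rfl | ⟨q, hq, rfl⟩ | ⟨i, hi, rfl⟩ | ⟨i, hi, rfl⟩
  · exact ⟨h1.1, h1.2.1, fun _ => h1.2.2.1⟩
  · simp
  · refine ⟨subset_rfl, ?_, ?_⟩
    · simp only [full, Set.mem_ofPred_eq, true_and, and_true]; (try constructor) <;> (try intro _) <;> omega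
    · simp only [full, Set.mem_ofPred_eq, true_and, and_true]; (try constructor) <;> (try intro _) <;> omega
  · refine ⟨?_, ?_, ?_⟩
    · intro x hx
      simp only [gs, full, Set.mem_ofPred_eq, true_and, and_true] at *; omega
    · simp only [gs, Set.mem_ofPred_eq, true_and, and_true]; (try constructor) <;> (try intro _) <;> omega
    · simp only [gs, Set.mem_ofPred_eq, true_and, and_true]; (try constructor) <;> (try intro _) <;> omega
  · refine ⟨?_, ?_, ?_⟩
    · intro x hx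
      simp only [rs, full, Set.mem_ofPred_eq, true_and, and_true] at *; omega
    · simp only [rs, Set.mem_ofPred_eq, true_and, and_true]; (try constructor) <;> (try intro _) <;> omega
    · simp only [rs, Set.mem_ofPred_eq, true_and, and_true]; (try constructor) <;> (try intro _) <;> omega
  · refine ⟨?_, ?_, ?_⟩
    · intro x hx
      exact hx.1
    · simp only [rs', Set.mem_ofPred_eq, true_and, and_true]
      constructor
      · rintro ⟨h1, h2, h3, h4, h5, h6⟩
        refine ⟨by omega, by omega, by omega, by omega, by omega, fun _ h7 => by omega⟩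
      · rintro ⟨h1, h2, h3, h4, h5, h6⟩
        refine ⟨by omega, by omega, by omega, by omega, by omega, fun _ h7 => by omega⟩
    · intro _
      simp only [rs', Set.mem_ofPred_eq, true_and, and_true]
      refine ⟨by omega, by omega, by omega, by omega, by omega, fun h7 => by omega⟩

theorem ps_subset (h : IsPO n L) (j : ℕ) : ps n L j ⊆ full n := by
  intro x hx
  simp only [ps, full, Set.mem_ofPred_eq, true_and, and_true] at *
  rcases hx with rfl | ⟨h1, h2⟩ | ⟨h1, h2⟩
  · omega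
  · have := h.left _ _ h2; omega
  · have := h.left _ _ h2; omega

theorem ts_subset : ts n ⊆ full n := by
  intro x hx
  simp only [ts, full, Set.mem_ofPred_eq, true_and, and_true] at *
  omega

theorem Fam_subset (h : IsPO n L) {s : Set ℕ} (hs : s ∈ Fam n L) : s ⊆ full n := by
  rcases hs with h1 | ⟨j, _, rfl⟩ | rfl
  · exact (RFam_props h h1).1
  · exact ps_subset h j
  · exact ts_subset

theorem Fam_finite (h : IsPO n L) : (Fam n L).Finite := by
  have h1 : (full n).Finite := Set.finite_le_nat _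
  exact (h1.powerset).subset fun s hs => Fam_subset h hs

/-! ### The lower bound, in `2 ^ N` -/

theorem RFam_Fam {s : Set ℕ} (hs : s ∈ RFam n L) : s ∈ Fam n L := Or.inl hs

theorem Cs_mem (h : IsPO n L) (j : ℕ) : Cs n j ∈ Fam n L := RFam_Fam (Cs_mem_RFam h j)

/-- The sets `{0, j}`. -/
def ss (n j : ℕ) : Set ℕ := {x | x = 0 ∨ x = j ∨ (x = 3 * n + 3 ∧ j = 3 * n + 1)}

/-- The sets `[N] - {j, N - 1}`. -/
def ss' (n j : ℕ) : Set ℕ :=
  {x | x ≤ 3 * n + 3 ∧ x ≠ j ∧ x ≠ 3 * n + 2 ∧ ¬ (x = 3 * n + 3 ∧ j = 3 * n + 1)}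

theorem ss_mem (h : IsPO n L) {j : ℕ} (hj : j < 3 * n + 2) : ss n j ∈ Fam n L := by
  have hn := h.pos
  left; left
  refine ⟨?_, ?_, ?_, ?_⟩
  · intro x hx
    simp only [ss, full, Set.mem_ofPred_eq, true_and, and_true] at *
    omega
  · simp only [ss, Set.mem_ofPred_eq, true_and, and_true]
    constructor <;> intro _ <;> omega
  · exact Or.inl rfl
  · simp only [ss, Set.mem_ofPred_eq, true_and, and_true]
    omega

theorem ss'_mem (h : IsPO n L) {j : ℕ} (hj0 : 0 < j) (hj : j < 3 * n + 2) :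
    ss' n j ∈ Fam n L := by
  have hn := h.pos
  left; left
  refine ⟨?_, ?_, ?_, ?_⟩
  · intro x hx
    simp only [ss', full, Set.mem_ofPred_eq, true_and, and_true] at *
    omega
  · simp only [ss', Set.mem_ofPred_eq, true_and, and_true]
    constructor <;> intro _ <;> omega
  · simp only [ss', Set.mem_ofPred_eq, true_and, and_true]
    omega
  · rintro ⟨_, _, h3, _⟩
    exact h3 rfl

theorem no_embedding (h : IsPO n L) (g : Set ℕ → Set ℕ)
    (hg : ∀ a ∈ Fam n L, ∀ b ∈ Fam n L, (g a ⊆ g b ↔ a ⊆ b))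
    (hC : ∀ j ≤ 3 * n + 3, g (Cs n j) = {x | x < j}) : False := by
  have hn := h.pos
  -- the range of `g`
  have hrange : ∀ a ∈ Fam n L, ∀ x ∈ g a, x < 3 * n + 3 := by
    intro a ha x hx
    have h1 : a ⊆ Cs n (3 * n + 3) := by
      intro y hy
      have := Fam_subset h ha hy
      simp only [Cs, full, Set.mem_ofPred_eq] at *
      omega
    have h2 := (hg a ha _ (Cs_mem h _)).2 h1 hx
    rw [hC _ le_rfl] at h2
    exact h2
  -- (A)
  have hA : ∀ a ∈ Fam n L, ∀ j < 3 * n + 2, ss n j ⊆ a → j ∈ g a := by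
    intro a ha j hj hsub
    have h1 : ss n j ⊆ Cs n (j + 1) := by
      intro x hx
      simp only [ss, Cs, Set.mem_ofPred_eq] at *
      omega
    have h2 : ¬ ss n j ⊆ Cs n j := by
      intro h2
      have h3 : j ∈ Cs n j := h2 (by simp [ss])
      simp only [Cs, Set.mem_ofPred_eq] at h3
      omega
    have h4 := (hg _ (ss_mem h hj) _ (Cs_mem h _)).2 h1
    have h5 : ¬ g (ss n j) ⊆ g (Cs n j) := fun h5 => h2 ((hg _ (ss_mem h hj) _ (Cs_mem h _)).1 h5)
    rw [hC _ (by omega)] at h4 h5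
    obtain ⟨x, hx, hxj⟩ := Set.not_subset.1 h5
    have h6 : x < j + 1 := h4 hx
    have h7 : ¬ x < j := hxj
    have h8 : x = j := by omega
    subst h8
    exact (hg _ (ss_mem h hj) _ ha).2 hsub hx
  -- (B)
  have hB : ∀ a ∈ Fam n L, ∀ j < 3 * n + 2, 0 < j → a ⊆ ss' n j → j ∉ g a := by
    intro a ha j hj hj0 hsub hja
    have h1 : Cs n j ⊆ ss' n j := by
      intro x hx
      simp only [ss', Cs, Set.mem_ofPred_eq] at *
      omega
    have h2 : ¬ Cs n (j + 1) ⊆ ss' n j := by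
      intro h2
      have h3 : j ∈ ss' n j := h2 (by simp only [Cs, Set.mem_ofPred_eq]; omega)
      simp only [ss', Set.mem_ofPred_eq] at h3
      exact h3.2.1 rfl
    have h4 := (hg _ (Cs_mem h _) _ (ss'_mem h hj0 hj)).2 h1
    have h5 : ¬ g (Cs n (j + 1)) ⊆ g (ss' n j) :=
      fun h5 => h2 ((hg _ (Cs_mem h _) _ (ss'_mem h hj0 hj)).1 h5)
    rw [hC _ (by omega)] at h4 h5
    apply h5
    intro x hx
    have h6 : x < j + 1 := hx
    rcases Nat.lt_succ_iff_lt_or_eq.1 h6 with h7 | rfl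
    · exact h4 h7
    · exact (hg _ ha _ (ss'_mem h hj0 hj)).2 hsub hja
  -- (C)
  have hC0 : ∀ a ∈ Fam n L, 0 ∉ a → 0 ∉ g a := by
    intro a ha h0 h1
    apply h0
    have h2 : g (Cs n 1) ⊆ g a := by
      rw [hC _ (by omega)]
      intro x hx
      have : x < 1 := hx
      have : x = 0 := by omega
      subst this
      exact h1
    exact (hg _ (Cs_mem h _) _ ha).1 h2 (by simp only [Cs, Set.mem_ofPred_eq]; omega)
  -- (D)
  have hD : ∀ a ∈ Fam n L, a ⊆ Cs n (3 * n + 2) → 3 * n + 2 ∉ g a := by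
    intro a ha h1 h2
    have h3 := (hg _ ha _ (Cs_mem h _)).2 h1 h2
    rw [hC _ (by omega)] at h3
    have h4 : 3 * n + 2 < 3 * n + 2 := h3
    omega
  have hD' : ∀ a ∈ Fam n L, ¬ a ⊆ Cs n (3 * n + 2) → 3 * n + 2 ∈ g a := by
    intro a ha h1
    have h2 : ¬ g a ⊆ g (Cs n (3 * n + 2)) := fun h3 => h1 ((hg _ ha _ (Cs_mem h _)).1 h3)
    rw [hC _ (by omega)] at h2
    obtain ⟨x, hx, hx2⟩ := Set.not_subset.1 h2
    have h3 := hrange a ha x hx
    have h4 : ¬ x < 3 * n + 2 := hx2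
    have h5 : x = 3 * n + 2 := by omega
    rwa [h5] at hx
  -- elements of the family
  have mg : ∀ q ≤ n, gs q ∈ Fam n L := fun q hq => Or.inl (Or.inr (Or.inr (Or.inr (Or.inl ⟨q, hq, rfl⟩))))
  have mr : ∀ i ≤ n, rs n i ∈ Fam n L := fun q hq =>
    Or.inl (Or.inr (Or.inr (Or.inr (Or.inr (Or.inl ⟨q, hq, rfl⟩)))))
  have mr' : ∀ i < n, rs' n L i ∈ Fam n L := fun q hq =>
    Or.inl (Or.inr (Or.inr (Or.inr (Or.inr (Or.inr ⟨q, hq, rfl⟩)))))
  have mp : ∀ j < n, ps n L j ∈ Fam n L := fun j hj => Or.inr (Or.inl ⟨j, hj, rfl⟩)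
  have mt : ts n ∈ Fam n L := Or.inr (Or.inr rfl)
  -- the images of the `g_q`
  have gg : ∀ q ≤ n, g (gs q) = {1 + q} := by
    intro q hq
    have h1 : ∀ x ∈ g (gs q), x = 1 + q := by
      intro x hx
      by_contra hne
      have h2 := hrange _ (mg q hq) x hx
      rcases Nat.eq_zero_or_pos x with rfl | hx0
      · exact hC0 _ (mg q hq) (by simp only [gs, Set.mem_ofPred_eq]; omega) hx
      · by_cases h3 : x = 3 * n + 2
        · subst h3
          refine hD _ (mg q hq) ?_ hx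
          intro y hy
          simp only [gs, Cs, Set.mem_ofPred_eq] at *
          omega
        · refine hB _ (mg q hq) x (by omega) hx0 ?_ hx
          intro y hy
          simp only [gs, ss', Set.mem_ofPred_eq] at *
          omega
    have h2 : (g (gs q)).Nonempty := by
      by_contra hcon
      rw [Set.not_nonempty_iff_eq_empty] at hcon
      have h3 : g (gs q) ⊆ g (Cs n 0) := by rw [hcon]; exact Set.empty_subset _
      have h4 := (hg _ (mg q hq) _ (Cs_mem h _)).1 h3
      have h5 : 1 + q ∈ Cs n 0 := h4 rfl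
      simp only [Cs, Set.mem_ofPred_eq] at h5
      omega
    ext x
    constructor
    · exact h1 x
    · rintro rfl
      obtain ⟨y, hy⟩ := h2
      have := h1 y hy
      rwa [this] at hy
  -- the images of the `r_i`
  have gr : ∀ i ≤ n, ∀ x ∈ g (rs n i), x ∈ rs n i ∧ x < 3 * n + 3 := by
    intro i hi x hx
    have h2 := hrange _ (mr i hi) x hx
    refine ⟨?_, h2⟩
    by_contra hne
    rcases Nat.eq_zero_or_pos x with rfl | hx0
    · exact hC0 _ (mr i hi) hne hx
    · by_cases h3 : x = 3 * n + 2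
      · subst h3
        refine hD _ (mr i hi) ?_ hx
        intro y hy
        simp only [rs, Cs, Set.mem_ofPred_eq] at *
        omega
      · refine hB _ (mr i hi) x (by omega) hx0 ?_ hx
        intro y hy
        simp only [rs, ss', Set.mem_ofPred_eq] at *
        omega
  -- the images of the `r'_i`
  have gr' : ∀ i < n, ∀ x ∈ rs' n L i, x < 3 * n + 3 → x ∈ g (rs' n L i) := by
    intro i hi x hx hx3
    by_cases h3 : x = 3 * n + 2
    · subst h3
      refine hD' _ (mr' i hi) ?_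
      intro h4
      have h5 := h4 hx
      simp only [Cs, Set.mem_ofPred_eq] at h5
      omega
    · refine hA _ (mr' i hi) x (by omega) ?_
      intro y hy
      simp only [ss, Set.mem_ofPred_eq] at hy
      rcases hy with rfl | rfl | ⟨rfl, hy⟩
      · simp only [rs', Set.mem_ofPred_eq]
        refine ⟨by omega, by omega, by omega, by omega, by omega, fun h7 => by omega⟩
      · exact hx
      · subst hy
        simp only [rs', Set.mem_ofPred_eq] at hx ⊢
        refine ⟨by omega, by omega, by omega, by omega, by omega, fun _ h7 => by omega⟩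
  -- `α_i` or `β_i` is in the image of `T`
  have key : ∀ i < n, n + 2 + i ∈ g (ts n) ∨ 2 * n + 2 + i ∈ g (ts n) := by
    intro i hi
    have h1 : ¬ ps n L i ⊆ rs' n L i := by
      intro h1
      have h2 : 2 * n + 2 + i ∈ ps n L i := by
        right; right
        refine ⟨by omega, ?_⟩
        have : 2 * n + 2 + i - (2 * n + 2) = i := by omega
        rw [this]
        exact h.refl i hi
      exact (h1 h2).2.2.1 rfl
    have h2 : ¬ g (ps n L i) ⊆ g (rs' n L i) := fun h2 => h1 ((hg _ (mp i hi) _ (mr' i hi)).1 h2)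
    obtain ⟨x, hx, hx2⟩ := Set.not_subset.1 h2
    have h3 := hrange _ (mp i hi) x hx
    have h4 : x ∉ rs' n L i := fun h4 => hx2 (gr' i hi x h4 h3)
    have h5 : ps n L i ⊆ ts n := by
      intro y hy
      simp only [ps, ts, Set.mem_ofPred_eq] at *
      rcases hy with rfl | ⟨hy1, hy2⟩ | ⟨hy1, hy2⟩
      · omega
      · have := h.left _ _ hy2
        omega
      · have := h.left _ _ hy2
        omega
    have h6 : x ∈ g (ts n) := (hg _ (mp i hi) _ mt).2 h5 hx
    -- `g_q ≤ p_i` if `1 + q ∈ g p_i`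
    have h7 : ∀ q ≤ n, 1 + q ∈ g (ps n L i) → L q i := by
      intro q hq hq2
      have h8 : g (gs q) ⊆ g (ps n L i) := by
        rw [gg q hq]
        intro y hy
        rw [Set.mem_singleton_iff] at hy
        rwa [hy]
      have h9 := (hg _ (mg q hq) _ (mp i hi)).1 h8
      have h10 : 1 + q ∈ ps n L i := h9 rfl
      simp only [ps, Set.mem_ofPred_eq] at h10
      rcases h10 with h10 | ⟨_, h10⟩ | ⟨h10, _⟩
      · omega
      · have : 1 + q - 1 = q := by omega
        rwa [this] at h10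
      · omega
    by_contra hcon
    push Not at hcon
    apply h4
    refine ⟨by omega, ?_, ?_, ?_, by omega, ?_⟩
    · rintro rfl; exact hcon.1 h6
    · rintro rfl; exact hcon.2 h6
    · rintro rfl
      have h8 := h7 n le_rfl (by rwa [add_comm])
      have := h.left _ _ h8
      omega
    · intro h8 h9
      apply h7 (x - 1) (by omega)
      have : 1 + (x - 1) = x := by omega
      rwa [this]
  -- the chain
  have hnot : ∀ i ≤ n, ¬ g (rs n i) ⊆ g (ts n) := by
    intro i hi h1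
    have h2 := (hg _ (mr i hi) _ mt).1 h1
    rcases Nat.lt_or_ge i n with h3 | h3
    · have h4 : n + 2 + i ∈ ts n := h2 (Or.inl ⟨rfl, h3⟩)
      simp only [ts, Set.mem_ofPred_eq] at h4
      omega
    · have h5 : i = n := by omega
      have h4 : 3 * n + 3 ∈ ts n := h2 (Or.inr (Or.inr ⟨rfl, h5⟩))
      simp only [ts, Set.mem_ofPred_eq] at h4
      omega
  have chain : ∀ i < n, n + 2 + i ∉ g (ts n) := by
    intro i
    induction i with
    | zero =>
      intro hi h1
      apply hnot 0 hi.le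
      intro x hx
      have h2 := gr 0 hi.le x hx
      simp only [rs, Set.mem_ofPred_eq] at h2
      have h3 : x = n + 2 + 0 := by omega
      rwa [h3]
    | succ i ih =>
      intro hi h1
      have h2 := ih (by omega)
      have h3 : 2 * n + 2 + i ∈ g (ts n) := (key i (by omega)).resolve_left h2
      apply hnot (i + 1) hi.le
      intro x hx
      have h4 := gr (i + 1) hi.le x hx
      simp only [rs, Set.mem_ofPred_eq] at h4
      have h5 : x = n + 2 + (i + 1) ∨ x = 2 * n + 2 + i := by omega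
      rcases h5 with h5 | h5
      · rwa [h5]
      · rwa [h5]
  have h1 : 2 * n + 2 + (n - 1) ∈ g (ts n) := (key (n - 1) (by omega)).resolve_left
    (chain (n - 1) (by omega))
  apply hnot n le_rfl
  intro x hx
  have h4 := gr n le_rfl x hx
  simp only [rs, Set.mem_ofPred_eq] at h4
  have h5 : x = 2 * n + 2 + (n - 1) := by omega
  rwa [h5]

/-! ### The upper bound, in `2 ^ N` -/

/-- The embedding of the family without `p_i` in `2 ^ N`. -/
def Fs (n i : ℕ) (s : Set ℕ) : Set ℕ :=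
  {x | (x ∈ s ∧ ¬ (3 * n + 2 ∈ s ∧ 0 ∉ s ∧ 2 * n + 2 + i ≤ x ∧ x ≤ 3 * n + 1)) ∨
    (3 * n + 2 ∈ s ∧ 0 ∉ s ∧ n + 2 + i < x ∧ x < 2 * n + 2 ∧ x + n ∈ s)}

theorem Fs_RFam (h : IsPO n L) (i : ℕ) {s : Set ℕ} (hs : s ∈ RFam n L) : Fs n i s = s := by
  have h1 := (RFam_props h hs).2.2
  ext x
  constructor
  · rintro (⟨hx, _⟩ | ⟨h2, h3, _⟩)
    · exact hx
    · exact absurd (h1 h2) h3
  · intro hx
    left
    refine ⟨hx, ?_⟩
    rintro ⟨h2, h3, _⟩
    exact h3 (h1 h2)

theorem mem_Fs_ts (hn : 0 < n) (i : ℕ) {x : ℕ} : x ∈ Fs n i (ts n) ↔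
    ((1 ≤ x ∧ x ≤ n + 1) ∨ (2 * n + 2 ≤ x ∧ x < 2 * n + 2 + i ∧ x < 3 * n + 2) ∨ x = 3 * n + 2 ∨
      (n + 2 + i < x ∧ x < 2 * n + 2)) := by
  simp only [Fs, ts, Set.mem_ofPred_eq]
  constructor
  · intro h
    omega
  · intro h
    omega

theorem zero_notMem_ps (h : IsPO n L) (j : ℕ) : 0 ∉ ps n L j := by
  simp only [ps, Set.mem_ofPred_eq]
  rintro (h1 | ⟨h1, _⟩ | ⟨h1, _⟩) <;> omega

theorem top_mem_ps (j : ℕ) : 3 * n + 2 ∈ ps n L j := Or.inl rfl

theorem mem_ps_e (h : IsPO n L) {j q : ℕ} (hq : q ≤ n) : 1 + q ∈ ps n L j ↔ L q j := by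
  simp only [ps, Set.mem_ofPred_eq]
  have h0 : 1 + q - 1 = q := by omega
  rw [h0]
  constructor
  · rintro (h1 | ⟨_, h1⟩ | ⟨h1, _⟩)
    · omega
    · exact h1
    · omega
  · intro h1
    exact Or.inr (Or.inl ⟨by omega, h1⟩)

theorem mem_ps_a (h : IsPO n L) {j i : ℕ} (hi : i < n) : n + 2 + i ∉ ps n L j := by
  simp only [ps, Set.mem_ofPred_eq]
  rintro (h1 | ⟨_, h1⟩ | ⟨h1, _⟩)
  · omega
  · have := h.left _ _ h1
    omega
  · omega

theorem mem_ps_b (h : IsPO n L) {j i : ℕ} (hi : i < n) : 2 * n + 2 + i ∈ ps n L j ↔ L i j := by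
  simp only [ps, Set.mem_ofPred_eq]
  have h0 : 2 * n + 2 + i - (2 * n + 2) = i := by omega
  rw [h0]
  constructor
  · rintro (h1 | ⟨_, h1⟩ | ⟨_, h1⟩)
    · omega
    · have := h.left _ _ h1
      omega
    · exact h1
  · intro h1
    exact Or.inr (Or.inr ⟨by omega, h1⟩)

theorem ps_subset_iff (h : IsPO n L) {j : ℕ} (hj : j < n) {s : Set ℕ} : ps n L j ⊆ s ↔
    3 * n + 2 ∈ s ∧ (∀ q < n, L q j → 1 + q ∈ s) ∧ (∀ l < n, L l j → 2 * n + 2 + l ∈ s) := by
  constructor
  · intro h1
    exact ⟨h1 (top_mem_ps j), fun q hq hqj => h1 ((mem_ps_e h hq.le).2 hqj),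
      fun l hl hlj => h1 ((mem_ps_b h hl).2 hlj)⟩
  · rintro ⟨h1, h2, h3⟩ x (rfl | ⟨hx, hx2⟩ | ⟨hx, hx2⟩)
    · exact h1
    · have h4 := h2 _ (h.left _ _ hx2) hx2
      have h5 : 1 + (x - 1) = x := by omega
      rwa [h5] at h4
    · have h4 := h3 _ (h.left _ _ hx2) hx2
      have h5 : 2 * n + 2 + (x - (2 * n + 2)) = x := by omega
      rwa [h5] at h4

theorem top_mem_Fs_ps (i j : ℕ) : 3 * n + 2 ∈ Fs n i (ps n L j) := by
  left
  refine ⟨top_mem_ps j, ?_⟩
  rintro ⟨_, _, _, h4⟩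
  omega

theorem zero_notMem_Fs_ps (h : IsPO n L) (i j : ℕ) : 0 ∉ Fs n i (ps n L j) := by
  rintro (⟨h1, _⟩ | ⟨_, _, h3, _⟩)
  · exact zero_notMem_ps h j h1
  · omega

theorem mem_Fs_e (h : IsPO n L) {i j q : ℕ} (hq : q ≤ n) :
    1 + q ∈ Fs n i (ps n L j) ↔ L q j := by
  rw [← mem_ps_e h hq]
  constructor
  · rintro (⟨h1, _⟩ | ⟨_, _, h3, _⟩)
    · exact h1
    · omega
  · intro h1
    left
    refine ⟨h1, ?_⟩
    rintro ⟨_, _, h3, _⟩
    omega

theorem mem_Fs_b (h : IsPO n L) {i j l : ℕ} (hl : l < n) :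
    2 * n + 2 + l ∈ Fs n i (ps n L j) ↔ l < i ∧ L l j := by
  rw [← mem_ps_b h hl]
  constructor
  · rintro (⟨h1, h2⟩ | ⟨_, _, _, h3, _⟩)
    · refine ⟨?_, h1⟩
      by_contra hcon
      exact h2 ⟨top_mem_ps j, zero_notMem_ps h j, by omega, by omega⟩
    · omega
  · rintro ⟨h1, h2⟩
    left
    refine ⟨h2, ?_⟩
    rintro ⟨_, _, h3, _⟩
    omega

theorem mem_Fs_a (h : IsPO n L) {i j l : ℕ} (hl : l < n) :
    n + 2 + l ∈ Fs n i (ps n L j) ↔ i < l ∧ L l j := by
  rw [← mem_ps_b h hl]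
  have h0 : n + 2 + l + n = 2 * n + 2 + l := by omega
  constructor
  · rintro (⟨h1, h2⟩ | ⟨_, _, h2, _, h3⟩)
    · exact absurd h1 (mem_ps_a h hl)
    · rw [h0] at h3
      exact ⟨by omega, h3⟩
  · rintro ⟨h1, h2⟩
    right
    exact ⟨top_mem_ps j, zero_notMem_ps h j, by omega, by omega, by rwa [h0]⟩

theorem Fs_ps_subset_iff (h : IsPO n L) {i j : ℕ} (hj : j < n) {s : Set ℕ} :
    (∀ x < 3 * n + 3, x ∈ Fs n i (ps n L j) → x ∈ s) ↔
    3 * n + 2 ∈ s ∧ (∀ q < n, L q j → 1 + q ∈ s) ∧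
      (∀ l < n, l < i → L l j → 2 * n + 2 + l ∈ s) ∧ (∀ l < n, i < l → L l j → n + 2 + l ∈ s) := by
  have hn := h.pos
  constructor
  · intro h1
    exact ⟨h1 _ (by omega) (top_mem_Fs_ps i j), fun q hq hqj => h1 _ (by omega) ((mem_Fs_e h hq.le).2 hqj),
      fun l hl hli hlj => h1 _ (by omega) ((mem_Fs_b h hl).2 ⟨hli, hlj⟩),
      fun l hl hli hlj => h1 _ (by omega) ((mem_Fs_a h hl).2 ⟨hli, hlj⟩)⟩
  · rintro ⟨h1, h2, h3, h4⟩ x hx hx2
    rcases Nat.eq_zero_or_pos x with rfl | hx0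
    · exact absurd hx2 (zero_notMem_Fs_ps h i j)
    · by_cases c1 : x ≤ n + 1
      · obtain ⟨q, rfl⟩ : ∃ q, x = 1 + q := ⟨x - 1, by omega⟩
        have h5 := (mem_Fs_e h (by omega)).1 hx2
        exact h2 q (h.left _ _ h5) h5
      · by_cases c2 : x < 2 * n + 2
        · obtain ⟨l, rfl⟩ : ∃ l, x = n + 2 + l := ⟨x - (n + 2), by omega⟩
          have h5 := (mem_Fs_a h (by omega)).1 hx2
          exact h4 l (by omega) h5.1 h5.2
        · by_cases c3 : x < 3 * n + 2
          · obtain ⟨l, rfl⟩ : ∃ l, x = 2 * n + 2 + l := ⟨x - (2 * n + 2), by omega⟩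
            have h5 := (mem_Fs_b h (by omega)).1 hx2
            exact h3 l (by omega) h5.1 h5.2
          · have : x = 3 * n + 2 := by omega
            rwa [this]

theorem R_special {i : ℕ} (h : IsPO n L) {a b : Set ℕ} (ha : a ∈ RFam n L) (hb0 : 0 ∉ b)
    (hb0' : 0 ∉ Fs n i b) (hbe : ∀ q ≤ n, (1 + q ∈ Fs n i b ↔ 1 + q ∈ b))
    (hr : ∀ l ≤ n, ¬ rs n l ⊆ b) (hr' : ∀ l ≤ n, ¬ ∀ x < 3 * n + 3, x ∈ rs n l → x ∈ Fs n i b) :
    (∀ x < 3 * n + 3, x ∈ Fs n i a → x ∈ Fs n i b) ↔ a ⊆ b := by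
  rw [Fs_RFam h i ha]
  rcases ha with h1 | rfl | rfl | ⟨q, hq, rfl⟩ | ⟨l, hl, rfl⟩ | ⟨l, hl, rfl⟩
  · constructor
    · intro h2
      exact absurd (h2 0 (by omega) h1.2.2.1) hb0'
    · intro h2
      exact absurd (h2 h1.2.2.1) hb0
  · constructor
    · intro _
      exact Set.empty_subset _
    · intro _ x _ hx
      exact absurd hx (Set.notMem_empty x)
  · have h3 : 0 ∈ full n := Nat.zero_le _
    constructor
    · intro h2
      exact absurd (h2 0 (by omega) h3) hb0'
    · intro h2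
      exact absurd (h2 h3) hb0
  · constructor
    · intro h2 x hx
      have h3 : x = 1 + q := hx
      subst h3
      exact (hbe q hq).1 (h2 _ (by omega) hx)
    · intro h2 x _ hx
      have h3 : x = 1 + q := hx
      subst h3
      exact (hbe q hq).2 (h2 hx)
  · constructor
    · intro h2
      exact absurd h2 (hr' l hl)
    · intro h2
      exact absurd h2 (hr l hl)
  · have h3 : 0 ∈ rs' n L l := by
      simp only [rs', Set.mem_ofPred_eq]
      refine ⟨by omega, by omega, by omega, by omega, by omega, fun h7 => by omega⟩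
    constructor
    · intro h2
      exact absurd (h2 0 (by omega) h3) hb0'
    · intro h2
      exact absurd (h2 h3) hb0

/-- The elements of the first kind which contain `3 n + 2`. -/
theorem RFam_top (h : IsPO n L) {b : Set ℕ} (hb : b ∈ RFam n L) :
    3 * n + 2 ∉ b ∨ b = full n ∨ ∃ l < n, b = rs' n L l := by
  have hn := h.pos
  rcases hb with h1 | rfl | rfl | ⟨q, hq, rfl⟩ | ⟨l, hl, rfl⟩ | ⟨l, hl, rfl⟩
  · exact Or.inl h1.2.2.2
  · exact Or.inl (Set.notMem_empty _)
  · exact Or.inr (Or.inl rfl)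
  · left
    simp only [gs, Set.mem_ofPred_eq]
    omega
  · left
    simp only [rs, Set.mem_ofPred_eq]
    omega
  · exact Or.inr (Or.inr ⟨l, hl, rfl⟩)

theorem mem_rs'_top {l : ℕ} (hl : l < n) : 3 * n + 2 ∈ rs' n L l := by
  simp only [rs', Set.mem_ofPred_eq]
  refine ⟨by omega, by omega, by omega, by omega, by omega, fun _ h7 => by omega⟩

theorem mem_rs'_e {l q : ℕ} (hl : l < n) (hq : q < n) : 1 + q ∈ rs' n L l ↔ L q l := by
  simp only [rs', Set.mem_ofPred_eq]
  have h0 : 1 + q - 1 = q := by omega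
  rw [h0]
  constructor
  · rintro ⟨_, _, _, _, _, h1⟩
    exact h1 (by omega) (by omega)
  · intro h1
    exact ⟨by omega, by omega, by omega, by omega, by omega, fun _ _ => h1⟩

theorem mem_rs'_b {l m : ℕ} (hl : l < n) (hm : m < n) : 2 * n + 2 + m ∈ rs' n L l ↔ m ≠ l := by
  simp only [rs', Set.mem_ofPred_eq]
  constructor
  · rintro ⟨_, _, h3, _⟩ h4
    omega
  · intro h1
    exact ⟨by omega, by omega, by omega, by omega, by omega, fun _ h7 => by omega⟩

theorem mem_rs'_a {l m : ℕ} (hl : l < n) (hm : m < n) : n + 2 + m ∈ rs' n L l ↔ m ≠ l := by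
  simp only [rs', Set.mem_ofPred_eq]
  constructor
  · rintro ⟨_, h3, _⟩ h4
    omega
  · intro h1
    exact ⟨by omega, by omega, by omega, by omega, by omega, fun _ h7 => by omega⟩

theorem ps_le_iff (h : IsPO n L) {j l : ℕ} (hj : j < n) : ps n L j ⊆ ps n L l ↔ L j l := by
  rw [ps_subset_iff h hj]
  constructor
  · rintro ⟨_, h1, _⟩
    exact (mem_ps_e h hj.le).1 (h1 j hj (h.refl j hj))
  · intro h1
    exact ⟨top_mem_ps l, fun q hq hqj => (mem_ps_e h hq.le).2 (h.trans _ _ _ hqj h1),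
      fun m hm hmj => (mem_ps_b h hm).2 (h.trans _ _ _ hmj h1)⟩

theorem Fs_ps_le_iff (h : IsPO n L) {i j l : ℕ} (hj : j < n) :
    (∀ x < 3 * n + 3, x ∈ Fs n i (ps n L j) → x ∈ Fs n i (ps n L l)) ↔ L j l := by
  rw [Fs_ps_subset_iff h hj]
  constructor
  · rintro ⟨_, h1, _⟩
    exact (mem_Fs_e h hj.le).1 (h1 j hj (h.refl j hj))
  · intro h1
    exact ⟨top_mem_Fs_ps i l, fun q hq hqj => (mem_Fs_e h hq.le).2 (h.trans _ _ _ hqj h1),
      fun m hm hmi hmj => (mem_Fs_b h hm).2 ⟨hmi, h.trans _ _ _ hmj h1⟩,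
      fun m hm hmi hmj => (mem_Fs_a h hm).2 ⟨hmi, h.trans _ _ _ hmj h1⟩⟩

theorem ps_subset_ts (h : IsPO n L) {j : ℕ} (hj : j < n) : ps n L j ⊆ ts n := by
  rw [ps_subset_iff h hj]
  simp only [ts, Set.mem_ofPred_eq]
  exact ⟨by omega, fun q hq _ => by omega, fun q hq _ => by omega⟩

theorem Fs_ps_subset_ts (h : IsPO n L) {i j : ℕ} (hj : j < n) :
    ∀ x < 3 * n + 3, x ∈ Fs n i (ps n L j) → x ∈ Fs n i (ts n) := by
  rw [Fs_ps_subset_iff h hj]
  refine ⟨?_, fun q hq _ => ?_, fun q hq _ _ => ?_, fun q hq _ _ => ?_⟩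
  · rw [mem_Fs_ts h.pos]; omega
  · rw [mem_Fs_ts h.pos]; omega
  · rw [mem_Fs_ts h.pos]; omega
  · rw [mem_Fs_ts h.pos]; omega

theorem rs_not_subset_ts {l : ℕ} (hl : l ≤ n) : ¬ rs n l ⊆ ts n := by
  intro h2
  rcases Nat.lt_or_ge l n with h3 | h3
  · have h4 : n + 2 + l ∈ ts n := h2 (Or.inl ⟨rfl, h3⟩)
    simp only [ts, Set.mem_ofPred_eq] at h4
    omega
  · have h5 : l = n := by omega
    have h4 : 3 * n + 3 ∈ ts n := h2 (Or.inr (Or.inr ⟨rfl, h5⟩))
    simp only [ts, Set.mem_ofPred_eq] at h4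
    omega

theorem rs_not_subset_Fs_ts (hn : 0 < n) {i l : ℕ} (hi : i < n) (hl : l ≤ n) :
    ¬ ∀ x < 3 * n + 3, x ∈ rs n l → x ∈ Fs n i (ts n) := by
  intro h2
  by_cases h3 : i < l
  · have h4 := h2 (2 * n + 1 + l) (by omega) (Or.inr (Or.inl ⟨by omega, by omega⟩))
    rw [mem_Fs_ts hn] at h4
    omega
  · have h4 := h2 (n + 2 + l) (by omega) (Or.inl ⟨rfl, by omega⟩)
    rw [mem_Fs_ts hn] at h4
    omega

theorem Fs_iff (h : IsPO n L) {i : ℕ} (hi : i < n) {a b : Set ℕ} (ha : a ∈ Fam n L)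
    (hb : b ∈ Fam n L) (hai : a ≠ ps n L i) (hbi : b ≠ ps n L i) :
    (∀ x < 3 * n + 3, x ∈ Fs n i a → x ∈ Fs n i b) ↔ a ⊆ b := by
  have hn := h.pos
  rcases ha with ha | ⟨j, hj, rfl⟩ | rfl
  · rcases hb with hb | ⟨l, hl, rfl⟩ | rfl
    · rw [Fs_RFam h i ha, Fs_RFam h i hb]
      constructor
      · intro h1 x hx
        have h2 := (RFam_props h ha).1 hx
        rcases Nat.lt_or_ge x (3 * n + 3) with h3 | h3
        · exact h1 x h3 hx
        · have h4 : x = 3 * n + 3 := le_antisymm h2 h3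
          subst h4
          rw [(RFam_props h hb).2.1]
          exact h1 _ (by omega) ((RFam_props h ha).2.1.1 hx)
      · intro h1 x _ hx
        exact h1 hx
    · refine R_special h ha (zero_notMem_ps h l) (zero_notMem_Fs_ps h i l) ?_ ?_ ?_
      · intro q hq
        rw [mem_Fs_e h hq, mem_ps_e h hq]
      · intro m hm h1
        exact rs_not_subset_ts hm (h1.trans (ps_subset_ts h hl))
      · intro m hm h1
        exact rs_not_subset_Fs_ts hn hi hm
          (fun x hx hx2 => Fs_ps_subset_ts h hl x hx (h1 x hx hx2))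
    · refine R_special h ha ?_ ?_ ?_ (fun l hl => rs_not_subset_ts hl)
        (fun l hl => rs_not_subset_Fs_ts hn hi hl)
      · simp only [ts, Set.mem_ofPred_eq]; omega
      · rw [mem_Fs_ts hn]; omega
      · intro q hq
        rw [mem_Fs_ts hn]
        simp only [ts, Set.mem_ofPred_eq]
        omega
  · rcases hb with hb | ⟨l, hl, rfl⟩ | rfl
    · rw [Fs_RFam h i hb, Fs_ps_subset_iff h hj, ps_subset_iff h hj]
      rcases RFam_top h hb with h1 | rfl | ⟨l, hl, rfl⟩
      · exact ⟨fun h2 => absurd h2.1 h1, fun h2 => absurd h2.1 h1⟩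
      · simp only [full, Set.mem_ofPred_eq]
        constructor
        · intro _
          exact ⟨by omega, fun q hq _ => by omega, fun q hq _ => by omega⟩
        · intro _
          exact ⟨by omega, fun q hq _ => by omega, fun q hq _ _ => by omega,
            fun q hq _ _ => by omega⟩
      · constructor
        · rintro ⟨h1, h2, h3, h4⟩
          refine ⟨h1, h2, ?_⟩
          intro m hm hmj
          rw [mem_rs'_b hl hm]
          rintro rfl
          rcases lt_trichotomy m i with h5 | rfl | h5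
          · have := (mem_rs'_b hl hm).1 (h3 m hm h5 hmj)
            exact this rfl
          · have h6 := (mem_rs'_e hl hj).1 (h2 j hj (h.refl j hj))
            have h7 := h.antisymm _ _ h6 hmj
            subst h7
            exact hai rfl
          · have := (mem_rs'_a hl hm).1 (h4 m hm h5 hmj)
            exact this rfl
        · rintro ⟨h1, h2, h3⟩
          refine ⟨h1, h2, fun m hm _ hmj => h3 m hm hmj, fun m hm _ hmj => ?_⟩
          rw [mem_rs'_a hl hm]
          exact (mem_rs'_b hl hm).1 (h3 m hm hmj)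
    · rw [Fs_ps_le_iff h hj, ps_le_iff h hj]
    · exact ⟨fun _ => ps_subset_ts h hj, fun _ => Fs_ps_subset_ts h hj⟩
  · rcases hb with hb | ⟨l, hl, rfl⟩ | rfl
    · rw [Fs_RFam h i hb]
      rcases RFam_top h hb with h1 | rfl | ⟨l, hl, rfl⟩
      · constructor
        · intro h2
          refine absurd (h2 (3 * n + 2) (by omega) ?_) h1
          rw [mem_Fs_ts hn]; omega
        · intro h2
          refine absurd (h2 (a := 3 * n + 2) ?_) h1
          simp only [ts, Set.mem_ofPred_eq]; omega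
      · constructor
        · intro _
          exact ts_subset
        · intro _ x hx _
          exact le_of_lt hx
      · constructor
        · intro h2
          have h3 := h2 (n + 1) (by omega) (by rw [mem_Fs_ts hn]; omega)
          exact absurd rfl h3.2.2.2.1
        · intro h2
          have h3 := h2 (a := n + 1) (by simp only [ts, Set.mem_ofPred_eq]; omega)
          exact absurd rfl h3.2.2.2.1
    · constructor
      · intro h2
        have h3 := h2 (1 + n) (by omega) (by rw [mem_Fs_ts hn]; omega)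
        have h4 := h.left _ _ ((mem_Fs_e h le_rfl).1 h3)
        omega
      · intro h2
        have h3 := h2 (a := 1 + n) (by simp only [ts, Set.mem_ofPred_eq]; omega)
        have h4 := h.left _ _ ((mem_ps_e h le_rfl).1 h3)
        omega
    · exact ⟨fun _ => subset_rfl, fun _ x _ hx => hx⟩

end construction

/-! ### General `k` -/

section generalk

/-- The poset: a chain with `(k - 2) (3 n + 3)` elements below the family. -/
abbrev Big (k n : ℕ) (L : ℕ → ℕ → Prop) : Type := Fin ((k - 2) * (3 * n + 3)) ⊕ₗ ↥(Fam n L)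

variable {n : ℕ} {L : ℕ → ℕ → Prop}

theorem ps_mem_Fam {j : ℕ} (hj : j < n) : ps n L j ∈ Fam n L := Or.inr (Or.inl ⟨j, hj, rfl⟩)

open Classical in
/-- The embedding of `Big - p_i`. -/
noncomputable def val (k n : ℕ) (L : ℕ → ℕ → Prop) (hk : 2 ≤ k) (i : ℕ) (y : Big k n L) :
    Fin (3 * n + 3) → Fin k :=
  fun c => match ofLex y with
    | Sum.inl m => ⟨min (k - 2) (m.1 - (k - 2) * c.1), by omega⟩
    | Sum.inr s => if c.1 ∈ Fs n i s.1 then ⟨k - 1, by omega⟩ else ⟨k - 2, by omega⟩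

theorem arith1 (K N a b : ℕ) (hb : b < K * N) (hab : b < a) :
    ∃ q < N, ¬ min K (a - K * q) ≤ min K (b - K * q) := by
  have hk2 : 0 < K := by
    rcases Nat.eq_zero_or_pos K with rfl | h0
    · omega
    · exact h0
  have hdm := Nat.div_add_mod b K
  have hlt := Nat.mod_lt b hk2
  have hq : b / K < N := by
    rw [Nat.div_lt_iff_lt_mul hk2, mul_comm]
    exact hb
  refine ⟨b / K, hq, ?_⟩
  generalize K * (b / K) = z at *
  omega

theorem arith2 (K N b : ℕ) (hb : b < K * (N + 1)) : ¬ K ≤ b - K * N := by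
  intro h5
  have h6 : K * (N + 1) = K * N + K := by ring
  rw [h6] at hb
  rcases Nat.eq_zero_or_pos K with rfl | h0
  · omega
  · generalize K * N = z at *
    omega

theorem emb_upper {k : ℕ} (hk : 2 ≤ k) (h : IsPO n L) {i : ℕ} (hi : i < n) :
    Emb k (3 * n + 3)
      {y : Big k n L // y ≠ toLex (Sum.inr (⟨ps n L i, ps_mem_Fam hi⟩ : ↥(Fam n L)))} := by
  classical
  refine ⟨OrderEmbedding.ofMapLEIff (fun y => val k n L hk i y.1) ?_⟩
  rintro ⟨a, ha⟩ ⟨b, hb⟩
  rw [Subtype.mk_le_mk]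
  induction a using Lex.rec with | _ a => ?_
  induction b using Lex.rec with | _ b => ?_
  rcases a with a | a <;> rcases b with b | b
  · rw [Sum.Lex.inl_le_inl_iff]
    constructor
    · intro h1
      by_contra hcon
      have hba : b.1 < a.1 := by
        rw [not_le] at hcon
        exact hcon
      obtain ⟨q, hq, hq2⟩ := arith1 (k - 2) (3 * n + 3) a.1 b.1 b.2 hba
      exact hq2 (h1 ⟨q, hq⟩)
    · intro h1 c
      have h2 : a.1 ≤ b.1 := h1
      show min (k - 2) (a.1 - (k - 2) * c.1) ≤ min (k - 2) (b.1 - (k - 2) * c.1)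
      omega
  · constructor
    · intro _
      exact Sum.Lex.inl_le_inr _ _
    · intro _ c
      show min (k - 2) (a.1 - (k - 2) * c.1) ≤
        (if c.1 ∈ Fs n i b.1 then (⟨k - 1, by omega⟩ : Fin k) else ⟨k - 2, by omega⟩ : Fin k).1
      split_ifs
      · show _ ≤ k - 1
        omega
      · show _ ≤ k - 2
        omega
  · constructor
    · intro h1
      exfalso
      have hb2 := b.2
      have h2 := h1 ⟨3 * n + 2, by omega⟩
      have h3 : (if 3 * n + 2 ∈ Fs n i a.1 then (⟨k - 1, by omega⟩ : Fin k) else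
        ⟨k - 2, by omega⟩ : Fin k).1 ≤ min (k - 2) (b.1 - (k - 2) * (3 * n + 2)) := h2
      have h4 : k - 2 ≤ (if 3 * n + 2 ∈ Fs n i a.1 then (⟨k - 1, by omega⟩ : Fin k) else
        ⟨k - 2, by omega⟩ : Fin k).1 := by
        split_ifs
        · show k - 2 ≤ k - 1
          omega
        · show k - 2 ≤ k - 2
          omega
      have h5 : k - 2 ≤ b.1 - (k - 2) * (3 * n + 2) := by omega
      exact arith2 (k - 2) (3 * n + 2) b.1 hb2 h5
    · intro h1
      exact absurd h1 Sum.Lex.not_inr_le_inl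
  · rw [Sum.Lex.inr_le_inr_iff]
    have ha' : a.1 ≠ ps n L i := fun h1 => ha (by
      have : a = ⟨ps n L i, ps_mem_Fam hi⟩ := Subtype.ext h1
      rw [this])
    have hb' : b.1 ≠ ps n L i := fun h1 => hb (by
      have : b = ⟨ps n L i, ps_mem_Fam hi⟩ := Subtype.ext h1
      rw [this])
    have key := Fs_iff h hi a.2 b.2 ha' hb'
    change _ ↔ a.1 ⊆ b.1
    rw [← key]
    constructor
    · intro h1 x hx hxa
      by_contra hcon
      have h2 := h1 ⟨x, hx⟩
      have h3 : (if x ∈ Fs n i a.1 then (⟨k - 1, by omega⟩ : Fin k) else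
        ⟨k - 2, by omega⟩ : Fin k).1 ≤ (if x ∈ Fs n i b.1 then (⟨k - 1, by omega⟩ : Fin k) else
        ⟨k - 2, by omega⟩ : Fin k).1 := h2
      rw [if_pos hxa, if_neg hcon] at h3
      have h4 : k - 1 ≤ k - 2 := h3
      omega
    · intro h1 c
      show (if c.1 ∈ Fs n i a.1 then (⟨k - 1, by omega⟩ : Fin k) else
        ⟨k - 2, by omega⟩ : Fin k).1 ≤ (if c.1 ∈ Fs n i b.1 then (⟨k - 1, by omega⟩ : Fin k) else
        ⟨k - 2, by omega⟩ : Fin k).1
      by_cases h2 : c.1 ∈ Fs n i a.1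
      · rw [if_pos h2, if_pos (h1 c.1 c.2 h2)]
      · rw [if_neg h2]
        split_ifs
        · show k - 2 ≤ k - 1
          omega
        · exact le_rfl

theorem exists_coord {N : ℕ} (u v : Fin N → ℕ) (huv : ∀ i, u i ≤ v i)
    (hs : ∑ i, v i = ∑ i, u i + 1) : ∃ i, v i = u i + 1 ∧ ∀ j, j ≠ i → v j = u j := by
  classical
  have h1 : ∃ i, u i < v i := by
    by_contra hcon
    push Not at hcon
    have : ∑ i, v i ≤ ∑ i, u i := Finset.sum_le_sum fun i _ => hcon i
    omega
  obtain ⟨i, hi⟩ := h1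
  have h2 := Finset.add_sum_erase Finset.univ v (Finset.mem_univ i)
  have h3 := Finset.add_sum_erase Finset.univ u (Finset.mem_univ i)
  have h4 : ∑ j ∈ Finset.univ.erase i, u j ≤ ∑ j ∈ Finset.univ.erase i, v j :=
    Finset.sum_le_sum fun j _ => huv j
  have h5 : ∑ j ∈ Finset.univ.erase i, u j = ∑ j ∈ Finset.univ.erase i, v j := by omega
  refine ⟨i, by omega, ?_⟩
  intro j hj
  have h6 := (Finset.sum_eq_sum_iff_of_le (fun j _ => huv j)).1 h5 j
    (Finset.mem_erase.2 ⟨hj, Finset.mem_univ j⟩)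
  exact h6.symm

theorem not_emb {k : ℕ} (hk : 2 ≤ k) (h : IsPO n L) : ¬ Emb k (3 * n + 3) (Big k n L) := by
  classical
  rintro ⟨f⟩
  have hn := h.pos
  set M := (k - 2) * (3 * n + 3) with hM
  -- the sum of the coordinates
  let σ : Big k n L → ℕ := fun y => ∑ c, (f y c).1
  have hσ : ∀ a b : Big k n L, a < b → σ a < σ b := by
    intro a b hab
    have h1 : f a < f b := f.lt_iff_lt.2 hab
    obtain ⟨h2, c, hc⟩ := Pi.lt_def.1 h1
    exact Finset.sum_lt_sum (fun c _ => h2 c) ⟨c, Finset.mem_univ c, hc⟩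
  have hσmax : ∀ a : Big k n L, σ a ≤ M + (3 * n + 3) := by
    intro a
    have h1 : σ a ≤ ∑ _c : Fin (3 * n + 3), (k - 1) := by
      apply Finset.sum_le_sum
      intro c _
      have := (f a c).2
      omega
    rw [Finset.sum_const, Finset.card_univ, Fintype.card_fin, smul_eq_mul] at h1
    have h2 : (3 * n + 3) * (k - 1) = M + (3 * n + 3) := by
      rw [hM]
      obtain ⟨k', rfl⟩ : ∃ k', k = k' + 2 := ⟨k - 2, by omega⟩
      have e1 : k' + 2 - 1 = k' + 1 := by omega
      have e2 : k' + 2 - 2 = k' := by omega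
      rw [e1, e2]
      ring
    omega
  let C : ℕ → Big k n L := fun j => toLex (Sum.inr ⟨Cs n j, Cs_mem h j⟩)
  have hClt : ∀ j, j < 3 * n + 3 → C j < C (j + 1) := by
    intro j hj
    rw [Sum.Lex.inr_lt_inr_iff, Subtype.mk_lt_mk]
    constructor
    · intro x hx
      simp only [Cs, Set.mem_ofPred_eq] at *
      omega
    · intro h1
      have h2 : j ∈ Cs n j := h1 (by simp only [Cs, Set.mem_ofPred_eq]; omega)
      simp only [Cs, Set.mem_ofPred_eq] at h2
      omega
  have hlow : ∀ m (hm : m < M), m ≤ σ (toLex (Sum.inl ⟨m, hm⟩)) := by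
    intro m
    induction m with
    | zero => intro _; exact Nat.zero_le _
    | succ m ih =>
      intro hm
      have h1 := ih (by omega)
      have h2 := hσ (toLex (Sum.inl ⟨m, by omega⟩)) (toLex (Sum.inl ⟨m + 1, hm⟩)) (by
        rw [Sum.Lex.inl_lt_inl_iff]
        exact Fin.mk_lt_mk.2 (Nat.lt_succ_self m))
      omega
  have hC0 : M ≤ σ (C 0) := by
    rcases Nat.eq_zero_or_pos M with h0 | h0
    · omega
    · have h1 := hlow (M - 1) (by omega)
      have h2 := hσ (toLex (Sum.inl ⟨M - 1, by omega⟩)) (C 0) (Sum.Lex.inl_lt_inr _ _)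
      omega
  have hCl : ∀ j ≤ 3 * n + 3, M + j ≤ σ (C j) := by
    intro j
    induction j with
    | zero => intro _; exact hC0
    | succ j ih =>
      intro hj
      have h1 := ih (by omega)
      have h2 := hσ _ _ (hClt j (by omega))
      omega
  have hCu : ∀ d ≤ 3 * n + 3, σ (C (3 * n + 3 - d)) + d ≤ M + (3 * n + 3) := by
    intro d
    induction d with
    | zero => intro _; exact hσmax _
    | succ d ih =>
      intro hd
      have h1 := ih (by omega)
      have h2 := hσ _ _ (hClt (3 * n + 3 - (d + 1)) (by omega))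
      have h3 : 3 * n + 3 - (d + 1) + 1 = 3 * n + 3 - d := by omega
      rw [h3] at h2
      omega
  have hCe : ∀ j ≤ 3 * n + 3, σ (C j) = M + j := by
    intro j hj
    have h1 := hCl j hj
    have h2 := hCu (3 * n + 3 - j) (by omega)
    have h3 : 3 * n + 3 - (3 * n + 3 - j) = j := by omega
    rw [h3] at h2
    omega
  -- monotonicity
  have hmono : ∀ a b : Big k n L, a ≤ b → ∀ c, (f a c).1 ≤ (f b c).1 := by
    intro a b hab c
    exact f.le_iff_le.2 hab c
  have hCmono : ∀ i j, i ≤ j → C i ≤ C j := by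
    intro i j hij
    rw [Sum.Lex.inr_le_inr_iff, Subtype.mk_le_mk]
    intro x hx
    simp only [Cs, Set.mem_ofPred_eq] at *
    omega
  -- the coordinate which changes at step `j`
  have hι : ∀ j, ∃ c, j < 3 * n + 3 → ((f (C (j + 1)) c).1 = (f (C j) c).1 + 1 ∧
      ∀ c', c' ≠ c → (f (C (j + 1)) c').1 = (f (C j) c').1) := by
    intro j
    by_cases hj : j < 3 * n + 3
    · have h1 : ∑ c, (f (C (j + 1)) c).1 = ∑ c, (f (C j) c).1 + 1 := by
        have h2 := hCe j (by omega)
        have h3 := hCe (j + 1) (by omega)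
        simp only [σ] at h2 h3
        omega
      obtain ⟨c, hc⟩ := exists_coord (fun c => (f (C j) c).1) (fun c => (f (C (j + 1)) c).1)
        (fun c => hmono _ _ (hCmono _ _ (by omega)) c) h1
      exact ⟨c, fun _ => hc⟩
    · exact ⟨⟨0, by omega⟩, fun h1 => absurd h1 hj⟩
  choose ι hι using hι
  -- the embedding in `2 ^ N`
  let g : Set ℕ → Set ℕ := fun a => {j | j < 3 * n + 3 ∧ ∃ ha : a ∈ Fam n L,
    (f (C (j + 1)) (ι j)).1 ≤ (f (toLex (Sum.inr ⟨a, ha⟩)) (ι j)).1}
  have hbot : ∀ a : ↥(Fam n L), C 0 ≤ toLex (Sum.inr a) := by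
    intro a
    rw [Sum.Lex.inr_le_inr_iff]
    intro x hx
    simp only [Cs, Set.mem_ofPred_eq] at hx
    omega
  have htop : ∀ a : ↥(Fam n L), (toLex (Sum.inr a) : Big k n L) ≤ C (3 * n + 3) := by
    intro a
    rw [Sum.Lex.inr_le_inr_iff]
    intro x hx
    have := Fam_subset h a.2 hx
    simp only [Cs, full, Set.mem_ofPred_eq] at *
    omega
  refine no_embedding h g ?_ ?_
  · intro a ha b hb
    constructor
    · intro hab
      have h1 : (toLex (Sum.inr ⟨a, ha⟩) : Big k n L) ≤ toLex (Sum.inr ⟨b, hb⟩) := by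
        rw [← f.le_iff_le]
        intro c
        by_contra hcon
        have h2 : (f (toLex (Sum.inr ⟨b, hb⟩)) c).1 < (f (toLex (Sum.inr ⟨a, ha⟩)) c).1 := by
          rw [not_le] at hcon
          exact hcon
        -- the step at which the chain passes the value of `b`
        have h3 : (f (C 0) c).1 ≤ (f (toLex (Sum.inr ⟨b, hb⟩)) c).1 :=
          hmono _ _ (hbot _) c
        have h4 : (f (toLex (Sum.inr ⟨a, ha⟩)) c).1 ≤ (f (C (3 * n + 3)) c).1 :=
          hmono _ _ (htop _) c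
        have h5 : ∃ j, (f (toLex (Sum.inr ⟨b, hb⟩)) c).1 < (f (C j) c).1 :=
          ⟨3 * n + 3, by omega⟩
        obtain ⟨j, hj, hjmin⟩ : ∃ j, (f (toLex (Sum.inr ⟨b, hb⟩)) c).1 < (f (C j) c).1 ∧
            ∀ m < j, ¬ (f (toLex (Sum.inr ⟨b, hb⟩)) c).1 < (f (C m) c).1 :=
          ⟨Nat.find h5, Nat.find_spec h5, fun m hm => Nat.find_min h5 hm⟩
        obtain ⟨j', rfl⟩ : ∃ j', j = j' + 1 := by
          rcases Nat.eq_zero_or_pos j with rfl | h6
          · omega
          · exact ⟨j - 1, by omega⟩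
        have h6 := hjmin j' (by omega)
        have h7 : j' < 3 * n + 3 := by
          by_contra hcon2
          have h8 := hmono _ _ (hCmono (3 * n + 3) j' (by omega)) c
          omega
        obtain ⟨h8, h9⟩ := hι j' h7
        have h10 : c = ι j' := by
          by_contra hne
          have := h9 c hne
          omega
        subst h10
        have h11 : j' ∈ g a := ⟨h7, ha, by omega⟩
        obtain ⟨_, hb', h12⟩ := hab h11
        omega
      rw [Sum.Lex.inr_le_inr_iff, Subtype.mk_le_mk] at h1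
      exact h1
    · rintro hab j ⟨hj, _, hja⟩
      refine ⟨hj, hb, hja.trans (hmono _ _ ?_ _)⟩
      rw [Sum.Lex.inr_le_inr_iff, Subtype.mk_le_mk]
      exact hab
  · intro m hm
    ext j
    constructor
    · rintro ⟨hj, _, hja⟩
      show j < m
      by_contra hcon
      have h1 := hmono _ _ (hCmono m j (by omega)) (ι j)
      have h2 := (hι j hj).1
      have h3 : (f (C (j + 1)) (ι j)).1 ≤ (f (C m) (ι j)).1 := hja
      omega
    · intro hj
      have hj' : j < m := hj
      exact ⟨by omega, Cs_mem h m, hmono _ _ (hCmono (j + 1) m (by omega)) (ι j)⟩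

end generalk

/-! ### The main theorem -/

theorem main_nonempty (k : ℕ) (hk : 2 ≤ k) (P : Type) [PartialOrder P] [Finite P] [Nonempty P] :
    ∃ (Q : Type) (_ : PartialOrder Q) (_ : Finite Q),
      IsIrred k Q ∧ Nonempty (P ↪o Q) ∧ kdim k P < kdim k Q := by
  classical
  obtain ⟨n, ⟨e⟩⟩ := Finite.exists_equiv_fin P
  have hn : 0 < n := by
    obtain ⟨x⟩ := ‹Nonempty P›
    have := (e x).2
    omega
  let L : ℕ → ℕ → Prop := fun a b => ∃ (ha : a < n) (hb : b < n), e.symm ⟨a, ha⟩ ≤ e.symm ⟨b, hb⟩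
  have h : IsPO n L :=
    { pos := hn
      left := fun a b hab => hab.1
      right := fun a b hab => hab.2.1
      refl := fun a ha => ⟨ha, ha, le_rfl⟩
      antisymm := by
        rintro a b ⟨ha, hb, h1⟩ ⟨_, _, h2⟩
        have h3 := e.symm.injective (le_antisymm h1 h2)
        exact Fin.mk.inj_iff.1 h3
      trans := by
        rintro a b c ⟨ha, hb, h1⟩ ⟨_, hc, h2⟩
        exact ⟨ha, hc, h1.trans h2⟩ }
  have : Finite (Fam n L) := (Fam_finite h).to_subtype
  have : Finite (Big k n L) := inferInstanceAs (Finite (_ ⊕ _))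
  let φ : P ↪o Big k n L := OrderEmbedding.ofMapLEIff
    (fun x => toLex (Sum.inr ⟨ps n L (e x).1, ps_mem_Fam (e x).2⟩)) (by
      intro a b
      rw [Sum.Lex.inr_le_inr_iff, Subtype.mk_le_mk, ps_le_iff h (e a).2]
      constructor
      · rintro ⟨_, _, h1⟩
        simpa using h1
      · intro h1
        exact ⟨(e a).2, (e b).2, by simpa using h1⟩)
  refine exists_irred hk φ (3 * n + 3) ?_ (not_emb hk h) ?_
  · have h1 : kdim k P ≤ Nat.card P := kdim_le (emb_card hk P)
    have h2 : Nat.card P = n := by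
      rw [Nat.card_congr e, Nat.card_fin]
    omega
  · intro p
    exact emb_upper hk h (e p).2

end Pool.Agent.R128.KIrrEmb
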