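import Mathlib

set_option autoImplicit false

/-!
# Completary multifuncoids (MP_2da57a_co)

For infinite sets `U` and `n` there is a nonempty completary multifuncoid of the form `(P U)^n` with
no atom below it.
-/

namespace Pool.Agent.R128.Multifuncoid

/-- `f` is a completary multifuncoid of the form `(P U)^n`. -/
def IsCompletary {U n : Type} (f : Set (n → Set U)) : Prop :=
  (∀ L₀ L₁ : n → Set U, (fun i => L₀ i ∪ L₁ i) ∈ f ↔
    ∃ c : n → Bool, (fun i => if c i = true then L₁ i else L₀ i) ∈ f) ∧
  ∀ L : n → Set U, (∃ i, L i = ∅) → L ∉ f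

/-- The poset of completary multifuncoids of the form `(P U)^n`, ordered by inclusion. -/
def CM (U n : Type) : Type := {f : Set (n → Set U) // IsCompletary f}

instance (U n : Type) : PartialOrder (CM U n) :=
  inferInstanceAs (PartialOrder {f : Set (n → Set U) // IsCompletary f})

theorem isCompletary_empty (U n : Type) : IsCompletary (∅ : Set (n → Set U)) :=
  ⟨fun _ _ => ⟨fun h => h.elim, fun ⟨_, h⟩ => h.elim⟩, fun _ _ h => h⟩

/-- The least element of the poset is the empty set. -/
instance (U n : Type) : OrderBot (CM U n) where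
  bot := ⟨∅, isCompletary_empty U n⟩
  bot_le f := Set.empty_subset f.1

theorem le_def {U n : Type} (f g : CM U n) : f ≤ g ↔ f.1 ⊆ g.1 := Iff.rfl

theorem bot_val (U n : Type) : (⊥ : CM U n).1 = ∅ := rfl

section basic

variable {U n : Type} {f : Set (n → Set U)}

theorem IsCompletary.mono (hf : IsCompletary f) {L M : n → Set U} (hL : L ∈ f)
    (h : ∀ i, L i ⊆ M i) : M ∈ f := by
  have h1 := (hf.1 L M).2 ⟨fun _ => false, by simpa using hL⟩
  have h2 : (fun i => L i ∪ M i) = M := funext fun i => Set.union_eq_right.2 (h i)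
  rwa [h2] at h1

theorem IsCompletary.nonempty (hf : IsCompletary f) {L : n → Set U} (hL : L ∈ f) (i : n) :
    (L i).Nonempty := by
  rw [Set.nonempty_iff_ne_empty]
  intro h
  exact hf.2 L ⟨i, h⟩ hL

/-- The restriction of `f` to `L`. -/
theorem isCompletary_restrict (hf : IsCompletary f) (L : n → Set U) :
    IsCompletary {M : n → Set U | (fun i => M i ∩ L i) ∈ f} := by
  refine ⟨fun M₀ M₁ => ?_, fun M hM hmem => ?_⟩
  · have h := hf.1 (fun i => M₀ i ∩ L i) (fun i => M₁ i ∩ L i)
    have e1 : (fun i => M₀ i ∩ L i ∪ M₁ i ∩ L i) = (fun i => (M₀ i ∪ M₁ i) ∩ L i) :=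
      funext fun i => (Set.union_inter_distrib_right _ _ _).symm
    rw [e1] at h
    have e2 : ∀ c : n → Bool, (fun i => if c i = true then M₁ i ∩ L i else M₀ i ∩ L i) =
        (fun i => (if c i = true then M₁ i else M₀ i) ∩ L i) := by
      intro c
      funext i
      split_ifs <;> rfl
    simp only [e2] at h
    exact h
  · obtain ⟨i, hi⟩ := hM
    refine hf.2 _ ⟨i, ?_⟩ hmem
    simp only [hi, Set.empty_inter]

end basic

section atoms

variable {U n : Type} {a : CM U n}

theorem atom_inter (ha : IsAtom a) {L M : n → Set U} (hL : L ∈ a.1) (hM : M ∈ a.1) :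
    (fun i => M i ∩ L i) ∈ a.1 := by
  let g : CM U n := ⟨_, isCompletary_restrict a.2 L⟩
  have hg : g ≤ a := by
    intro N hN
    exact a.2.mono hN fun i => Set.inter_subset_left
  have hgne : g ≠ ⊥ := by
    intro h
    have h1 : L ∈ g.1 := by
      show (fun i => L i ∩ L i) ∈ a.1
      simpa using hL
    rw [h] at h1
    exact h1
  have heq : g = a := by
    rcases hg.lt_or_eq with h | h
    · exact absurd (ha.2 g h) hgne
    · exact h
  have h2 : M ∈ g.1 := by rw [heq]; exact hM
  exact h2

/-- Some member of `a` has its `i`-th coordinate inside `X`. -/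
def Q (a : CM U n) (i : n) (X : Set U) : Prop := ∃ L ∈ a.1, L i ⊆ X

theorem Q_inter (ha : IsAtom a) {i : n} {X Y : Set U} (hX : Q a i X) (hY : Q a i Y) :
    Q a i (X ∩ Y) := by
  obtain ⟨L, hL, hLX⟩ := hX
  obtain ⟨M, hM, hMY⟩ := hY
  refine ⟨_, atom_inter ha hM hL, ?_⟩
  exact Set.inter_subset_inter hLX hMY

theorem Q_empty {i : n} : ¬ Q a i ∅ := by
  rintro ⟨L, hL, h⟩
  exact a.2.2 L ⟨i, Set.subset_empty_iff.1 h⟩ hL

theorem univ_mem (ha : IsAtom a) : (fun _ => Set.univ : n → Set U) ∈ a.1 := by
  have hne : a.1.Nonempty := by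
    rw [Set.nonempty_iff_ne_empty]
    intro h
    exact ha.1 (Subtype.ext h)
  obtain ⟨L, hL⟩ := hne
  exact a.2.mono hL fun i => Set.subset_univ _

theorem Q_or (ha : IsAtom a) (i : n) (X : Set U) : Q a i X ∨ Q a i Xᶜ := by
  have h := (a.2.1 (fun _ => X) (fun _ => Xᶜ)).1 (by
    simp only [Set.union_compl_self]
    exact univ_mem ha)
  obtain ⟨c, hc⟩ := h
  by_cases hci : c i = true
  · right
    exact ⟨_, hc, by simp [hci]⟩
  · left
    exact ⟨_, hc, by simp [hci]⟩

theorem Q_finite (ha : IsAtom a) (i : n) {F : Set U} (hF : F.Finite) :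
    Q a i Fᶜ ∨ ∃ x ∈ F, Q a i {x} := by
  by_contra hcon
  push Not at hcon
  obtain ⟨h1, h2⟩ := hcon
  apply h1
  have key : ∀ S : Set U, S.Finite → S ⊆ F → Q a i Sᶜ := by
    intro S hS
    induction S, hS using Set.Finite.induction_on with
    | empty => intro _; exact ⟨_, univ_mem ha, by simp⟩
    | @insert x S _ _ ih =>
      intro hsub
      have hx : Q a i {x}ᶜ :=
        (Q_or ha i {x}).resolve_left (h2 x (hsub (Set.mem_insert _ _)))
      have hS' := ih fun y hy => hsub (Set.mem_insert_of_mem _ hy)
      have := Q_inter ha hx hS'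
      rwa [← Set.compl_union, Set.singleton_union] at this
  exact key F hF subset_rfl

/-- A family all of whose members are large is a member of the atom. -/
theorem mem_of_Q (ha : IsAtom a) {M : n → Set U} (hM : ∀ i, Q a i (M i)) : M ∈ a.1 := by
  have h := (a.2.1 M (fun i => (M i)ᶜ)).1 (by
    simp only [Set.union_compl_self]
    exact univ_mem ha)
  obtain ⟨c, hc⟩ := h
  have hall : ∀ i, c i = false := by
    intro i
    by_contra hci
    rw [Bool.not_eq_false] at hci
    have h1 : Q a i (M i)ᶜ := ⟨_, hc, by simp [hci]⟩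
    have h2 := Q_inter ha (hM i) h1
    rw [Set.inter_compl_self] at h2
    exact Q_empty h2
  simpa [hall] using hc

end atoms

section example_

variable {U n : Type} (e : ℕ ↪ n) (g : ℕ ↪ U)

/-- The finite sets `F k` with `k` elements. -/
def F (k : ℕ) : Set U := g '' Set.Iio k

theorem F_finite (k : ℕ) : (F g k).Finite := (Set.finite_Iio k).image g

theorem F_ncard (k : ℕ) : (F g k).ncard = k := by
  unfold F
  rw [Set.ncard_image_of_injective _ g.injective, Set.ncard_eq_toFinset_card']
  simp

/-- The families of nonempty sets for which the numbers of elements of `L (e k) ∩ F k` are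
unbounded. -/
def big : Set (n → Set U) :=
  {L | (∀ i, (L i).Nonempty) ∧ ∀ m : ℕ, ∃ k, m ≤ (L (e k) ∩ F g k).ncard}

theorem isCompletary_big : IsCompletary (big e g) := by
  refine ⟨fun L₀ L₁ => ⟨?_, ?_⟩, ?_⟩
  · rintro ⟨hne, hunb⟩
    have key : ∀ i, ∃ b : Bool, (if b = true then L₁ i else L₀ i).Nonempty ∧
        ∀ k, e k = i → ((L₀ i ∪ L₁ i) ∩ F g k).ncard ≤
          2 * ((if b = true then L₁ i else L₀ i) ∩ F g k).ncard := by
      intro i
      have hfin : ∀ (X : Set U) (k : ℕ), (X ∩ F g k).Finite := fun X k =>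
        (F_finite g k).subset Set.inter_subset_right
      have hle : ∀ k, ((L₀ i ∪ L₁ i) ∩ F g k).ncard ≤
          (L₀ i ∩ F g k).ncard + (L₁ i ∩ F g k).ncard := by
        intro k
        rw [Set.union_inter_distrib_right]
        exact Set.ncard_union_le _ _
      by_cases h0 : (L₀ i).Nonempty
      · by_cases h1 : (L₁ i).Nonempty
        · by_cases hk : ∃ k, e k = i
          · obtain ⟨k, hk⟩ := hk
            rcases le_total (L₀ i ∩ F g k).ncard (L₁ i ∩ F g k).ncard with h | h
            · refine ⟨true, by simpa using h1, fun k' hk' => ?_⟩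
              have : k' = k := e.injective (hk'.trans hk.symm)
              subst this
              have := hle k'
              simp only [if_true]
              omega
            · refine ⟨false, by simpa using h0, fun k' hk' => ?_⟩
              have : k' = k := e.injective (hk'.trans hk.symm)
              subst this
              have := hle k'
              simp only [Bool.false_eq_true, if_false]
              omega
          · exact ⟨false, by simpa using h0, fun k hk' => absurd ⟨k, hk'⟩ hk⟩
        · refine ⟨false, by simpa using h0, fun k _ => ?_⟩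
          rw [Set.not_nonempty_iff_eq_empty] at h1
          have := hle k
          simp only [h1, Set.empty_inter, Set.ncard_empty] at this
          simp only [Bool.false_eq_true, if_false]
          rw [h1]
          omega
      · rw [Set.not_nonempty_iff_eq_empty] at h0
        have h1 : (L₁ i).Nonempty := by
          have := hne i
          simpa [h0] using this
        refine ⟨true, by simpa using h1, fun k _ => ?_⟩
        have := hle k
        simp only [h0, Set.empty_inter, Set.ncard_empty] at this
        simp only [if_true]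
        rw [h0]
        omega
    choose c hc1 hc2 using key
    refine ⟨c, hc1, fun m => ?_⟩
    obtain ⟨k, hk⟩ := hunb (2 * m)
    refine ⟨k, ?_⟩
    have := hc2 (e k) k rfl
    simp only at hk ⊢
    omega
  · rintro ⟨c, hne, hunb⟩
    have hsub : ∀ i, (if c i = true then L₁ i else L₀ i) ⊆ L₀ i ∪ L₁ i := by
      intro i
      split_ifs
      · exact Set.subset_union_right
      · exact Set.subset_union_left
    refine ⟨fun i => (hne i).mono (hsub i), fun m => ?_⟩
    obtain ⟨k, hk⟩ := hunb m
    refine ⟨k, hk.trans ?_⟩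
    exact Set.ncard_le_ncard (Set.inter_subset_inter_left _ (hsub (e k)))
      ((F_finite g k).subset Set.inter_subset_right)
  · rintro L ⟨i, hi⟩ ⟨hne, -⟩
    have := hne i
    rw [hi] at this
    exact Set.not_nonempty_empty this

/-- The family `big` as an element of the poset. -/
def bigCM : CM U n := ⟨big e g, isCompletary_big e g⟩

theorem bigCM_ne_bot : bigCM e g ≠ ⊥ := by
  intro h
  have h1 : (fun _ => Set.univ : n → Set U) ∈ (bigCM e g).1 := by
    refine ⟨fun _ => ⟨g 0, trivial⟩, fun m => ⟨m, ?_⟩⟩
    rw [Set.univ_inter, F_ncard]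
  rw [h] at h1
  exact h1

theorem no_atom_le (a : CM U n) (ha : IsAtom a) : ¬ a ≤ bigCM e g := by
  intro hle
  have key : ∀ i, ∃ M : Set U, Q a i M ∧ ∀ k, e k = i → (M ∩ F g k).ncard ≤ 1 := by
    intro i
    by_cases hk : ∃ k, e k = i
    · obtain ⟨k, hk⟩ := hk
      rcases Q_finite ha i (F_finite g k) with h | ⟨x, -, h⟩
      · refine ⟨_, h, fun k' hk' => ?_⟩
        have : k' = k := e.injective (hk'.trans hk.symm)
        subst this
        rw [Set.compl_inter_self, Set.ncard_empty]
        exact Nat.zero_le _
      · refine ⟨_, h, fun k' _ => ?_⟩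
        calc ({x} ∩ F g k').ncard ≤ ({x} : Set U).ncard :=
              Set.ncard_le_ncard Set.inter_subset_left (Set.finite_singleton x)
          _ = 1 := Set.ncard_singleton x
    · exact ⟨Set.univ, ⟨_, univ_mem ha, Set.subset_univ _⟩, fun k hk' => absurd ⟨k, hk'⟩ hk⟩
  choose M hM1 hM2 using key
  obtain ⟨-, hunb⟩ := hle (mem_of_Q ha hM1)
  obtain ⟨k, hk⟩ := hunb 2
  have := hM2 (e k) k rfl
  omega

end example_

end Pool.Agent.R128.Multifuncoid
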