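import Mathlib

set_option autoImplicit false

/-!
# Retractions of a lattice (MP_31821e_co)
-/

namespace Pool.Agent.R128.Retractions

/-- The retractions of `L`: the order-preserving idempotent maps `L → L`. -/
def Retr (L : Type*) [Lattice L] : Type _ := {r : L → L // Monotone r ∧ ∀ x, r (r x) = r x}

/-- Retractions are ordered pointwise. -/
instance (L : Type*) [Lattice L] : PartialOrder (Retr L) :=
  inferInstanceAs (PartialOrder {r : L → L // Monotone r ∧ ∀ x, r (r x) = r x})

theorem Retr.le_def {L : Type*} [Lattice L] (r s : Retr L) : r ≤ s ↔ ∀ x, r.1 x ≤ s.1 x := Iff.rfl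

end Pool.Agent.R128.Retractions
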