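import Pool.Agent.R128.RobotsSched

/-!
# Bouncing robots (MP_6a9d64_co): a good schedule gives a run (task C1)
-/

namespace R128Rob

open Finset

section Gen

variable {n : ℕ} {C : ℤ} {H D : Fin n → ℤ}

theorem div_sub_div (hC : 0 < C) (a : ℤ) : a / C = (a - 1) / C + if C ∣ a then 1 else 0 := by
  have hq := Int.mul_ediv_add_emod a C
  have hr0 := Int.emod_nonneg a hC.ne'
  have hr1 := Int.emod_lt_of_pos a hC
  by_cases h : C ∣ a
  · rw [if_pos h]
    obtain ⟨q, rfl⟩ := h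
    have h1 : C * q / C = q := Int.mul_ediv_cancel_left q hC.ne'
    have h2 : (C * q - 1) / C = q - 1 := by
      apply le_antisymm
      · have : (C * q - 1) / C < q := Int.ediv_lt_of_lt_mul hC (by linarith [mul_comm C q])
        omega
      · rw [Int.le_ediv_iff_mul_le hC]
        nlinarith
    rw [h1, h2]
    ring
  · rw [if_neg h, add_zero]
    have hr2 : a % C ≠ 0 := fun h0 => h (Int.dvd_of_emod_eq_zero h0)
    apply le_antisymm
    · rw [Int.le_ediv_iff_mul_le hC]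
      have : a / C * C = C * (a / C) := mul_comm _ _
      omega
    · exact Int.ediv_le_ediv hC (by omega)

theorem Ncount_cnt (hC : 0 < C) (G : Finset (Fin n)) (t : ℕ) (y : ℤ) :
    Ncount C H D G t y = Ncount C H D G t (y - 1) +
      ((G.filter fun g => C ∣ y - H g - D g * (t : ℤ)).card : ℤ) := by
  unfold Ncount
  rw [Finset.card_filter]
  push_cast
  rw [← Finset.sum_add_distrib]
  refine Finset.sum_congr rfl fun g _ => ?_
  rw [div_sub_div hC (y - H g - D g * (t : ℤ))]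
  congr 2
  ring

theorem Ncount_period (hC : 0 < C) (G : Finset (Fin n)) (t : ℕ) (y m : ℤ) :
    Ncount C H D G t (y + m * C) = Ncount C H D G t y + m * (G.card : ℤ) := by
  unfold Ncount
  have h : ∀ g ∈ G, (y + m * C - H g - D g * (t : ℤ)) / C
      = (y - H g - D g * (t : ℤ)) / C + m := by
    intro g _
    have : y + m * C - H g - D g * (t : ℤ) = y - H g - D g * (t : ℤ) + m * C := by ring
    rw [this, Int.add_mul_ediv_right _ _ hC.ne']
  rw [Finset.sum_congr rfl h, Finset.sum_add_distrib, Finset.sum_const, nsmul_eq_mul, mul_comm]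

theorem Ncount_mono (hC : 0 < C) (G : Finset (Fin n)) (t : ℕ) {y z : ℤ} (h : y ≤ z) :
    Ncount C H D G t y ≤ Ncount C H D G t z :=
  Finset.sum_le_sum fun _ _ => Int.ediv_le_ediv hC (by omega)

theorem Ncount_split (G : Finset (Fin n)) (t : ℕ) (y : ℤ) :
    Ncount C H D G t y = Ncount C H D (G.filter fun g => D g = 1) t y +
      Ncount C H D (G.filter fun g => ¬ D g = 1) t y :=
  (Finset.sum_filter_add_sum_filter_not G (fun g => D g = 1) _).symm

theorem Ncount_plus_succ (G : Finset (Fin n)) (t : ℕ) (y : ℤ) :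
    Ncount C H D (G.filter fun g => D g = 1) (t + 1) y =
      Ncount C H D (G.filter fun g => D g = 1) t (y - 1) := by
  unfold Ncount
  refine Finset.sum_congr rfl fun g hg => ?_
  rw [(Finset.mem_filter.mp hg).2]
  congr 1
  push_cast
  ring

theorem Ncount_minus_succ (hD : ∀ g, D g = 1 ∨ D g = -1) (G : Finset (Fin n)) (t : ℕ) (y : ℤ) :
    Ncount C H D (G.filter fun g => ¬ D g = 1) (t + 1) y =
      Ncount C H D (G.filter fun g => ¬ D g = 1) t (y + 1) := by
  unfold Ncount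
  refine Finset.sum_congr rfl fun g hg => ?_
  rw [(hD g).resolve_left (Finset.mem_filter.mp hg).2]
  congr 1
  push_cast
  ring

/-- no ghost at a point of the wrong parity -/
theorem parity (hC : 0 < C) (hC2 : 2 ∣ C) (hH2 : ∀ g, 2 ∣ H g) (hD : ∀ g, D g = 1 ∨ D g = -1)
    (G : Finset (Fin n)) (t : ℕ) (y : ℤ) (hy : ¬ 2 ∣ y - (t : ℤ)) :
    Ncount C H D G t y = Ncount C H D G t (y - 1) := by
  rw [Ncount_cnt hC G t y, Finset.filter_eq_empty_iff.mpr]
  · simp
  · intro g _ hg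
    have h1 := dvd_trans hC2 hg
    have h2 := hH2 g
    apply hy
    rcases hD g with h | h <;> rw [h] at h1 <;> omega

/-- at most one ghost of each direction at a point -/
theorem le_one_plus (hC : 0 < C) (hH0 : ∀ g, 0 ≤ H g) (hH1 : ∀ g, H g < C)
    (hinj : Function.Injective H) (e : ℤ)
    (G : Finset (Fin n)) (t : ℕ) (y : ℤ) (hG : ∀ g ∈ G, D g = e) :
    Ncount C H D G t y ≤ Ncount C H D G t (y - 1) + 1 := by
  rw [Ncount_cnt hC G t y]
  have : (G.filter fun g => C ∣ y - H g - D g * (t : ℤ)).card ≤ 1 := by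
    rw [Finset.card_le_one]
    intro a ha b hb
    rw [Finset.mem_filter] at ha hb
    have h1 := ha.2
    have h2 := hb.2
    rw [hG a ha.1] at h1
    rw [hG b hb.1] at h2
    have h3 : C ∣ H a - H b := by
      have := dvd_sub h2 h1
      have h4 : y - H b - e * (t : ℤ) - (y - H a - e * (t : ℤ)) = H a - H b := by ring
      rwa [h4] at this
    apply hinj
    have h5 := hH0 a
    have h6 := hH1 a
    have h7 := hH0 b
    have h8 := hH1 b
    have h9 : H a - H b = 0 := Int.eq_zero_of_abs_lt_dvd h3 (by rw [abs_lt]; constructor <;> omega)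
    omega
  have h' : ((G.filter fun g => C ∣ y - H g - D g * (t : ℤ)).card : ℤ) ≤ 1 := by exact_mod_cast this
  omega

theorem exists_least (hC : 0 < C) (G : Finset (Fin n)) (hG : G.Nonempty) (t : ℕ) (r : ℤ) :
    ∃ y, ∀ z, r ≤ Ncount C H D G t z ↔ y ≤ z := by
  have hK : (1 : ℤ) ≤ (G.card : ℤ) := by exact_mod_cast hG.card_pos
  obtain ⟨y, hy1, hy2⟩ := Int.exists_least_of_bdd (P := fun z => r ≤ Ncount C H D G t z)
    (by
      refine ⟨0 + (-(|r - Ncount C H D G t 0| + 1)) * C, fun z hz => ?_⟩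
      by_contra hcon
      have h1 := Ncount_mono (H := H) (D := D) hC G t (le_of_lt (not_le.mp hcon))
      rw [Ncount_period hC] at h1
      have h2 := neg_abs_le (r - Ncount C H D G t 0)
      nlinarith [abs_nonneg (r - Ncount C H D G t 0)])
    (by
      refine ⟨0 + |r - Ncount C H D G t 0| * C, ?_⟩
      show r ≤ Ncount C H D G t (0 + |r - Ncount C H D G t 0| * C)
      rw [Ncount_period hC]
      have h2 := le_abs_self (r - Ncount C H D G t 0)
      nlinarith [abs_nonneg (r - Ncount C H D G t 0)])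
  exact ⟨y, fun z => ⟨fun h => hy2 z h, fun h => le_trans hy1 (Ncount_mono hC G t h)⟩⟩

/-- One time step. -/
theorem step_gen (P M : ℤ → ℤ) (t r y y' : ℤ)
    (hP : ∀ z, P (z - 1) ≤ P z) (hM : ∀ z, M (z - 1) ≤ M z)
    (hPp : ∀ z, ¬ 2 ∣ z - t → P z = P (z - 1)) (hMp : ∀ z, ¬ 2 ∣ z - t → M z = M (z - 1))
    (hX : ∀ z, r ≤ P z + M z ↔ y ≤ z) (hY : ∀ z, r ≤ P (z - 1) + M (z + 1) ↔ y' ≤ z) :
    2 ∣ y - t ∧ (y' = y - 1 ∨ y' = y + 1) ∧ (y' = y - 1 ↔ r ≤ P (y - 1) + M y) ∧
      (y = y' - 1 ↔ r ≤ P (y' - 1) + M y') := by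
  have hX1 := hX y
  have hX2 := hX (y - 1)
  have hpar : 2 ∣ y - t := by
    by_contra h
    have h1 := hPp y h
    have h2 := hMp y h
    omega
  have e1 : y - 1 - 1 = y - 2 := by ring
  have e2 : y + 1 - 1 = y := by ring
  have e3 : y - 1 + 1 = y := by ring
  have e4 : y - 2 + 1 = y - 1 := by ring
  have e5 : y - 2 - 1 = y - 3 := by ring
  have e6 : y + 1 + 1 = y + 2 := by ring
  have e7 : y + 2 - 1 = y + 1 := by ring
  have a1 := hP (y - 1)
  have a2 := hP (y - 2)
  have a3 := hM (y + 1)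
  have a4 := hM (y + 2)
  have p1 := hPp (y - 1) (by omega)
  have p2 := hMp (y + 1) (by omega)
  have Y1 := hY (y - 2)
  have Y2 := hY (y + 1)
  have Y3 := hY y
  have Y4 := hY (y - 1)
  rw [e1] at a1 p1
  rw [e5] at a2
  rw [e2] at a3 p2
  rw [e7] at a4
  rw [e4, e5] at Y1
  rw [e2, e6] at Y2
  rw [e1, e3] at Y4
  have hor : y' = y - 1 ∨ y' = y + 1 := by
    by_cases hh : r ≤ P (y - 2) + M y
    · left
      have : ¬ y' ≤ y - 2 := fun h => by
        have := Y1.mpr h
        omega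
      have := Y4.mp hh
      omega
    · right
      have h1 : ¬ y' ≤ y := fun h => by
        have := Y3.mpr h
        omega
      have h2 : y' ≤ y + 1 := Y2.mp (by omega)
      omega
  refine ⟨hpar, hor, ?_, ?_⟩
  · constructor
    · intro h
      have := Y4.mpr (by omega)
      omega
    · intro h
      have := Y4.mp (by omega)
      omega
  · have hX3 := hX (y' - 1)
    have p3 := hMp y' (by omega)
    constructor
    · intro h
      have := hX3.mpr (by omega)
      omega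
    · intro h
      have := hX3.mp (by omega)
      omega

end Gen

/-! Ranks. -/

theorem rk_lt {n : ℕ} {A : Finset (Fin n)} {i j : Fin n} (hj : j ∈ A) (h : i < j) :
    rk A i < rk A j := by
  unfold rk
  have h1 : (A.filter fun k => j < k) ⊂ (A.filter fun k => i < k) := by
    rw [Finset.ssubset_iff_of_subset]
    · exact ⟨j, Finset.mem_filter.mpr ⟨hj, h⟩, fun hc => lt_irrefl _ (Finset.mem_filter.mp hc).2⟩
    · intro k hk
      rw [Finset.mem_filter] at hk ⊢
      exact ⟨hk.1, h.trans hk.2⟩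
  have := Finset.card_lt_card h1
  omega

theorem rk_gt {n : ℕ} {A : Finset (Fin n)} {i : Fin n} (hi : i ∈ A) :
    -(A.card : ℤ) < rk A i := by
  unfold rk
  have h1 : (A.filter fun k => i < k) ⊂ A := by
    rw [Finset.ssubset_iff_of_subset (Finset.filter_subset _ _)]
    exact ⟨i, hi, fun hc => lt_irrefl _ (Finset.mem_filter.mp hc).2⟩
  have := Finset.card_lt_card h1
  omega

theorem rk_le {n : ℕ} (A : Finset (Fin n)) (i : Fin n) : rk A i ≤ 0 := by
  unfold rk
  omega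

theorem rk_surj {n : ℕ} (A : Finset (Fin n)) (r : ℤ) (h1 : -(A.card : ℤ) < r) (h2 : r ≤ 0) :
    ∃ j ∈ A, rk A j = r := by
  have hsub : A.image (rk A) ⊆ Finset.Ioc (-(A.card : ℤ)) 0 := by
    intro x hx
    rw [Finset.mem_image] at hx
    obtain ⟨j, hj, rfl⟩ := hx
    exact Finset.mem_Ioc.mpr ⟨rk_gt hj, rk_le A j⟩
  have hinj : Set.InjOn (rk A) A := by
    intro a ha b hb hab
    rcases lt_trichotomy a b with h | h | h
    · exact absurd hab (rk_lt hb h).ne
    · exact h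
    · exact absurd hab (rk_lt ha h).ne'
  have hcard : (Finset.Ioc (-(A.card : ℤ)) 0).card ≤ (A.image (rk A)).card := by
    rw [Finset.card_image_of_injOn hinj, Int.card_Ioc]
    simp
  have heq := Finset.eq_of_subset_of_card_le hsub hcard
  have hr : r ∈ A.image (rk A) := by
    rw [heq]
    exact Finset.mem_Ioc.mpr ⟨h1, h2⟩
  obtain ⟨j, hj, hjr⟩ := Finset.mem_image.mp hr
  exact ⟨j, hj, hjr⟩

theorem isleast_of {n : ℕ} {C : ℤ} {H D : Fin n → ℤ} (hC : 0 < C) (G : Finset (Fin n)) (t : ℕ)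
    {r y : ℤ} (h1 : r ≤ Ncount C H D G t y) (h2 : Ncount C H D G t (y - 1) < r) :
    ∀ z, r ≤ Ncount C H D G t z ↔ y ≤ z := by
  intro z
  constructor
  · intro h
    by_contra hcon
    have := Ncount_mono (H := H) (D := D) hC G t (show z ≤ y - 1 by omega)
    omega
  · intro h
    exact h1.trans (Ncount_mono hC G t h)

theorem div_zero_of {C a : ℤ} (h0 : 0 ≤ a) (h1 : a < C) : a / C = 0 := Int.ediv_eq_zero_of_lt h0 h1

theorem div_neg_one_of {C a : ℤ} (hC : 0 < C) (h0 : -C ≤ a) (h1 : a < 0) : a / C = -1 := by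
  have h : a = (a + C) + (-1) * C := by ring
  rw [h, Int.add_mul_ediv_right _ _ hC.ne', div_zero_of (by omega) (by omega)]
  rfl

namespace Schedule

variable {n : ℕ} (σ : Schedule n)

theorem two_dvd_C : 2 ∣ σ.C := dvd_trans (by norm_num) σ.four_dvd_C

theorem two_dvd_H (g : Fin n) : 2 ∣ σ.H g := by
  rcases σ.D_pm g with h | h
  · have := σ.H_plus g h
    omega
  · have := σ.H_minus g h
    omega

theorem mem_A {t : ℕ} {i : Fin n} : i ∈ σ.A t ↔ (t : ℕ∞) < σ.T i := by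
  unfold Schedule.A
  rw [Finset.mem_filter]
  exact ⟨fun h => h.2, fun h => ⟨mem_univ i, h⟩⟩

theorem mem_G {t : ℕ} {g : Fin n} : g ∈ σ.G t ↔ (t : ℕ∞) < σ.T (σ.κ.symm g) := by
  unfold Schedule.G
  rw [Finset.mem_filter]
  exact ⟨fun h => h.2, fun h => ⟨mem_univ g, h⟩⟩

theorem G_eq (t : ℕ) : σ.G t = (σ.A t).map σ.κ.toEmbedding := by
  ext g
  rw [mem_G, Finset.mem_map_equiv, mem_A]

theorem card_G (t : ℕ) : (σ.G t).card = (σ.A t).card := by
  rw [G_eq, Finset.card_map]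

theorem mem_A_iff_succ {k : ℕ} {i : Fin n} :
    i ∈ σ.A k ↔ i ∈ σ.A (k + 1) ∨ σ.T i = ((k + 1 : ℕ) : ℕ∞) := by
  rw [mem_A, mem_A]
  rcases eq_or_ne (σ.T i) ⊤ with h | h
  · rw [h]
    simp
  · obtain ⟨m, hm⟩ := ENat.ne_top_iff_exists.mp h
    rw [← hm]
    norm_cast
    omega

theorem mem_G_iff_succ {k : ℕ} {g : Fin n} :
    g ∈ σ.G k ↔ g ∈ σ.G (k + 1) ∨ σ.T (σ.κ.symm g) = ((k + 1 : ℕ) : ℕ∞) := by
  have h1 : ∀ t, g ∈ σ.G t ↔ σ.κ.symm g ∈ σ.A t := fun t => by rw [mem_G, mem_A]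
  rw [h1, h1]
  exact σ.mem_A_iff_succ

theorem A_zero : σ.A 0 = univ := by
  ext i
  rw [mem_A]
  have := σ.T_pos i
  constructor
  · intro _; exact mem_univ i
  · intro _
    exact lt_of_lt_of_le (by norm_num) this

theorem G_zero : σ.G 0 = univ := by
  rw [G_eq, A_zero]
  simp

theorem H_inj : Function.Injective σ.H := σ.H_mono.injective

/-- `y` is the position of robot `i` at time `k` -/
def IsX (k : ℕ) (i : Fin n) (y : ℤ) : Prop :=
  ∀ z, rk (σ.A k) i ≤ Ncount σ.C σ.H σ.D (σ.G k) k z ↔ y ≤ z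

/-- `y` is the position at which robot `i` of `A k` arrives at time `k+1` -/
def IsY (k : ℕ) (i : Fin n) (y : ℤ) : Prop :=
  ∀ z, rk (σ.A k) i ≤ Ncount σ.C σ.H σ.D (σ.G k) (k + 1) z ↔ y ≤ z

theorem exists_Y (k : ℕ) (i : Fin n) : ∃ y, i ∈ σ.A k → σ.IsY k i y := by
  by_cases h : i ∈ σ.A k
  · have hG : (σ.G k).Nonempty := by
      rw [← Finset.card_pos, card_G]
      exact Finset.card_pos.mpr ⟨i, h⟩
    obtain ⟨y, hy⟩ := exists_least (H := σ.H) (D := σ.D) σ.C_pos (σ.G k) hG (k + 1) (rk (σ.A k) i)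
    exact ⟨y, fun _ => hy⟩
  · exact ⟨0, fun h' => absurd h' h⟩

noncomputable def Yc (k : ℕ) (i : Fin n) : ℤ := Classical.choose (σ.exists_Y k i)

theorem Yc_spec {k : ℕ} {i : Fin n} (h : i ∈ σ.A k) : σ.IsY k i (σ.Yc k i) :=
  Classical.choose_spec (σ.exists_Y k i) h

noncomputable def ps : ℕ → Fin n → ℤ
  | 0, i => σ.H i
  | k + 1, i => σ.Yc k i

theorem step {k : ℕ} {i : Fin n} {y y' : ℤ} (hX : σ.IsX k i y) (hY : σ.IsY k i y') :
    2 ∣ y - (k : ℤ) ∧ (y' = y - 1 ∨ y' = y + 1) ∧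
    (y' = y - 1 ↔ rk (σ.A k) i ≤
      Ncount σ.C σ.H σ.D ((σ.G k).filter fun g => σ.D g = 1) k (y - 1) +
      Ncount σ.C σ.H σ.D ((σ.G k).filter fun g => ¬ σ.D g = 1) k y) ∧
    (y = y' - 1 ↔ rk (σ.A k) i ≤
      Ncount σ.C σ.H σ.D ((σ.G k).filter fun g => σ.D g = 1) (k + 1) y' +
      Ncount σ.C σ.H σ.D ((σ.G k).filter fun g => ¬ σ.D g = 1) (k + 1) (y' - 1)) := by
  have h := step_gen
    (fun z => Ncount σ.C σ.H σ.D ((σ.G k).filter fun g => σ.D g = 1) k z)
    (fun z => Ncount σ.C σ.H σ.D ((σ.G k).filter fun g => ¬ σ.D g = 1) k z)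
    (k : ℤ) (rk (σ.A k) i) y y'
    (fun z => Ncount_mono σ.C_pos _ k (by omega))
    (fun z => Ncount_mono σ.C_pos _ k (by omega))
    (fun z hz => parity σ.C_pos σ.two_dvd_C σ.two_dvd_H σ.D_pm _ k z hz)
    (fun z hz => parity σ.C_pos σ.two_dvd_C σ.two_dvd_H σ.D_pm _ k z hz)
    (fun z => by
      rw [← Ncount_split]
      exact hX z)
    (fun z => by
      rw [← Ncount_plus_succ, ← Ncount_minus_succ σ.D_pm, ← Ncount_split]
      exact hY z)
  rw [Ncount_plus_succ, Ncount_minus_succ σ.D_pm, show y' - 1 + 1 = y' by ring]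
  exact h

/-- only one ghost at a home base at the time of a death there -/
theorem one_ghost (G : Finset (Fin n)) (s : ℕ) (y : ℤ) (hy : 2 ∣ y) :
    Ncount σ.C σ.H σ.D G s y ≤ Ncount σ.C σ.H σ.D G s (y - 1) + 1 := by
  rw [Ncount_cnt σ.C_pos G s y]
  have : (G.filter fun g => σ.C ∣ y - σ.H g - σ.D g * (s : ℤ)).card ≤ 1 := by
    rw [Finset.card_le_one]
    intro a ha b hb
    rw [Finset.mem_filter] at ha hb
    have h1 := ha.2
    have h2 := hb.2
    have h5 := σ.H_nonneg a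
    have h6 := σ.H_lt a
    have h7 := σ.H_nonneg b
    have h8 := σ.H_lt b
    have f1 := dvd_trans σ.four_dvd_C h1
    have f2 := dvd_trans σ.four_dvd_C h2
    rcases σ.D_pm a with ea | ea <;> rcases σ.D_pm b with eb | eb <;> rw [ea] at h1 f1 <;>
      rw [eb] at h2 f2
    · have h3 : σ.C ∣ σ.H a - σ.H b := by
        have := dvd_sub h2 h1
        have h4 : y - σ.H b - 1 * (s : ℤ) - (y - σ.H a - 1 * (s : ℤ)) = σ.H a - σ.H b := by ring
        rwa [h4] at this
      have h9 : σ.H a - σ.H b = 0 :=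
        Int.eq_zero_of_abs_lt_dvd h3 (by rw [abs_lt]; constructor <;> omega)
      exact σ.H_inj (by omega)
    · exfalso
      have g1 := σ.H_plus a ea
      have g2 := σ.H_minus b eb
      omega
    · exfalso
      have g1 := σ.H_plus b eb
      have g2 := σ.H_minus a ea
      omega
    · have h3 : σ.C ∣ σ.H a - σ.H b := by
        have := dvd_sub h2 h1
        have h4 : y - σ.H b - -1 * (s : ℤ) - (y - σ.H a - -1 * (s : ℤ)) = σ.H a - σ.H b := by ring
        rwa [h4] at this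
      have h9 : σ.H a - σ.H b = 0 :=
        Int.eq_zero_of_abs_lt_dvd h3 (by rw [abs_lt]; constructor <;> omega)
      exact σ.H_inj (by omega)
  have h' : ((G.filter fun g => σ.C ∣ y - σ.H g - σ.D g * (s : ℤ)).card : ℤ) ≤ 1 := by
    exact_mod_cast this
  omega

/-- transfer of the position from the robots of time `k` to the robots of time `k + 1` -/
theorem transfer (hg : σ.Good) {k : ℕ} {i : Fin n} (hi : i ∈ σ.A (k + 1)) {y' : ℤ}
    (hY : σ.IsY k i y') :
    σ.IsX (k + 1) i y' ∧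
    (rk (σ.A k) i ≤
      Ncount σ.C σ.H σ.D ((σ.G k).filter fun g => σ.D g = 1) (k + 1) y' +
      Ncount σ.C σ.H σ.D ((σ.G k).filter fun g => ¬ σ.D g = 1) (k + 1) (y' - 1) ↔
    rk (σ.A (k + 1)) i ≤
      Ncount σ.C σ.H σ.D ((σ.G (k + 1)).filter fun g => σ.D g = 1) (k + 1) y' +
      Ncount σ.C σ.H σ.D ((σ.G (k + 1)).filter fun g => ¬ σ.D g = 1) (k + 1) (y' - 1)) := by
  by_cases hd : ∃ d, σ.T d = ((k + 1 : ℕ) : ℕ∞)
  · obtain ⟨d, hd⟩ := hd
    have hdA : d ∉ σ.A (k + 1) := by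
      rw [mem_A, hd]
      exact lt_irrefl _
    have hdAk : d ∈ σ.A k := σ.mem_A_iff_succ.mpr (Or.inr hd)
    have hiAk : i ∈ σ.A k := σ.mem_A_iff_succ.mpr (Or.inl hi)
    have hid : i ≠ d := fun h => hdA (h ▸ hi)
    have huniq : ∀ j, σ.T j = ((k + 1 : ℕ) : ℕ∞) → j = d := by
      intro j hj
      by_contra hne
      have := σ.T_inj j d hne (by rw [hj, hd])
      rw [hj] at this
      exact ENat.natCast_ne_top _ this
    have hA : σ.A k = insert d (σ.A (k + 1)) := by
      ext j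
      rw [Finset.mem_insert, σ.mem_A_iff_succ]
      constructor
      · rintro (h | h)
        · exact Or.inr h
        · exact Or.inl (huniq j h)
      · rintro (h | h)
        · exact Or.inr (h ▸ hd)
        · exact Or.inl h
    have hgG : σ.κ d ∉ σ.G (k + 1) := by
      rw [mem_G, Equiv.symm_apply_apply, hd]
      exact lt_irrefl _
    have hG : σ.G k = insert (σ.κ d) (σ.G (k + 1)) := by
      ext g
      rw [Finset.mem_insert, σ.mem_G_iff_succ]
      constructor
      · rintro (h | h)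
        · exact Or.inr h
        · left
          rw [← huniq _ h, Equiv.apply_symm_apply]
      · rintro (h | h)
        · right
          rw [h, Equiv.symm_apply_apply]
          exact hd
        · exact Or.inl h
    set Yd := σ.H d + σ.w d * σ.C with hYd
    have hmeet : σ.H (σ.κ d) + σ.D (σ.κ d) * ((k + 1 : ℕ) : ℤ) = Yd := hg.meet d (k + 1) hd
    have hdie := hg.die d k hd
    have hYdY : σ.IsY k d Yd := isleast_of σ.C_pos _ _ hdie.1 hdie.2
    have hYd2 : 2 ∣ Yd := by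
      have h1 := σ.two_dvd_H d
      have h2 : 2 ∣ σ.w d * σ.C := Dvd.dvd.mul_left σ.two_dvd_C _
      omega
    have hone := σ.one_ghost (σ.G k) (k + 1) Yd hYd2
    have hK : ((σ.G k).card : ℤ) = ((σ.A k).card : ℤ) := by rw [card_G]
    -- values
    have v1 : rk (σ.A k) i ≤ Ncount σ.C σ.H σ.D (σ.G k) (k + 1) y' := (hY y').mpr le_rfl
    have v2 : Ncount σ.C σ.H σ.D (σ.G k) (k + 1) (y' - 1) < rk (σ.A k) i := by
      by_contra h
      have := (hY (y' - 1)).mp (not_lt.mp h)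
      omega
    have w1 : rk (σ.A k) d ≤ Ncount σ.C σ.H σ.D (σ.G k) (k + 1) Yd := (hYdY Yd).mpr le_rfl
    have w2 : Ncount σ.C σ.H σ.D (σ.G k) (k + 1) (Yd - 1) < rk (σ.A k) d := by
      by_contra h
      have := (hYdY (Yd - 1)).mp (not_lt.mp h)
      omega
    have gi := rk_gt hiAk
    have gd := rk_gt hdAk
    have li := rk_le (σ.A k) i
    have ld := rk_le (σ.A k) d
    have per : ∀ z m, Ncount σ.C σ.H σ.D (σ.G k) (k + 1) (z + m * σ.C) =
      Ncount σ.C σ.H σ.D (σ.G k) (k + 1) z + m * ((σ.A k).card : ℤ) := by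
      intro z m
      rw [Ncount_period σ.C_pos, hK]
    -- ranks
    have hrk : rk (σ.A k) i = rk (σ.A (k + 1)) i - if i < d then 1 else 0 := by
      unfold rk
      rw [hA, Finset.filter_insert]
      by_cases h : i < d
      · rw [if_pos h, if_pos h, Finset.card_insert_of_notMem]
        · push_cast
          ring
        · intro hc
          exact hdA (Finset.mem_filter.mp hc).1
      · rw [if_neg h, if_neg h]
        ring
    -- the offset
    have hoff : ∃ c : ℤ, (y' - Yd) / σ.C = c ∧ (y' - 1 - Yd) / σ.C = c ∧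
        rk (σ.A (k + 1)) i = rk (σ.A k) i - c := by
      rcases lt_or_gt_of_ne hid with h | h
      · rw [if_pos h] at hrk
        have hlt := rk_lt hdAk h
        have u1 : y' ≤ Yd := (hY Yd).mp (by omega)
        have u2 : y' ≠ Yd := by
          intro he
          rw [he] at v1 v2
          omega
        have p1 := per y' 1
        rw [one_mul, one_mul] at p1
        have u3 : Yd ≤ y' + σ.C := (hYdY (y' + σ.C)).mp (by omega)
        have u4 : Yd ≠ y' + σ.C := by
          intro he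
          have p2 := per (y' - 1) 1
          rw [one_mul, one_mul] at p2
          have e1 : y' - 1 + σ.C = Yd - 1 := by omega
          rw [e1] at p2
          rw [← he] at p1
          omega
        refine ⟨-1, div_neg_one_of σ.C_pos (by omega) (by omega),
          div_neg_one_of σ.C_pos (by omega) (by omega), by omega⟩
      · rw [if_neg (not_lt.mpr h.le)] at hrk
        have hlt := rk_lt hiAk h
        have u1 : Yd ≤ y' := (hYdY y').mp (by omega)
        have u2 : y' ≠ Yd := by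
          intro he
          rw [he] at v1 v2
          omega
        have p1 := per Yd 1
        rw [one_mul, one_mul] at p1
        have u3 : y' ≤ Yd + σ.C := (hY (Yd + σ.C)).mp (by omega)
        have u4 : y' ≠ Yd + σ.C := by
          intro he
          have p2 := per (Yd - 1) 1
          rw [one_mul, one_mul] at p2
          have e1 : Yd - 1 + σ.C = y' - 1 := by omega
          rw [e1] at p2
          omega
        refine ⟨0, div_zero_of (by omega) (by omega), div_zero_of (by omega) (by omega), by omega⟩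
    obtain ⟨c, hc1, hc2, hc3⟩ := hoff
    have hterm : ∀ z, z - σ.H (σ.κ d) - σ.D (σ.κ d) * ((k + 1 : ℕ) : ℤ) = z - Yd := by
      intro z
      rw [← hmeet]
      ring
    have hN : ∀ z, Ncount σ.C σ.H σ.D (σ.G k) (k + 1) z =
        (z - Yd) / σ.C + Ncount σ.C σ.H σ.D (σ.G (k + 1)) (k + 1) z := by
      intro z
      unfold Ncount
      rw [hG, Finset.sum_insert hgG, hterm]
    constructor
    · apply isleast_of σ.C_pos
      · have := hN y'
        omega
      · have := hN (y' - 1)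
        omega
    · rw [hG, Finset.filter_insert, Finset.filter_insert]
      by_cases hD : σ.D (σ.κ d) = 1
      · rw [if_pos hD, if_neg (not_not.mpr hD)]
        have : Ncount σ.C σ.H σ.D (insert (σ.κ d) ((σ.G (k + 1)).filter fun g => σ.D g = 1))
            (k + 1) y' = (y' - Yd) / σ.C +
            Ncount σ.C σ.H σ.D ((σ.G (k + 1)).filter fun g => σ.D g = 1) (k + 1) y' := by
          unfold Ncount
          rw [Finset.sum_insert (fun hc => hgG (Finset.mem_filter.mp hc).1), hterm]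
        rw [this]
        constructor <;> intro h <;> omega
      · rw [if_neg hD, if_pos hD]
        have : Ncount σ.C σ.H σ.D (insert (σ.κ d) ((σ.G (k + 1)).filter fun g => ¬ σ.D g = 1))
            (k + 1) (y' - 1) = (y' - 1 - Yd) / σ.C +
            Ncount σ.C σ.H σ.D ((σ.G (k + 1)).filter fun g => ¬ σ.D g = 1) (k + 1) (y' - 1) := by
          unfold Ncount
          rw [Finset.sum_insert (fun hc => hgG (Finset.mem_filter.mp hc).1), hterm]
        rw [this]
        constructor <;> intro h <;> omega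
  · push Not at hd
    have hA : σ.A k = σ.A (k + 1) := by
      ext j
      rw [σ.mem_A_iff_succ]
      exact ⟨fun h => h.resolve_right (hd j), Or.inl⟩
    have hG : σ.G k = σ.G (k + 1) := by
      ext j
      rw [σ.mem_G_iff_succ]
      exact ⟨fun h => h.resolve_right (hd _), Or.inl⟩
    unfold IsY at hY
    rw [hA, hG] at hY
    rw [hA, hG]
    exact ⟨hY, Iff.rfl⟩

theorem isX_zero (i : Fin n) : σ.IsX 0 i (σ.H i) ∧
    rk (σ.A 0) i = Ncount σ.C σ.H σ.D (σ.G 0) 0 (σ.H i) ∧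
    rk (σ.A 0) i = Ncount σ.C σ.H σ.D (σ.G 0) 0 (σ.H i - 1) + 1 := by
  have h1 : rk (σ.A 0) i = Ncount σ.C σ.H σ.D (σ.G 0) 0 (σ.H i) := by
    unfold rk Ncount
    rw [A_zero, G_zero, Finset.card_filter]
    push_cast
    rw [← Finset.sum_neg_distrib]
    refine Finset.sum_congr rfl fun g _ => ?_
    have a1 := σ.H_nonneg i
    have a2 := σ.H_lt i
    have a3 := σ.H_nonneg g
    have a4 := σ.H_lt g
    by_cases h : i < g
    · have := σ.H_mono h
      rw [if_pos h, div_neg_one_of σ.C_pos (by simp; omega) (by simp; omega)]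
    · have := σ.H_mono.monotone (not_lt.mp h)
      rw [if_neg h, div_zero_of (by simp; omega) (by simp; omega)]
      rfl
  have h2 : Ncount σ.C σ.H σ.D (σ.G 0) 0 (σ.H i) =
      Ncount σ.C σ.H σ.D (σ.G 0) 0 (σ.H i - 1) + 1 := by
    rw [Ncount_cnt σ.C_pos _ 0 (σ.H i)]
    have : ((σ.G 0).filter fun g => σ.C ∣ σ.H i - σ.H g - σ.D g * ((0 : ℕ) : ℤ)) = {i} := by
      ext g
      rw [Finset.mem_filter, Finset.mem_singleton, G_zero]
      have a1 := σ.H_nonneg i
      have a2 := σ.H_lt i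
      have a3 := σ.H_nonneg g
      have a4 := σ.H_lt g
      constructor
      · rintro ⟨_, h⟩
        have h' : σ.C ∣ σ.H i - σ.H g := by simpa using h
        have h9 : σ.H i - σ.H g = 0 :=
          Int.eq_zero_of_abs_lt_dvd h' (by rw [abs_lt]; constructor <;> omega)
        exact σ.H_inj (by omega)
      · rintro rfl
        exact ⟨mem_univ _, by simp⟩
    rw [this]
    simp
  refine ⟨?_, h1, by omega⟩
  exact isleast_of σ.C_pos _ _ h1.le (by omega)

theorem ps_isX (hg : σ.Good) (k : ℕ) (i : Fin n) (hi : i ∈ σ.A k) : σ.IsX k i (σ.ps k i) := by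
  cases k with
  | zero => exact (σ.isX_zero i).1
  | succ k =>
    have hik : i ∈ σ.A k := σ.mem_A_iff_succ.mpr (Or.inl hi)
    exact (σ.transfer hg hi (σ.Yc_spec hik)).1

/-- local data at a robot -/
theorem loc {k : ℕ} {i : Fin n} {y : ℤ} (hX : σ.IsX k i y) :
    rk (σ.A k) i ≤ Ncount σ.C σ.H σ.D (σ.G k) k y ∧
    Ncount σ.C σ.H σ.D (σ.G k) k (y - 1) < rk (σ.A k) i := by
  refine ⟨(hX y).mpr le_rfl, ?_⟩
  by_contra h
  have := (hX (y - 1)).mp (not_lt.mp h)
  omega

theorem incs (k : ℕ) (y : ℤ) :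
    Ncount σ.C σ.H σ.D (σ.G k) k y =
      Ncount σ.C σ.H σ.D ((σ.G k).filter fun g => σ.D g = 1) k y +
      Ncount σ.C σ.H σ.D ((σ.G k).filter fun g => ¬ σ.D g = 1) k y ∧
    Ncount σ.C σ.H σ.D (σ.G k) k (y - 1) =
      Ncount σ.C σ.H σ.D ((σ.G k).filter fun g => σ.D g = 1) k (y - 1) +
      Ncount σ.C σ.H σ.D ((σ.G k).filter fun g => ¬ σ.D g = 1) k (y - 1) ∧
    Ncount σ.C σ.H σ.D ((σ.G k).filter fun g => σ.D g = 1) k (y - 1) ≤
      Ncount σ.C σ.H σ.D ((σ.G k).filter fun g => σ.D g = 1) k y ∧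
    Ncount σ.C σ.H σ.D ((σ.G k).filter fun g => σ.D g = 1) k y ≤
      Ncount σ.C σ.H σ.D ((σ.G k).filter fun g => σ.D g = 1) k (y - 1) + 1 ∧
    Ncount σ.C σ.H σ.D ((σ.G k).filter fun g => ¬ σ.D g = 1) k (y - 1) ≤
      Ncount σ.C σ.H σ.D ((σ.G k).filter fun g => ¬ σ.D g = 1) k y ∧
    Ncount σ.C σ.H σ.D ((σ.G k).filter fun g => ¬ σ.D g = 1) k y ≤
      Ncount σ.C σ.H σ.D ((σ.G k).filter fun g => ¬ σ.D g = 1) k (y - 1) + 1 := by
  refine ⟨Ncount_split _ _ _, Ncount_split _ _ _, Ncount_mono σ.C_pos _ _ (by omega),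
    le_one_plus σ.C_pos σ.H_nonneg σ.H_lt σ.H_inj 1 _ k y
      (fun g hg => (Finset.mem_filter.mp hg).2), Ncount_mono σ.C_pos _ _ (by omega),
    le_one_plus σ.C_pos σ.H_nonneg σ.H_lt σ.H_inj (-1) _ k y
      (fun g hg => (σ.D_pm g).resolve_left (Finset.mem_filter.mp hg).2)⟩

theorem period (k : ℕ) (y m : ℤ) : Ncount σ.C σ.H σ.D (σ.G k) k (y + m * σ.C) =
    Ncount σ.C σ.H σ.D (σ.G k) k y + m * ((σ.A k).card : ℤ) := by
  rw [Ncount_period σ.C_pos, card_G]

/-- Two different robots at the same point of the circle. -/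
theorem same_pt {k : ℕ} {i j : Fin n} (hi : i ∈ σ.A k) (hj : j ∈ σ.A k) (hij : i ≠ j)
    {y z m : ℤ} (hy : σ.IsX k i y) (hz : σ.IsX k j z) (hm : y = z + m * σ.C) :
    (rk (σ.A k) i ≤
      Ncount σ.C σ.H σ.D ((σ.G k).filter fun g => σ.D g = 1) k (y - 1) +
      Ncount σ.C σ.H σ.D ((σ.G k).filter fun g => ¬ σ.D g = 1) k y ↔
    ¬ rk (σ.A k) j ≤
      Ncount σ.C σ.H σ.D ((σ.G k).filter fun g => σ.D g = 1) k (z - 1) +
      Ncount σ.C σ.H σ.D ((σ.G k).filter fun g => ¬ σ.D g = 1) k z) ∧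
    (rk (σ.A k) i ≤
      Ncount σ.C σ.H σ.D ((σ.G k).filter fun g => σ.D g = 1) k (y - 1) +
      Ncount σ.C σ.H σ.D ((σ.G k).filter fun g => ¬ σ.D g = 1) k y ↔
    ¬ rk (σ.A k) j ≤
      Ncount σ.C σ.H σ.D ((σ.G k).filter fun g => σ.D g = 1) k z +
      Ncount σ.C σ.H σ.D ((σ.G k).filter fun g => ¬ σ.D g = 1) k (z - 1)) := by
  have l1 := σ.loc hy
  have l2 := σ.loc hz
  have i1 := σ.incs k y
  have i2 := σ.incs k z
  have p1 := σ.period k z m
  have p2 := σ.period k (z - 1) m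
  have e : z - 1 + m * σ.C = y - 1 := by omega
  rw [← hm] at p1
  rw [e] at p2
  have g1 := rk_gt hi
  have g2 := rk_gt hj
  have g3 := rk_le (σ.A k) i
  have g4 := rk_le (σ.A k) j
  have hne : rk (σ.A k) i ≠ rk (σ.A k) j := by
    rcases lt_or_gt_of_ne hij with h | h
    · exact (rk_lt hj h).ne
    · exact (rk_lt hi h).ne'
  have hne2 : rk (σ.A k) i - rk (σ.A k) j ≠ m * ((σ.A k).card : ℤ) := by
    intro h
    rcases lt_trichotomy m 0 with hm0 | hm0 | hm0
    · have : m * ((σ.A k).card : ℤ) ≤ (-1) * ((σ.A k).card : ℤ) :=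
        mul_le_mul_of_nonneg_right (by omega) (by positivity)
      omega
    · rw [hm0, zero_mul] at h
      omega
    · have : 1 * ((σ.A k).card : ℤ) ≤ m * ((σ.A k).card : ℤ) :=
        mul_le_mul_of_nonneg_right (by omega) (by positivity)
      omega
  constructor <;> constructor <;> intro h <;> omega

/-- If `i` is the only robot at its point, there is only one ghost there. -/
theorem alone {k : ℕ} {i : Fin n} (hi : i ∈ σ.A k) {y : ℤ} (hy : σ.IsX k i y)
    (hal : ∀ j ∈ σ.A k, j ≠ i → ∀ z m : ℤ, σ.IsX k j z → y ≠ z + m * σ.C) :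
    Ncount σ.C σ.H σ.D (σ.G k) k y ≤ Ncount σ.C σ.H σ.D (σ.G k) k (y - 1) + 1 := by
  by_contra hcon
  have l1 := σ.loc hy
  have i1 := σ.incs k y
  have g1 := rk_gt hi
  have g3 := rk_le (σ.A k) i
  have hK : (2 : ℤ) ≤ ((σ.A k).card : ℤ) := by
    rw [← card_G]
    have h1 := Ncount_cnt (H := σ.H) (D := σ.D) σ.C_pos (σ.G k) k y
    have h2 := Finset.card_filter_le (σ.G k) (fun g => σ.C ∣ y - σ.H g - σ.D g * (k : ℤ))
    have h3 : (((σ.G k).filter fun g => σ.C ∣ y - σ.H g - σ.D g * (k : ℤ)).card : ℤ) ≤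
      ((σ.G k).card : ℤ) := by exact_mod_cast h2
    omega
  have pm := σ.period k y (-1)
  have pm1 := σ.period k (y - 1) (-1)
  have pp := σ.period k y 1
  have pp1 := σ.period k (y - 1) 1
  have e1 : y + -1 * σ.C - 1 = y - 1 + -1 * σ.C := by ring
  have e2 : y + 1 * σ.C - 1 = y - 1 + 1 * σ.C := by ring
  rcases (by omega : rk (σ.A k) i = Ncount σ.C σ.H σ.D (σ.G k) k (y - 1) + 1 ∨
      rk (σ.A k) i = Ncount σ.C σ.H σ.D (σ.G k) k (y - 1) + 2) with he | he
  · by_cases hr : rk (σ.A k) i < 0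
    · obtain ⟨j, hj, hjr⟩ := rk_surj (σ.A k) (rk (σ.A k) i + 1) (by omega) (by omega)
      refine hal j hj (fun h => by rw [h] at hjr; omega) y 0 ?_ (by ring)
      exact isleast_of σ.C_pos _ _ (by omega) (by omega)
    · obtain ⟨j, hj, hjr⟩ := rk_surj (σ.A k) (1 - ((σ.A k).card : ℤ)) (by omega) (by omega)
      refine hal j hj (fun h => by rw [h] at hjr; omega) (y + -1 * σ.C) 1 ?_ (by ring)
      apply isleast_of σ.C_pos
      · omega
      · rw [e1]
        omega
  · by_cases hr : 1 - ((σ.A k).card : ℤ) < rk (σ.A k) i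
    · obtain ⟨j, hj, hjr⟩ := rk_surj (σ.A k) (rk (σ.A k) i - 1) (by omega) (by omega)
      refine hal j hj (fun h => by rw [h] at hjr; omega) y 0 ?_ (by ring)
      exact isleast_of σ.C_pos _ _ (by omega) (by omega)
    · obtain ⟨j, hj, hjr⟩ := rk_surj (σ.A k) 0 (by omega) (by omega)
      refine hal j hj (fun h => by rw [h] at hjr; omega) (y + 1 * σ.C) (-1) ?_ (by ring)
      apply isleast_of σ.C_pos
      · omega
      · rw [e2]
        omega

theorem IsX.unique {σ : Schedule n} {k : ℕ} {i : Fin n} {y z : ℤ} (hy : σ.IsX k i y)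
    (hz : σ.IsX k i z) : y = z := by
  have h1 := (hz y).mp ((hy y).mpr le_rfl)
  have h2 := (hy z).mp ((hz z).mpr le_rfl)
  omega

/-- departure velocity at time `k`, arrival velocity at time `k + 1` -/
theorem vel_facts (hg : σ.Good) {k : ℕ} {i : Fin n} (hi : i ∈ σ.A k) :
    2 ∣ σ.ps k i - (k : ℤ) ∧ (σ.ps (k + 1) i - σ.ps k i = -1 ∨ σ.ps (k + 1) i - σ.ps k i = 1) ∧
    (σ.ps (k + 1) i - σ.ps k i = -1 ↔ rk (σ.A k) i ≤
      Ncount σ.C σ.H σ.D ((σ.G k).filter fun g => σ.D g = 1) k (σ.ps k i - 1) +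
      Ncount σ.C σ.H σ.D ((σ.G k).filter fun g => ¬ σ.D g = 1) k (σ.ps k i)) ∧
    (i ∈ σ.A (k + 1) → (σ.ps (k + 1) i - σ.ps k i = 1 ↔ rk (σ.A (k + 1)) i ≤
      Ncount σ.C σ.H σ.D ((σ.G (k + 1)).filter fun g => σ.D g = 1) (k + 1) (σ.ps (k + 1) i) +
      Ncount σ.C σ.H σ.D ((σ.G (k + 1)).filter fun g => ¬ σ.D g = 1) (k + 1)
        (σ.ps (k + 1) i - 1))) := by
  have hX := σ.ps_isX hg k i hi
  have hY : σ.IsY k i (σ.ps (k + 1) i) := σ.Yc_spec hi
  obtain ⟨h1, h2, h3, h4⟩ := σ.step hX hY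
  refine ⟨h1, by omega, ?_, ?_⟩
  · rw [← h3]
    omega
  · intro hi'
    rw [← (σ.transfer hg hi' hY).2, ← h4]
    omega

theorem collide_pass (hg : σ.Good) {k : ℕ} {i : Fin n} (hi : i ∈ σ.A (k + 1)) :
    (∀ j ∈ σ.A (k + 1), i ≠ j → ∀ m : ℤ, σ.ps (k + 1) i = σ.ps (k + 1) j + m * σ.C →
      σ.ps (k + 1 + 1) i - σ.ps (k + 1) i = σ.ps (k + 1) j - σ.ps k j) ∧
    ((∀ j ∈ σ.A (k + 1), j ≠ i → ∀ m : ℤ, σ.ps (k + 1) i ≠ σ.ps (k + 1) j + m * σ.C) →
      σ.ps (k + 1 + 1) i - σ.ps (k + 1) i = σ.ps (k + 1) i - σ.ps k i) := by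
  have hik : i ∈ σ.A k := σ.mem_A_iff_succ.mpr (Or.inl hi)
  have v0 := σ.vel_facts hg hik
  have v1 := σ.vel_facts hg hi
  have hX := σ.ps_isX hg (k + 1) i hi
  constructor
  · intro j hj hij m hm
    have hjk : j ∈ σ.A k := σ.mem_A_iff_succ.mpr (Or.inl hj)
    have w0 := σ.vel_facts hg hjk
    have hXj := σ.ps_isX hg (k + 1) j hj
    have hs := (σ.same_pt hi hj hij hX hXj hm).2
    have a1 := v1.2.2.1
    have a2 := w0.2.2.2 hj
    have a3 := v1.2.1
    have a4 := w0.2.1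
    rw [← a2, ← a1] at hs
    rcases a3 with a3 | a3 <;> rcases a4 with a4 | a4
    · omega
    · exact absurd a4 (hs.mp a3)
    · have : ¬ (σ.ps (k + 1) j - σ.ps k j = 1) := by omega
      have := hs.mpr this
      omega
    · omega
  · intro hal
    have h1 := σ.alone hi hX (fun j hj hji z m hz => by
      rw [hz.unique (σ.ps_isX hg (k + 1) j hj)]
      exact hal j hj hji m)
    have a1 := v1.2.2.1
    have a2 := v0.2.2.2 hi
    have a3 := v1.2.1
    have a4 := v0.2.1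
    have i1 := σ.incs (k + 1) (σ.ps (k + 1) i)
    have l1 := σ.loc hX
    rcases a3 with a3 | a3 <;> rcases a4 with a4 | a4
    · omega
    · have b1 := a1.mp a3
      have b2 := a2.mp a4
      omega
    · have b1 : ¬ (σ.ps (k + 1 + 1) i - σ.ps (k + 1) i = -1) := by omega
      have b2 : ¬ (σ.ps (k + 1) i - σ.ps k i = 1) := by omega
      rw [a1] at b1
      rw [a2] at b2
      omega
    · omega

theorem vel_zero' (hg : σ.Good) (i : Fin n) : σ.ps 1 i - σ.ps 0 i = σ.D i := by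
  have hi : i ∈ σ.A 0 := by rw [A_zero]; exact mem_univ i
  obtain ⟨_, h2, h3, _⟩ := σ.vel_facts hg hi
  obtain ⟨_, h5, h6⟩ := σ.isX_zero i
  have i1 := σ.incs 0 (σ.H i)
  have hps : σ.ps 0 i = σ.H i := rfl
  rw [hps] at h2 h3 ⊢
  simp only [zero_add] at h2 h3
  rcases σ.D_pm i with hD | hD
  · have hinc : Ncount σ.C σ.H σ.D ((σ.G 0).filter fun g => σ.D g = 1) 0 (σ.H i) ≥
        Ncount σ.C σ.H σ.D ((σ.G 0).filter fun g => σ.D g = 1) 0 (σ.H i - 1) + 1 := by
      rw [Ncount_cnt σ.C_pos _ 0 (σ.H i)]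
      have : 0 < (((σ.G 0).filter fun g => σ.D g = 1).filter
          fun g => σ.C ∣ σ.H i - σ.H g - σ.D g * ((0 : ℕ) : ℤ)).card := by
        rw [Finset.card_pos]
        refine ⟨i, Finset.mem_filter.mpr ⟨Finset.mem_filter.mpr ⟨?_, hD⟩, by simp⟩⟩
        rw [G_zero]
        exact mem_univ i
      have h' : (0 : ℤ) < ((((σ.G 0).filter fun g => σ.D g = 1).filter
          fun g => σ.C ∣ σ.H i - σ.H g - σ.D g * ((0 : ℕ) : ℤ)).card : ℤ) := by exact_mod_cast this
      omega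
    rw [hD]
    omega
  · have hinc : Ncount σ.C σ.H σ.D ((σ.G 0).filter fun g => ¬ σ.D g = 1) 0 (σ.H i) ≥
        Ncount σ.C σ.H σ.D ((σ.G 0).filter fun g => ¬ σ.D g = 1) 0 (σ.H i - 1) + 1 := by
      rw [Ncount_cnt σ.C_pos _ 0 (σ.H i)]
      have : 0 < (((σ.G 0).filter fun g => ¬ σ.D g = 1).filter
          fun g => σ.C ∣ σ.H i - σ.H g - σ.D g * ((0 : ℕ) : ℤ)).card := by
        rw [Finset.card_pos]
        refine ⟨i, Finset.mem_filter.mpr ⟨Finset.mem_filter.mpr ⟨?_, by rw [hD]; norm_num⟩,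
          by simp⟩⟩
        rw [G_zero]
        exact mem_univ i
      have h' : (0 : ℤ) < ((((σ.G 0).filter fun g => ¬ σ.D g = 1).filter
          fun g => σ.C ∣ σ.H i - σ.H g - σ.D g * ((0 : ℕ) : ℤ)).card : ℤ) := by exact_mod_cast this
      omega
    rw [hD]
    omega

theorem samePt_div (a b : ℤ) : SamePt ((a : ℝ) / σ.C) ((b : ℝ) / σ.C) ↔
    ∃ m : ℤ, a = b + m * σ.C := by
  have hC : (0 : ℝ) < (σ.C : ℝ) := by exact_mod_cast σ.C_pos
  unfold SamePt
  refine exists_congr fun m => ?_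
  rw [div_eq_iff hC.ne', add_mul, div_mul_cancel₀ _ hC.ne']
  constructor
  · intro h
    exact_mod_cast h
  · intro h
    exact_mod_cast h

theorem samePt_div' (k : ℕ) (i : Fin n) : SamePt ((σ.ps k i : ℝ) / σ.C) ((σ.H i : ℝ) / σ.C) ↔
    ∃ m : ℤ, σ.ps k i = σ.H i + m * σ.C := σ.samePt_div _ _

/-- The configuration of a schedule. -/
noncomputable def config : Config n where
  home i := (σ.H i : ℝ) / σ.C
  dir i := (σ.D i : ℝ)
  home_nonneg i := by
    have hC : (0 : ℝ) < (σ.C : ℝ) := by exact_mod_cast σ.C_pos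
    have : (0 : ℝ) ≤ (σ.H i : ℝ) := by exact_mod_cast σ.H_nonneg i
    positivity
  home_lt_one i := by
    have hC : (0 : ℝ) < (σ.C : ℝ) := by exact_mod_cast σ.C_pos
    rw [div_lt_one hC]
    exact_mod_cast σ.H_lt i
  home_mono := by
    intro i j hij
    have hC : (0 : ℝ) < (σ.C : ℝ) := by exact_mod_cast σ.C_pos
    show (σ.H i : ℝ) / σ.C < (σ.H j : ℝ) / σ.C
    rw [div_lt_div_iff_of_pos_right hC]
    exact_mod_cast σ.H_mono hij
  dir_pm i := by
    rcases σ.D_pm i with h | h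
    · left
      rw [h]
      norm_num
    · right
      rw [h]
      norm_num

theorem frac_false {x : ℝ} {v : ℤ} (h0 : 0 < x) (h1 : x < 1) (hv : v = 1 ∨ v = -1) (m : ℤ)
    (h : x * v = m) : False := by
  rcases hv with hv | hv
  · rw [hv] at h
    have h2 : x = m := by push_cast at h; linarith
    rw [h2] at h0 h1
    have h3 : (0 : ℤ) < m := by exact_mod_cast h0
    have h4 : m < 1 := by exact_mod_cast h1
    omega
  · rw [hv] at h
    have h2 : x = ((-m : ℤ) : ℝ) := by push_cast at h ⊢; linarith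
    rw [h2] at h0 h1
    have h3 : (0 : ℤ) < -m := by exact_mod_cast h0
    have h4 : -m < 1 := by exact_mod_cast h1
    omega

theorem exists_run {n : ℕ} (σ : Schedule n) (h : σ.Good) :
    ∃ (c : Config n) (ρ : Run c), ∀ i, σ.T i = ⊤ → i ∈ ρ.survivors := by
  have hC : (0 : ℝ) < (σ.C : ℝ) := by exact_mod_cast σ.C_pos
  have htime : ∀ k : ℕ, ((k + 1 : ℕ) : ℝ) / σ.C - (k : ℝ) / σ.C = 1 / σ.C := by
    intro k
    push_cast
    ring
  have hθ : ∀ (k : ℕ) (s : ℝ), 0 < s → s < ((k + 1 : ℕ) : ℝ) / σ.C - (k : ℝ) / σ.C →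
      0 < s * σ.C ∧ s * σ.C < 1 := by
    intro k s h0 h1
    rw [htime, lt_div_iff₀ hC] at h1
    exact ⟨mul_pos h0 hC, h1⟩
  have hnot : ∀ k i, i ∈ σ.A (k + 1) → ∀ m : ℤ, σ.ps (k + 1) i ≠ σ.H i + m * σ.C := by
    intro k i hi m hm
    have hX := σ.ps_isX h (k + 1) i hi
    obtain ⟨l, h1, h2⟩ := h.live i (k + 1) (by omega) (σ.mem_A.mp hi)
    have h3 := (hX _).mp h2
    have h4 : ¬ σ.ps (k + 1) i ≤ σ.H i + l * σ.C := by
      intro hle
      have := (hX _).mpr hle
      omega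
    have hCp := σ.C_pos
    rw [hm] at h3 h4
    have h5 : l * σ.C < m * σ.C := by omega
    have h6 : m * σ.C < (l + 1) * σ.C := by omega
    have h7 := lt_of_mul_lt_mul_right h5 hCp.le
    have h8 := lt_of_mul_lt_mul_right h6 hCp.le
    omega
  refine ⟨σ.config,
    { time := fun k => (k : ℝ) / σ.C
      alive := σ.A
      pos := fun k i => (σ.ps k i : ℝ) / σ.C
      vel := fun k i => ((σ.ps (k + 1) i - σ.ps k i : ℤ) : ℝ)
      time_zero := by simp
      time_mono := ?_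
      time_unbounded := ?_
      alive_zero := σ.A_zero
      pos_zero := fun i => rfl
      vel_zero := ?_
      move := ?_
      no_home := ?_
      no_meet := ?_
      alive_succ := ?_
      collide := ?_
      pass := ?_ }, ?_⟩
  · intro a b hab
    show (a : ℝ) / σ.C < (b : ℝ) / σ.C
    rw [div_lt_div_iff_of_pos_right hC]
    exact_mod_cast hab
  · intro T
    obtain ⟨k, hk⟩ := exists_nat_gt (T * σ.C)
    exact ⟨k, (lt_div_iff₀ hC).mpr hk⟩
  · intro i
    show ((σ.ps (0 + 1) i - σ.ps 0 i : ℤ) : ℝ) = (σ.D i : ℝ)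
    rw [zero_add, σ.vel_zero' h i]
  · intro k i _
    show (σ.ps (k + 1) i : ℝ) / σ.C = (σ.ps k i : ℝ) / σ.C +
      (((k + 1 : ℕ) : ℝ) / σ.C - (k : ℝ) / σ.C) * ((σ.ps (k + 1) i - σ.ps k i : ℤ) : ℝ)
    rw [htime]
    push_cast
    ring
  · rintro k i hi s hs0 hs1 ⟨m, hm⟩
    obtain ⟨t0, t1⟩ := hθ k s hs0 hs1
    have hv := (σ.vel_facts h hi).2.1
    have hm' : (σ.ps k i : ℝ) / σ.C + s * ((σ.ps (k + 1) i - σ.ps k i : ℤ) : ℝ) =
      (σ.H i : ℝ) / σ.C + m := hm
    have h2 : s * σ.C * ((σ.ps (k + 1) i - σ.ps k i : ℤ) : ℝ) =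
        ((σ.H i + m * σ.C - σ.ps k i : ℤ) : ℝ) := by
      have h3 := congrArg (fun x => x * (σ.C : ℝ)) hm'
      simp only [add_mul, div_mul_cancel₀ _ hC.ne'] at h3
      push_cast at h3 ⊢
      linarith
    exact frac_false t0 t1 (by omega) _ h2
  · rintro k i hi j hj hij s hs0 hs1 ⟨m, hm⟩
    obtain ⟨t0, t1⟩ := hθ k s hs0 hs1
    have vi := σ.vel_facts h hi
    have vj := σ.vel_facts h hj
    have hm' : (σ.ps k i : ℝ) / σ.C + s * ((σ.ps (k + 1) i - σ.ps k i : ℤ) : ℝ) =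
      (σ.ps k j : ℝ) / σ.C + s * ((σ.ps (k + 1) j - σ.ps k j : ℤ) : ℝ) + m := hm
    have h2 : s * σ.C * (((σ.ps (k + 1) i - σ.ps k i) - (σ.ps (k + 1) j - σ.ps k j) : ℤ) : ℝ) =
        ((σ.ps k j + m * σ.C - σ.ps k i : ℤ) : ℝ) := by
      have h3 := congrArg (fun x => x * (σ.C : ℝ)) hm'
      simp only [add_mul, div_mul_cancel₀ _ hC.ne'] at h3
      push_cast at h3 ⊢
      linarith
    by_cases hv : σ.ps (k + 1) i - σ.ps k i = σ.ps (k + 1) j - σ.ps k j
    · rw [hv, sub_self] at h2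
      have h3 : σ.ps k j + m * σ.C - σ.ps k i = 0 := by
        have : ((σ.ps k j + m * σ.C - σ.ps k i : ℤ) : ℝ) = 0 := by rw [← h2]; simp
        exact_mod_cast this
      have hs := (σ.same_pt hi hj hij (σ.ps_isX h k i hi) (σ.ps_isX h k j hj)
        (m := m) (by omega)).1
      rw [← vi.2.2.1, ← vj.2.2.1, hv] at hs
      tauto
    · -- the velocities are opposite: the half-integer argument
      have h4 : (2 : ℤ) ∣ σ.ps k j + m * σ.C - σ.ps k i := by
        have a1 := vi.1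
        have a2 := vj.1
        have a3 : (2 : ℤ) ∣ m * σ.C := Dvd.dvd.mul_left σ.two_dvd_C _
        omega
      obtain ⟨q, hq⟩ := h4
      have h5 : ∃ v : ℤ, (v = 1 ∨ v = -1) ∧
          (σ.ps (k + 1) i - σ.ps k i) - (σ.ps (k + 1) j - σ.ps k j) = 2 * v := by
        have b1 := vi.2.1
        have b2 := vj.2.1
        rcases b1 with b1 | b1 <;> rcases b2 with b2 | b2
        · exact absurd (by rw [b1, b2]) hv
        · exact ⟨-1, Or.inr rfl, by omega⟩
        · exact ⟨1, Or.inl rfl, by omega⟩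
        · exact absurd (by rw [b1, b2]) hv
      obtain ⟨v, hv1, hv2⟩ := h5
      rw [hv2, hq] at h2
      refine frac_false t0 t1 hv1 q ?_
      push_cast at h2 ⊢
      linarith
  · intro k i
    show i ∈ σ.A (k + 1) ↔ i ∈ σ.A k ∧ ¬ SamePt ((σ.ps (k + 1) i : ℝ) / σ.C) ((σ.H i : ℝ) / σ.C)
    rw [σ.samePt_div']
    constructor
    · intro hi
      refine ⟨σ.mem_A_iff_succ.mpr (Or.inl hi), ?_⟩
      rintro ⟨m, hm⟩
      exact hnot k i hi m hm
    · rintro ⟨hi, hns⟩
      rcases σ.mem_A_iff_succ.mp hi with h1 | h1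
      · exact h1
      · exfalso
        apply hns
        refine ⟨σ.w i, ?_⟩
        have hdie := h.die i k h1
        have hY : σ.IsY k i (σ.H i + σ.w i * σ.C) :=
          isleast_of σ.C_pos _ _ hdie.1 hdie.2
        have hY' : σ.IsY k i (σ.ps (k + 1) i) := σ.Yc_spec hi
        have e1 := (hY' _).mp ((hY _).mpr le_rfl)
        have e2 := (hY _).mp ((hY' _).mpr le_rfl)
        omega
  · intro k i hi j hj hij hs
    obtain ⟨m, hm⟩ := (σ.samePt_div _ _).mp hs
    have := (σ.collide_pass h hi).1 j hj hij m hm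
    show ((σ.ps (k + 1 + 1) i - σ.ps (k + 1) i : ℤ) : ℝ) = ((σ.ps (k + 1) j - σ.ps k j : ℤ) : ℝ)
    rw [this]
  · intro k i hi hal
    have := (σ.collide_pass h hi).2 (fun j hj hji m hm =>
      hal j hj hji ((σ.samePt_div _ _).mpr ⟨m, hm⟩))
    show ((σ.ps (k + 1 + 1) i - σ.ps (k + 1) i : ℤ) : ℝ) = ((σ.ps (k + 1) i - σ.ps k i : ℤ) : ℝ)
    rw [this]
  · intro i hi
    classical
    unfold Run.survivors
    rw [Finset.mem_filter]
    refine ⟨mem_univ i, fun k => ?_⟩
    show i ∈ σ.A k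
    rw [mem_A, hi]
    exact ENat.natCast_lt_top k

end Schedule

end R128Rob
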