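import Mathlib

/-!
# Bouncing robots on a circle (MP_6a9d64_co): the model

The circle is `ℝ/ℤ`; positions are real numbers read modulo `1`.
-/

namespace R128Rob

/-- A configuration of size `n`: home bases `0 ≤ h_1 < ... < h_n < 1` on the circle `ℝ/ℤ` and
initial directions `+1` or `-1`. -/
structure Config (n : ℕ) where
  home : Fin n → ℝ
  dir : Fin n → ℝ
  home_nonneg : ∀ i, 0 ≤ home i
  home_lt_one : ∀ i, home i < 1
  home_mono : StrictMono home
  dir_pm : ∀ i, dir i = 1 ∨ dir i = -1

/-- The reals `x` and `y` are the same point of the circle `ℝ/ℤ`. -/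
def SamePt (x y : ℝ) : Prop := ∃ m : ℤ, x = y + m

/-- The motion of the robots of a configuration.  `time` is an increasing unbounded sequence of
times starting at `0` that contains all times at which something happens; `alive k` is the set of
robots alive just after `time k`, `pos k i` the position of robot `i` at `time k` and `vel k i` its
velocity just after `time k`.  Between two consecutive times of the sequence every living robot
keeps its velocity, no living robot is at its home base and no two living robots are at the same
point.  At `time (k+1)` the robots which are at their home base die; after that, two living robots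
at the same point exchange their velocities, and every other living robot keeps its velocity. -/
structure Run {n : ℕ} (c : Config n) where
  time : ℕ → ℝ
  alive : ℕ → Finset (Fin n)
  pos : ℕ → Fin n → ℝ
  vel : ℕ → Fin n → ℝ
  time_zero : time 0 = 0
  time_mono : StrictMono time
  time_unbounded : ∀ T : ℝ, ∃ k, T < time k
  alive_zero : alive 0 = Finset.univ
  pos_zero : ∀ i, pos 0 i = c.home i
  vel_zero : ∀ i, vel 0 i = c.dir i
  move : ∀ k, ∀ i ∈ alive k, pos (k+1) i = pos k i + (time (k+1) - time k) * vel k i
  no_home : ∀ k, ∀ i ∈ alive k, ∀ s, 0 < s → s < time (k+1) - time k →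
    ¬ SamePt (pos k i + s * vel k i) (c.home i)
  no_meet : ∀ k, ∀ i ∈ alive k, ∀ j ∈ alive k, i ≠ j → ∀ s, 0 < s → s < time (k+1) - time k →
    ¬ SamePt (pos k i + s * vel k i) (pos k j + s * vel k j)
  alive_succ : ∀ k i, i ∈ alive (k+1) ↔ i ∈ alive k ∧ ¬ SamePt (pos (k+1) i) (c.home i)
  collide : ∀ k, ∀ i ∈ alive (k+1), ∀ j ∈ alive (k+1), i ≠ j →
    SamePt (pos (k+1) i) (pos (k+1) j) → vel (k+1) i = vel k j
  pass : ∀ k, ∀ i ∈ alive (k+1),
    (∀ j ∈ alive (k+1), j ≠ i → ¬ SamePt (pos (k+1) i) (pos (k+1) j)) → vel (k+1) i = vel k i

open Classical in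
/-- The robots that never die. -/
noncomputable def Run.survivors {n : ℕ} {c : Config n} (ρ : Run c) : Finset (Fin n) :=
  Finset.univ.filter (fun i => ∀ k, i ∈ ρ.alive k)

/-- The numbers of survivors that occur for configurations of size `n`. -/
def survivorCounts (n : ℕ) : Set ℕ :=
  {s | ∃ (c : Config n) (ρ : Run c), s = ρ.survivors.card}

end R128Rob
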