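import Mathlib
import Pool.Agent.R128.RobotsDef

/-!
# Bouncing robots (MP_6a9d64_co): schedules (interface of the lower bound)

Integer model: circle of circumference `C`, home bases `H i`, directions `D i = ±1`.
The ghost `g` is the moving point `H g + D g * t` (mod `C`); robots exchange ghosts when they meet.
`T i` is the time at which robot `i` dies (`⊤` if never) and `κ i` is the ghost it rides then, so
ghost `g` dies at time `T (κ.symm g)`.
-/

namespace R128Rob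

open Finset

/-- `∑_{g ∈ G} ⌊(y - (position of ghost g at time t)) / C⌋` -/
def Ncount {n : ℕ} (C : ℤ) (H D : Fin n → ℤ) (G : Finset (Fin n)) (t : ℕ) (y : ℤ) : ℤ :=
  ∑ g ∈ G, (y - H g - D g * (t : ℤ)) / C

/-- minus the number of robots of `A` after `i` -/
def rk {n : ℕ} (A : Finset (Fin n)) (i : Fin n) : ℤ := -((A.filter (fun j => i < j)).card : ℤ)

structure Schedule (n : ℕ) where
  C : ℤ
  H : Fin n → ℤ
  D : Fin n → ℤ
  T : Fin n → ℕ∞
  κ : Equiv.Perm (Fin n)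
  w : Fin n → ℤ
  C_pos : 0 < C
  four_dvd_C : 4 ∣ C
  H_nonneg : ∀ i, 0 ≤ H i
  H_lt : ∀ i, H i < C
  H_mono : StrictMono H
  D_pm : ∀ i, D i = 1 ∨ D i = -1
  H_plus : ∀ i, D i = 1 → 4 ∣ H i
  H_minus : ∀ i, D i = -1 → 4 ∣ H i - 2
  T_pos : ∀ i, 1 ≤ T i
  T_inj : ∀ i j, i ≠ j → T i = T j → T i = ⊤

/-- robots alive just after time `t` -/
def Schedule.A {n : ℕ} (σ : Schedule n) (t : ℕ) : Finset (Fin n) :=
  univ.filter (fun i => (t : ℕ∞) < σ.T i)

/-- ghosts alive just after time `t` -/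
def Schedule.G {n : ℕ} (σ : Schedule n) (t : ℕ) : Finset (Fin n) :=
  univ.filter (fun g => (t : ℕ∞) < σ.T (σ.κ.symm g))

/-- The schedule is consistent with the dynamics. -/
structure Schedule.Good {n : ℕ} (σ : Schedule n) : Prop where
  /-- at the death of robot `i` its ghost is at the home base of `i` -/
  meet : ∀ i, ∀ t : ℕ, σ.T i = t → σ.H (σ.κ i) + σ.D (σ.κ i) * t = σ.H i + σ.w i * σ.C
  /-- at the death of robot `i` the robot is at its home base -/
  die : ∀ i, ∀ t : ℕ, σ.T i = ((t + 1 : ℕ) : ℕ∞) →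
    rk (σ.A t) i ≤ Ncount σ.C σ.H σ.D (σ.G t) (t+1) (σ.H i + σ.w i * σ.C) ∧
    Ncount σ.C σ.H σ.D (σ.G t) (t+1) (σ.H i + σ.w i * σ.C - 1) < rk (σ.A t) i
  /-- a living robot is not at its home base -/
  live : ∀ i, ∀ t : ℕ, 1 ≤ t → (t : ℕ∞) < σ.T i → ∃ l : ℤ,
    Ncount σ.C σ.H σ.D (σ.G t) t (σ.H i + l * σ.C) < rk (σ.A t) i ∧
    rk (σ.A t) i ≤ Ncount σ.C σ.H σ.D (σ.G t) t (σ.H i + (l + 1) * σ.C - 1)

end R128Rob
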