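import Mathlib
import Pool.Agent.R128.RobotsSched

/-!
# Bouncing robots (MP_6a9d64_co): the family of schedules, arithmetic part

Author: helper100 (subtask C2).
-/

namespace R128Rob
namespace Fam
open Finset

/-- position of the `+` home base `a` -/
def v (m a : ℕ) : ℤ := 4*((m:ℤ)+1)*3^(a+1)
/-- circumference -/
def Cc (m e : ℕ) : ℤ := 4 * v m (2*m+e)
/-- home bases -/
def h (m e i : ℕ) : ℤ :=
  if i < 2*m+1+e then v m i else Cc m e + 4*(i:ℤ) - 4*(3*(m:ℤ)+1+e) + 2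
def d (m e i : ℕ) : ℤ := if i < 2*m+1+e then 1 else -1
def kap (m e i : ℕ) : ℕ :=
  if i < m then i+e+1 else if i < 2*m then i+m+1+e else if i < 2*m+1+e then i-2*m else i-m
def kapi (m e g : ℕ) : ℕ :=
  if g < e+1 then g+2*m else if g < m+e+1 then g-(e+1) else if g < 2*m+1+e then g+m
  else g-(m+1+e)
/-- death times -/
def dT (m e i : ℕ) : ℤ :=
  if i < 2*m+1+e then Cc m e + v m i - v m (i-2*m) else h m e i - v m (i-m)

lemma v_pos (m a : ℕ) : 0 < v m a := by unfold v; positivity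

lemma v_ge (m a : ℕ) : 12*((m:ℤ)+1) ≤ v m a := by
  unfold v
  have h1 : (1:ℤ) ≤ 3^a := one_le_pow₀ (by norm_num)
  have h2 : (0:ℤ) ≤ (m:ℤ) := by positivity
  rw [pow_succ]
  nlinarith [mul_le_mul_of_nonneg_left h1 (by linarith : (0:ℤ) ≤ (m:ℤ)+1)]

lemma v_lt {m a b : ℕ} (hab : a < b) : 3 * v m a ≤ v m b := by
  obtain ⟨k, rfl⟩ := Nat.exists_eq_add_of_lt hab
  unfold v
  have h1 : (1:ℤ) ≤ 3^k := one_le_pow₀ (by norm_num)
  have h3 : (3:ℤ)^(a+k+1+1) = 3^(a+1) * 3^k * 3 := by ring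
  rw [h3]
  have h4 : (0:ℤ) ≤ 4*((m:ℤ)+1)*3^(a+1) := by positivity
  nlinarith [mul_le_mul_of_nonneg_left h1 h4]

lemma v_le {m a b : ℕ} (hab : a ≤ b) : v m a ≤ v m b := by
  rcases hab.lt_or_eq with h1 | h1
  · have := v_lt (m := m) h1
    have := v_pos m a
    linarith
  · rw [h1]

lemma v_le_C {m e a : ℕ} (ha : a < 2*m+1+e) : 4 * v m a ≤ Cc m e := by
  unfold Cc
  have : v m a ≤ v m (2*m+e) := v_le (by omega)
  linarith

lemma C_pos (m e : ℕ) : 0 < Cc m e := by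
  have := v_pos m (2*m+e)
  unfold Cc; linarith

lemma h_plus {m e i : ℕ} (hi : i < 2*m+1+e) : h m e i = v m i := by
  unfold h; rw [if_pos hi]
lemma h_minus {m e i : ℕ} (hi : 2*m+1+e ≤ i) :
    h m e i = Cc m e + 4*(i:ℤ) - 4*(3*(m:ℤ)+1+e) + 2 := by
  unfold h; rw [if_neg (by omega)]
lemma d_plus {m e i : ℕ} (hi : i < 2*m+1+e) : d m e i = 1 := by
  unfold d; rw [if_pos hi]
lemma d_minus {m e i : ℕ} (hi : 2*m+1+e ≤ i) : d m e i = -1 := by
  unfold d; rw [if_neg (by omega)]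

lemma kap_lt {m e i : ℕ} (hi : i < 3*m+1+e) : kap m e i < 3*m+1+e := by
  unfold kap; split_ifs <;> omega
lemma kapi_lt {m e i : ℕ} (hi : i < 3*m+1+e) : kapi m e i < 3*m+1+e := by
  unfold kapi; split_ifs <;> omega
lemma kapi_kap {m e i : ℕ} (hi : i < 3*m+1+e) : kapi m e (kap m e i) = i := by
  unfold kap kapi; split_ifs <;> omega
lemma kap_kapi {m e i : ℕ} (hi : i < 3*m+1+e) : kap m e (kapi m e i) = i := by
  unfold kap kapi; split_ifs <;> omega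

lemma kap1 {m e i : ℕ} (hi : i < m) : kap m e i = i+e+1 := by
  unfold kap; rw [if_pos hi]
lemma kap2 {m e i : ℕ} (hi : i < m) : kap m e (i+m) = i+m+m+1+e := by
  unfold kap; rw [if_neg (by omega), if_pos (by omega)]
lemma kap3 {m e i : ℕ} (h1 : 2*m ≤ i) (h2 : i < 2*m+1+e) : kap m e i = i-2*m := by
  unfold kap; rw [if_neg (by omega), if_neg (by omega), if_pos h2]
lemma kap4 {m e i : ℕ} (h1 : 2*m+1+e ≤ i) : kap m e i = i-m := by
  unfold kap; rw [if_neg (by omega), if_neg (by omega), if_neg (by omega)]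

/-- `C` minus the position of the `-` home base number `i` -/
def zz (m i : ℕ) : ℤ := 4*((m:ℤ)-i) - 2

lemma zz_pos {m i : ℕ} (hi : i < m) : 2 ≤ zz m i := by unfold zz; omega
lemma zz_le (m i : ℕ) : zz m i ≤ 4*(m:ℤ) - 2 := by unfold zz; omega

lemma hk1 {m e i : ℕ} (hi : i < m) : h m e (kap m e i) = v m (i+e+1) := by
  rw [kap1 hi, h_plus (by omega)]
lemma dk1 {m e i : ℕ} (hi : i < m) : d m e (kap m e i) = 1 := by
  rw [kap1 hi, d_plus (by omega)]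
lemma hk2 {m e i : ℕ} (hi : i < m) : h m e (kap m e (i+m)) = Cc m e - zz m i := by
  rw [kap2 hi, h_minus (by omega)]
  unfold zz
  push_cast; ring
lemma dk2 {m e i : ℕ} (hi : i < m) : d m e (kap m e (i+m)) = -1 := by
  rw [kap2 hi, d_minus (by omega)]
lemma hk3 {m e i : ℕ} (h1 : 2*m ≤ i) (h2 : i < 2*m+1+e) : h m e (kap m e i) = v m (i-2*m) := by
  rw [kap3 h1 h2, h_plus (by omega)]
lemma dk3 {m e i : ℕ} (h1 : 2*m ≤ i) (h2 : i < 2*m+1+e) : d m e (kap m e i) = 1 := by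
  rw [kap3 h1 h2, d_plus (by omega)]
lemma hk4 {m e i : ℕ} (h1 : 2*m+1+e ≤ i) (h2 : i < 3*m+1+e) :
    h m e (kap m e i) = v m (i-m) := by
  rw [kap4 h1, h_plus (by omega)]
lemma dk4 {m e i : ℕ} (h1 : 2*m+1+e ≤ i) (h2 : i < 3*m+1+e) : d m e (kap m e i) = 1 := by
  rw [kap4 h1, d_plus (by omega)]

lemma dT3 {m e i : ℕ} (h2 : i < 2*m+1+e) :
    dT m e i = Cc m e + v m i - v m (i-2*m) := by
  unfold dT; rw [if_pos h2]
lemma dT4 {m e i : ℕ} (h1 : 2*m+1+e ≤ i) :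
    dT m e i = h m e i - v m (i-m) := by
  unfold dT; rw [if_neg (by omega)]

lemma dT3_gt {m e i : ℕ} (hm : 1 ≤ m) (h1 : 2*m ≤ i) (h2 : i < 2*m+1+e) : Cc m e < dT m e i := by
  rw [dT3 h2]
  have := v_lt (m := m) (show i-2*m < i by omega)
  have := v_pos m (i-2*m)
  linarith

lemma h4_bd {m e i : ℕ} (h1 : 2*m+1+e ≤ i) (h2 : i < 3*m+1+e) :
    Cc m e - 4*(m:ℤ) + 2 ≤ h m e i ∧ h m e i ≤ Cc m e - 2 := by
  rw [h_minus h1]; constructor <;> omega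

lemma dT4_lt {m e i : ℕ} (h1 : 2*m+1+e ≤ i) (h2 : i < 3*m+1+e) : dT m e i < Cc m e := by
  rw [dT4 h1]
  have := (h4_bd h1 h2).2
  have := v_pos m (i-m)
  linarith

lemma dT4_gt {m e i : ℕ} (h1 : 2*m+1+e ≤ i) (h2 : i < 3*m+1+e) : 4*(m:ℤ) + 2 < dT m e i := by
  rw [dT4 h1]
  have h3 := (h4_bd h1 h2).1
  have h4 := v_le_C (m := m) (e := e) (show i-m < 2*m+1+e by omega)
  have h5 := v_ge m (i-m)
  linarith

lemma dT_pos {m e i : ℕ} (hm : 1 ≤ m) (h1 : 2*m ≤ i) (h2 : i < 3*m+1+e) : 0 < dT m e i := by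
  by_cases h3 : i < 2*m+1+e
  · exact (C_pos m e).trans (dT3_gt hm h1 h3)
  · have := dT4_gt (m := m) (e := e) (i := i) (by omega) h2
    linarith [(by positivity : (0:ℤ) ≤ m)]

/-! ### floor estimates -/

lemma dle0 {x C : ℤ} (hC : 0 < C) (hx : x < C) : x / C ≤ 0 := by
  have := (Int.ediv_lt_iff_lt_mul (a := x) (b := 1) hC).2 (by linarith)
  omega
lemma dlem1 {x C : ℤ} (hC : 0 < C) (hx : x < 0) : x / C ≤ -1 := by
  have := (Int.ediv_lt_iff_lt_mul (a := x) (b := 0) hC).2 (by linarith)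
  omega
lemma dlem2 {x C : ℤ} (hC : 0 < C) (hx : x < -C) : x / C ≤ -2 := by
  have := (Int.ediv_lt_iff_lt_mul (a := x) (b := -1) hC).2 (by linarith)
  omega
lemma dge0 {x C : ℤ} (hC : 0 < C) (hx : 0 ≤ x) : 0 ≤ x / C := Int.ediv_nonneg hx hC.le
lemma dgem1 {x C : ℤ} (hC : 0 < C) (hx : -C ≤ x) : -1 ≤ x / C :=
  (Int.le_ediv_iff_mul_le hC).2 (by linarith)
lemma dgem2 {x C : ℤ} (hC : 0 < C) (hx : -(2*C) ≤ x) : -2 ≤ x / C :=
  (Int.le_ediv_iff_mul_le hC).2 (by linarith)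

lemma pair_le {x y C k : ℤ} (hC : 0 < C) (hx : x + y < (k+1)*C) : x/C + y/C ≤ k := by
  have h1 := Int.ediv_mul_le x hC.ne'
  have h2 := Int.ediv_mul_le y hC.ne'
  have h3 : (x/C + y/C)*C < (k+1)*C := by nlinarith
  have h4 := lt_of_mul_lt_mul_right h3 hC.le
  omega

lemma pair_ge {x y C k : ℤ} (hC : 0 < C) (hx : (k+1)*C - 1 ≤ x + y) : k ≤ x/C + y/C := by
  have h1 := Int.lt_ediv_add_one_mul_self x hC
  have h2 := Int.lt_ediv_add_one_mul_self y hC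
  have h3 : (k+1)*C < (x/C + y/C + 2)*C := by nlinarith
  have h4 := lt_of_mul_lt_mul_right h3 hC.le
  omega

end Fam
end R128Rob
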