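import Mathlib
import Pool.Agent.R128.RobotsC2a

/-!
# Bouncing robots (MP_6a9d64_co): the family of schedules, sums

Author: helper100 (subtask C2).
-/

namespace R128Rob
namespace Fam
open Finset

/-- robot `i` is alive just after time `t` -/
def alv (m e t i : ℕ) : Prop := i < 2*m ∨ (t:ℤ) < dT m e i

instance (m e t i : ℕ) : Decidable (alv m e t i) := by unfold alv; infer_instance

lemma split_sum (m e t : ℕ) (F : ℕ → ℤ) :
    ∑ i ∈ range (3*m+1+e), (if alv m e t i then F i else 0) =
      ∑ i ∈ range m, (F i + F (i+m)) +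
      ∑ j ∈ range (1+e+m), (if (t:ℤ) < dT m e (2*m+j) then F (2*m+j) else 0) := by
  have h1 : 3*m+1+e = m+m+(1+e+m) := by ring
  rw [h1, Finset.sum_range_add, Finset.sum_range_add, Finset.sum_add_distrib]
  congr 1
  · congr 1
    · refine Finset.sum_congr rfl fun i hi => ?_
      rw [mem_range] at hi
      rw [if_pos (show alv m e t i from Or.inl (by omega))]
    · refine Finset.sum_congr rfl fun i hi => ?_
      rw [mem_range] at hi
      rw [if_pos (show alv m e t (m+i) from Or.inl (by omega)), add_comm]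
  · refine Finset.sum_congr rfl fun i hi => ?_
    have h2 : alv m e t (m+m+i) ↔ (t:ℤ) < dT m e (2*m+i) := by
      unfold alv
      rw [show m+m+i = 2*m+i by ring]
      constructor
      · rintro (h3 | h3)
        · omega
        · exact h3
      · exact Or.inr
    rw [show m+m+i = 2*m+i by ring] at h2 ⊢
    by_cases h3 : (t:ℤ) < dT m e (2*m+i)
    · rw [if_pos (h2.2 h3), if_pos h3]
    · rw [if_neg (fun h4 => h3 (h2.1 h4)), if_neg h3]

lemma sum_nonneg' {m e t : ℕ} {F : ℕ → ℤ} (h1 : ∀ i < m, 0 ≤ F i + F (i+m))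
    (h2 : ∀ i, 2*m ≤ i → i < 3*m+1+e → (t:ℤ) < dT m e i → 0 ≤ F i) :
    0 ≤ ∑ i ∈ range (3*m+1+e), (if alv m e t i then F i else 0) := by
  rw [split_sum]
  refine add_nonneg (Finset.sum_nonneg fun i hi => h1 i (mem_range.1 hi))
    (Finset.sum_nonneg fun i hi => ?_)
  split_ifs with h3
  · exact h2 _ (by omega) (by have := mem_range.1 hi; omega) h3
  · exact le_rfl

lemma sum_neg' {m e t : ℕ} {F : ℕ → ℤ} (h1 : ∀ i < m, F i + F (i+m) ≤ 0)
    (h2 : ∀ i, 2*m ≤ i → i < 3*m+1+e → (t:ℤ) < dT m e i → F i ≤ 0)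
    (h3 : (∃ i < m, F i + F (i+m) < 0) ∨
      ∃ i, 2*m ≤ i ∧ i < 3*m+1+e ∧ (t:ℤ) < dT m e i ∧ F i < 0) :
    ∑ i ∈ range (3*m+1+e), (if alv m e t i then F i else 0) < 0 := by
  rw [split_sum]
  have h4 : ∑ j ∈ range (1+e+m), (if (t:ℤ) < dT m e (2*m+j) then F (2*m+j) else 0) ≤ 0 := by
    refine Finset.sum_nonpos fun i hi => ?_
    split_ifs with h5
    · exact h2 _ (by omega) (by have := mem_range.1 hi; omega) h5
    · exact le_rfl
  have h5 : ∑ i ∈ range m, (F i + F (i+m)) ≤ 0 :=
    Finset.sum_nonpos fun i hi => h1 i (mem_range.1 hi)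
  rcases h3 with ⟨i, hi, hF⟩ | ⟨i, hi1, hi2, hi3, hF⟩
  · have : ∑ i ∈ range m, (F i + F (i+m)) < 0 := by
      refine Finset.sum_neg' (fun i hi => h1 i (mem_range.1 hi)) ⟨i, mem_range.2 hi, hF⟩
    linarith
  · have : ∑ j ∈ range (1+e+m), (if (t:ℤ) < dT m e (2*m+j) then F (2*m+j) else 0) < 0 := by
      refine Finset.sum_neg' (fun j hj => ?_) ⟨i-2*m, mem_range.2 (by omega), ?_⟩
      · split_ifs with h6
        · exact h2 _ (by omega) (by have := mem_range.1 hj; omega) h6
        · exact le_rfl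
      · rw [show 2*m+(i-2*m) = i by omega, if_pos hi3]
        exact hF
    linarith

/-- sum in ghost form -/
lemma split_ghost (m e : ℕ) (F : ℕ → ℤ) :
    ∑ i ∈ range (3*m+1+e), F i =
      ∑ i ∈ range (m+e+1), F i + ∑ r ∈ range m, (F (m+e+1+r) + F (m+e+1+m+r)) := by
  have h1 : 3*m+1+e = m+e+1+m+m := by ring
  rw [h1, Finset.sum_range_add, Finset.sum_range_add, Finset.sum_add_distrib, add_assoc]

/-! ### the schedule -/

def sched (m e : ℕ) (hm : 1 ≤ m) : Schedule (3*m+1+e) where
  C := Cc m e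
  H i := h m e i
  D i := d m e i
  T i := if (i:ℕ) < 2*m then ⊤ else ((dT m e i).toNat : ℕ∞)
  κ := ⟨fun i => ⟨kap m e i, kap_lt i.2⟩, fun i => ⟨kapi m e i, kapi_lt i.2⟩,
    fun i => Fin.ext (kapi_kap i.2), fun i => Fin.ext (kap_kapi i.2)⟩
  w i := if 2*m ≤ (i:ℕ) ∧ (i:ℕ) < 2*m+1+e then 1 else 0
  C_pos := C_pos m e
  four_dvd_C := ⟨_, rfl⟩
  H_nonneg i := by
    by_cases h1 : (i:ℕ) < 2*m+1+e
    · rw [h_plus h1]; exact (v_pos _ _).le
    · have h2 := (h4_bd (m := m) (e := e) (i := i) (by omega) i.2).1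
      have h3 := v_ge m (2*m+e)
      have h4 := v_le_C (m := m) (e := e) (a := 2*m+e) (by omega)
      linarith [(by positivity : (0:ℤ) ≤ m)]
  H_lt i := by
    by_cases h1 : (i:ℕ) < 2*m+1+e
    · rw [h_plus h1]
      have := v_le_C (m := m) (e := e) h1
      have := v_pos m i
      linarith
    · have h2 := (h4_bd (m := m) (e := e) (i := i) (by omega) i.2).2
      linarith
  H_mono i j hij := by
    have hij' : (i:ℕ) < (j:ℕ) := hij
    show h m e i < h m e j
    by_cases h2 : (j:ℕ) < 2*m+1+e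
    · rw [h_plus h2, h_plus (hij'.trans h2)]
      have := v_lt (m := m) hij'
      have := v_pos m i
      linarith
    · by_cases h1 : (i:ℕ) < 2*m+1+e
      · rw [h_plus h1]
        have h3 := (h4_bd (m := m) (e := e) (i := j) (by omega) j.2).1
        have h4 := v_le_C (m := m) (e := e) h1
        have h5 := v_ge m i
        linarith [(by positivity : (0:ℤ) ≤ m)]
      · rw [h_minus (by omega), h_minus (by omega)]
        have : ((i:ℕ):ℤ) < ((j:ℕ):ℤ) := by exact_mod_cast hij'
        linarith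
  D_pm i := by
    by_cases h1 : (i:ℕ) < 2*m+1+e
    · left; exact d_plus h1
    · right; exact d_minus (by omega)
  H_plus i hi := by
    have h1 : (i:ℕ) < 2*m+1+e := by
      by_contra h1
      rw [d_minus (by omega)] at hi
      omega
    rw [h_plus h1]
    exact ⟨((m:ℤ)+1)*3^((i:ℕ)+1), by unfold v; ring⟩
  H_minus i hi := by
    have h1 : 2*m+1+e ≤ (i:ℕ) := by
      by_contra h1
      rw [d_plus (by omega)] at hi
      omega
    rw [h_minus h1]
    exact ⟨v m (2*m+e) + (i:ℤ) - (3*(m:ℤ)+1+e), by unfold Cc; ring⟩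
  T_pos i := by
    split_ifs with h1
    · exact le_top
    · have h2 := dT_pos (m := m) (e := e) (i := i) hm (by omega) i.2
      have h3 : 1 ≤ (dT m e i).toNat := by omega
      exact_mod_cast h3
  T_inj i j hij hT := by
    by_cases h1 : (i:ℕ) < 2*m
    · rw [if_pos h1]
    · exfalso
      rw [if_neg h1] at hT
      have h2 : ¬ (j:ℕ) < 2*m := by
        intro h2
        rw [if_pos h2] at hT
        exact ENat.natCast_ne_top _ hT
      rw [if_neg h2] at hT
      have h3 : (dT m e i).toNat = (dT m e j).toNat := by exact_mod_cast hT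
      have h4 := dT_pos (m := m) (e := e) (i := i) hm (by omega) i.2
      have h5 := dT_pos (m := m) (e := e) (i := j) hm (by omega) j.2
      have h6 : dT m e i = dT m e j := by omega
      have key : ∀ a b : ℕ, 2*m ≤ a → a < b → b < 3*m+1+e → dT m e a ≠ dT m e b := by
        intro a b ha hab hb heq
        by_cases hb2 : b < 2*m+1+e
        · rw [dT3 hb2, dT3 (by omega)] at heq
          have e1 := v_lt (m := m) hab
          have e2 := v_lt (m := m) (show b-2*m < b by omega)
          have e3 := v_pos m b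
          have e4 := v_pos m (a-2*m)
          linarith
        · by_cases ha2 : a < 2*m+1+e
          · have e1 := dT3_gt (e := e) hm ha ha2
            have e2 := dT4_lt (m := m) (e := e) (i := b) (by omega) hb
            linarith
          · rw [dT4 (by omega), dT4 (by omega)] at heq
            have e1 := v_lt (m := m) (show a-m < b-m by omega)
            have e2 := v_ge m (a-m)
            have e3 := (h4_bd (m := m) (e := e) (i := a) (by omega) (by omega)).1
            have e4 := (h4_bd (m := m) (e := e) (i := b) (by omega) hb).2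
            linarith
      rcases lt_or_gt_of_ne (fun h7 => hij (Fin.ext h7) : (i:ℕ) ≠ j) with h7 | h7
      · exact key i j (by omega) h7 j.2 h6
      · exact key j i (by omega) h7 i.2 h6.symm

lemma alv_iff {m e : ℕ} (hm : 1 ≤ m) (t : ℕ) (i : Fin (3*m+1+e)) :
    (t:ℕ∞) < (sched m e hm).T i ↔ alv m e t i := by
  show (t:ℕ∞) < (if (i:ℕ) < 2*m then ⊤ else ((dT m e i).toNat : ℕ∞)) ↔ _
  unfold alv
  split_ifs with h1
  · simp [h1]
  · rw [Nat.cast_lt]
    constructor
    · intro h2; right; omega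
    · rintro (h2 | h2)
      · exact absurd h2 h1
      · omega

lemma T_eq_iff {m e : ℕ} (hm : 1 ≤ m) (t : ℕ) (i : Fin (3*m+1+e))
    (h : (sched m e hm).T i = t) : 2*m ≤ (i:ℕ) ∧ (t:ℤ) = dT m e i := by
  change (if (i:ℕ) < 2*m then ⊤ else ((dT m e i).toNat : ℕ∞)) = _ at h
  split_ifs at h with h1
  · exact absurd h.symm (ENat.natCast_ne_top _)
  · have h2 : (dT m e i).toNat = t := by exact_mod_cast h
    have h5 := dT_pos (m := m) (e := e) (i := i) hm (by omega) i.2
    exact ⟨by omega, by omega⟩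

/-- the difference of the two counting functions, ghost form -/
lemma diff_ghost {m e : ℕ} (hm : 1 ≤ m) (t : ℕ) (t' : ℕ) (y : ℤ) (i0 : Fin (3*m+1+e)) :
    Ncount (sched m e hm).C (sched m e hm).H (sched m e hm).D ((sched m e hm).G t) t' y
      - rk ((sched m e hm).A t) i0
    = ∑ g ∈ range (3*m+1+e), (if alv m e t (kapi m e g) then (y - h m e g - d m e g * t') / Cc m e
        else 0)
      + ∑ i ∈ range (3*m+1+e), (if alv m e t i then (if (i0:ℕ) < i then 1 else 0) else 0) := by
  unfold Ncount rk Schedule.G Schedule.A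
  rw [sub_neg_eq_add]
  congr 1
  · rw [Finset.sum_filter, ← Fin.sum_univ_eq_sum_range (fun g => if alv m e t (kapi m e g) then
      (y - h m e g - d m e g * t') / Cc m e else 0)]
    refine Finset.sum_congr rfl fun g _ => ?_
    have h1 : (t:ℕ∞) < (sched m e hm).T ((sched m e hm).κ.symm g) ↔ alv m e t (kapi m e g) :=
      alv_iff hm t ((sched m e hm).κ.symm g)
    by_cases h2 : alv m e t (kapi m e g)
    · rw [if_pos (h1.2 h2), if_pos h2]; rfl
    · rw [if_neg (fun h3 => h2 (h1.1 h3)), if_neg h2]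
  · rw [Finset.filter_filter, Finset.card_filter, Nat.cast_sum,
      ← Fin.sum_univ_eq_sum_range (fun i => if alv m e t i then (if (i0:ℕ) < i then (1:ℤ) else 0)
        else 0)]
    refine Finset.sum_congr rfl fun i _ => ?_
    have h1 := alv_iff (e := e) hm t i
    by_cases h2 : alv m e t i
    · rw [if_pos h2]
      by_cases h3 : i0 < i
      · rw [if_pos ⟨h1.2 h2, h3⟩, if_pos (show (i0:ℕ) < i from h3)]; rfl
      · rw [if_neg (fun h4 => h3 h4.2), if_neg (show ¬ (i0:ℕ) < i from h3)]; rfl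
    · rw [if_neg h2, if_neg (fun h4 => h2 (h1.1 h4.1))]; rfl

lemma sum_kap {m e : ℕ} (P : ℕ → Prop) [DecidablePred P] (F : ℕ → ℤ) :
    ∑ g ∈ range (3*m+1+e), (if P (kapi m e g) then F g else 0) =
      ∑ i ∈ range (3*m+1+e), (if P i then F (kap m e i) else 0) := by
  refine Finset.sum_bij' (fun g _ => kapi m e g) (fun i _ => kap m e i) ?_ ?_ ?_ ?_ ?_
  · intro g hg; exact mem_range.2 (kapi_lt (mem_range.1 hg))
  · intro g hg; exact mem_range.2 (kap_lt (mem_range.1 hg))
  · intro g hg; exact kap_kapi (mem_range.1 hg)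
  · intro g hg; exact kapi_kap (mem_range.1 hg)
  · intro g hg
    rw [kap_kapi (mem_range.1 hg)]

/-- the difference of the two counting functions, robot form -/
lemma diff_robot {m e : ℕ} (hm : 1 ≤ m) (t : ℕ) (t' : ℕ) (y : ℤ) (i0 : Fin (3*m+1+e)) :
    Ncount (sched m e hm).C (sched m e hm).H (sched m e hm).D ((sched m e hm).G t) t' y
      - rk ((sched m e hm).A t) i0
    = ∑ i ∈ range (3*m+1+e), (if alv m e t i then
        ((y - h m e (kap m e i) - d m e (kap m e i) * t') / Cc m e + (if (i0:ℕ) < i then 1 else 0))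
        else 0) := by
  rw [diff_ghost, sum_kap (alv m e t) (fun g => (y - h m e g - d m e g * t') / Cc m e),
    ← Finset.sum_add_distrib]
  refine Finset.sum_congr rfl fun i _ => ?_
  by_cases h2 : alv m e t i
  · rw [if_pos h2, if_pos h2, if_pos h2]
  · rw [if_neg h2, if_neg h2, if_neg h2]; rfl

end Fam
end R128Rob
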