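import Mathlib
import Pool.Agent.R128.RobotsC2b

/-!
# Bouncing robots (MP_6a9d64_co): the family of schedules is good

Author: helper100 (subtask C2).
-/

namespace R128Rob
namespace Fam
open Finset

section
variable {m e t a : ℕ}

/-- lower bound for `+` robots after time `C` -/
lemma Plow1 (hm : e+1 ≤ m) (ha : a < 2*m+1+e) (ht : Cc m e ≤ t) :
    ∑ i ∈ range (3*m+1+e), (if alv m e t i then
      ((v m a - h m e (kap m e i) - d m e (kap m e i) * t) / Cc m e + (if a < i then 1 else 0))
        else 0) < 0 := by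
  have hC := C_pos m e
  have hva := v_le_C (m := m) (e := e) ha
  have hva0 := v_pos m a
  have hva1 := v_ge m a
  have hm0 : (0:ℤ) ≤ m := by positivity
  have pair : ∀ i < m, ∀ x y : ℤ, x = v m a - v m (i+e+1) - 1 * t →
      y = v m a - (Cc m e - zz m i) - -1 * t →
      x / Cc m e + y / Cc m e ≤ -1 ∧ (a < i+e+1 → x / Cc m e + y / Cc m e ≤ -2) := by
    intro i hi x y hx hy
    have hz1 := zz_le m i
    have hvb := v_pos m (i+e+1)
    refine ⟨pair_le hC ?_, fun hab => pair_le hC ?_⟩
    · linarith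
    · have := v_lt (m := m) hab
      linarith
  refine sum_neg' ?_ ?_ ?_
  · intro i hi
    rw [hk1 hi, dk1 hi, hk2 hi, dk2 hi]
    obtain ⟨p1, p2⟩ := pair i hi _ _ rfl rfl
    by_cases h1 : a < i+e+1
    · have := p2 h1
      split_ifs <;> omega
    · split_ifs <;> omega
  · intro i h1 h2 h3
    by_cases h4 : i < 2*m+1+e
    · rw [hk3 h1 h4, dk3 h1 h4]
      have hvb := v_pos m (i-2*m)
      have := dlem1 (x := v m a - v m (i-2*m) - 1 * t) hC (by linarith)
      split_ifs <;> omega
    · exfalso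
      have := dT4_lt (m := m) (e := e) (i := i) (by omega) h2
      linarith
  · left
    by_cases h1 : a < m
    · refine ⟨a, h1, ?_⟩
      rw [hk1 h1, dk1 h1, hk2 h1, dk2 h1]
      obtain ⟨p1, p2⟩ := pair a h1 _ _ rfl rfl
      have := p2 (by omega)
      split_ifs <;> omega
    · by_cases h2 : a < 2*m
      · have hi : a - m < m := by omega
        refine ⟨a-m, hi, ?_⟩
        rw [hk1 hi, dk1 hi, hk2 hi, dk2 hi]
        obtain ⟨p1, p2⟩ := pair (a-m) hi _ _ rfl rfl
        split_ifs <;> omega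
      · have hi : 0 < m := by omega
        refine ⟨0, hi, ?_⟩
        rw [hk1 hi, dk1 hi, hk2 hi, dk2 hi]
        obtain ⟨p1, p2⟩ := pair 0 hi _ _ rfl rfl
        split_ifs <;> omega

/-- upper bound for `+` robots -/
lemma Pup (hm : e+1 ≤ m) (ha : a < 2*m+1+e) (hal : alv m e t a) :
    0 ≤ ∑ i ∈ range (3*m+1+e), (if alv m e t i then
      ((v m a + Cc m e - 1 - h m e (kap m e i) - d m e (kap m e i) * t) / Cc m e
        + (if a < i then 1 else 0)) else 0) := by
  have hC := C_pos m e
  have hva := v_le_C (m := m) (e := e) ha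
  have hva0 := v_pos m a
  have hva1 := v_ge m a
  have hm0 : (0:ℤ) ≤ m := by positivity
  refine sum_nonneg' ?_ ?_
  · intro i hi
    rw [hk1 hi, dk1 hi, hk2 hi, dk2 hi]
    have hz1 := zz_pos hi
    have hvb := v_pos m (i+e+1)
    have hvb1 := v_le_C (m := m) (e := e) (show i+e+1 < 2*m+1+e by omega)
    by_cases h1 : a < i+e+1
    · have := pair_ge (k := -1) (x := v m a + Cc m e - 1 - v m (i+e+1) - 1 * t)
        (y := v m a + Cc m e - 1 - (Cc m e - zz m i) - -1 * t) hC (by linarith)
      split_ifs <;> omega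
    · have h2 := v_le (m := m) (show i+e+1 ≤ a by omega)
      have := pair_ge (k := 0) (x := v m a + Cc m e - 1 - v m (i+e+1) - 1 * t)
        (y := v m a + Cc m e - 1 - (Cc m e - zz m i) - -1 * t) hC (by linarith)
      split_ifs <;> omega
  · intro i h1 h2 h3
    by_cases h4 : i < 2*m+1+e
    · rw [hk3 h1 h4, dk3 h1 h4]
      rw [dT3 h4] at h3
      have hvb := v_pos m (i-2*m)
      have hvi := v_le_C (m := m) (e := e) h4
      by_cases h5 : a < i
      · have := dgem1 (x := v m a + Cc m e - 1 - v m (i-2*m) - 1 * t) hC (by linarith)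
        split_ifs; omega
      · have h6 : (t:ℤ) < dT m e a := by
          rcases hal with h6 | h6
          · omega
          · exact h6
        rw [dT3 ha] at h6
        have h7 := v_le (m := m) (show i-2*m ≤ a-2*m by omega)
        have := dge0 (x := v m a + Cc m e - 1 - v m (i-2*m) - 1 * t) hC (by linarith)
        split_ifs; omega
    · have h5 : 2*m+1+e ≤ i := by omega
      rw [hk4 h5 h2, dk4 h5 h2]
      have h6 := dT4_lt h5 h2
      have h7 := v_le_C (m := m) (e := e) (show i-m < 2*m+1+e by omega)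
      have := dgem1 (x := v m a + Cc m e - 1 - v m (i-m) - 1 * t) hC (by linarith)
      split_ifs <;> omega

/-- lower bound for `-` robots -/
lemma Zlow (hm : 1 ≤ m) {i0 : ℕ} (h0 : 2*m+1+e ≤ i0) (h0' : i0 < 3*m+1+e)
    (hal : (t:ℤ) < dT m e i0) :
    ∑ i ∈ range (3*m+1+e), (if alv m e t i then
      ((h m e i0 - Cc m e - h m e (kap m e i) - d m e (kap m e i) * t) / Cc m e
        + (if i0 < i then 1 else 0)) else 0) < 0 := by
  have hC := C_pos m e
  obtain ⟨hz1, hz2⟩ := h4_bd h0 h0'
  rw [dT4 h0] at hal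
  have hv0 := v_ge m (i0-m)
  have hm0 : (0:ℤ) ≤ m := by positivity
  have ht0 : (0:ℤ) ≤ t := by positivity
  have pair : ∀ i < m, (h m e i0 - Cc m e - v m (i+e+1) - 1 * t) / Cc m e ≤ -1 ∧
      (h m e i0 - Cc m e - (Cc m e - zz m i) - -1 * t) / Cc m e ≤ -1 := by
    intro i hi
    have hvb := v_pos m (i+e+1)
    have hz3 := zz_le m i
    exact ⟨dlem1 hC (by linarith), dlem1 hC (by linarith)⟩
  refine sum_neg' ?_ ?_ ?_
  · intro i hi
    rw [hk1 hi, dk1 hi, hk2 hi, dk2 hi]
    obtain ⟨p1, p2⟩ := pair i hi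
    split_ifs <;> omega
  · intro i h1 h2 h3
    by_cases h4 : i < 2*m+1+e
    · rw [hk3 h1 h4, dk3 h1 h4]
      have hvb := v_pos m (i-2*m)
      have := dlem1 (x := h m e i0 - Cc m e - v m (i-2*m) - 1 * t) hC (by linarith)
      split_ifs <;> omega
    · rw [hk4 (by omega) h2, dk4 (by omega) h2]
      have hvb := v_pos m (i-m)
      have := dlem1 (x := h m e i0 - Cc m e - v m (i-m) - 1 * t) hC (by linarith)
      split_ifs <;> omega
  · left
    refine ⟨0, hm, ?_⟩
    rw [hk1 hm, dk1 hm, hk2 hm, dk2 hm]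
    obtain ⟨p1, p2⟩ := pair 0 hm
    split_ifs <;> omega

/-- upper bound for `-` robots, late times -/
lemma Zup1 (hm : 1 ≤ m) {i0 : ℕ} (h0 : 2*m+1+e ≤ i0) (h0' : i0 < 3*m+1+e)
    (hal : (t:ℤ) < dT m e i0) (ht : 4*(m:ℤ) ≤ t) :
    0 ≤ ∑ i ∈ range (3*m+1+e), (if alv m e t i then
      ((h m e i0 - 1 - h m e (kap m e i) - d m e (kap m e i) * t) / Cc m e
        + (if i0 < i then 1 else 0)) else 0) := by
  have hC := C_pos m e
  obtain ⟨hz1, hz2⟩ := h4_bd h0 h0'
  rw [dT4 h0] at hal
  have hv0 := v_ge m (i0-m)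
  have hm0 : (0:ℤ) ≤ m := by positivity
  refine sum_nonneg' ?_ ?_
  · intro i hi
    rw [hk1 hi, dk1 hi, hk2 hi, dk2 hi]
    have hvb := v_le (m := m) (show i+e+1 ≤ i0-m by omega)
    have hz3 := zz_pos hi
    have p1 := dge0 (x := h m e i0 - 1 - v m (i+e+1) - 1 * t) hC (by linarith)
    have p2 := dge0 (x := h m e i0 - 1 - (Cc m e - zz m i) - -1 * t) hC (by linarith)
    split_ifs <;> omega
  · intro i h1 h2 h3
    by_cases h4 : i < 2*m+1+e
    · rw [hk3 h1 h4, dk3 h1 h4]
      have hvb := v_le (m := m) (show i-2*m ≤ i0-m by omega)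
      have p1 := dge0 (x := h m e i0 - 1 - v m (i-2*m) - 1 * t) hC (by linarith)
      split_ifs <;> omega
    · rw [hk4 (by omega) h2, dk4 (by omega) h2]
      by_cases h5 : i0 < i
      · have hvb := v_le_C (m := m) (e := e) (show i-m < 2*m+1+e by omega)
        have p1 := dgem1 (x := h m e i0 - 1 - v m (i-m) - 1 * t) hC (by linarith)
        split_ifs; omega
      · have hvb := v_le (m := m) (show i-m ≤ i0-m by omega)
        have p1 := dge0 (x := h m e i0 - 1 - v m (i-m) - 1 * t) hC (by linarith)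
        split_ifs; omega

/-- death of a `-` robot, upper -/
lemma Zdie1 (hm : 1 ≤ m) {i0 : ℕ} (h0 : 2*m+1+e ≤ i0) (h0' : i0 < 3*m+1+e) {t' : ℕ}
    (hal : (t':ℤ) = dT m e i0) :
    0 ≤ ∑ i ∈ range (3*m+1+e), (if alv m e t i then
      ((h m e i0 - h m e (kap m e i) - d m e (kap m e i) * t') / Cc m e
        + (if i0 < i then 1 else 0)) else 0) := by
  have hC := C_pos m e
  obtain ⟨hz1, hz2⟩ := h4_bd h0 h0'
  have ht := dT4_gt h0 h0'
  rw [dT4 h0] at hal ht
  have hv0 := v_ge m (i0-m)
  have hm0 : (0:ℤ) ≤ m := by positivity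
  refine sum_nonneg' ?_ ?_
  · intro i hi
    rw [hk1 hi, dk1 hi, hk2 hi, dk2 hi]
    have hvb := v_le (m := m) (show i+e+1 ≤ i0-m by omega)
    have hz3 := zz_pos hi
    have p1 := dge0 (x := h m e i0 - v m (i+e+1) - 1 * t') hC (by linarith)
    have p2 := dge0 (x := h m e i0 - (Cc m e - zz m i) - -1 * t') hC (by linarith)
    split_ifs <;> omega
  · intro i h1 h2 h3
    by_cases h4 : i < 2*m+1+e
    · rw [hk3 h1 h4, dk3 h1 h4]
      have hvb := v_le (m := m) (show i-2*m ≤ i0-m by omega)
      have p1 := dge0 (x := h m e i0 - v m (i-2*m) - 1 * t') hC (by linarith)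
      split_ifs <;> omega
    · rw [hk4 (by omega) h2, dk4 (by omega) h2]
      by_cases h5 : i0 < i
      · have hvb := v_le_C (m := m) (e := e) (show i-m < 2*m+1+e by omega)
        have p1 := dgem1 (x := h m e i0 - v m (i-m) - 1 * t') hC (by linarith)
        split_ifs; omega
      · have hvb := v_le (m := m) (show i-m ≤ i0-m by omega)
        have p1 := dge0 (x := h m e i0 - v m (i-m) - 1 * t') hC (by linarith)
        split_ifs; omega

/-- death of a `-` robot, lower -/
lemma Zdie2 (hm : 1 ≤ m) {i0 : ℕ} (h0 : 2*m+1+e ≤ i0) (h0' : i0 < 3*m+1+e) {t' : ℕ}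
    (hal : (t':ℤ) = dT m e i0) (ht : (t:ℤ) < t') :
    ∑ i ∈ range (3*m+1+e), (if alv m e t i then
      ((h m e i0 - 1 - h m e (kap m e i) - d m e (kap m e i) * t') / Cc m e
        + (if i0 < i then 1 else 0)) else 0) < 0 := by
  have hC := C_pos m e
  obtain ⟨hz1, hz2⟩ := h4_bd h0 h0'
  have hal' := hal
  rw [dT4 h0] at hal
  have hv0 := v_ge m (i0-m)
  have hvC := v_le_C (m := m) (e := e) (show i0-m < 2*m+1+e by omega)
  have hm0 : (0:ℤ) ≤ m := by positivity
  refine sum_neg' ?_ ?_ ?_
  · intro i hi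
    rw [hk1 hi, dk1 hi, hk2 hi, dk2 hi]
    have hvb := v_pos m (i+e+1)
    have hz3 := zz_le m i
    have p1 := dle0 (x := h m e i0 - 1 - v m (i+e+1) - 1 * t') hC (by linarith)
    have p2 := dle0 (x := h m e i0 - 1 - (Cc m e - zz m i) - -1 * t') hC (by linarith)
    split_ifs <;> omega
  · intro i h1 h2 h3
    by_cases h4 : i < 2*m+1+e
    · rw [hk3 h1 h4, dk3 h1 h4]
      have hvb := v_pos m (i-2*m)
      have p1 := dle0 (x := h m e i0 - 1 - v m (i-2*m) - 1 * t') hC (by linarith)
      split_ifs <;> omega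
    · rw [hk4 (by omega) h2, dk4 (by omega) h2]
      by_cases h5 : i0 < i
      · have hvb := v_le (m := m) (show i0-m ≤ i-m by omega)
        have p1 := dlem1 (x := h m e i0 - 1 - v m (i-m) - 1 * t') hC (by linarith)
        split_ifs; omega
      · have hvb := v_pos m (i-m)
        have p1 := dle0 (x := h m e i0 - 1 - v m (i-m) - 1 * t') hC (by linarith)
        split_ifs; omega
  · right
    refine ⟨i0, by omega, h0', by rw [← hal']; exact ht, ?_⟩
    rw [hk4 h0 h0', dk4 h0 h0']
    have p1 := dlem1 (x := h m e i0 - 1 - v m (i0-m) - 1 * t') hC (by linarith)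
    split_ifs <;> omega

/-- death of a `+` robot, upper -/
lemma Pdie1 (hm : e+1 ≤ m) (ha1 : 2*m ≤ a) (ha : a < 2*m+1+e) {t' : ℕ}
    (hal : (t':ℤ) = dT m e a) :
    0 ≤ ∑ i ∈ range (3*m+1+e), (if alv m e t i then
      ((v m a + Cc m e - h m e (kap m e i) - d m e (kap m e i) * t') / Cc m e
        + (if a < i then 1 else 0)) else 0) := by
  have hC := C_pos m e
  have hva := v_le_C (m := m) (e := e) ha
  have hva0 := v_pos m a
  have hva1 := v_ge m a
  have hm0 : (0:ℤ) ≤ m := by positivity
  rw [dT3 ha] at hal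
  have hv2 := v_pos m (a-2*m)
  have hv3 := v_le (m := m) (show a-2*m ≤ a by omega)
  refine sum_nonneg' ?_ ?_
  · intro i hi
    rw [hk1 hi, dk1 hi, hk2 hi, dk2 hi]
    have hz1 := zz_pos hi
    have hvb1 := v_le_C (m := m) (e := e) (show i+e+1 < 2*m+1+e by omega)
    have p1 := dgem1 (x := v m a + Cc m e - v m (i+e+1) - 1 * t') hC (by linarith)
    have p2 : 1 ≤ (v m a + Cc m e - (Cc m e - zz m i) - -1 * t') / Cc m e :=
      (Int.le_ediv_iff_mul_le hC).2 (by linarith)
    split_ifs <;> omega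
  · intro i h1 h2 h3
    by_cases h4 : i < 2*m+1+e
    · rw [hk3 h1 h4, dk3 h1 h4]
      have hvi := v_le_C (m := m) (e := e) (show i-2*m < 2*m+1+e by omega)
      by_cases h5 : a < i
      · have := dgem1 (x := v m a + Cc m e - v m (i-2*m) - 1 * t') hC (by linarith)
        split_ifs; omega
      · have h7 := v_le (m := m) (show i-2*m ≤ a-2*m by omega)
        have := dge0 (x := v m a + Cc m e - v m (i-2*m) - 1 * t') hC (by linarith)
        split_ifs; omega
    · have h5 : 2*m+1+e ≤ i := by omega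
      rw [hk4 h5 h2, dk4 h5 h2]
      have h7 := v_le_C (m := m) (e := e) (show i-m < 2*m+1+e by omega)
      have := dgem1 (x := v m a + Cc m e - v m (i-m) - 1 * t') hC (by linarith)
      split_ifs <;> omega

/-- death of a `+` robot, lower -/
lemma Pdie2 (hm : e+1 ≤ m) (ha1 : 2*m ≤ a) (ha : a < 2*m+1+e) {t' : ℕ}
    (hal : (t':ℤ) = dT m e a) (ht : (t:ℤ) + 1 = t') :
    ∑ i ∈ range (3*m+1+e), (if alv m e t i then
      ((v m a + Cc m e - 1 - h m e (kap m e i) - d m e (kap m e i) * t') / Cc m e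
        + (if a < i then 1 else 0)) else 0) < 0 := by
  have hC := C_pos m e
  have hva := v_le_C (m := m) (e := e) ha
  have hva0 := v_pos m a
  have hva1 := v_ge m a
  have hm0 : (0:ℤ) ≤ m := by positivity
  have hal' := hal
  have hC2 := dT3_gt (e := e) (show 1 ≤ m by omega) ha1 ha
  rw [dT3 ha] at hal
  have hv2 := v_pos m (a-2*m)
  have hv4 := v_le_C (m := m) (e := e) (show a-2*m < 2*m+1+e by omega)
  refine sum_neg' ?_ ?_ ?_
  · intro i hi
    rw [hk1 hi, dk1 hi, hk2 hi, dk2 hi]
    have hz1 := zz_le m i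
    have hvb := v_le (m := m) (show a-2*m ≤ i+e+1 by omega)
    have p1 := dlem1 (x := v m a + Cc m e - 1 - v m (i+e+1) - 1 * t') hC (by linarith)
    have p2 : (v m a + Cc m e - 1 - (Cc m e - zz m i) - -1 * t') / Cc m e ≤ 1 := by
      have := (Int.ediv_lt_iff_lt_mul
        (a := v m a + Cc m e - 1 - (Cc m e - zz m i) - -1 * t') (b := 2) hC).2 (by linarith)
      omega
    split_ifs <;> omega
  · intro i h1 h2 h3
    by_cases h4 : i < 2*m+1+e
    · rw [hk3 h1 h4, dk3 h1 h4]
      have hvi := v_pos m (i-2*m)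
      by_cases h5 : a < i
      · have h6 := v_le (m := m) (show a-2*m ≤ i-2*m by omega)
        have := dlem1 (x := v m a + Cc m e - 1 - v m (i-2*m) - 1 * t') hC (by linarith)
        split_ifs; omega
      · have := dle0 (x := v m a + Cc m e - 1 - v m (i-2*m) - 1 * t') hC (by linarith)
        split_ifs; omega
    · exfalso
      have := dT4_lt (m := m) (e := e) (i := i) (by omega) h2
      omega
  · right
    refine ⟨a, ha1, by omega, by omega, ?_⟩
    rw [hk3 ha1 ha, dk3 ha1 ha]
    have p1 := dlem1 (x := v m a + Cc m e - 1 - v m (a-2*m) - 1 * t') hC (by linarith)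
    split_ifs <;> omega

/-- lower bound for `+` robots before time `C` -/
lemma Plow0 (hm : e+1 ≤ m) (ha : a < 2*m+1+e) (ht : (t:ℤ) < Cc m e) (ht1 : 1 ≤ t) :
    ∑ g ∈ range (3*m+1+e), (if alv m e t (kapi m e g) then (v m a - h m e g - d m e g * t) / Cc m e
        else 0)
      + ∑ i ∈ range (3*m+1+e), (if alv m e t i then (if a < i then 1 else 0) else 0) < 0 := by
  have hC := C_pos m e
  have hva := v_le_C (m := m) (e := e) ha
  have hva0 := v_pos m a
  have hva1 := v_ge m a
  have hm0 : (0:ℤ) ≤ m := by positivity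
  have ht1' : (1:ℤ) ≤ t := by exact_mod_cast ht1
  rw [← Finset.sum_add_distrib, split_ghost]
  -- first block
  have hF1 : ∀ g ∈ range (m+e+1), (if alv m e t (kapi m e g) then
      (v m a - h m e g - d m e g * t) / Cc m e else 0) +
      (if alv m e t g then (if a < g then 1 else 0) else 0) ≤
      (v m a - v m g - 1 * t) / Cc m e + (if a < g then 1 else 0) := by
    intro g hg
    rw [mem_range] at hg
    have h1 : alv m e t (kapi m e g) := by
      unfold kapi
      by_cases h2 : g < e+1
      · rw [if_pos h2]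
        right
        exact ht.trans (dT3_gt (by omega) (by omega) (by omega))
      · rw [if_neg h2, if_pos (by omega)]
        left; omega
    rw [if_pos h1, h_plus (by omega), d_plus (by omega)]
    split_ifs <;> omega
  -- second block
  have hF2 : ∀ r ∈ range m, ((if alv m e t (kapi m e (m+e+1+r)) then
      (v m a - h m e (m+e+1+r) - d m e (m+e+1+r) * t) / Cc m e else 0) +
      (if alv m e t (m+e+1+r) then (if a < m+e+1+r then 1 else 0) else 0)) +
      ((if alv m e t (kapi m e (m+e+1+m+r)) then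
      (v m a - h m e (m+e+1+m+r) - d m e (m+e+1+m+r) * t) / Cc m e else 0) +
      (if alv m e t (m+e+1+m+r) then (if a < m+e+1+m+r then 1 else 0) else 0)) ≤
      (if alv m e t (2*m+1+e+r) then (v m a - v m (m+e+1+r) - 1 * t) / Cc m e + 1 else 0)
      + (if a < m+e+1+r then 1 else 0) + (v m a - (Cc m e - zz m r) - -1 * t) / Cc m e := by
    intro r hr
    rw [mem_range] at hr
    have e1 : kapi m e (m+e+1+r) = 2*m+1+e+r := by
      unfold kapi
      rw [if_neg (by omega), if_neg (by omega), if_pos (by omega)]; omega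
    have e2 : alv m e t (kapi m e (m+e+1+m+r)) := by
      unfold kapi
      rw [if_neg (by omega), if_neg (by omega), if_neg (by omega)]
      left; omega
    have e3 : m+e+1+m+r = 2*m+1+e+r := by omega
    have e4 : h m e (m+e+1+m+r) = Cc m e - zz m r := by
      rw [h_minus (by omega)]; unfold zz; push_cast; ring
    rw [if_pos e2, e1, h_plus (show m+e+1+r < 2*m+1+e by omega),
      d_plus (show m+e+1+r < 2*m+1+e by omega), e4,
      d_minus (show 2*m+1+e ≤ m+e+1+m+r by omega), e3]
    split_ifs <;> omega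
  refine lt_of_le_of_lt (add_le_add (Finset.sum_le_sum hF1) (Finset.sum_le_sum hF2)) ?_
  by_cases hA : (t:ℤ) < Cc m e - v m a - 4*(m:ℤ)
  · -- no `-` ghost has arrived
    have g1 : ∀ g ∈ range (m+e+1), (v m a - v m g - 1 * t) / Cc m e + (if a < g then 1 else 0) ≤
        -(if a = g then (1:ℤ) else 0) := by
      intro g hg
      have hvg := v_pos m g
      by_cases h1 : a ≤ g
      · have h2 := v_le (m := m) h1
        have := dlem1 (x := v m a - v m g - 1 * t) hC (by linarith)
        split_ifs <;> omega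
      · have := dle0 (x := v m a - v m g - 1 * t) hC (by linarith)
        split_ifs <;> omega
    have g2 : ∀ r ∈ range m, (if alv m e t (2*m+1+e+r) then
        (v m a - v m (m+e+1+r) - 1 * t) / Cc m e + 1 else 0)
      + (if a < m+e+1+r then 1 else 0) + (v m a - (Cc m e - zz m r) - -1 * t) / Cc m e ≤
        -(if a = m+e+1+r then (1:ℤ) else 0) := by
      intro r hr
      have hz := zz_le m r
      have q1 := dlem1 (x := v m a - (Cc m e - zz m r) - -1 * t) hC (by linarith)
      have hvg := v_pos m (m+e+1+r)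
      by_cases h1 : a ≤ m+e+1+r
      · have h2 := v_le (m := m) h1
        have := dlem1 (x := v m a - v m (m+e+1+r) - 1 * t) hC (by linarith)
        split_ifs <;> omega
      · have := dle0 (x := v m a - v m (m+e+1+r) - 1 * t) hC (by linarith)
        split_ifs <;> omega
    refine lt_of_le_of_lt (add_le_add (Finset.sum_le_sum g1) (Finset.sum_le_sum g2)) ?_
    rw [Finset.sum_neg_distrib, Finset.sum_neg_distrib]
    have s1 : ∀ k : ℕ, (0:ℤ) ≤ ∑ g ∈ range k, (if a = g then (1:ℤ) else 0) :=
      fun k => Finset.sum_nonneg fun g _ => by split_ifs <;> norm_num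
    have s2 : (0:ℤ) ≤ ∑ r ∈ range m, (if a = m+e+1+r then (1:ℤ) else 0) :=
      Finset.sum_nonneg fun g _ => by split_ifs <;> norm_num
    by_cases h1 : a < m+e+1
    · have : (1:ℤ) ≤ ∑ g ∈ range (m+e+1), (if a = g then (1:ℤ) else 0) := by
        rw [Finset.sum_ite_eq, if_pos (mem_range.2 h1)]
      linarith
    · have : (1:ℤ) ≤ ∑ r ∈ range m, (if a = m+e+1+r then (1:ℤ) else 0) := by
        have h2 := Finset.single_le_sum (f := fun r => if a = m+e+1+r then (1:ℤ) else 0)
          (s := range m) (fun r _ => by split_ifs <;> norm_num)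
          (mem_range.2 (show a-(m+e+1) < m by omega))
        rw [if_pos (by omega)] at h2
        exact h2
      have := s1 (m+e+1)
      linarith
  · -- `-` ghosts may have arrived, all `+` ghosts have
    have g1 : ∀ g ∈ range (m+e+1), (v m a - v m g - 1 * t) / Cc m e + (if a < g then 1 else 0) ≤
        -1 := by
      intro g hg
      have hvg := v_pos m g
      by_cases h1 : a < g
      · have h2 := v_lt (m := m) h1
        have := dlem2 (x := v m a - v m g - 1 * t) hC (by linarith)
        split_ifs <;> omega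
      · have := dlem1 (x := v m a - v m g - 1 * t) hC (by linarith)
        split_ifs <;> omega
    have g2 : ∀ r ∈ range m, (if alv m e t (2*m+1+e+r) then
        (v m a - v m (m+e+1+r) - 1 * t) / Cc m e + 1 else 0)
      + (if a < m+e+1+r then 1 else 0) + (v m a - (Cc m e - zz m r) - -1 * t) / Cc m e ≤ 1 := by
      intro r hr
      have hz := zz_le m r
      have q1 := dle0 (x := v m a - (Cc m e - zz m r) - -1 * t) hC (by linarith)
      have hvg := v_pos m (m+e+1+r)
      have := dlem1 (x := v m a - v m (m+e+1+r) - 1 * t) hC (by linarith)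
      split_ifs <;> omega
    refine lt_of_le_of_lt (add_le_add (Finset.sum_le_sum g1) (Finset.sum_le_sum g2)) ?_
    rw [Finset.sum_const, Finset.sum_const, card_range, card_range]
    simp only [nsmul_eq_mul]
    push_cast
    linarith [(by positivity : (0:ℤ) ≤ e)]

/-- upper bound for `-` robots, early times -/
lemma Zup0 (hm : 1 ≤ m) {i0 : ℕ} (h0 : 2*m+1+e ≤ i0) (h0' : i0 < 3*m+1+e)
    (ht : (t:ℤ) < 4*(m:ℤ)) (ht1 : 1 ≤ t) :
    0 ≤ ∑ g ∈ range (3*m+1+e), (if alv m e t (kapi m e g) then
        (h m e i0 - 1 - h m e g - d m e g * t) / Cc m e else 0)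
      + ∑ i ∈ range (3*m+1+e), (if alv m e t i then (if i0 < i then 1 else 0) else 0) := by
  have hC := C_pos m e
  obtain ⟨hz1, hz2⟩ := h4_bd h0 h0'
  have hm0 : (0:ℤ) ≤ m := by positivity
  have ht1' : (1:ℤ) ≤ t := by exact_mod_cast ht1
  rw [← Finset.sum_add_distrib]
  have hcC := v_le_C (m := m) (e := e) (show 2*m+e < 2*m+1+e by omega)
  have hcC' := v_ge m (2*m+e)
  refine Finset.sum_nonneg fun g hg => ?_
  rw [mem_range] at hg
  by_cases h1 : g < 2*m+1+e
  · rw [h_plus h1, d_plus h1]
    have hvg := v_le_C (m := m) (e := e) h1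
    have := dge0 (x := h m e i0 - 1 - v m g - 1 * t) hC (by linarith)
    split_ifs <;> omega
  · have h2 : alv m e t g := by
      right
      have := dT4_gt (m := m) (e := e) (i := g) (by omega) hg
      linarith
    rw [if_pos h2, d_minus (by omega)]
    have h3 : h m e i0 - 1 - h m e g - -1 * t = 4*((i0:ℤ)-g) + t - 1 := by
      rw [h_minus h0, h_minus (show 2*m+1+e ≤ g by omega)]; ring
    by_cases h4 : i0 < g
    · have h5 : (g:ℤ) < 3*(m:ℤ)+1+e := by exact_mod_cast hg
      have h6 : 2*(m:ℤ)+1+e ≤ i0 := by exact_mod_cast h0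
      have := dgem1 (x := h m e i0 - 1 - h m e g - -1 * t) hC (by rw [h3]; linarith)
      split_ifs <;> omega
    · have h5 : (g:ℤ) ≤ i0 := by exact_mod_cast (not_lt.1 h4)
      have := dge0 (x := h m e i0 - 1 - h m e g - -1 * t) hC (by rw [h3]; linarith)
      split_ifs <;> omega

end

lemma sched_good {m e : ℕ} (hm : e+1 ≤ m) : (sched m e (by omega)).Good := by
  have hm1 : 1 ≤ m := by omega
  have hC := C_pos m e
  refine ⟨?_, ?_, ?_⟩
  · -- meet
    intro i t hT
    obtain ⟨h1, h2⟩ := T_eq_iff hm1 t i hT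
    show h m e (kap m e i) + d m e (kap m e i) * t = h m e i +
      (if 2*m ≤ (i:ℕ) ∧ (i:ℕ) < 2*m+1+e then 1 else 0) * Cc m e
    by_cases h3 : (i:ℕ) < 2*m+1+e
    · rw [hk3 h1 h3, dk3 h1 h3, if_pos ⟨h1, h3⟩, h_plus h3, h2, dT3 h3]; ring
    · have h4 : 2*m+1+e ≤ (i:ℕ) := by omega
      rw [hk4 h4 i.2, dk4 h4 i.2, if_neg (fun h5 => h3 h5.2), h2, dT4 h4]; ring
  · -- die
    intro i t hT
    obtain ⟨h1, h2⟩ := T_eq_iff hm1 (t+1) i hT
    show rk ((sched m e hm1).A t) i ≤ Ncount (sched m e hm1).C (sched m e hm1).H (sched m e hm1).D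
      ((sched m e hm1).G t) (t+1) (h m e i +
      (if 2*m ≤ (i:ℕ) ∧ (i:ℕ) < 2*m+1+e then 1 else 0) * Cc m e) ∧
      Ncount (sched m e hm1).C (sched m e hm1).H (sched m e hm1).D
      ((sched m e hm1).G t) (t+1) (h m e i +
      (if 2*m ≤ (i:ℕ) ∧ (i:ℕ) < 2*m+1+e then 1 else 0) * Cc m e - 1) <
      rk ((sched m e hm1).A t) i
    by_cases h3 : (i:ℕ) < 2*m+1+e
    · rw [if_pos ⟨h1, h3⟩, one_mul, h_plus h3]
      constructor
      · have := diff_robot hm1 t (t+1) (v m i + Cc m e) i
        have := Pdie1 (t := t) hm h1 h3 h2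
        linarith
      · have := diff_robot hm1 t (t+1) (v m i + Cc m e - 1) i
        have := Pdie2 (t := t) hm h1 h3 h2 (by push_cast; ring)
        linarith
    · have h4 : 2*m+1+e ≤ (i:ℕ) := by omega
      rw [if_neg (fun h5 => h3 h5.2), zero_mul, add_zero]
      constructor
      · have := diff_robot hm1 t (t+1) (h m e i) i
        have := Zdie1 (t := t) hm1 h4 i.2 h2
        linarith
      · have := diff_robot hm1 t (t+1) (h m e i - 1) i
        have := Zdie2 (t := t) hm1 h4 i.2 h2 (by push_cast; linarith)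
        linarith
  · -- live
    intro i t ht hT
    rw [alv_iff] at hT
    show ∃ l : ℤ, Ncount (sched m e hm1).C (sched m e hm1).H (sched m e hm1).D
      ((sched m e hm1).G t) t (h m e i + l * Cc m e) < rk ((sched m e hm1).A t) i ∧
      rk ((sched m e hm1).A t) i ≤ Ncount (sched m e hm1).C (sched m e hm1).H (sched m e hm1).D
      ((sched m e hm1).G t) t (h m e i + (l+1) * Cc m e - 1)
    by_cases h3 : (i:ℕ) < 2*m+1+e
    · refine ⟨0, ?_, ?_⟩
      · rw [zero_mul, add_zero, h_plus h3]
        by_cases h4 : Cc m e ≤ t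
        · have := diff_robot hm1 t t (v m i) i
          have := Plow1 (t := t) hm h3 h4
          linarith
        · have := diff_ghost hm1 t t (v m i) i
          have := Plow0 (t := t) hm h3 (by linarith) ht
          linarith
      · rw [zero_add, one_mul, h_plus h3]
        have := diff_robot hm1 t t (v m i + Cc m e - 1) i
        have := Pup (t := t) hm h3 hT
        linarith
    · have h4 : 2*m+1+e ≤ (i:ℕ) := by omega
      have h5 : (t:ℤ) < dT m e i := by
        rcases hT with h6 | h6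
        · omega
        · exact h6
      refine ⟨-1, ?_, ?_⟩
      · rw [show h m e i + -1 * Cc m e = h m e i - Cc m e by ring]
        have := diff_robot hm1 t t (h m e i - Cc m e) i
        have := Zlow (t := t) hm1 h4 i.2 h5
        linarith
      · rw [show h m e i + (-1+1) * Cc m e - 1 = h m e i - 1 by ring]
        by_cases h6 : 4*(m:ℤ) ≤ t
        · have := diff_robot hm1 t t (h m e i - 1) i
          have := Zup1 (t := t) hm1 h4 i.2 h5 h6
          linarith
        · have := diff_ghost hm1 t t (h m e i - 1) i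
          have := Zup0 (t := t) hm1 h4 i.2 (by linarith) ht
          linarith

end Fam

theorem family_schedule (m e : ℕ) (hm : e+1 ≤ m) (_he : e ≤ 2) :
    ∃ σ : Schedule (3*m+1+e), σ.Good ∧
      2*m ≤ (Finset.univ.filter (fun i => σ.T i = ⊤)).card := by
  refine ⟨Fam.sched m e (by omega), Fam.sched_good hm, ?_⟩
  have h1 : (Finset.univ.image (fun i : Fin (2*m) => (⟨i, by omega⟩ : Fin (3*m+1+e)))) ⊆
      Finset.univ.filter (fun i => (Fam.sched m e (by omega)).T i = ⊤) := by
    intro i hi
    rw [Finset.mem_image] at hi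
    obtain ⟨j, _, rfl⟩ := hi
    rw [Finset.mem_filter]
    refine ⟨Finset.mem_univ _, ?_⟩
    show (if (j:ℕ) < 2*m then (⊤ : ℕ∞) else _) = ⊤
    rw [if_pos j.2]
  have h2 := Finset.card_le_card h1
  rw [Finset.card_image_of_injective] at h2
  · simpa using h2
  · intro x y hxy
    exact Fin.ext (by simpa using hxy)

end R128Rob
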