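import Mathlib
import Pool.Agent.R128.RobotsSched

/-!
# Bouncing robots: small schedules (n = 5, 6, 9) by computation, and the trivial run
-/

namespace R128Rob

open Finset

/-- finite version of `Ncount`; `S g = 0` means that ghost `g` never dies -/
def NB {n : ℕ} (C : ℤ) (H D : Fin n → ℤ) (S : Fin n → ℕ) (ta tp : ℕ) (y : ℤ) : ℤ :=
  ∑ g, if S g = 0 ∨ ta < S g then (y - H g - D g * (tp : ℤ)) / C else 0

/-- finite version of `rk`; `T i = 0` means that robot `i` never dies -/
def RB {n : ℕ} (T : Fin n → ℕ) (t : ℕ) (i : Fin n) : ℤ :=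
  -∑ j, if (T j = 0 ∨ t < T j) ∧ i < j then 1 else 0

def mkT {n : ℕ} (T : Fin n → ℕ) (i : Fin n) : ℕ∞ := if T i = 0 then ⊤ else (T i : ℕ∞)

lemma lt_mkT {n : ℕ} {T : Fin n → ℕ} {t : ℕ} {i : Fin n} :
    (t : ℕ∞) < mkT T i ↔ (T i = 0 ∨ t < T i) := by
  unfold mkT
  split_ifs with h
  · simp [h]
  · simp [h]

lemma mkT_eq {n : ℕ} {T : Fin n → ℕ} {t : ℕ} {i : Fin n} (h : mkT T i = t) : T i ≠ 0 ∧ T i = t := by
  unfold mkT at h
  split_ifs at h with h0
  · exact absurd h.symm (ENat.natCast_ne_top t)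
  · exact ⟨h0, by exact_mod_cast h⟩

structure Small (n : ℕ) where
  C : ℤ
  H : Fin n → ℤ
  D : Fin n → ℤ
  T : Fin n → ℕ
  κ : Equiv.Perm (Fin n)
  w : Fin n → ℤ
  B : ℕ
  C_pos : 0 < C
  four_dvd_C : 4 ∣ C
  H_nonneg : ∀ i, 0 ≤ H i
  H_lt : ∀ i, H i < C
  H_mono : ∀ i j, i < j → H i < H j
  D_pm : ∀ i, D i = 1 ∨ D i = -1
  H_plus : ∀ i, D i = 1 → 4 ∣ H i
  H_minus : ∀ i, D i = -1 → 4 ∣ H i - 2
  T_inj : ∀ i j, i ≠ j → T i = T j → T i = 0
  T_le : ∀ i, T i ≤ B
  meet : ∀ i, T i ≠ 0 → H (κ i) + D (κ i) * (T i : ℤ) = H i + w i * C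
  die : ∀ i, T i ≠ 0 →
    RB T (T i - 1) i ≤ NB C H D (fun g => T (κ.symm g)) (T i - 1) (T i) (H i + w i * C) ∧
    NB C H D (fun g => T (κ.symm g)) (T i - 1) (T i) (H i + w i * C - 1) < RB T (T i - 1) i
  bal : ∑ g, (if T (κ.symm g) = 0 then D g else 0) = 0
  live : ∀ t < B + C.toNat + 1, ∀ i, 1 ≤ t → (T i = 0 ∨ t < T i) →
    NB C H D (fun g => T (κ.symm g)) t t (H i + (if D i = 1 then 0 else -1) * C) < RB T t i ∧
    RB T t i ≤ NB C H D (fun g => T (κ.symm g)) t t (H i + ((if D i = 1 then 0 else -1) + 1) * C - 1)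

namespace Small

variable {n : ℕ} (s : Small n)

lemma NB_period (t : ℕ) (ht : s.B ≤ t) (y : ℤ) :
    NB s.C s.H s.D (fun g => s.T (s.κ.symm g)) (t + s.C.toNat) (t + s.C.toNat) y =
    NB s.C s.H s.D (fun g => s.T (s.κ.symm g)) t t y := by
  have hC : ((s.C.toNat : ℕ) : ℤ) = s.C := Int.toNat_of_nonneg s.C_pos.le
  have key : ∀ g, (if s.T (s.κ.symm g) = 0 ∨ t + s.C.toNat < s.T (s.κ.symm g) then
      (y - s.H g - s.D g * ((t + s.C.toNat : ℕ) : ℤ)) / s.C else 0) =
      (if s.T (s.κ.symm g) = 0 ∨ t < s.T (s.κ.symm g) then (y - s.H g - s.D g * (t : ℤ)) / s.C else 0)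
      - (if s.T (s.κ.symm g) = 0 then s.D g else 0) := by
    intro g
    have h1 := s.T_le (s.κ.symm g)
    have h2 : ¬ (t + s.C.toNat < s.T (s.κ.symm g)) := by omega
    have h3 : ¬ (t < s.T (s.κ.symm g)) := by omega
    by_cases h0 : s.T (s.κ.symm g) = 0
    · simp only [h0, true_or, if_true]
      push_cast
      rw [hC, show y - s.H g - s.D g * ((t:ℤ) + s.C) = (y - s.H g - s.D g * t) + (-s.D g) * s.C by ring,
        Int.add_mul_ediv_right _ _ s.C_pos.ne']
      ring
    · simp only [h0, h2, h3, or_self, if_false, sub_zero]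
  unfold NB
  simp only
  rw [Finset.sum_congr rfl (fun g _ => key g), Finset.sum_sub_distrib, s.bal, sub_zero]

lemma RB_const (t u : ℕ) (ht : s.B ≤ t) (hu : s.B ≤ u) (i : Fin n) : RB s.T t i = RB s.T u i := by
  unfold RB
  congr 1
  apply Finset.sum_congr rfl
  intro j _
  have := s.T_le j
  have h2 : ¬ (t < s.T j) := by omega
  have h3 : ¬ (u < s.T j) := by omega
  simp [h2, h3]

lemma live_all (t : ℕ) : ∀ i, 1 ≤ t → (s.T i = 0 ∨ t < s.T i) →
    NB s.C s.H s.D (fun g => s.T (s.κ.symm g)) t t (s.H i + (if s.D i = 1 then 0 else -1) * s.C) < RB s.T t i ∧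
    RB s.T t i ≤ NB s.C s.H s.D (fun g => s.T (s.κ.symm g)) t t
      (s.H i + ((if s.D i = 1 then 0 else -1) + 1) * s.C - 1) := by
  have hCn : 0 < s.C.toNat := by have := s.C_pos; omega
  induction t using Nat.strong_induction_on with
  | _ t ih =>
  intro i h1 h2
  by_cases h : t < s.B + s.C.toNat + 1
  · exact s.live t h i h1 h2
  · push Not at h
    have hT := s.T_le i
    have h0 : s.T i = 0 := by
      rcases h2 with h2 | h2
      · exact h2
      · omega
    have := ih (t - s.C.toNat) (by omega) i (by omega) (Or.inl h0)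
    rw [← s.NB_period (t - s.C.toNat) (by omega), ← s.NB_period (t - s.C.toNat) (by omega),
      show t - s.C.toNat + s.C.toNat = t by omega,
      s.RB_const (t - s.C.toNat) t (by omega) (by omega)] at this
    exact this

def toSchedule : Schedule n where
  C := s.C
  H := s.H
  D := s.D
  T := mkT s.T
  κ := s.κ
  w := s.w
  C_pos := s.C_pos
  four_dvd_C := s.four_dvd_C
  H_nonneg := s.H_nonneg
  H_lt := s.H_lt
  H_mono := fun i j h => s.H_mono i j h
  D_pm := s.D_pm
  H_plus := s.H_plus
  H_minus := s.H_minus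
  T_pos := by
    intro i
    unfold mkT
    split_ifs with h
    · exact le_top
    · have : 1 ≤ s.T i := Nat.one_le_iff_ne_zero.mpr h
      exact_mod_cast this
  T_inj := by
    intro i j hij h
    unfold mkT at h ⊢
    by_cases h1 : s.T i = 0
    · rw [if_pos h1]
    · by_cases h2 : s.T j = 0
      · rw [if_neg h1, if_pos h2] at h
        exact absurd h (ENat.natCast_ne_top _)
      · rw [if_neg h1, if_neg h2] at h
        have : s.T i = s.T j := by exact_mod_cast h
        exact absurd (s.T_inj i j hij this) h1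

lemma Ncount_eq (ta tp : ℕ) (y : ℤ) :
    Ncount s.C s.H s.D (s.toSchedule.G ta) tp y =
    NB s.C s.H s.D (fun g => s.T (s.κ.symm g)) ta tp y := by
  unfold Ncount NB Schedule.G
  rw [Finset.sum_filter]
  apply Finset.sum_congr rfl
  intro g _
  have : ((ta : ℕ∞) < s.toSchedule.T (s.toSchedule.κ.symm g)) ↔
      (s.T (s.κ.symm g) = 0 ∨ ta < s.T (s.κ.symm g)) := lt_mkT
  simp only [this]

lemma rk_eq (t : ℕ) (i : Fin n) : rk (s.toSchedule.A t) i = RB s.T t i := by
  unfold rk RB Schedule.A
  rw [Finset.filter_filter, Finset.card_filter]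
  push_cast
  congr 1
  apply Finset.sum_congr rfl
  intro j _
  have : ((t : ℕ∞) < s.toSchedule.T j) ↔ (s.T j = 0 ∨ t < s.T j) := lt_mkT
  simp only [this]

theorem good : s.toSchedule.Good where
  meet := by
    intro i t h
    obtain ⟨h0, h1⟩ := mkT_eq h
    have := s.meet i h0
    rw [h1] at this
    exact this
  die := by
    intro i t h
    obtain ⟨h0, h1⟩ := mkT_eq h
    have := s.die i h0
    rw [h1, Nat.add_sub_cancel] at this
    rw [s.rk_eq]
    have e1 := s.Ncount_eq t (t+1) (s.H i + s.w i * s.C)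
    have e2 := s.Ncount_eq t (t+1) (s.H i + s.w i * s.C - 1)
    exact ⟨this.1.trans_eq e1.symm, e2.trans_lt this.2⟩
  live := by
    intro i t h1 h2
    have h2' := (lt_mkT (T := s.T)).mp h2
    refine ⟨if s.D i = 1 then 0 else -1, ?_⟩
    have := s.live_all t i h1 h2'
    rw [s.rk_eq]
    have e1 := s.Ncount_eq t t (s.H i + (if s.D i = 1 then 0 else -1) * s.C)
    have e2 := s.Ncount_eq t t (s.H i + ((if s.D i = 1 then 0 else -1) + 1) * s.C - 1)
    exact ⟨e1.trans_lt this.1, this.2.trans_eq e2.symm⟩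

end Small

def permOf {n : ℕ} (f g : Fin n → Fin n) (h1 : ∀ i, g (f i) = i) (h2 : ∀ i, f (g i) = i) :
    Equiv.Perm (Fin n) := ⟨f, g, h1, h2⟩

def small5 : Small 5 where
  C := 28
  H := ![0, 8, 12, 16, 26]
  D := ![1, 1, 1, 1, -1]
  T := ![0, 0, 40, 36, 10]
  κ := permOf ![2, 4, 0, 1, 3] ![2, 3, 0, 4, 1] (by decide) (by decide)
  w := ![0, 0, 1, 1, 0]
  B := 40
  C_pos := by decide
  four_dvd_C := by decide
  H_nonneg := by decide
  H_lt := by decide
  H_mono := by decide
  D_pm := by decide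
  H_plus := by decide
  H_minus := by decide
  T_inj := by decide
  T_le := by decide
  meet := by decide +kernel
  die := by decide +kernel
  bal := by decide +kernel
  live := by decide +kernel

def small6 : Small 6 where
  C := 40
  H := ![4, 12, 20, 24, 28, 38]
  D := ![1, 1, 1, 1, 1, -1]
  T := ![0, 0, 56, 52, 48, 10]
  κ := permOf ![3, 5, 0, 1, 2, 4] ![2, 3, 4, 0, 5, 1] (by decide) (by decide)
  w := ![0, 0, 1, 1, 1, 0]
  B := 56
  C_pos := by decide
  four_dvd_C := by decide
  H_nonneg := by decide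
  H_lt := by decide
  H_mono := by decide
  D_pm := by decide
  H_plus := by decide
  H_minus := by decide
  T_inj := by decide
  T_le := by decide
  meet := by decide +kernel
  die := by decide +kernel
  bal := by decide +kernel
  live := by decide +kernel

def small9 : Small 9 where
  C := 60
  H := ![0, 8, 16, 20, 24, 28, 32, 50, 58]
  D := ![1, 1, 1, 1, 1, 1, 1, -1, -1]
  T := ![0, 0, 0, 0, 84, 80, 76, 22, 26]
  κ := permOf ![3, 4, 7, 8, 0, 1, 2, 5, 6] ![4, 5, 6, 0, 1, 7, 8, 2, 3] (by decide) (by decide)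
  w := ![0, 0, 0, 0, 1, 1, 1, 0, 0]
  B := 84
  C_pos := by decide
  four_dvd_C := by decide
  H_nonneg := by decide
  H_lt := by decide
  H_mono := by decide
  D_pm := by decide
  H_plus := by decide
  H_minus := by decide
  T_inj := by decide
  T_le := by decide
  meet := by decide +kernel
  die := by decide +kernel
  bal := by decide +kernel
  live := by decide +kernel

/-! ### a trivial run: all robots start in direction `+` and die at time 1 -/

noncomputable def trivConfig (n : ℕ) (hn : 1 ≤ n) : Config n where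
  home := fun i => (i.val : ℝ) / n
  dir := fun _ => 1
  home_nonneg := fun i => by positivity
  home_lt_one := fun i => by
    have : (0:ℝ) < n := by exact_mod_cast hn
    rw [div_lt_one this]; exact_mod_cast i.isLt
  home_mono := by
    intro i j hij
    have : (0:ℝ) < n := by exact_mod_cast hn
    have h : (i.val : ℝ) < j.val := by exact_mod_cast hij
    exact div_lt_div_of_pos_right h this
  dir_pm := fun _ => Or.inl rfl

noncomputable def trivRun (n : ℕ) (hn : 1 ≤ n) : Run (trivConfig n hn) where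
  time := fun k => k
  alive := fun k => if k = 0 then Finset.univ else ∅
  pos := fun k i => (trivConfig n hn).home i + k
  vel := fun _ _ => 1
  time_zero := by simp
  time_mono := Nat.strictMono_cast
  time_unbounded := fun T => exists_nat_gt T
  alive_zero := by simp
  pos_zero := by intro i; simp
  vel_zero := by intro i; rfl
  move := by
    intro k i _
    push_cast; ring
  no_home := by
    intro k i _ s hs hs'
    rintro ⟨m, hm⟩
    push_cast at hs' hm
    have h1 : (m : ℝ) - k = s := by linarith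
    have h2 : ((m - (k:ℤ) : ℤ) : ℝ) = s := by push_cast; exact h1
    have h3 : (0:ℝ) < ((m - (k:ℤ) : ℤ) : ℝ) := by rw [h2]; exact hs
    have h4 : ((m - (k:ℤ) : ℤ) : ℝ) < 1 := by rw [h2]; linarith
    have h5 : 0 < m - (k:ℤ) := by exact_mod_cast h3
    have h6 : m - (k:ℤ) < 1 := by exact_mod_cast h4
    omega
  no_meet := by
    intro k i _ j _ hij s _ _
    rintro ⟨m, hm⟩
    have h1 : (trivConfig n hn).home i - (trivConfig n hn).home j = m := by linarith
    have a1 := (trivConfig n hn).home_nonneg i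
    have a2 := (trivConfig n hn).home_nonneg j
    have a3 := (trivConfig n hn).home_lt_one i
    have a4 := (trivConfig n hn).home_lt_one j
    have h2 : (m:ℝ) < 1 := by linarith
    have h3 : (-1:ℝ) < m := by linarith
    have h4 : m < 1 := by exact_mod_cast h2
    have h5 : -1 < m := by exact_mod_cast h3
    have h6 : m = 0 := by omega
    rw [h6] at h1
    apply hij
    apply (trivConfig n hn).home_mono.injective
    push_cast at h1; linarith
  alive_succ := by
    intro k i
    simp only [Nat.succ_ne_zero, if_false, Finset.notMem_empty, false_iff, not_and, not_not]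
    intro _
    exact ⟨k + 1, by push_cast; ring⟩
  collide := by
    intro k i hi
    simp at hi
  pass := by
    intro k i hi
    simp at hi

end R128Rob
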