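import Mathlib
import Pool.Agent.R128.RobotsDef

/-!
# Bouncing robots: the upper bound
-/

namespace R128Rob

open Finset

/-- a motion, without the normalisation `0 ≤ home < 1` -/
structure GRun (n : ℕ) where
  home : Fin n → ℝ
  dir : Fin n → ℝ
  mono : StrictMono home
  width : ∀ i j, home i < home j + 1
  dir_pm : ∀ i, dir i = 1 ∨ dir i = -1
  time : ℕ → ℝ
  alive : ℕ → Finset (Fin n)
  pos : ℕ → Fin n → ℝ
  vel : ℕ → Fin n → ℝ
  time_zero : time 0 = 0
  time_mono : StrictMono time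
  time_unbounded : ∀ T : ℝ, ∃ k, T < time k
  alive_zero : alive 0 = Finset.univ
  pos_zero : ∀ i, pos 0 i = home i
  vel_zero : ∀ i, vel 0 i = dir i
  move : ∀ k, ∀ i ∈ alive k, pos (k+1) i = pos k i + (time (k+1) - time k) * vel k i
  no_home : ∀ k, ∀ i ∈ alive k, ∀ s, 0 < s → s < time (k+1) - time k →
    ¬ SamePt (pos k i + s * vel k i) (home i)
  no_meet : ∀ k, ∀ i ∈ alive k, ∀ j ∈ alive k, i ≠ j → ∀ s, 0 < s → s < time (k+1) - time k →
    ¬ SamePt (pos k i + s * vel k i) (pos k j + s * vel k j)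
  alive_succ : ∀ k i, i ∈ alive (k+1) ↔ i ∈ alive k ∧ ¬ SamePt (pos (k+1) i) (home i)
  collide : ∀ k, ∀ i ∈ alive (k+1), ∀ j ∈ alive (k+1), i ≠ j →
    SamePt (pos (k+1) i) (pos (k+1) j) → vel (k+1) i = vel k j
  pass : ∀ k, ∀ i ∈ alive (k+1),
    (∀ j ∈ alive (k+1), j ≠ i → ¬ SamePt (pos (k+1) i) (pos (k+1) j)) → vel (k+1) i = vel k i

def Run.toG {n : ℕ} {c : Config n} (ρ : Run c) : GRun n where
  home := c.home
  dir := c.dir
  mono := c.home_mono
  width := fun i j => by have := c.home_lt_one i; have := c.home_nonneg j; linarith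
  dir_pm := c.dir_pm
  time := ρ.time
  alive := ρ.alive
  pos := ρ.pos
  vel := ρ.vel
  time_zero := ρ.time_zero
  time_mono := ρ.time_mono
  time_unbounded := ρ.time_unbounded
  alive_zero := ρ.alive_zero
  pos_zero := ρ.pos_zero
  vel_zero := ρ.vel_zero
  move := ρ.move
  no_home := ρ.no_home
  no_meet := ρ.no_meet
  alive_succ := ρ.alive_succ
  collide := ρ.collide
  pass := ρ.pass

lemma samePt_neg {x y : ℝ} : SamePt (-x) (-y) ↔ SamePt x y := by
  constructor
  · rintro ⟨m, hm⟩; exact ⟨-m, by push_cast; linarith⟩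
  · rintro ⟨m, hm⟩; exact ⟨-m, by push_cast; linarith⟩

lemma samePt_symm {x y : ℝ} (h : SamePt x y) : SamePt y x := by
  obtain ⟨m, hm⟩ := h; exact ⟨-m, by push_cast; linarith⟩

lemma samePt_trans {x y z : ℝ} (h : SamePt x y) (h' : SamePt y z) : SamePt x z := by
  obtain ⟨m, hm⟩ := h; obtain ⟨m', hm'⟩ := h'; exact ⟨m + m', by push_cast; linarith⟩

namespace GRun

variable {n : ℕ} (ρ : GRun n)

/-- mirror image -/
def reflect : GRun n where
  home := fun i => - ρ.home (Fin.rev i)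
  dir := fun i => - ρ.dir (Fin.rev i)
  mono := by
    intro i j hij
    have := ρ.mono (Fin.rev_lt_rev.mpr hij)
    simpa using this
  width := fun i j => by have := ρ.width (Fin.rev j) (Fin.rev i); linarith
  dir_pm := fun i => by
    rcases ρ.dir_pm (Fin.rev i) with h | h
    · right; rw [h]
    · left; rw [h]; norm_num
  time := ρ.time
  alive := fun k => Finset.univ.filter (fun i => Fin.rev i ∈ ρ.alive k)
  pos := fun k i => - ρ.pos k (Fin.rev i)
  vel := fun k i => - ρ.vel k (Fin.rev i)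
  time_zero := ρ.time_zero
  time_mono := ρ.time_mono
  time_unbounded := ρ.time_unbounded
  alive_zero := by ext i; simp [ρ.alive_zero]
  pos_zero := fun i => by simp [ρ.pos_zero]
  vel_zero := fun i => by simp [ρ.vel_zero]
  move := by
    intro k i hi
    simp only [Finset.mem_filter, Finset.mem_univ, true_and] at hi
    rw [ρ.move k _ hi]; ring
  no_home := by
    intro k i hi s hs hs'
    simp only [Finset.mem_filter, Finset.mem_univ, true_and] at hi
    have := ρ.no_home k _ hi s hs hs'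
    rwa [show - ρ.pos k (Fin.rev i) + s * - ρ.vel k (Fin.rev i) =
      -(ρ.pos k (Fin.rev i) + s * ρ.vel k (Fin.rev i)) by ring, samePt_neg]
  no_meet := by
    intro k i hi j hj hij s hs hs'
    simp only [Finset.mem_filter, Finset.mem_univ, true_and] at hi hj
    have := ρ.no_meet k _ hi _ hj (fun h => hij (Fin.rev_injective h)) s hs hs'
    rwa [show - ρ.pos k (Fin.rev i) + s * - ρ.vel k (Fin.rev i) =
      -(ρ.pos k (Fin.rev i) + s * ρ.vel k (Fin.rev i)) by ring,
      show - ρ.pos k (Fin.rev j) + s * - ρ.vel k (Fin.rev j) =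
      -(ρ.pos k (Fin.rev j) + s * ρ.vel k (Fin.rev j)) by ring, samePt_neg]
  alive_succ := by
    intro k i
    simp only [Finset.mem_filter, Finset.mem_univ, true_and]
    rw [ρ.alive_succ, samePt_neg]
  collide := by
    intro k i hi j hj hij h
    simp only [Finset.mem_filter, Finset.mem_univ, true_and] at hi hj
    rw [samePt_neg] at h
    rw [ρ.collide k _ hi _ hj (fun h => hij (Fin.rev_injective h)) h]
  pass := by
    intro k i hi h
    simp only [Finset.mem_filter, Finset.mem_univ, true_and] at hi h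
    rw [ρ.pass k _ hi]
    intro j hj hji hs
    refine h (Fin.rev j) (by simpa using hj) (fun e => hji (by rw [← e, Fin.rev_rev])) ?_
    rw [samePt_neg, Fin.rev_rev]; exact hs

/-- survivors -/
noncomputable def surv : Finset (Fin n) := by
  classical exact Finset.univ.filter (fun i => ∀ k, i ∈ ρ.alive k)

lemma mem_surv {i : Fin n} : i ∈ ρ.surv ↔ ∀ k, i ∈ ρ.alive k := by
  unfold surv; simp

lemma surv_reflect_card : ρ.reflect.surv.card = ρ.surv.card := by
  refine Finset.card_bij' (fun i _ => Fin.rev i) (fun i _ => Fin.rev i) ?_ ?_ ?_ ?_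
  · intro i hi
    rw [mem_surv] at hi ⊢
    intro k; have := hi k
    simpa [reflect] using this
  · intro i hi
    rw [mem_surv] at hi ⊢
    intro k; have := hi k
    simpa [reflect] using this
  · intro i _; simp
  · intro i _; simp

lemma dt_pos (k : ℕ) : 0 < ρ.time (k+1) - ρ.time k := by
  have := ρ.time_mono (Nat.lt_succ_self k); simpa using this

lemma alive_anti_succ {k : ℕ} {i : Fin n} (h : i ∈ ρ.alive (k+1)) : i ∈ ρ.alive k :=
  ((ρ.alive_succ k i).mp h).1

lemma alive_anti {k l : ℕ} (hkl : k ≤ l) {i : Fin n} (h : i ∈ ρ.alive l) : i ∈ ρ.alive k := by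
  induction hkl with
  | refl => exact h
  | step _ ih => exact ih (ρ.alive_anti_succ h)

lemma vel_pm {k : ℕ} {i : Fin n} (h : i ∈ ρ.alive k) : ρ.vel k i = 1 ∨ ρ.vel k i = -1 := by
  induction k generalizing i with
  | zero => rw [ρ.vel_zero]; exact ρ.dir_pm i
  | succ k ih =>
    by_cases hc : ∃ j ∈ ρ.alive (k+1), j ≠ i ∧ SamePt (ρ.pos (k+1) i) (ρ.pos (k+1) j)
    · obtain ⟨j, hj, hji, hs⟩ := hc
      rw [ρ.collide k i h j hj (Ne.symm hji) hs]
      exact ih (ρ.alive_anti_succ hj)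
    · push Not at hc
      rw [ρ.pass k i h hc]; exact ih (ρ.alive_anti_succ h)

end GRun


/-! ### lifts to ℤ -/

section lifts

variable {n : ℕ} [NeZero n]

def ix (n : ℕ) [NeZero n] (r : ℤ) : Fin n :=
  ⟨(r % (n:ℤ)).toNat, by
    have hn : (0:ℤ) < n := by exact_mod_cast Nat.pos_of_ne_zero (NeZero.ne n)
    have h1 := Int.emod_nonneg r hn.ne'
    have h2 := Int.emod_lt_of_pos r hn
    omega⟩

lemma npos (n : ℕ) [NeZero n] : (0:ℤ) < n := by exact_mod_cast Nat.pos_of_ne_zero (NeZero.ne n)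

lemma ix_val (r : ℤ) : ((ix n r : Fin n).val : ℤ) = r % n := by
  unfold ix
  simp only
  rw [Int.toNat_of_nonneg (Int.emod_nonneg r (npos n).ne')]

lemma ix_eq_iff {r q : ℤ} : ix n r = ix n q ↔ r % n = q % n := by
  constructor
  · intro h; rw [← ix_val, ← ix_val, h]
  · intro h; apply Fin.ext; have := ix_val (n := n) r; have := ix_val (n := n) q; omega

lemma ix_add (r j : ℤ) : ix n (r + j * n) = ix n r := by
  rw [ix_eq_iff]; simp

lemma ix_natCast (i : Fin n) : ix n (i.val : ℤ) = i := by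
  apply Fin.ext
  have := ix_val (n := n) (i.val : ℤ)
  rw [Int.emod_eq_of_lt (by positivity) (by exact_mod_cast i.isLt)] at this
  exact_mod_cast this

/-- lift of a function on `Fin n` -/
noncomputable def lf (f : Fin n → ℝ) (r : ℤ) : ℝ := f (ix n r) + ((r / (n:ℤ) : ℤ) : ℝ)

lemma lf_add (f : Fin n → ℝ) (r j : ℤ) : lf f (r + j * n) = lf f r + j := by
  unfold lf
  rw [ix_add, Int.add_mul_ediv_right _ _ (npos n).ne']
  push_cast; ring

lemma lf_natCast (f : Fin n → ℝ) (i : Fin n) : lf f (i.val : ℤ) = f i := by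
  unfold lf
  rw [ix_natCast, Int.ediv_eq_zero_of_lt (by positivity) (by exact_mod_cast i.isLt)]
  simp

lemma exists_shift {r q : ℤ} (h : ix n r = ix n q) : ∃ j : ℤ, r = q + j * n := by
  rw [ix_eq_iff] at h
  refine ⟨r / n - q / n, ?_⟩
  have h1 := Int.emod_add_mul_ediv r n
  have h2 := Int.emod_add_mul_ediv q n
  rw [h] at h1
  linear_combination h2 - h1

lemma exists_lift {f g : Fin n → ℝ} {r : ℤ} {j : Fin n} (h : SamePt (f (ix n r)) (g j)) :
    ∃ q, ix n q = j ∧ lf g q = lf f r := by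
  obtain ⟨m, hm⟩ := h
  refine ⟨(j.val : ℤ) + (m + r / n) * n, ?_, ?_⟩
  · rw [ix_add, ix_natCast]
  · rw [lf_add, lf_natCast]; unfold lf; rw [hm]; push_cast; ring

lemma samePt_of_lf_eq {f g : Fin n → ℝ} {r q : ℤ} (h : lf f r = lf g q) :
    SamePt (f (ix n r)) (g (ix n q)) := by
  unfold lf at h
  exact ⟨q / n - r / n, by push_cast; linarith⟩

end lifts

namespace GRun

variable {n : ℕ} [NeZero n] (ρ : GRun n)

noncomputable def H (r : ℤ) : ℝ := lf ρ.home r
noncomputable def X (k : ℕ) (r : ℤ) : ℝ := lf (ρ.pos k) r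
noncomputable def V (k : ℕ) (r : ℤ) : ℝ := ρ.vel k (ix n r)
noncomputable def D (r : ℤ) : ℝ := ρ.dir (ix n r)
def Al (k : ℕ) (r : ℤ) : Prop := ix n r ∈ ρ.alive k

lemma H_add (r j : ℤ) : ρ.H (r + j * n) = ρ.H r + j := lf_add _ _ _
lemma X_add (k : ℕ) (r j : ℤ) : ρ.X k (r + j * n) = ρ.X k r + j := lf_add _ _ _
lemma V_add (k : ℕ) (r j : ℤ) : ρ.V k (r + j * n) = ρ.V k r := by unfold V; rw [ix_add]
lemma D_add (r j : ℤ) : ρ.D (r + j * n) = ρ.D r := by unfold D; rw [ix_add]
lemma Al_add (k : ℕ) (r j : ℤ) : ρ.Al k (r + j * n) ↔ ρ.Al k r := by unfold Al; rw [ix_add]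

lemma H_lt {r q : ℤ} (h : r < q) : ρ.H r < ρ.H q := by
  unfold H lf
  have hn := npos n
  have h1 := Int.emod_add_mul_ediv r n
  have h2 := Int.emod_add_mul_ediv q n
  rcases lt_trichotomy (r / (n:ℤ)) (q / (n:ℤ)) with h3 | h3 | h3
  · have : ((r / (n:ℤ) : ℤ) : ℝ) + 1 ≤ ((q / (n:ℤ) : ℤ) : ℝ) := by exact_mod_cast h3
    have := ρ.width (ix n r) (ix n q)
    linarith
  · rw [h3]
    have : ix n r < ix n q := by
      rw [Fin.lt_def]
      have e1 := ix_val (n := n) r
      have e2 := ix_val (n := n) q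
      rw [h3] at h1
      have : r % (n:ℤ) < q % (n:ℤ) := by linarith
      omega
    have := ρ.mono this
    linarith
  · exfalso
    have : q / (n:ℤ) ≤ r / (n:ℤ) := h3.le
    have : r / (n:ℤ) ≤ q / (n:ℤ) := Int.ediv_le_ediv hn h.le
    omega

lemma H_le {r q : ℤ} (h : r ≤ q) : ρ.H r ≤ ρ.H q := by
  rcases h.eq_or_lt with h | h
  · rw [h]
  · exact (ρ.H_lt h).le

lemma H_strictMono : StrictMono ρ.H := fun _ _ h => ρ.H_lt h

lemma X_zero (r : ℤ) : ρ.X 0 r = ρ.H r := by unfold X H lf; rw [ρ.pos_zero]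
lemma V_zero (r : ℤ) : ρ.V 0 r = ρ.D r := ρ.vel_zero _
lemma Al_zero (r : ℤ) : ρ.Al 0 r := by unfold Al; rw [ρ.alive_zero]; simp
lemma V_pm {k : ℕ} {r : ℤ} (h : ρ.Al k r) : ρ.V k r = 1 ∨ ρ.V k r = -1 := ρ.vel_pm h
lemma D_pm (r : ℤ) : ρ.D r = 1 ∨ ρ.D r = -1 := ρ.dir_pm _

lemma Al_anti {k l : ℕ} (hkl : k ≤ l) {r : ℤ} (h : ρ.Al l r) : ρ.Al k r := ρ.alive_anti hkl h

lemma X_succ {k : ℕ} {r : ℤ} (h : ρ.Al k r) :
    ρ.X (k+1) r = ρ.X k r + (ρ.time (k+1) - ρ.time k) * ρ.V k r := by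
  unfold X lf V
  rw [ρ.move k _ h]; ring

lemma no_home' {k : ℕ} {r : ℤ} (h : ρ.Al k r) {s : ℝ} (hs : 0 < s)
    (hs' : s < ρ.time (k+1) - ρ.time k) (m : ℤ) : ρ.X k r + s * ρ.V k r ≠ ρ.H r + m := by
  intro he
  apply ρ.no_home k _ h s hs hs'
  refine ⟨m, ?_⟩
  unfold X H V lf at he
  linarith

lemma no_meet' {k : ℕ} {r q : ℤ} (h : ρ.Al k r) (h' : ρ.Al k q) (hne : r ≠ q) {s : ℝ} (hs : 0 < s)
    (hs' : s < ρ.time (k+1) - ρ.time k) :
    ρ.X k r + s * ρ.V k r ≠ ρ.X k q + s * ρ.V k q := by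
  intro he
  by_cases hix : ix n r = ix n q
  · obtain ⟨j, hj⟩ := exists_shift hix
    rw [hj, ρ.X_add, ρ.V_add] at he
    have : (j:ℝ) = 0 := by linarith
    have : j = 0 := by exact_mod_cast this
    apply hne; rw [hj, this]; ring
  · apply ρ.no_meet k _ h _ h' hix s hs hs'
    refine ⟨q / n - r / n, ?_⟩
    unfold X V lf at he
    push_cast; linarith

lemma Al_succ {k : ℕ} {r : ℤ} :
    ρ.Al (k+1) r ↔ ρ.Al k r ∧ ∀ m : ℤ, ρ.X (k+1) r ≠ ρ.H r + m := by
  unfold Al
  rw [ρ.alive_succ]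
  refine and_congr_right fun _ => ?_
  constructor
  · intro h m he
    apply h
    refine ⟨m, ?_⟩
    unfold X H lf at he; linarith
  · rintro h ⟨m, hm⟩
    apply h m
    unfold X H lf; linarith

lemma collide' {k : ℕ} {r q : ℤ} (h : ρ.Al (k+1) r) (h' : ρ.Al (k+1) q) (hne : r ≠ q)
    (he : ρ.X (k+1) r = ρ.X (k+1) q) : ρ.V (k+1) r = ρ.V k q := by
  have hix : ix n r ≠ ix n q := by
    intro hix
    obtain ⟨j, hj⟩ := exists_shift hix
    rw [hj, ρ.X_add] at he
    have : (j:ℝ) = 0 := by linarith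
    have : j = 0 := by exact_mod_cast this
    apply hne; rw [hj, this]; ring
  exact ρ.collide k _ h _ h' hix (samePt_of_lf_eq he)

lemma pass' {k : ℕ} {r : ℤ} (h : ρ.Al (k+1) r)
    (hp : ∀ q, ρ.Al (k+1) q → q ≠ r → ρ.X (k+1) q ≠ ρ.X (k+1) r) : ρ.V (k+1) r = ρ.V k r := by
  apply ρ.pass k _ h
  intro j hj hji hs
  obtain ⟨q, hq, he⟩ := exists_lift hs
  apply hp q (by unfold Al; rw [hq]; exact hj) _ he
  intro hqr; apply hji; rw [← hq, hqr]

/-- order of the robots, and velocities when two of them are at the same point -/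
lemma order_aux (k : ℕ) :
    (∀ r q, ρ.Al k r → ρ.Al k q → r < q → ρ.X k r ≤ ρ.X k q ∧
      (ρ.X k r = ρ.X k q → ρ.V k r = -1 ∧ ρ.V k q = 1)) ∧
    (∀ r q, ρ.Al k r → ρ.Al k q → r < q → ρ.X (k+1) r ≤ ρ.X (k+1) q ∧
      (ρ.X (k+1) r = ρ.X (k+1) q → ρ.V k r = 1 ∧ ρ.V k q = -1)) := by
  have step : ∀ k, (∀ r q, ρ.Al k r → ρ.Al k q → r < q → ρ.X k r ≤ ρ.X k q ∧
      (ρ.X k r = ρ.X k q → ρ.V k r = -1 ∧ ρ.V k q = 1)) →
    (∀ r q, ρ.Al k r → ρ.Al k q → r < q → ρ.X (k+1) r ≤ ρ.X (k+1) q ∧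
      (ρ.X (k+1) r = ρ.X (k+1) q → ρ.V k r = 1 ∧ ρ.V k q = -1)) := by
    intro k ih r q hr hq hrq
    obtain ⟨h1, h2⟩ := ih r q hr hq hrq
    have hd := ρ.dt_pos k
    rw [ρ.X_succ hr, ρ.X_succ hq]
    set δ := ρ.time (k+1) - ρ.time k with hδ
    rcases ρ.V_pm hr with hv | hv <;> rcases ρ.V_pm hq with hw | hw
    · rw [hv, hw]
      have hlt : ρ.X k r < ρ.X k q := by
        rcases h1.eq_or_lt with h | h
        · have := (h2 h).1; rw [hv] at this; norm_num at this
        · exact h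
      exact ⟨by linarith, fun h => by exfalso; linarith⟩
    · rw [hv, hw]
      have hlt : ρ.X k r < ρ.X k q := by
        rcases h1.eq_or_lt with h | h
        · have := (h2 h).1; rw [hv] at this; norm_num at this
        · exact h
      refine ⟨?_, fun _ => ⟨rfl, rfl⟩⟩
      by_contra hcon
      push Not at hcon
      have := ρ.no_meet' hr hq hrq.ne (s := (ρ.X k q - ρ.X k r) / 2) (by linarith) (by rw [← hδ]; linarith)
      apply this
      rw [hv, hw]; ring
    · rw [hv, hw]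
      exact ⟨by linarith, fun h => by exfalso; linarith⟩
    · rw [hv, hw]
      have hlt : ρ.X k r < ρ.X k q := by
        rcases h1.eq_or_lt with h | h
        · have := (h2 h).2; rw [hw] at this; norm_num at this
        · exact h
      exact ⟨by linarith, fun h => by exfalso; linarith⟩
  have main : ∀ k, (∀ r q, ρ.Al k r → ρ.Al k q → r < q → ρ.X k r ≤ ρ.X k q ∧
      (ρ.X k r = ρ.X k q → ρ.V k r = -1 ∧ ρ.V k q = 1)) := by
    intro k
    induction k with
    | zero =>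
      intro r q _ _ hrq
      rw [ρ.X_zero, ρ.X_zero]
      exact ⟨(ρ.H_lt hrq).le, fun h => absurd h (ρ.H_lt hrq).ne⟩
    | succ k ih =>
      intro r q hr hq hrq
      obtain ⟨h1, h2⟩ := step k ih r q (ρ.Al_anti (Nat.le_succ k) hr) (ρ.Al_anti (Nat.le_succ k) hq) hrq
      refine ⟨h1, fun h => ?_⟩
      obtain ⟨h3, h4⟩ := h2 h
      exact ⟨by rw [ρ.collide' hr hq hrq.ne h, h4], by rw [ρ.collide' hq hr hrq.ne' h.symm, h3]⟩
  exact ⟨main k, step k (main k)⟩

lemma X_le {k : ℕ} {r q : ℤ} (hr : ρ.Al k r) (hq : ρ.Al k q) (h : r ≤ q) : ρ.X k r ≤ ρ.X k q := by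
  rcases h.eq_or_lt with h | h
  · rw [h]
  · exact ((ρ.order_aux k).1 r q hr hq h).1

lemma X_succ_le {k : ℕ} {r q : ℤ} (hr : ρ.Al k r) (hq : ρ.Al k q) (h : r ≤ q) :
    ρ.X (k+1) r ≤ ρ.X (k+1) q := by
  rcases h.eq_or_lt with h | h
  · rw [h]
  · exact ((ρ.order_aux k).2 r q hr hq h).1

/-- a robot starting in direction `+` -/
lemma plus_side (k : ℕ) {r : ℤ} (hD : ρ.D r = 1) (h : ρ.Al k r) :
    ((k = 0 ∧ ρ.X k r = ρ.H r ∧ ρ.V k r = 1) ∨ (1 ≤ k ∧ ρ.H r < ρ.X k r ∧ ρ.X k r < ρ.H r + 1)) ∧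
    ρ.H r ≤ ρ.X (k+1) r ∧ ρ.X (k+1) r ≤ ρ.H r + 1 := by
  have step : ∀ k, ρ.Al k r → ((k = 0 ∧ ρ.X k r = ρ.H r ∧ ρ.V k r = 1) ∨
      (1 ≤ k ∧ ρ.H r < ρ.X k r ∧ ρ.X k r < ρ.H r + 1)) →
      ρ.H r ≤ ρ.X (k+1) r ∧ ρ.X (k+1) r ≤ ρ.H r + 1 := by
    intro k hk hor
    rw [ρ.X_succ hk]
    have hd := ρ.dt_pos k
    set δ := ρ.time (k+1) - ρ.time k with hδ
    rcases hor with ⟨_, h1, h2⟩ | ⟨_, h1, h2⟩
    · rw [h1, h2]
      refine ⟨by linarith, ?_⟩
      by_contra hcon
      push Not at hcon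
      apply ρ.no_home' hk (s := 1) one_pos (by rw [← hδ]; linarith) 1
      rw [h1, h2]; push_cast; ring
    · rcases ρ.V_pm hk with hv | hv
      · rw [hv]
        refine ⟨by linarith, ?_⟩
        by_contra hcon
        push Not at hcon
        apply ρ.no_home' hk (s := ρ.H r + 1 - ρ.X k r) (by linarith) (by rw [← hδ]; linarith) 1
        rw [hv]; push_cast; ring
      · rw [hv]
        refine ⟨?_, by linarith⟩
        by_contra hcon
        push Not at hcon
        apply ρ.no_home' hk (s := ρ.X k r - ρ.H r) (by linarith) (by rw [← hδ]; linarith) 0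
        rw [hv]; push_cast; ring
  have main : ∀ k, ρ.Al k r → ((k = 0 ∧ ρ.X k r = ρ.H r ∧ ρ.V k r = 1) ∨
      (1 ≤ k ∧ ρ.H r < ρ.X k r ∧ ρ.X k r < ρ.H r + 1)) := by
    intro k
    induction k with
    | zero => intro _; left; exact ⟨rfl, ρ.X_zero r, by rw [ρ.V_zero, hD]⟩
    | succ k ih =>
      intro hk
      right
      have hk' := ρ.Al_anti (Nat.le_succ k) hk
      obtain ⟨h1, h2⟩ := step k hk' (ih hk')
      have h3 := (ρ.Al_succ.mp hk).2
      refine ⟨Nat.succ_le_succ (Nat.zero_le k), ?_, ?_⟩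
      · exact lt_of_le_of_ne h1 (fun e => h3 0 (by push_cast; linarith))
      · exact lt_of_le_of_ne h2 (fun e => h3 1 (by push_cast; linarith))
  exact ⟨main k h, step k h (main k h)⟩

/-- a robot starting in direction `-` -/
lemma minus_side (k : ℕ) {r : ℤ} (hD : ρ.D r = -1) (h : ρ.Al k r) :
    ((k = 0 ∧ ρ.X k r = ρ.H r ∧ ρ.V k r = -1) ∨ (1 ≤ k ∧ ρ.H r - 1 < ρ.X k r ∧ ρ.X k r < ρ.H r)) ∧
    ρ.H r - 1 ≤ ρ.X (k+1) r ∧ ρ.X (k+1) r ≤ ρ.H r := by
  have step : ∀ k, ρ.Al k r → ((k = 0 ∧ ρ.X k r = ρ.H r ∧ ρ.V k r = -1) ∨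
      (1 ≤ k ∧ ρ.H r - 1 < ρ.X k r ∧ ρ.X k r < ρ.H r)) →
      ρ.H r - 1 ≤ ρ.X (k+1) r ∧ ρ.X (k+1) r ≤ ρ.H r := by
    intro k hk hor
    rw [ρ.X_succ hk]
    have hd := ρ.dt_pos k
    set δ := ρ.time (k+1) - ρ.time k with hδ
    rcases hor with ⟨_, h1, h2⟩ | ⟨_, h1, h2⟩
    · rw [h1, h2]
      refine ⟨?_, by linarith⟩
      by_contra hcon
      push Not at hcon
      apply ρ.no_home' hk (s := 1) one_pos (by rw [← hδ]; linarith) (-1)
      rw [h1, h2]; push_cast; ring
    · rcases ρ.V_pm hk with hv | hv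
      · rw [hv]
        refine ⟨by linarith, ?_⟩
        by_contra hcon
        push Not at hcon
        apply ρ.no_home' hk (s := ρ.H r - ρ.X k r) (by linarith) (by rw [← hδ]; linarith) 0
        rw [hv]; push_cast; ring
      · rw [hv]
        refine ⟨?_, by linarith⟩
        by_contra hcon
        push Not at hcon
        apply ρ.no_home' hk (s := ρ.X k r - (ρ.H r - 1)) (by linarith) (by rw [← hδ]; linarith) (-1)
        rw [hv]; push_cast; ring
  have main : ∀ k, ρ.Al k r → ((k = 0 ∧ ρ.X k r = ρ.H r ∧ ρ.V k r = -1) ∨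
      (1 ≤ k ∧ ρ.H r - 1 < ρ.X k r ∧ ρ.X k r < ρ.H r)) := by
    intro k
    induction k with
    | zero => intro _; left; exact ⟨rfl, ρ.X_zero r, by rw [ρ.V_zero, hD]⟩
    | succ k ih =>
      intro hk
      right
      have hk' := ρ.Al_anti (Nat.le_succ k) hk
      obtain ⟨h1, h2⟩ := step k hk' (ih hk')
      have h3 := (ρ.Al_succ.mp hk).2
      refine ⟨Nat.succ_le_succ (Nat.zero_le k), ?_, ?_⟩
      · exact lt_of_le_of_ne h1 (fun e => h3 (-1) (by push_cast; linarith))
      · exact lt_of_le_of_ne h2 (fun e => h3 0 (by push_cast; linarith))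
  exact ⟨main k h, step k h (main k h)⟩

end GRun


namespace GRun

variable {n : ℕ} [NeZero n] (ρ : GRun n)

lemma plus_ge (k : ℕ) {r : ℤ} (hD : ρ.D r = 1) (h : ρ.Al k r) : ρ.H r ≤ ρ.X k r := by
  rcases (ρ.plus_side k hD h).1 with h1 | h1
  · exact h1.2.1.ge
  · exact h1.2.1.le

lemma minus_le (k : ℕ) {r : ℤ} (hD : ρ.D r = -1) (h : ρ.Al k r) : ρ.X k r ≤ ρ.H r := by
  rcases (ρ.minus_side k hD h).1 with h1 | h1
  · exact h1.2.1.le
  · exact h1.2.2.le

/-- the last step `≤ K` at which robot `e` is alive -/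
noncomputable def lastAl (K : ℕ) (e : ℤ) : ℕ := by
  classical exact Nat.findGreatest (fun k => ρ.Al k e) K

lemma lastAl_al (K : ℕ) (e : ℤ) : ρ.Al (ρ.lastAl K e) e := by
  classical
  unfold lastAl
  exact Nat.findGreatest_spec (P := fun k => ρ.Al k e) (Nat.zero_le K) (ρ.Al_zero e)

lemma lastAl_le (K : ℕ) (e : ℤ) : ρ.lastAl K e ≤ K := by
  classical
  unfold lastAl
  exact Nat.findGreatest_le K

lemma not_al_of_lt {K k : ℕ} {e : ℤ} (h1 : ρ.lastAl K e < k) (h2 : k ≤ K) : ¬ ρ.Al k e := by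
  classical
  unfold lastAl at h1
  exact Nat.findGreatest_is_greatest h1 h2

/-- the wall between a living `-` starter and a living `+` starter -/
lemma wall : ∀ (d : ℕ) (K : ℕ) (z u : ℤ), u = z + 1 + d → ρ.Al K z → ρ.Al K u →
    ρ.D z = -1 → ρ.D u = 1 → ∃ w, z ≤ w ∧ w < u ∧ ∀ k ≤ K, ∀ r, ρ.Al k r →
      (r ≤ w → ρ.X k r ≤ ρ.H w ∧ ρ.X (k+1) r ≤ ρ.H w) ∧
      (w < r → ρ.H (w+1) ≤ ρ.X k r ∧ ρ.H (w+1) ≤ ρ.X (k+1) r) := by
  intro d
  induction d using Nat.strong_induction_on with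
  | _ d IH =>
  intro K z u hzu hz hu hDz hDu
  -- sides given by z and u
  have hL : ∀ k ≤ K, ∀ r, ρ.Al k r → r ≤ z → ρ.X k r ≤ ρ.H z ∧ ρ.X (k+1) r ≤ ρ.H z := by
    intro k hk r hr hrz
    have hz' := ρ.Al_anti hk hz
    exact ⟨(ρ.X_le hr hz' hrz).trans (ρ.minus_le k hDz hz'),
      (ρ.X_succ_le hr hz' hrz).trans (ρ.minus_side k hDz hz').2.2⟩
  have hR : ∀ k ≤ K, ∀ r, ρ.Al k r → u ≤ r → ρ.H u ≤ ρ.X k r ∧ ρ.H u ≤ ρ.X (k+1) r := by
    intro k hk r hr hrz
    have hu' := ρ.Al_anti hk hu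
    exact ⟨(ρ.plus_ge k hDu hu').trans (ρ.X_le hu' hr hrz),
      ((ρ.plus_side k hDu hu').2.1).trans (ρ.X_succ_le hu' hr hrz)⟩
  rcases Nat.eq_zero_or_pos d with hd | hd
  · subst hd
    refine ⟨z, le_refl _, by omega, ?_⟩
    intro k hk r hr
    have e : u = z + 1 := by omega
    rw [← e]
    exact ⟨fun h => hL k hk r hr h, fun h => hR k hk r hr (by omega)⟩
  · obtain ⟨e, he, hmax⟩ := Finset.exists_max_image (Finset.Ioo z u) (fun e => ρ.lastAl K e)
      ⟨z+1, Finset.mem_Ioo.mpr ⟨by omega, by omega⟩⟩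
    rw [Finset.mem_Ioo] at he
    have hdead : ∀ k, ρ.lastAl K e < k → k ≤ K → ∀ r, ρ.Al k r → r ≤ z ∨ u ≤ r := by
      intro k hk1 hk2 r hr
      by_contra hcon
      push Not at hcon
      have := hmax r (Finset.mem_Ioo.mpr ⟨hcon.1, hcon.2⟩)
      exact ρ.not_al_of_lt (lt_of_le_of_lt this hk1) hk2 hr
    have hle := ρ.lastAl_le K e
    have hal := ρ.lastAl_al K e
    rcases ρ.D_pm e with hDe | hDe
    · -- e is a + starter: pair (z,e)
      obtain ⟨d', hd'⟩ : ∃ d' : ℕ, e = z + 1 + d' := ⟨(e - z - 1).toNat, by omega⟩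
      obtain ⟨w, hw1, hw2, hw3⟩ := IH d' (by omega) (ρ.lastAl K e) z e hd' (ρ.Al_anti hle hz) hal hDz hDe
      refine ⟨w, hw1, by omega, ?_⟩
      intro k hk r hr
      by_cases hkl : k ≤ ρ.lastAl K e
      · exact hw3 k hkl r hr
      · push Not at hkl
        have hor := hdead k hkl hk r hr
        constructor
        · intro hrw
          have hrz : r ≤ z := by omega
          have := hL k hk r hr hrz
          have := ρ.H_le hw1
          exact ⟨by linarith, by linarith⟩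
        · intro hrw
          have hru : u ≤ r := by omega
          have := hR k hk r hr hru
          have := ρ.H_le (show w + 1 ≤ u by omega)
          exact ⟨by linarith, by linarith⟩
    · obtain ⟨d', hd'⟩ : ∃ d' : ℕ, u = e + 1 + d' := ⟨(u - e - 1).toNat, by omega⟩
      obtain ⟨w, hw1, hw2, hw3⟩ := IH d' (by omega) (ρ.lastAl K e) e u hd' hal (ρ.Al_anti hle hu) hDe hDu
      refine ⟨w, by omega, hw2, ?_⟩
      intro k hk r hr
      by_cases hkl : k ≤ ρ.lastAl K e
      · exact hw3 k hkl r hr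
      · push Not at hkl
        have hor := hdead k hkl hk r hr
        constructor
        · intro hrw
          have hrz : r ≤ z := by omega
          have := hL k hk r hr hrz
          have := ρ.H_le (show z ≤ w by omega)
          exact ⟨by linarith, by linarith⟩
        · intro hrw
          have hru : u ≤ r := by omega
          have := hR k hk r hr hru
          have := ρ.H_le (show w + 1 ≤ u by omega)
          exact ⟨by linarith, by linarith⟩

/-- one step back along a moving point -/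
lemma trace_step {k : ℕ} {r : ℤ} (h : ρ.Al (k+1) r) :
    ∃ q, ρ.Al (k+1) q ∧ ρ.V k q = ρ.V (k+1) r ∧ ρ.X (k+1) q = ρ.X (k+1) r := by
  by_cases hc : ∃ q, ρ.Al (k+1) q ∧ q ≠ r ∧ ρ.X (k+1) q = ρ.X (k+1) r
  · obtain ⟨q, hq, hqr, he⟩ := hc
    exact ⟨q, hq, (ρ.collide' h hq hqr.symm he.symm).symm, he⟩
  · push Not at hc
    exact ⟨r, h, (ρ.pass' h hc).symm, rfl⟩

lemma exists_lift_in (z w : ℤ) : ∃ j : ℤ, w < z + j * n ∧ z + j * n ≤ w + n := by
  have hn := npos n
  refine ⟨(w - z) / n + 1, ?_, ?_⟩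
  · have := Int.lt_ediv_add_one_mul_self (w - z) hn
    linarith
  · have := Int.ediv_mul_le (w - z) hn.ne'
    linarith

/-- **Key lemma.** If a `-` starter and a `+` starter are alive just after step `K`, then
`time (K+1) < 1`. -/
lemma key {K : ℕ} {z u : ℤ} (hz : ρ.Al K z) (hu : ρ.Al K u) (hDz : ρ.D z = -1) (hDu : ρ.D u = 1) :
    ρ.time (K+1) < 1 := by
  have hn := npos n
  -- choose the lift of u in (z, z+n]
  obtain ⟨j, hj1, hj2⟩ := exists_lift_in (n := n) u z
  set u' := u + j * n with hu'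
  have hu2 : ρ.Al K u' := (ρ.Al_add K u j).mpr hu
  have hDu2 : ρ.D u' = 1 := by rw [hu', ρ.D_add]; exact hDu
  obtain ⟨w, hw1, hw2, hw3⟩ := ρ.wall (u' - z - 1).toNat K z u' (by omega) hz hu2 hDz hDu2
  -- bounds in the window
  have hwin : ∀ k ≤ K, ∀ r, w < r → r ≤ w + n → ρ.Al k r →
      (ρ.H (w+1) ≤ ρ.X k r ∧ ρ.X k r ≤ ρ.H w + 1) ∧
      (ρ.H (w+1) ≤ ρ.X (k+1) r ∧ ρ.X (k+1) r ≤ ρ.H w + 1) := by
    intro k hk r hr1 hr2 hr
    have h1 := (hw3 k hk r hr).2 hr1
    have hr' : ρ.Al k (r + (-1) * n) := (ρ.Al_add k r (-1)).mpr hr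
    have h2 := (hw3 k hk _ hr').1 (by linarith)
    rw [ρ.X_add, ρ.X_add] at h2
    push_cast at h2
    exact ⟨⟨h1.1, by linarith⟩, ⟨h1.2, by linarith⟩⟩
  have hghost : ∀ k ≤ K, ∀ r, w < r → r ≤ w + n → ρ.Al k r →
      ∃ g, w < g ∧ g ≤ w + n ∧ ρ.X k r = ρ.H g + ρ.V k r * ρ.time k := by
    intro k
    induction k with
    | zero =>
      intro _ r hr1 hr2 _
      exact ⟨r, hr1, hr2, by rw [ρ.X_zero, ρ.time_zero]; ring⟩
    | succ k ih =>
      intro hk r hr1 hr2 hr
      obtain ⟨q, hq, hV, hX⟩ := ρ.trace_step hr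
      have hq' := ρ.Al_anti (Nat.le_succ k) hq
      have hb := (hwin (k+1) hk r hr1 hr2 hr).1
      have hHw : ρ.H w < ρ.H (w+1) := ρ.H_lt (by omega)
      have hq1 : w < q := by
        by_contra hcon
        push Not at hcon
        have := ((hw3 (k+1) hk q hq).1 hcon).1
        rw [hX] at this; linarith
      have hq2 : q ≤ w + n := by
        by_contra hcon
        push Not at hcon
        have hq3 : ρ.Al (k+1) (q + (-1) * n) := (ρ.Al_add _ q (-1)).mpr hq
        have := ((hw3 (k+1) hk _ hq3).2 (by linarith)).1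
        rw [ρ.X_add, hX] at this; push_cast at this; linarith
      obtain ⟨g, hg1, hg2, hg3⟩ := ih (by omega) q hq1 hq2 hq'
      refine ⟨g, hg1, hg2, ?_⟩
      rw [← hX, ρ.X_succ hq', hg3, hV]; ring
  have hr1 : w < z + 1 * n := by linarith
  have hr2 : z + 1 * n ≤ w + n := by linarith
  have hrA : ρ.Al K (z + 1 * n) := (ρ.Al_add K z 1).mpr hz
  obtain ⟨g, hg1, hg2, hg3⟩ := hghost K le_rfl _ hr1 hr2 hrA
  have hb := (hwin K le_rfl _ hr1 hr2 hrA).2
  have hX := ρ.X_succ hrA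
  have hHg1 : ρ.H (w+1) ≤ ρ.H g := ρ.H_le (by omega)
  have hHg2 : ρ.H g ≤ ρ.H w + 1 := by
    have h1 := ρ.H_add w 1
    have h2 := ρ.H_le (show g ≤ w + 1 * n by linarith)
    push_cast at h1; linarith
  have hHw : ρ.H w < ρ.H (w+1) := ρ.H_lt (by omega)
  have ht := ρ.dt_pos K
  rcases ρ.V_pm hrA with hv | hv
  · rw [hv] at hX hg3
    nlinarith [hb.2]
  · rw [hv] at hX hg3
    nlinarith [hb.1]

end GRun


namespace GRun

variable {n : ℕ} [NeZero n] (ρ : GRun n)

/-- following a moving point back to time 0 -/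
lemma trace {K : ℕ} {r : ℤ} (h : ρ.Al K r) : ∃ c : ℕ → ℤ, c K = r ∧ ∀ k < K,
    ρ.Al (k+1) (c k) ∧ ρ.V k (c k) = ρ.V (k+1) (c (k+1)) ∧ ρ.X (k+1) (c k) = ρ.X (k+1) (c (k+1)) := by
  induction K generalizing r with
  | zero => exact ⟨fun _ => r, rfl, by intro k hk; omega⟩
  | succ K ih =>
    obtain ⟨q, hq, hV, hX⟩ := ρ.trace_step h
    obtain ⟨c, hc1, hc2⟩ := ih (ρ.Al_anti (Nat.le_succ K) hq)
    refine ⟨Function.update c (K+1) r, by simp, ?_⟩
    intro k hk
    rcases Nat.lt_succ_iff_lt_or_eq.mp hk with hk' | hk'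
    · have h1 : k ≠ K + 1 := by omega
      have h2 : k + 1 ≠ K + 1 := by omega
      rw [Function.update_of_ne h1, Function.update_of_ne h2]
      exact hc2 k hk'
    · subst hk'
      have h1 : k ≠ k + 1 := by omega
      rw [Function.update_of_ne h1, Function.update_self, hc1]
      exact ⟨hq, hV, hX⟩

lemma trace_spec {K : ℕ} {c : ℕ → ℤ} (hK : ρ.Al K (c K)) (hc : ∀ k < K,
    ρ.Al (k+1) (c k) ∧ ρ.V k (c k) = ρ.V (k+1) (c (k+1)) ∧ ρ.X (k+1) (c k) = ρ.X (k+1) (c (k+1))) :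
    ∀ k ≤ K, ρ.Al k (c k) ∧ ρ.V k (c k) = ρ.D (c 0) ∧
      ρ.X k (c k) = ρ.H (c 0) + ρ.D (c 0) * ρ.time k := by
  intro k
  induction k with
  | zero => intro _; exact ⟨ρ.Al_zero _, ρ.V_zero _, by rw [ρ.X_zero, ρ.time_zero]; ring⟩
  | succ k ih =>
    intro hk
    obtain ⟨h1, h2, h3⟩ := ih (by omega)
    obtain ⟨h4, h5, h6⟩ := hc k (by omega)
    refine ⟨?_, by rw [← h5, h2], ?_⟩
    · rcases hk.lt_or_eq with h | h
      · exact ρ.Al_anti (Nat.le_succ _) (hc (k+1) h).1
      · rw [h]; exact hK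
    · rw [← h6, ρ.X_succ h1, h2, h3]; ring

lemma vel_ne {k : ℕ} {i j : Fin n} (hi : i ∈ ρ.alive k) (hj : j ∈ ρ.alive k) (hij : i ≠ j)
    (h : SamePt (ρ.pos (k+1) i) (ρ.pos (k+1) j)) : ρ.vel k i ≠ ρ.vel k j := by
  have h' : SamePt (ρ.pos (k+1) (ix n (i.val : ℤ))) (ρ.pos (k+1) j) := by rwa [ix_natCast]
  obtain ⟨q, hq, he⟩ := exists_lift (n := n) (f := ρ.pos (k+1)) (g := ρ.pos (k+1)) h'
  have hr : ρ.Al k (i.val : ℤ) := by unfold Al; rwa [ix_natCast]
  have hq' : ρ.Al k q := by unfold Al; rwa [hq]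
  have hne : (i.val : ℤ) ≠ q := by
    intro e; apply hij; rw [← hq, ← e, ix_natCast]
  have hVr : ρ.V k (i.val : ℤ) = ρ.vel k i := by unfold V; rw [ix_natCast]
  have hVq : ρ.V k q = ρ.vel k j := by unfold V; rw [hq]
  rw [← hVr, ← hVq]
  rcases lt_or_gt_of_ne hne with hlt | hlt
  · obtain ⟨h1, h2⟩ := ((ρ.order_aux k).2 _ _ hr hq' hlt).2 he.symm
    rw [h1, h2]; norm_num
  · obtain ⟨h1, h2⟩ := ((ρ.order_aux k).2 _ _ hq' hr hlt).2 he
    rw [h1, h2]; norm_num

/-- exchanging velocities does not change their sum -/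
lemma sum_vel_step (k : ℕ) :
    ∑ i ∈ ρ.alive (k+1), ρ.vel (k+1) i = ∑ i ∈ ρ.alive (k+1), ρ.vel k i := by
  classical
  let Q : Fin n → Fin n → Prop := fun i j => j ∈ ρ.alive (k+1) ∧ j ≠ i ∧
    SamePt (ρ.pos (k+1) i) (ρ.pos (k+1) j)
  let p : Fin n → Fin n := fun i => if h : ∃ j, Q i j then h.choose else i
  have hp1 : ∀ i, (∃ j, Q i j) → Q i (p i) := by
    intro i h
    have : p i = h.choose := by simp only [p]; rw [dif_pos h]
    rw [this]; exact h.choose_spec
  have hp2 : ∀ i, (¬ ∃ j, Q i j) → p i = i := by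
    intro i h; simp only [p]; rw [dif_neg h]
  have huniq : ∀ i ∈ ρ.alive (k+1), ∀ j l, Q i j → Q i l → j = l := by
    intro i hi j l hj hl
    by_contra hjl
    have a1 := ρ.alive_anti_succ hi
    have a2 := ρ.alive_anti_succ hj.1
    have a3 := ρ.alive_anti_succ hl.1
    have e1 := ρ.vel_ne a1 a2 hj.2.1.symm hj.2.2
    have e2 := ρ.vel_ne a1 a3 hl.2.1.symm hl.2.2
    have e3 := ρ.vel_ne a2 a3 hjl (samePt_trans (samePt_symm hj.2.2) hl.2.2)
    rcases ρ.vel_pm a1 with h1 | h1 <;> rcases ρ.vel_pm a2 with h2 | h2 <;>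
      rcases ρ.vel_pm a3 with h3 | h3 <;> rw [h1] at e1 e2 <;> rw [h2] at e1 e3 <;>
      rw [h3] at e2 e3 <;> simp at e1 e2 e3
  have hpmem : ∀ i ∈ ρ.alive (k+1), p i ∈ ρ.alive (k+1) := by
    intro i hi
    by_cases h : ∃ j, Q i j
    · exact (hp1 i h).1
    · rw [hp2 i h]; exact hi
  have hpp : ∀ i ∈ ρ.alive (k+1), p (p i) = i := by
    intro i hi
    by_cases h : ∃ j, Q i j
    · have hq := hp1 i h
      have hq' : Q (p i) i := ⟨hi, hq.2.1.symm, samePt_symm hq.2.2⟩
      exact huniq (p i) hq.1 _ _ (hp1 (p i) ⟨i, hq'⟩) hq'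
    · rw [hp2 i h, hp2 i h]
  refine Finset.sum_nbij' p p hpmem hpmem hpp hpp ?_
  intro i hi
  by_cases h : ∃ j, Q i j
  · have hq := hp1 i h
    exact ρ.collide k i hi _ hq.1 hq.2.1.symm hq.2.2
  · rw [hp2 i h]
    apply ρ.pass k i hi
    intro j hj hji hs
    exact h ⟨j, hj, hji, hs⟩

noncomputable def sumV (k : ℕ) : ℝ := ∑ i ∈ ρ.alive k, ρ.vel k i

/-- `sumV k + |alive k|` (twice the number of robots moving in direction `+`) does not increase -/
lemma plus_anti (k : ℕ) : ρ.sumV (k+1) + (ρ.alive (k+1)).card ≤ ρ.sumV k + (ρ.alive k).card := by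
  unfold sumV
  rw [ρ.sum_vel_step k]
  have h1 : ∀ k : ℕ, ∀ s : Finset (Fin n), ∑ i ∈ s, ρ.vel k i + (s.card : ℝ) =
      ∑ i ∈ s, (ρ.vel k i + 1) := by
    intro k s; rw [Finset.sum_add_distrib]; simp
  rw [h1, h1]
  apply Finset.sum_le_sum_of_subset_of_nonneg
  · intro i hi; exact ρ.alive_anti_succ hi
  · intro i hi _
    rcases ρ.vel_pm hi with h | h <;> rw [h] <;> norm_num

lemma plus_anti' {k l : ℕ} (h : k ≤ l) :
    ρ.sumV l + (ρ.alive l).card ≤ ρ.sumV k + (ρ.alive k).card := by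
  induction h with
  | refl => exact le_rfl
  | step _ ih => exact (ρ.plus_anti _).trans ih

lemma exists_final : ∃ K, ∀ k ≥ K, ρ.alive k = ρ.surv := by
  classical
  have h : ∀ i : Fin n, ∃ k, i ∉ ρ.surv → i ∉ ρ.alive k := by
    intro i
    by_cases hi : i ∈ ρ.surv
    · exact ⟨0, fun h => absurd hi h⟩
    · have := hi
      rw [ρ.mem_surv] at this; push Not at this
      obtain ⟨k, hk⟩ := this
      exact ⟨k, fun _ => hk⟩
  choose f hf using h
  refine ⟨Finset.univ.sup f, fun k hk => ?_⟩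
  ext i
  constructor
  · intro hi
    by_contra hns
    apply hf i hns
    exact ρ.alive_anti ((Finset.le_sup (Finset.mem_univ i)).trans hk) hi
  · intro hi; exact (ρ.mem_surv.mp hi) k

lemma pos_near (k : ℕ) {i : Fin n} (hi : i ∈ ρ.alive k) :
    ρ.home i - 1 ≤ ρ.pos k i ∧ ρ.pos k i ≤ ρ.home i + 1 := by
  have hr : ρ.Al k (i.val : ℤ) := by unfold Al; rwa [ix_natCast]
  have hX : ρ.X k (i.val : ℤ) = ρ.pos k i := lf_natCast _ _
  have hH : ρ.H (i.val : ℤ) = ρ.home i := lf_natCast _ _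
  rcases ρ.D_pm (i.val : ℤ) with h | h
  · rcases (ρ.plus_side k h hr).1 with h1 | h1
    · rw [hX, hH] at h1; exact ⟨by linarith [h1.2.1], by linarith [h1.2.1]⟩
    · rw [hX, hH] at h1; exact ⟨by linarith [h1.2.1], by linarith [h1.2.2]⟩
  · rcases (ρ.minus_side k h hr).1 with h1 | h1
    · rw [hX, hH] at h1; exact ⟨by linarith [h1.2.1], by linarith [h1.2.1]⟩
    · rw [hX, hH] at h1; exact ⟨by linarith [h1.2.1], by linarith [h1.2.2]⟩

/-- in the end equally many robots move in the two directions -/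
lemma balanced {K : ℕ} (hK : ∀ k ≥ K, ρ.alive k = ρ.surv) : ∀ k ≥ K, ρ.sumV k = 0 := by
  have hconst : ∀ k ≥ K, ρ.sumV k = ρ.sumV K := by
    intro k hk
    induction hk with
    | refl => rfl
    | @step k hk ih =>
      rw [← ih]
      unfold sumV
      rw [Nat.succ_eq_add_one, ρ.sum_vel_step k, hK k hk, hK (k+1) (le_trans hk (Nat.le_succ k))]
  have hpos : ∀ k ≥ K, ∑ i ∈ ρ.surv, ρ.pos k i =
      ∑ i ∈ ρ.surv, ρ.pos K i + (ρ.time k - ρ.time K) * ρ.sumV K := by
    intro k hk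
    induction hk with
    | refl => ring
    | @step k hk ih =>
      have h1 : ∑ i ∈ ρ.surv, ρ.pos (k+1) i =
          ∑ i ∈ ρ.surv, (ρ.pos k i + (ρ.time (k+1) - ρ.time k) * ρ.vel k i) := by
        apply Finset.sum_congr rfl
        intro i hi
        exact ρ.move k i ((ρ.mem_surv.mp hi) k)
      have h2 : ∑ i ∈ ρ.surv, ρ.vel k i = ρ.sumV K := by
        rw [← hconst k hk]; unfold sumV; rw [hK k hk]
      rw [Nat.succ_eq_add_one, h1, Finset.sum_add_distrib, ih, ← Finset.mul_sum, h2]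
      ring
  have hbd : ∀ k ≥ K, |∑ i ∈ ρ.surv, ρ.pos k i - ∑ i ∈ ρ.surv, ρ.home i| ≤ ρ.surv.card := by
    intro k hk
    rw [← Finset.sum_sub_distrib]
    calc |∑ i ∈ ρ.surv, (ρ.pos k i - ρ.home i)| ≤ ∑ i ∈ ρ.surv, |ρ.pos k i - ρ.home i| :=
          Finset.abs_sum_le_sum_abs _ _
      _ ≤ ∑ i ∈ ρ.surv, 1 := by
          apply Finset.sum_le_sum
          intro i hi
          have := ρ.pos_near k ((ρ.mem_surv.mp hi) k)
          rw [abs_le]; constructor <;> linarith
      _ = ρ.surv.card := by simp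
  intro k hk
  rw [hconst k hk]
  by_contra hne
  have habs : 0 < |ρ.sumV K| := abs_pos.mpr hne
  have hnn : (0:ℝ) < 2 * (ρ.surv.card:ℝ) + 1 := by
    have := Nat.cast_nonneg (α := ℝ) ρ.surv.card
    linarith
  obtain ⟨l, hl⟩ := ρ.time_unbounded (ρ.time K + (2 * ρ.surv.card + 1) / |ρ.sumV K|)
  have hlK : K ≤ l := by
    by_contra hcon
    push Not at hcon
    have h1 := ρ.time_mono hcon
    have h2 : 0 < (2 * (ρ.surv.card:ℝ) + 1) / |ρ.sumV K| := div_pos hnn habs
    linarith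
  have h1 := hpos l hlK
  have h2 := hbd l hlK
  have h3 := hbd K le_rfl
  have h4 : (ρ.time l - ρ.time K) * ρ.sumV K =
      (∑ i ∈ ρ.surv, ρ.pos l i - ∑ i ∈ ρ.surv, ρ.home i) -
      (∑ i ∈ ρ.surv, ρ.pos K i - ∑ i ∈ ρ.surv, ρ.home i) := by rw [h1]; ring
  have h5 : |(ρ.time l - ρ.time K) * ρ.sumV K| ≤ 2 * ρ.surv.card := by
    rw [h4]
    calc _ ≤ |∑ i ∈ ρ.surv, ρ.pos l i - ∑ i ∈ ρ.surv, ρ.home i| +
        |∑ i ∈ ρ.surv, ρ.pos K i - ∑ i ∈ ρ.surv, ρ.home i| := abs_sub _ _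
      _ ≤ 2 * ρ.surv.card := by linarith
  have h6 : (2 * (ρ.surv.card:ℝ) + 1) / |ρ.sumV K| < ρ.time l - ρ.time K := by linarith
  have h7 : 0 < ρ.time l - ρ.time K := lt_trans (div_pos hnn habs) h6
  rw [abs_mul, abs_of_pos h7] at h5
  rw [div_lt_iff₀ habs] at h6
  linarith

end GRun


namespace GRun

variable {n : ℕ} [NeZero n] (ρ : GRun n)

lemma Al_natCast {k : ℕ} {i : Fin n} : ρ.Al k (i.val : ℤ) ↔ i ∈ ρ.alive k := by
  unfold Al; rw [ix_natCast]

/-- The pointer argument: it is impossible that exactly the `+` starters die. -/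
lemma pointer {K : ℕ} (hK1 : ρ.time K < 1) (hK2 : 1 ≤ ρ.time (K+1))
    (hfin : ∀ k ≥ K, ρ.alive k = ρ.surv) (hsurv : ∀ i, i ∈ ρ.surv ↔ ρ.dir i = -1)
    (hne : ρ.surv.Nonempty) : False := by
  classical
  have hn := npos n
  have hbal := ρ.balanced hfin K le_rfl
  have hKs := hfin K le_rfl
  set P := ρ.surv.filter (fun i => ρ.vel K i = 1) with hP
  set Q := ρ.surv.filter (fun i => ρ.vel K i = -1) with hQ
  have hpm : ∀ i ∈ ρ.surv, ρ.vel K i = 1 ∨ ρ.vel K i = -1 := by
    intro i hi; exact ρ.vel_pm (by rw [hKs]; exact hi)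
  have hPQ : ρ.surv = P ∪ Q := by
    ext i; simp only [hP, hQ, Finset.mem_union, Finset.mem_filter]
    constructor
    · intro hi
      rcases hpm i hi with h | h
      · exact Or.inl ⟨hi, h⟩
      · exact Or.inr ⟨hi, h⟩
    · rintro (h | h) <;> exact h.1
  have hdisj : Disjoint P Q := by
    rw [Finset.disjoint_left]
    intro i hi hi'
    rw [hP, Finset.mem_filter] at hi
    rw [hQ, Finset.mem_filter] at hi'
    rw [hi.2] at hi'; norm_num at hi'
  have hsum : (P.card : ℝ) - Q.card = 0 := by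
    rw [← hbal]; unfold sumV; rw [hKs, hPQ, Finset.sum_union hdisj]
    have h1 : ∑ i ∈ P, ρ.vel K i = P.card := by
      have : ∑ i ∈ P, ρ.vel K i = ∑ i ∈ P, (1:ℝ) :=
        Finset.sum_congr rfl (fun i hi => (Finset.mem_filter.mp hi).2)
      rw [this]; simp
    have h2 : ∑ i ∈ Q, ρ.vel K i = -(Q.card : ℝ) := by
      have : ∑ i ∈ Q, ρ.vel K i = ∑ i ∈ Q, (-1:ℝ) :=
        Finset.sum_congr rfl (fun i hi => (Finset.mem_filter.mp hi).2)
      rw [this]; simp
    rw [h1, h2]; ring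
  have hcard : P.card = Q.card := by
    have : (P.card : ℝ) = Q.card := by linarith
    exact_mod_cast this
  have hcard2 : ρ.surv.card = P.card + Q.card := by rw [hPQ, Finset.card_union_of_disjoint hdisj]
  have hQne : Q.Nonempty := by
    rw [← Finset.card_pos]
    have := Finset.card_pos.mpr hne
    omega
  obtain ⟨i0, hi0⟩ := hQne
  rw [hQ, Finset.mem_filter] at hi0
  -- trace of a point moving in direction -
  have hA0 : ρ.Al K (i0.val : ℤ) := by rw [Al_natCast, hKs]; exact hi0.1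
  obtain ⟨c, hcK, hc⟩ := ρ.trace hA0
  have hcspec := ρ.trace_spec (c := c) (by rw [hcK]; exact hA0) hc
  have hD0 : ρ.D (c 0) = -1 := by
    rw [← (hcspec K le_rfl).2.1, hcK]; unfold V; rw [ix_natCast]; exact hi0.2
  have hX : ∀ k ≤ K, ρ.X k (c k) = ρ.H (c 0) - ρ.time k := by
    intro k hk; rw [(hcspec k hk).2.2, hD0]; ring
  have hV : ∀ k ≤ K, ρ.V k (c k) = -1 := by
    intro k hk; rw [(hcspec k hk).2.1, hD0]
  have hmono1 : ∀ k < K, c (k+1) ≤ c k := by
    intro k hk
    by_contra hcon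
    push Not at hcon
    obtain ⟨h1, h2, h3⟩ := hc k hk
    have h4 : ρ.Al (k+1) (c (k+1)) := (hcspec (k+1) hk).1
    have h5 := ((ρ.order_aux k).2 _ _ (ρ.Al_anti (Nat.le_succ k) h1) (ρ.Al_anti (Nat.le_succ k) h4) hcon).2 h3
    rw [hV k hk.le] at h5; norm_num at h5
  have hmono : ∀ k l, k ≤ l → l ≤ K → c l ≤ c k := by
    intro k l hkl
    induction hkl with
    | refl => intro _; exact le_rfl
    | @step l hl ih => intro h; exact (hmono1 l (by omega)).trans (ih (by omega))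
  have hDc : ∀ j k, k + j = K → ρ.D (c k) = -1 := by
    intro j
    induction j with
    | zero =>
      intro k hk
      have : k = K := by omega
      subst this
      rw [hcK]; unfold D; rw [ix_natCast]; exact (hsurv i0).mp hi0.1
    | succ j ih =>
      intro k hk
      have h1 := ih (k+1) (by omega)
      rcases ρ.D_pm (c k) with h2 | h2
      · exfalso
        have hkK : k < K := by omega
        obtain ⟨h3, h4, h5⟩ := hc k hkK
        have h6 : ρ.Al (k+1) (c (k+1)) := (hcspec (k+1) hkK).1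
        have hne' : c (k+1) ≠ c k := by
          intro e; rw [e, h2] at h1; norm_num at h1
        have hlt : c (k+1) < c k := lt_of_le_of_ne (hmono1 k hkK) hne'
        have h7 := ρ.H_lt hlt
        rcases (ρ.plus_side (k+1) h2 h3).1 with h8 | h8
        · exact absurd h8.1 (Nat.succ_ne_zero k)
        · rcases (ρ.minus_side (k+1) h1 h6).1 with h9 | h9
          · exact absurd h9.1 (Nat.succ_ne_zero k)
          · linarith [h8.2.1, h9.2.2]
      · exact h2
  have hDc' : ∀ k ≤ K, ρ.D (c k) = -1 := fun k hk => hDc (K - k) k (by omega)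
  -- the + traces
  have hplus : ∀ i ∈ P, ∃ g : ℤ, c 0 - n < g ∧ g < c 0 ∧
      (∃ r : ℤ, ix n r = i ∧ ρ.X K r = ρ.H g + ρ.time K) ∧
      ∀ b : ℤ, (b = 0 ∨ b = 1) → ∃ k < K, ρ.time (k+1) = (ρ.H (c 0) - ρ.H g + b) / 2 ∧ c (k+1) ≠ c k := by
    intro i hi
    rw [hP, Finset.mem_filter] at hi
    have hAi : ρ.Al K (i.val : ℤ) := by rw [Al_natCast, hKs]; exact hi.1
    obtain ⟨d, hdK, hd⟩ := ρ.trace hAi
    have hdspec := ρ.trace_spec (c := d) (by rw [hdK]; exact hAi) hd
    have hDd : ρ.D (d 0) = 1 := by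
      rw [← (hdspec K le_rfl).2.1, hdK]; unfold V; rw [ix_natCast]; exact hi.2
    obtain ⟨j, hj1, hj2⟩ := exists_lift_in (n := n) (d 0) (c 0 - n)
    have hDg : ρ.D (d 0 + j * n) = 1 := by rw [ρ.D_add]; exact hDd
    have hg2 : d 0 + j * n < c 0 := by
      refine lt_of_le_of_ne (by linarith) (fun e => ?_)
      rw [e, hD0] at hDg; norm_num at hDg
    refine ⟨d 0 + j * n, hj1, hg2, ⟨d K + j * n, ?_, ?_⟩, ?_⟩
    · rw [ix_add, hdK, ix_natCast]
    · rw [ρ.X_add, ρ.H_add, (hdspec K le_rfl).2.2, hDd]; ring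
    · intro b hb
      have hb' : (0:ℝ) ≤ b ∧ (b:ℝ) ≤ 1 := by
        rcases hb with h | h <;> rw [h] <;> norm_num
      have hH1 : ρ.H (d 0 + j * n) < ρ.H (c 0) := ρ.H_lt hg2
      have hH2 : ρ.H (c 0) < ρ.H (d 0 + j * n) + 1 := by
        have h1 := ρ.H_lt (show c 0 < (d 0 + j * n) + 1 * n by linarith)
        rw [ρ.H_add] at h1; push_cast at h1; exact h1
      set a : ℝ := (ρ.H (c 0) - ρ.H (d 0 + j * n) + b) / 2 with ha
      have ha0 : 0 < a := by rw [ha]; linarith [hb'.1]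
      have ha1 : a < 1 := by rw [ha]; linarith [hb'.2]
      -- step k with time k < a ≤ time (k+1)
      have hex : ∃ k, a ≤ ρ.time (k+1) := ⟨K, by linarith⟩
      set k := Nat.find hex with hk
      have hk1 : a ≤ ρ.time (k+1) := Nat.find_spec hex
      have hkK : k ≤ K := Nat.find_min' hex (by linarith)
      have hk2 : ρ.time k < a := by
        rcases Nat.eq_zero_or_pos k with h0 | h0
        · rw [h0, ρ.time_zero]; exact ha0
        · have := Nat.find_min hex (m := k - 1) (by omega)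
          push Not at this
          rwa [show k - 1 + 1 = k by omega] at this
      -- the shifted + trace
      have hdk := hdspec k hkK
      have hAd : ρ.Al k (d k + (j - b) * n) := (ρ.Al_add _ _ _).mpr hdk.1
      have hVd : ρ.V k (d k + (j - b) * n) = 1 := by rw [ρ.V_add, hdk.2.1, hDd]
      have hXd : ρ.X k (d k + (j - b) * n) = ρ.H (d 0 + j * n) - b + ρ.time k := by
        rw [ρ.X_add, hdk.2.2, hDd, ρ.H_add]; push_cast; ring
      have hnecd : c k ≠ d k + (j - b) * n := by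
        intro e
        have := hV k hkK
        rw [e, hVd] at this; norm_num at this
      have hak : a = ρ.time (k+1) := by
        rcases hk1.lt_or_eq with hlt | heq
        · exfalso
          apply ρ.no_meet' (hcspec k hkK).1 hAd hnecd (s := a - ρ.time k) (by linarith) (by linarith)
          rw [hX k hkK, hV k hkK, hXd, hVd, ha]; ring
        · exact heq
      have hkK' : k < K := by
        rcases hkK.lt_or_eq with h | h
        · exact h
        · exfalso; rw [h] at hak; linarith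
      refine ⟨k, hkK', hak.symm, ?_⟩
      intro hcc
      -- they meet at step k+1
      have hA1 : ρ.Al (k+1) (c k) := (hc k hkK').1
      have hA2 : ρ.Al (k+1) (d k + (j - b) * n) := (ρ.Al_add _ _ _).mpr (hd k hkK').1
      have hXe : ρ.X (k+1) (c k) = ρ.X (k+1) (d k + (j - b) * n) := by
        rw [ρ.X_succ (hcspec k hkK).1, ρ.X_succ hAd, hX k hkK, hV k hkK, hXd, hVd, ← hak, ha]; ring
      have hcol := ρ.collide' hA1 hA2 hnecd hXe
      rw [hVd] at hcol
      have h1 := hV (k+1) hkK'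
      rw [hcc, hcol] at h1; norm_num at h1
  choose! g hg1 hg2 hg3 hg4 using hplus
  choose! kk hkk1 hkk2 hkk3 using hg4
  -- injection P × {0,1} → drops
  set drops := (Finset.range K).filter (fun k => c (k+1) ≠ c k) with hdrops
  have hinj : (P ×ˢ ({0, 1} : Finset ℤ)).card ≤ drops.card := by
    refine Finset.card_le_card_of_injOn (fun x => kk x.1 x.2) ?_ ?_
    · intro x hx
      rw [Finset.mem_coe, Finset.mem_product] at hx
      have hb : x.2 = 0 ∨ x.2 = 1 := by simpa using hx.2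
      rw [Finset.mem_coe, hdrops, Finset.mem_filter, Finset.mem_range]
      exact ⟨hkk1 x.1 hx.1 x.2 hb, hkk3 x.1 hx.1 x.2 hb⟩
    · intro x hx y hy hxy
      rw [Finset.mem_coe, Finset.mem_product] at hx hy
      have hbx : x.2 = 0 ∨ x.2 = 1 := by simpa using hx.2
      have hby : y.2 = 0 ∨ y.2 = 1 := by simpa using hy.2
      simp only at hxy
      have e1 := hkk2 x.1 hx.1 x.2 hbx
      have e2 := hkk2 y.1 hy.1 y.2 hby
      rw [hxy] at e1
      have e3 : ρ.H (g x.1) - ρ.H (g y.1) = x.2 - y.2 := by linarith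
      have b1 := ρ.H_lt (hg2 x.1 hx.1)
      have b2 := ρ.H_lt (hg2 y.1 hy.1)
      have b3 : ρ.H (c 0) < ρ.H (g x.1) + 1 := by
        have h1 := ρ.H_lt (show c 0 < g x.1 + 1 * n by linarith [hg1 x.1 hx.1])
        rw [ρ.H_add] at h1; push_cast at h1; exact h1
      have b4 : ρ.H (c 0) < ρ.H (g y.1) + 1 := by
        have h1 := ρ.H_lt (show c 0 < g y.1 + 1 * n by linarith [hg1 y.1 hy.1])
        rw [ρ.H_add] at h1; push_cast at h1; exact h1
      have e4 : x.2 = y.2 := by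
        rcases hbx with h | h <;> rcases hby with h' | h' <;> rw [h, h'] at e3 ⊢ <;>
          push_cast at e3 <;> linarith
      have e5 : ρ.H (g x.1) = ρ.H (g y.1) := by rw [e4] at e3; linarith
      have e6 : g x.1 = g y.1 := ρ.H_strictMono.injective e5
      obtain ⟨r, hr1, hr2⟩ := hg3 x.1 hx.1
      obtain ⟨r', hr1', hr2'⟩ := hg3 y.1 hy.1
      have e7 : ρ.X K r = ρ.X K r' := by rw [hr2, hr2', e6]
      have aR : ρ.Al K r := by unfold Al; rw [hr1, hKs]; exact (Finset.mem_filter.mp hx.1).1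
      have aR' : ρ.Al K r' := by unfold Al; rw [hr1', hKs]; exact (Finset.mem_filter.mp hy.1).1
      have vR : ρ.V K r = 1 := by unfold V; rw [hr1]; exact (Finset.mem_filter.mp hx.1).2
      have vR' : ρ.V K r' = 1 := by unfold V; rw [hr1']; exact (Finset.mem_filter.mp hy.1).2
      have e8 : r = r' := by
        by_contra hne'
        rcases lt_or_gt_of_ne hne' with h | h
        · have := (((ρ.order_aux K).1 _ _ aR aR' h).2 e7).1; rw [vR] at this; norm_num at this
        · have := (((ρ.order_aux K).1 _ _ aR' aR h).2 e7.symm).1; rw [vR'] at this; norm_num at this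
      have e9 : x.1 = y.1 := by rw [← hr1, ← hr1', e8]
      exact Prod.ext e9 e4
  have hPcard : (P ×ˢ ({0, 1} : Finset ℤ)).card = ρ.surv.card := by
    rw [Finset.card_product, hcard2, ← hcard]
    simp; ring
  -- drops → - starters in [c K, c 0)
  set M := (Finset.Ico (c K) (c 0)).filter (fun r => ρ.D r = -1) with hM
  have hdM : drops.card ≤ M.card := by
    refine Finset.card_le_card_of_injOn (fun k => c (k+1)) ?_ ?_
    · intro k hk
      rw [Finset.mem_coe, hdrops, Finset.mem_filter, Finset.mem_range] at hk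
      rw [Finset.mem_coe, hM, Finset.mem_filter, Finset.mem_Ico]
      refine ⟨⟨hmono (k+1) K (by omega) le_rfl, ?_⟩, hDc' (k+1) (by omega)⟩
      exact lt_of_lt_of_le (lt_of_le_of_ne (hmono1 k hk.1) hk.2) (hmono 0 k (Nat.zero_le _) (by omega))
    · intro k hk l hl hkl
      rw [Finset.mem_coe, hdrops, Finset.mem_filter, Finset.mem_range] at hk hl
      simp only at hkl
      by_contra hne'
      rcases lt_or_gt_of_ne hne' with h | h
      · have h1 := hmono (k+1) l h (by omega)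
        have h2 := lt_of_le_of_ne (hmono1 l hl.1) hl.2
        omega
      · have h1 := hmono (l+1) k h (by omega)
        have h2 := lt_of_le_of_ne (hmono1 k hk.1) hk.2
        omega
  -- hence c K ≤ c 0 - n
  have hcK2 : c K ≤ c 0 - n := by
    by_contra hcon
    push Not at hcon
    have h1 : M.card ≤ (ρ.surv.erase (ix n (c 0))).card := by
      refine Finset.card_le_card_of_injOn (fun r => ix n r) ?_ ?_
      · intro r hr
        rw [Finset.mem_coe, hM, Finset.mem_filter, Finset.mem_Ico] at hr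
        rw [Finset.mem_coe, Finset.mem_erase]
        refine ⟨?_, (hsurv _).mpr hr.2⟩
        intro e
        obtain ⟨j, hj⟩ := exists_shift e
        have h2 : j < 0 := by
          by_contra h3; push Not at h3
          have : 0 ≤ j * (n:ℤ) := by positivity
          linarith [hr.1.2]
        have h3 : j * (n:ℤ) ≤ -1 * n := by
          apply mul_le_mul_of_nonneg_right _ hn.le; omega
        linarith [hr.1.1]
      · intro r hr q hq hrq
        rw [Finset.mem_coe, hM, Finset.mem_filter, Finset.mem_Ico] at hr hq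
        obtain ⟨j, hj⟩ := exists_shift hrq
        rcases lt_trichotomy j 0 with h2 | h2 | h2
        · exfalso
          have h3 : j * (n:ℤ) ≤ -1 * n := by
            apply mul_le_mul_of_nonneg_right _ hn.le; omega
          linarith [hr.1.1, hq.1.2]
        · rw [hj, h2]; ring
        · exfalso
          have h3 : 1 * (n:ℤ) ≤ j * n := by
            apply mul_le_mul_of_nonneg_right _ hn.le; omega
          linarith [hr.1.2, hq.1.1]
    have h2 : ix n (c 0) ∈ ρ.surv := (hsurv _).mpr hD0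
    rw [Finset.card_erase_of_mem h2] at h1
    have h3 := Finset.card_pos.mpr hne
    omega
  have h1 := hX K le_rfl
  have h2 := ρ.minus_le K (hDc' K le_rfl) (hcspec K le_rfl).1
  have h3 := ρ.H_le hcK2
  have h4 : ρ.H (c 0 - n) = ρ.H (c 0) - 1 := by
    have := ρ.H_add (c 0) (-1)
    rw [show c 0 + (-1) * (n:ℤ) = c 0 - n by ring] at this
    rw [this]; push_cast; ring
  linarith

/-- the bound when no `+` starter survives -/
lemma bound_minus (h : ∀ i ∈ ρ.surv, ρ.dir i = -1) : ρ.surv.card ≤ 2 * ((n - 1) / 3) := by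
  classical
  rcases Finset.eq_empty_or_nonempty ρ.surv with he | hne
  · rw [he]; simp
  obtain ⟨K0, hK0⟩ := ρ.exists_final
  have hbal := ρ.balanced hK0 K0 le_rfl
  -- number of survivors is even
  set P := ρ.surv.filter (fun i => ρ.vel K0 i = 1) with hP
  have hcard : ρ.sumV K0 + (ρ.alive K0).card = 2 * P.card := by
    unfold sumV
    rw [hK0 K0 le_rfl]
    have h1 : ∑ i ∈ ρ.surv, ρ.vel K0 i + (ρ.surv.card : ℝ) = ∑ i ∈ ρ.surv, (ρ.vel K0 i + 1) := by
      rw [Finset.sum_add_distrib]; simp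
    rw [h1, hP, Finset.card_filter]
    push_cast
    rw [Finset.mul_sum]
    apply Finset.sum_congr rfl
    intro i hi
    rcases ρ.vel_pm (k := K0) (i := i) (by rw [hK0 K0 le_rfl]; exact hi) with hv | hv
    · rw [hv]; norm_num
    · rw [hv]; norm_num
  have hs : ρ.surv.card = 2 * P.card := by
    rw [hbal, hK0 K0 le_rfl] at hcard
    have : (ρ.surv.card : ℝ) = ((2 * P.card : ℕ) : ℝ) := by push_cast; linarith
    exact_mod_cast this
  -- number of + starters
  set N := Finset.univ.filter (fun i => ρ.dir i = 1) with hN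
  have hN1 : P.card ≤ N.card := by
    have h1 := ρ.plus_anti' (Nat.zero_le K0)
    have h2 : ρ.sumV 0 + (ρ.alive 0).card = 2 * N.card := by
      unfold sumV
      rw [ρ.alive_zero]
      have h1 : ∑ i : Fin n, ρ.vel 0 i + ((Finset.univ : Finset (Fin n)).card : ℝ) =
          ∑ i : Fin n, (ρ.vel 0 i + 1) := by
        rw [Finset.sum_add_distrib]; simp
      rw [h1, hN, Finset.card_filter]
      push_cast
      rw [Finset.mul_sum]
      apply Finset.sum_congr rfl
      intro i _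
      rw [ρ.vel_zero]
      rcases ρ.dir_pm i with hv | hv
      · rw [hv]; norm_num
      · rw [hv]; norm_num
    rw [h2, hcard] at h1
    have : (P.card : ℝ) ≤ N.card := by linarith
    exact_mod_cast this
  have hdisj : Disjoint ρ.surv N := by
    rw [Finset.disjoint_left]
    intro i hi hi'
    rw [hN, Finset.mem_filter] at hi'
    have := h i hi
    rw [hi'.2] at this; norm_num at this
  have hle : ρ.surv.card + N.card ≤ n := by
    rw [← Finset.card_union_of_disjoint hdisj]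
    calc _ ≤ (Finset.univ : Finset (Fin n)).card := Finset.card_le_card (Finset.subset_univ _)
      _ = n := by simp
  by_contra hcon
  push Not at hcon
  have hn3 : n = 3 * P.card := by omega
  have hNP : N.card = P.card := by omega
  have huniv : ρ.surv ∪ N = Finset.univ := by
    apply Finset.eq_univ_of_card
    rw [Finset.card_union_of_disjoint hdisj, Fintype.card_fin]; omega
  have hsurv : ∀ i, i ∈ ρ.surv ↔ ρ.dir i = -1 := by
    intro i
    refine ⟨h i, fun hi => ?_⟩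
    have : i ∈ ρ.surv ∪ N := by rw [huniv]; simp
    rcases Finset.mem_union.mp this with h1 | h1
    · exact h1
    · rw [hN, Finset.mem_filter, hi] at h1; norm_num at h1
  -- the step K with time K < 1 ≤ time (K+1)
  have hex : ∃ k, 1 ≤ ρ.time (k+1) := by
    obtain ⟨k, hk⟩ := ρ.time_unbounded 1
    refine ⟨k, ?_⟩
    have := ρ.time_mono (Nat.lt_succ_self k)
    linarith
  set K := Nat.find hex with hK
  have hKa : 1 ≤ ρ.time (K+1) := Nat.find_spec hex
  have hKb : ρ.time K < 1 := by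
    rcases Nat.eq_zero_or_pos K with h0 | h0
    · rw [h0, ρ.time_zero]; exact one_pos
    · have := Nat.find_min hex (m := K - 1) (by omega)
      push Not at this
      rwa [show K - 1 + 1 = K by omega] at this
  obtain ⟨i1, hi1⟩ := hne
  have hfin : ∀ k ≥ K, ρ.alive k = ρ.surv := by
    intro k hk
    ext i
    refine ⟨fun hi => ?_, fun hi => (ρ.mem_surv.mp hi) k⟩
    by_contra hns
    have hdir : ρ.dir i = 1 := by
      rcases ρ.dir_pm i with h1 | h1
      · exact h1
      · exact absurd ((hsurv i).mpr h1) hns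
    have hKi := ρ.alive_anti hk hi
    have a1 : ρ.Al K (i.val : ℤ) := by rw [Al_natCast]; exact hKi
    have a2 : ρ.Al K (i1.val : ℤ) := by rw [Al_natCast]; exact (ρ.mem_surv.mp hi1) K
    have d1 : ρ.D (i.val : ℤ) = 1 := by unfold D; rw [ix_natCast]; exact hdir
    have d2 : ρ.D (i1.val : ℤ) = -1 := by unfold D; rw [ix_natCast]; exact h i1 hi1
    have := ρ.key a2 a1 d2 d1
    linarith
  exact ρ.pointer hKb hKa hfin hsurv ⟨i1, hi1⟩

theorem bound : ρ.surv.card ≤ 2 * ((n - 1) / 3) := by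
  by_cases h : ∀ i ∈ ρ.surv, ρ.dir i = -1
  · exact ρ.bound_minus h
  · push Not at h
    obtain ⟨u, hu, hdu⟩ := h
    have hdu1 : ρ.dir u = 1 := by
      rcases ρ.dir_pm u with h1 | h1
      · exact h1
      · exact absurd h1 hdu
    have hall : ∀ i ∈ ρ.surv, ρ.dir i = 1 := by
      intro i hi
      rcases ρ.dir_pm i with h1 | h1
      · exact h1
      · exfalso
        obtain ⟨k, hk⟩ := ρ.time_unbounded 1
        have a1 : ρ.Al k (i.val : ℤ) := by rw [Al_natCast]; exact (ρ.mem_surv.mp hi) k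
        have a2 : ρ.Al k (u.val : ℤ) := by rw [Al_natCast]; exact (ρ.mem_surv.mp hu) k
        have d1 : ρ.D (i.val : ℤ) = -1 := by unfold D; rw [ix_natCast]; exact h1
        have d2 : ρ.D (u.val : ℤ) = 1 := by unfold D; rw [ix_natCast]; exact hdu1
        have h2 := ρ.key a1 a2 d1 d2
        have h3 := ρ.time_mono (Nat.lt_succ_self k)
        linarith
    rw [← ρ.surv_reflect_card]
    apply ρ.reflect.bound_minus
    intro i hi
    have hi' : Fin.rev i ∈ ρ.surv := by
      rw [mem_surv] at hi ⊢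
      intro k; have := hi k
      simpa [reflect] using this
    have := hall _ hi'
    simp [reflect, this]

end GRun

/-- **Upper bound.** -/
theorem survivors_le {n : ℕ} (hn : 1 ≤ n) {c : Config n} (ρ : Run c) :
    ρ.survivors.card ≤ 2 * ((n - 1) / 3) := by
  have : NeZero n := ⟨by omega⟩
  have h := ρ.toG.bound
  have e : ρ.toG.surv = ρ.survivors := by
    ext i
    rw [GRun.mem_surv]
    unfold Run.survivors Run.toG
    simp
  rwa [e] at h

end R128Rob
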