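import Mathlib
import Pool.Agent.R128.RobotsDef
import Pool.Agent.R128.RobotsUB

/-!
# Bouncing robots: every configuration has a motion
-/

namespace R128Rob

open Finset

/-! ### a time grid containing all possible event times -/

section grid

variable {p : ℕ} [NeZero p]

lemma lf_lt {f : Fin p → ℝ} (hm : StrictMono f) (hw : ∀ i j, f i < f j + 1) {r q : ℤ} (h : r < q) :
    lf f r < lf f q := by
  unfold lf
  have hn := npos p
  have h1 := Int.emod_add_mul_ediv r p
  have h2 := Int.emod_add_mul_ediv q p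
  rcases lt_trichotomy (r / (p:ℤ)) (q / (p:ℤ)) with h3 | h3 | h3
  · have : ((r / (p:ℤ) : ℤ) : ℝ) + 1 ≤ ((q / (p:ℤ) : ℤ) : ℝ) := by exact_mod_cast h3
    have := hw (ix p r) (ix p q)
    linarith
  · rw [h3]
    have : ix p r < ix p q := by
      rw [Fin.lt_def]
      have e1 := ix_val (n := p) r
      have e2 := ix_val (n := p) q
      rw [h3] at h1
      have : r % (p:ℤ) < q % (p:ℤ) := by linarith
      omega
    have := hm this
    linarith
  · exfalso
    have : r / (p:ℤ) ≤ q / (p:ℤ) := Int.ediv_le_ediv hn h.le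
    omega

end grid

/-- For a finite set `A ⊆ [0,1)` containing `0` there is an increasing unbounded sequence of times
starting at `0` which contains every `τ ≥ 0` such that `2τ` is congruent mod 1 to an element of `A`. -/
lemma exists_grid (A : Finset ℝ) (h0 : (0:ℝ) ∈ A) (hA : ∀ a ∈ A, 0 ≤ a ∧ a < 1) :
    ∃ time : ℕ → ℝ, time 0 = 0 ∧ StrictMono time ∧ (∀ T : ℝ, ∃ k, T < time k) ∧
      ∀ τ : ℝ, 0 ≤ τ → (∃ a ∈ A, SamePt (2 * τ) a) → ∃ k, time k = τ := by
  have hp : A.card ≠ 0 := (Finset.card_pos.mpr ⟨0, h0⟩).ne'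
  have : NeZero A.card := ⟨hp⟩
  set f := A.orderEmbOfFin rfl with hf
  have hfm : StrictMono f := f.strictMono
  have hfA : ∀ i, f i ∈ A := fun i => Finset.orderEmbOfFin_mem A rfl i
  have hfw : ∀ i j, f i < f j + 1 := fun i j => by
    have h1 := (hA _ (hfA i)).2; have h2 := (hA _ (hfA j)).1; linarith
  have hsurj : ∀ a ∈ A, ∃ i, f i = a := by
    intro a ha
    have : a ∈ Set.range f := by rw [hf, Finset.range_orderEmbOfFin]; exact ha
    exact this
  have hf0 : f (ix A.card 0) = 0 := by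
    obtain ⟨i, hi⟩ := hsurj 0 h0
    have h1 : ix A.card 0 ≤ i := by
      rw [Fin.le_def]
      have h0' := ix_val (n := A.card) 0
      have h0'' : (ix A.card 0 : Fin A.card).val = 0 := by
        rw [Int.zero_emod] at h0'
        exact_mod_cast h0'
      rw [h0'']; exact Nat.zero_le _
    have h2 := hfm.monotone h1
    have h3 := (hA _ (hfA (ix A.card 0))).1
    linarith
  refine ⟨fun k => lf f (k : ℤ) / 2, ?_, ?_, ?_, ?_⟩
  · simp only [Nat.cast_zero]
    unfold lf
    rw [hf0]; simp
  · intro k l hkl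
    have := lf_lt hfm hfw (r := (k:ℤ)) (q := (l:ℤ)) (by exact_mod_cast hkl)
    simp only; linarith
  · intro T
    obtain ⟨m, hm⟩ := exists_nat_gt (2 * T)
    refine ⟨m * A.card, ?_⟩
    have h1 : lf f (((m * A.card : ℕ)) : ℤ) = lf f 0 + m := by
      have := lf_add f 0 (m : ℤ)
      rw [zero_add] at this
      push_cast at this ⊢
      exact this
    simp only
    rw [h1]
    have h2 : lf f 0 = 0 := by unfold lf; rw [hf0]; simp
    rw [h2]; linarith
  · rintro τ hτ ⟨a, ha, m, hm⟩
    obtain ⟨i, hi⟩ := hsurj a ha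
    have ha' := hA a ha
    have hm0 : 0 ≤ m := by
      have : (-1:ℝ) < m := by linarith
      have : -1 < m := by exact_mod_cast this
      omega
    obtain ⟨m', rfl⟩ := Int.eq_ofNat_of_zero_le hm0
    refine ⟨i.val + m' * A.card, ?_⟩
    simp only
    have h1 : (((i.val + m' * A.card : ℕ)) : ℤ) = (i.val : ℤ) + (m' : ℤ) * (A.card : ℤ) := by push_cast; ring
    rw [h1, lf_add, lf_natCast, hi]
    push_cast at hm ⊢
    linarith

namespace Config

variable {n : ℕ} (c : Config n)

lemma home_inj {i j : Fin n} (h : SamePt (c.home i) (c.home j)) : i = j := by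
  obtain ⟨m, hm⟩ := h
  have a1 := c.home_nonneg i
  have a2 := c.home_nonneg j
  have a3 := c.home_lt_one i
  have a4 := c.home_lt_one j
  have h2 : (m:ℝ) < 1 := by linarith
  have h3 : (-1:ℝ) < m := by linarith
  have h4 : m < 1 := by exact_mod_cast h2
  have h5 : -1 < m := by exact_mod_cast h3
  have h6 : m = 0 := by omega
  rw [h6] at hm
  apply c.home_mono.injective
  push_cast at hm; linarith

end Config

/-- a state of the system -/
structure St (n : ℕ) where
  alive : Finset (Fin n)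
  pos : Fin n → ℝ
  vel : Fin n → ℝ

open Classical in
/-- one step of length `δ` -/
noncomputable def stepSt {n : ℕ} (c : Config n) (δ : ℝ) (S : St n) : St n :=
  let pos' : Fin n → ℝ := fun i => S.pos i + δ * S.vel i
  let alive' : Finset (Fin n) := S.alive.filter (fun i => ¬ SamePt (pos' i) (c.home i))
  { alive := alive'
    pos := pos'
    vel := fun i => if h : ∃ j, j ∈ alive' ∧ j ≠ i ∧ SamePt (pos' i) (pos' j)
      then S.vel h.choose else S.vel i }

noncomputable def states {n : ℕ} (c : Config n) (time : ℕ → ℝ) : ℕ → St n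
  | 0 => ⟨Finset.univ, c.home, c.dir⟩
  | k+1 => stepSt c (time (k+1) - time k) (states c time k)

/-- every living robot rides its own moving point -/
def Inv {n : ℕ} (c : Config n) (t : ℝ) (S : St n) : Prop :=
  ∃ g : Fin n → Fin n, Set.InjOn g (S.alive : Set (Fin n)) ∧ ∀ i ∈ S.alive,
    S.vel i = c.dir (g i) ∧ SamePt (S.pos i) (c.home (g i) + c.dir (g i) * t)

lemma Inv.ne {n : ℕ} {c : Config n} {t : ℝ} {S : St n} (h : Inv c t S) {i j : Fin n}
    (hi : i ∈ S.alive) (hj : j ∈ S.alive) (hij : i ≠ j) (δ : ℝ)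
    (hs : SamePt (S.pos i + δ * S.vel i) (S.pos j + δ * S.vel j)) : S.vel i ≠ S.vel j := by
  obtain ⟨g, hg, hg2⟩ := h
  intro hv
  obtain ⟨v1, x1⟩ := hg2 i hi
  obtain ⟨v2, x2⟩ := hg2 j hj
  apply hij
  apply hg hi hj
  apply c.home_inj
  obtain ⟨m, hm⟩ := hs
  obtain ⟨m1, hm1⟩ := x1
  obtain ⟨m2, hm2⟩ := x2
  refine ⟨m - m1 + m2, ?_⟩
  have hd : c.dir (g i) = c.dir (g j) := by rw [← v1, ← v2, hv]
  rw [hv] at hm
  rw [hd] at hm1
  push_cast
  linarith

lemma vel_pm_of {n : ℕ} {c : Config n} {t : ℝ} {S : St n} (h : Inv c t S) {i : Fin n}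
    (hi : i ∈ S.alive) : S.vel i = 1 ∨ S.vel i = -1 := by
  obtain ⟨g, _, hg2⟩ := h
  rw [(hg2 i hi).1]; exact c.dir_pm _

lemma partner_unique {n : ℕ} {c : Config n} {t : ℝ} {S : St n} (h : Inv c t S) (δ : ℝ)
    {i j l : Fin n} (hi : i ∈ S.alive) (hj : j ∈ S.alive) (hl : l ∈ S.alive) (hij : j ≠ i)
    (hil : l ≠ i)
    (hs : SamePt (S.pos i + δ * S.vel i) (S.pos j + δ * S.vel j))
    (hs' : SamePt (S.pos i + δ * S.vel i) (S.pos l + δ * S.vel l)) : j = l := by
  by_contra hjl
  have e1 := h.ne hi hj hij.symm δ hs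
  have e2 := h.ne hi hl hil.symm δ hs'
  have e3 := h.ne hj hl hjl δ (samePt_trans (samePt_symm hs) hs')
  rcases vel_pm_of h hi with h1 | h1 <;> rcases vel_pm_of h hj with h2 | h2 <;>
    rcases vel_pm_of h hl with h3 | h3 <;> rw [h1] at e1 e2 <;> rw [h2] at e1 e3 <;>
    rw [h3] at e2 e3 <;> simp at e1 e2 e3

lemma step_alive {n : ℕ} (c : Config n) (δ : ℝ) (S : St n) (i : Fin n) :
    i ∈ (stepSt c δ S).alive ↔ i ∈ S.alive ∧ ¬ SamePt ((stepSt c δ S).pos i) (c.home i) := by
  classical
  simp [stepSt]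

lemma step_pos {n : ℕ} (c : Config n) (δ : ℝ) (S : St n) (i : Fin n) :
    (stepSt c δ S).pos i = S.pos i + δ * S.vel i := rfl

lemma step_collide {n : ℕ} {c : Config n} {t δ : ℝ} {S : St n} (h : Inv c t S) {i j : Fin n}
    (hi : i ∈ (stepSt c δ S).alive) (hj : j ∈ (stepSt c δ S).alive) (hij : i ≠ j)
    (hs : SamePt ((stepSt c δ S).pos i) ((stepSt c δ S).pos j)) :
    (stepSt c δ S).vel i = S.vel j := by
  classical
  have hex : ∃ j, j ∈ (stepSt c δ S).alive ∧ j ≠ i ∧
      SamePt ((stepSt c δ S).pos i) ((stepSt c δ S).pos j) := ⟨j, hj, hij.symm, hs⟩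
  have hv : (stepSt c δ S).vel i = S.vel hex.choose := by
    show (if h : ∃ j, j ∈ (stepSt c δ S).alive ∧ j ≠ i ∧
      SamePt ((stepSt c δ S).pos i) ((stepSt c δ S).pos j) then S.vel h.choose else S.vel i) = _
    rw [dif_pos hex]
  rw [hv]
  have hc := hex.choose_spec
  congr 1
  exact partner_unique h δ ((step_alive c δ S i).mp hi).1 ((step_alive c δ S _).mp hc.1).1
    ((step_alive c δ S j).mp hj).1 hc.2.1 hij.symm hc.2.2 hs

lemma step_pass {n : ℕ} {c : Config n} {δ : ℝ} {S : St n} {i : Fin n}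
    (hn : ∀ j ∈ (stepSt c δ S).alive, j ≠ i →
      ¬ SamePt ((stepSt c δ S).pos i) ((stepSt c δ S).pos j)) :
    (stepSt c δ S).vel i = S.vel i := by
  classical
  have hex : ¬ ∃ j, j ∈ (stepSt c δ S).alive ∧ j ≠ i ∧
      SamePt ((stepSt c δ S).pos i) ((stepSt c δ S).pos j) := by
    rintro ⟨j, h1, h2, h3⟩; exact hn j h1 h2 h3
  show (if h : ∃ j, j ∈ (stepSt c δ S).alive ∧ j ≠ i ∧
      SamePt ((stepSt c δ S).pos i) ((stepSt c δ S).pos j) then S.vel h.choose else S.vel i) = _
  rw [dif_neg hex]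

lemma Inv.step {n : ℕ} {c : Config n} {t : ℝ} {S : St n} (h : Inv c t S) (δ : ℝ) :
    Inv c (t + δ) (stepSt c δ S) := by
  classical
  obtain ⟨g, hg, hg2⟩ := id h
  set S' := stepSt c δ S with hS'
  let Q : Fin n → Fin n → Prop := fun i j => j ∈ S'.alive ∧ j ≠ i ∧ SamePt (S'.pos i) (S'.pos j)
  let p : Fin n → Fin n := fun i => if h : ∃ j, Q i j then h.choose else i
  have hp1 : ∀ i, (∃ j, Q i j) → Q i (p i) := by
    intro i h
    have : p i = h.choose := by simp only [p]; rw [dif_pos h]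
    rw [this]; exact h.choose_spec
  have hp2 : ∀ i, (¬ ∃ j, Q i j) → p i = i := by
    intro i h; simp only [p]; rw [dif_neg h]
  have hsub : ∀ i ∈ S'.alive, i ∈ S.alive := fun i hi => ((step_alive c δ S i).mp hi).1
  have huniq : ∀ i ∈ S'.alive, ∀ j l, Q i j → Q i l → j = l := by
    intro i hi j l hj hl
    exact partner_unique h δ (hsub i hi) (hsub j hj.1) (hsub l hl.1) hj.2.1 hl.2.1 hj.2.2 hl.2.2
  have hpmem : ∀ i ∈ S'.alive, p i ∈ S'.alive := by
    intro i hi
    by_cases h : ∃ j, Q i j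
    · exact (hp1 i h).1
    · rw [hp2 i h]; exact hi
  have hpp : ∀ i ∈ S'.alive, p (p i) = i := by
    intro i hi
    by_cases h : ∃ j, Q i j
    · have hq := hp1 i h
      have hq' : Q (p i) i := ⟨hi, hq.2.1.symm, samePt_symm hq.2.2⟩
      exact huniq (p i) hq.1 _ _ (hp1 (p i) ⟨i, hq'⟩) hq'
    · rw [hp2 i h, hp2 i h]
  refine ⟨fun i => g (p i), ?_, ?_⟩
  · intro i hi j hj hij
    have h1 : p i = p j := hg (hsub _ (hpmem i hi)) (hsub _ (hpmem j hj)) hij
    rw [← hpp i hi, ← hpp j hj, h1]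
  · intro i hi
    show S'.vel i = c.dir (g (p i)) ∧
      SamePt (S'.pos i) (c.home (g (p i)) + c.dir (g (p i)) * (t + δ))
    by_cases hc : ∃ j, Q i j
    · have hq := hp1 i hc
      obtain ⟨v1, x1⟩ := hg2 (p i) (hsub _ hq.1)
      refine ⟨?_, ?_⟩
      · rw [step_collide h hi hq.1 hq.2.1.symm hq.2.2, v1]
      · refine samePt_trans hq.2.2 ?_
        rw [hS', step_pos, v1]
        obtain ⟨m, hm⟩ := x1
        exact ⟨m, by rw [hm]; ring⟩
    · rw [hp2 i hc]
      obtain ⟨v1, x1⟩ := hg2 i (hsub i hi)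
      refine ⟨?_, ?_⟩
      · rw [hS', step_pass, v1]
        intro j hj hji hs
        exact hc ⟨j, hj, hji, hs⟩
      · rw [hS', step_pos, v1]
        obtain ⟨m, hm⟩ := x1
        exact ⟨m, by rw [hm]; ring⟩

/-- **Every configuration has a motion.** -/
theorem run_exists {n : ℕ} (c : Config n) : Nonempty (Run c) := by
  classical
  set A : Finset ℝ := insert 0 ((Finset.univ.image (fun x : Fin n × Fin n =>
      Int.fract (c.home x.1 - c.home x.2))) ∪ (Finset.univ.image (fun x : Fin n × Fin n =>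
      Int.fract (2 * (c.home x.1 - c.home x.2))))) with hAdef
  have hA : ∀ a ∈ A, 0 ≤ a ∧ a < 1 := by
    intro a ha
    rw [hAdef, Finset.mem_insert, Finset.mem_union, Finset.mem_image, Finset.mem_image] at ha
    rcases ha with rfl | ⟨x, _, rfl⟩ | ⟨x, _, rfl⟩
    · norm_num
    · exact ⟨Int.fract_nonneg _, Int.fract_lt_one _⟩
    · exact ⟨Int.fract_nonneg _, Int.fract_lt_one _⟩
  obtain ⟨time, ht0, htm, htu, htg⟩ := exists_grid A (by simp [hAdef]) hA
  have hfr : ∀ x : ℝ, SamePt x (Int.fract x) := fun x => ⟨⌊x⌋, (Int.fract_add_floor x).symm⟩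
  have ht_nonneg : ∀ k, 0 ≤ time k := by
    intro k; rw [← ht0]; exact htm.monotone (Nat.zero_le k)
  -- no grid-relevant time strictly between consecutive times
  have hgap : ∀ k s, 0 < s → s < time (k+1) - time k →
      (∃ a ∈ A, SamePt (2 * (time k + s)) a) → False := by
    intro k s hs hs' ha
    obtain ⟨l, hl⟩ := htg (time k + s) (by have := ht_nonneg k; linarith) ha
    have h1 : time k < time l := by linarith
    have h2 : time l < time (k+1) := by linarith
    have h3 := htm.lt_iff_lt.mp h1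
    have h4 := htm.lt_iff_lt.mp h2
    omega
  have hinv : ∀ k, Inv c (time k) (states c time k) := by
    intro k
    induction k with
    | zero =>
      refine ⟨id, Function.injective_id.injOn, ?_⟩
      intro i _
      exact ⟨rfl, 0, by simp [states, ht0]⟩
    | succ k ih =>
      have := ih.step (time (k+1) - time k)
      rwa [show time k + (time (k+1) - time k) = time (k+1) by ring] at this
  refine ⟨{
    time := time
    alive := fun k => (states c time k).alive
    pos := fun k => (states c time k).pos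
    vel := fun k => (states c time k).vel
    time_zero := ht0
    time_mono := htm
    time_unbounded := htu
    alive_zero := rfl
    pos_zero := fun _ => rfl
    vel_zero := fun _ => rfl
    move := fun k i _ => rfl
    no_home := ?_
    no_meet := ?_
    alive_succ := fun k i => step_alive c _ _ i
    collide := fun k i hi j hj hij hs => step_collide (hinv k) hi hj hij hs
    pass := fun k i hi hn => step_pass hn }⟩
  · intro k i hi s hs hs' hsp
    obtain ⟨g, _, hg2⟩ := hinv k
    obtain ⟨v1, m, hm⟩ := hg2 i hi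
    obtain ⟨m', hm'⟩ := hsp
    apply hgap k s hs hs'
    rw [v1, hm] at hm'
    -- home g + dir g * (t+s) ≡ home i
    rcases c.dir_pm (g i) with hd | hd
    · refine ⟨Int.fract (2 * (c.home i - c.home (g i))), ?_, ?_⟩
      · rw [hAdef]; apply Finset.mem_insert_of_mem; apply Finset.mem_union_right
        exact Finset.mem_image.mpr ⟨(i, g i), Finset.mem_univ _, rfl⟩
      · refine samePt_trans ⟨2 * (m' - m), ?_⟩ (hfr _)
        rw [hd] at hm'
        push_cast; linarith
    · refine ⟨Int.fract (2 * (c.home (g i) - c.home i)), ?_, ?_⟩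
      · rw [hAdef]; apply Finset.mem_insert_of_mem; apply Finset.mem_union_right
        exact Finset.mem_image.mpr ⟨(g i, i), Finset.mem_univ _, rfl⟩
      · refine samePt_trans ⟨2 * (m - m'), ?_⟩ (hfr _)
        rw [hd] at hm'
        push_cast; linarith
  · intro k i hi j hj hij s hs hs' hsp
    have hv := (hinv k).ne hi hj hij s hsp
    obtain ⟨g, _, hg2⟩ := hinv k
    obtain ⟨v1, m1, hm1⟩ := hg2 i hi
    obtain ⟨v2, m2, hm2⟩ := hg2 j hj
    obtain ⟨m', hm'⟩ := hsp
    apply hgap k s hs hs'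
    rw [v1, v2, hm1, hm2] at hm'
    rw [v1, v2] at hv
    rcases c.dir_pm (g i) with hd | hd <;> rcases c.dir_pm (g j) with hd' | hd'
    · exact absurd (hd.trans hd'.symm) hv
    · refine ⟨Int.fract (c.home (g j) - c.home (g i)), ?_, ?_⟩
      · rw [hAdef]; apply Finset.mem_insert_of_mem; apply Finset.mem_union_left
        exact Finset.mem_image.mpr ⟨(g j, g i), Finset.mem_univ _, rfl⟩
      · refine samePt_trans ⟨m' + m2 - m1, ?_⟩ (hfr _)
        rw [hd, hd'] at hm'
        push_cast; linarith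
    · refine ⟨Int.fract (c.home (g i) - c.home (g j)), ?_, ?_⟩
      · rw [hAdef]; apply Finset.mem_insert_of_mem; apply Finset.mem_union_left
        exact Finset.mem_image.mpr ⟨(g i, g j), Finset.mem_univ _, rfl⟩
      · refine samePt_trans ⟨m1 - m2 - m', ?_⟩ (hfr _)
        rw [hd, hd'] at hm'
        push_cast; linarith
    · exact absurd (hd.trans hd'.symm) hv

end R128Rob
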