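import Mathlib
import Pool.Agent.R128.RobotsDef
import Pool.Agent.R128.RobotsUB
import Pool.Agent.R128.RobotsC1
import Pool.Agent.R128.RobotsC2
import Pool.Agent.R128.RobotsC3
import Pool.Agent.R128.RobotsExist

/-!
# Bouncing robots: the maximum number of survivors
-/

namespace R128Rob

open Finset

lemma run_of_schedule {n s : ℕ} (σ : Schedule n) (h : σ.Good)
    (hs : s ≤ (Finset.univ.filter (fun i => σ.T i = ⊤)).card) :
    ∃ (c : Config n) (ρ : Run c), s ≤ ρ.survivors.card := by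
  obtain ⟨c, ρ, h1⟩ := σ.exists_run h
  refine ⟨c, ρ, hs.trans (Finset.card_le_card ?_)⟩
  intro i hi
  exact h1 i (Finset.mem_filter.mp hi).2

lemma run_of_small {n s : ℕ} (σ : Small n)
    (hs : s ≤ (Finset.univ.filter (fun i => σ.T i = 0)).card) :
    ∃ (c : Config n) (ρ : Run c), s ≤ ρ.survivors.card := by
  refine run_of_schedule σ.toSchedule σ.good (hs.trans (Finset.card_le_card ?_))
  intro i hi
  rw [Finset.mem_filter] at hi ⊢
  refine ⟨hi.1, ?_⟩
  show mkT σ.T i = ⊤
  unfold mkT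
  rw [if_pos hi.2]

/-- **Lower bound.** -/
theorem exists_survivors {n : ℕ} (hn : 1 ≤ n) :
    ∃ (c : Config n) (ρ : Run c), 2 * ((n - 1) / 3) ≤ ρ.survivors.card := by
  by_cases h3 : n ≤ 3
  · have : (n - 1) / 3 = 0 := by omega
    rw [this]
    exact ⟨trivConfig n hn, trivRun n hn, Nat.zero_le _⟩
  by_cases h5 : n = 5
  · subst h5; exact run_of_small small5 (by decide +kernel)
  by_cases h6 : n = 6
  · subst h6; exact run_of_small small6 (by decide +kernel)
  by_cases h9 : n = 9
  · subst h9; exact run_of_small small9 (by decide +kernel)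
  obtain ⟨m, e, hme, hm, he⟩ : ∃ m e, n = 3 * m + 1 + e ∧ e + 1 ≤ m ∧ e ≤ 2 :=
    ⟨(n - 1) / 3, (n - 1) % 3, by omega, by omega, by omega⟩
  subst hme
  obtain ⟨σ, hσ, hc⟩ := family_schedule m e hm he
  refine run_of_schedule σ hσ ?_
  have : (3 * m + 1 + e - 1) / 3 = m := by omega
  rw [this]; exact hc

/-- **The maximum number of survivors is `2⌊(n-1)/3⌋`.** -/
theorem isGreatest_survivorCounts {n : ℕ} (hn : 1 ≤ n) :
    IsGreatest (survivorCounts n) (2 * ((n - 1) / 3)) := by
  constructor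
  · obtain ⟨c, ρ, h⟩ := exists_survivors hn
    exact ⟨c, ρ, le_antisymm h (survivors_le hn ρ)⟩
  · rintro s ⟨c, ρ, rfl⟩
    exact survivors_le hn ρ

end R128Rob
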